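import Pool.Agent.Lib.MP_2e2457_lc.LemmaA

/-!
# Angles of the skeleton which contain 1-triangles (MP_2e2457_lc)
-/

set_option autoImplicit false

open Equiv

noncomputable section

namespace Pool.Agent.FP

variable {V : Type}

namespace Drawing

variable {G : SimpleGraph V} {D : Drawing G}

/-- the `j`-th dart counterclockwise from `h` -/
def f (h : D.DD) (j : ℕ) : D.DD := (D.σ ^ j) h

@[simp] theorem f_zero (h : D.DD) : f h 0 = h := rfl

theorem f_succ (h : D.DD) (j : ℕ) : f h (j + 1) = D.σ (f h j) := by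
  rw [f, f, pow_succ', Perm.mul_apply]

theorem f_one (h : D.DD) : f h 1 = D.σ h := by rw [f_succ, f_zero]

theorem f_add (h : D.DD) (i j : ℕ) : f (f h i) j = f h (i + j) := by
  rw [f, f, f, ← Perm.mul_apply, ← pow_add, add_comm]

theorem f_real {h : D.DD} (hh : h.idx = 0) (j : ℕ) : (f h j).idx = 0 := by
  induction j with
  | zero => exact hh
  | succ n ih => rw [f_succ]; exact σ_real ih

theorem f_src {h : D.DD} (hh : h.idx = 0) (j : ℕ) : (f h j).src = h.src := by
  induction j with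
  | zero => rfl
  | succ n ih => rw [f_succ, σ_real_src (f_real hh n), ih]

/-- number of steps to the next uncrossed edge -/
def rt (h : D.DD) : ℕ := sInf {n | 0 < n ∧ Unc (f h n)}

/-- the next uncrossed edge counterclockwise -/
def hr (h : D.DD) : D.DD := f h (rt h)

theorem exists_rt [Finite V] {h : D.DD} (hh : Unc h) : {n | 0 < n ∧ Unc (f h n)}.Nonempty := by
  refine ⟨orderOf D.σ, orderOf_pos _, ?_⟩
  rw [f, pow_orderOf_eq_one]
  exact hh

theorem rt_pos [Finite V] {h : D.DD} (hh : Unc h) : 0 < rt h := (Nat.sInf_mem (exists_rt hh)).1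

protected theorem Unc.hr [Finite V] {h : D.DD} (hh : Unc h) : Unc (hr h) := (Nat.sInf_mem (exists_rt hh)).2

theorem not_unc_of_lt {h : D.DD} {j : ℕ} (h1 : 0 < j) (h2 : j < rt h) : ¬ Unc (f h j) := fun h3 =>
  Nat.notMem_of_lt_sInf h2 ⟨h1, h3⟩

theorem rt_eq {h : D.DD} {n : ℕ} (h0 : 0 < n) (h1 : Unc (f h n)) (h2 : ∀ j, 0 < j → j < n → ¬ Unc (f h j)) :
    rt h = n := by
  have h3 : {n | 0 < n ∧ Unc (f h n)}.Nonempty := ⟨n, h0, h1⟩
  have h4 := Nat.sInf_mem h3
  have h5 : rt h ≤ n := Nat.sInf_le ⟨h0, h1⟩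
  rcases h5.lt_or_eq with h6 | h6
  · exact (h2 _ h4.1 h6 h4.2).elim
  · exact h6

theorem Unc.rt_ge [Finite V] (hO : D.Opt) {h : D.DD} (hh : Unc h) : 3 ≤ rt h := by
  have h0 := rt_pos hh
  have h1 := hh.hr
  by_contra hc
  rw [Drawing.hr] at h1
  have : rt h = 1 ∨ rt h = 2 := by omega
  rcases this with h2 | h2
  · rw [h2, f_one] at h1
    exact hh.not_σ hO.tight h1.2
  · rw [h2, f_succ, f_one] at h1
    exact hh.not_σσ hO h1

/-- an angle with 1-triangles -/
def TA (h : D.DD) : Prop := Unc h ∧ T1 (D.σ h)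

theorem TA.t1 (hO : D.Opt) {h : D.DD} (hA : TA h) : ∀ j, 1 ≤ j → j + 1 < rt h → T1 (f h j) := by
  intro j h1 h2
  induction j with
  | zero => omega
  | succ n ih =>
    rcases Nat.eq_zero_or_pos n with rfl | hn
    · rw [f_one]; exact hA.2
    · have h3 := ih hn (by omega)
      rcases h3.next hO with h4 | h4
      · rw [f_succ]; exact h4
      · exfalso
        rw [← f_succ, ← f_succ] at h4
        exact not_unc_of_lt (by omega) h2 h4

theorem TA.φ3 [Finite V] (hO : D.Opt) {h : D.DD} (hA : TA h) {j : ℕ} (hj : j < rt h) :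
    D.φ (D.φ (f h j)) = Drawing.rv (f h (j + 1)) := by
  rcases Nat.eq_zero_or_pos j with rfl | h0
  · rw [f_zero, f_one]; exact (hA.1.t2a hO.tight).φφ
  · rcases Nat.lt_or_ge (j + 1) (rt h) with h1 | h1
    · rw [f_succ]; exact (hA.t1 hO j h0 h1).φφ
    · have h2 : rt h = j + 1 := by omega
      have h3 : Unc (f h (j + 1)) := by rw [← h2]; exact hA.1.hr
      rw [f_succ] at h3 ⊢
      exact (t2c_of_unc hO.tight h3).φφ

/-- the darts of the base edge -/
protected theorem TA.e [Finite V] (hO : D.Opt) {h : D.DD} (hA : TA h) {j : ℕ} (hj : j < rt h) :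
    (D.φ (f h j)).src = (D.φ h).src ∧ (D.φ (f h j)).tgt = (D.φ h).tgt ∧ (D.φ (f h j)).idx = j := by
  induction j with
  | zero => exact ⟨rfl, rfl, φ_idx_zero.2 hA.1.2⟩
  | succ n ih =>
    obtain ⟨h1, h2, h3⟩ := ih (by omega)
    have h4 := hA.φ3 hO (j := n) (by omega)
    have h5 : ¬ Last (f h (n + 1)) := fun h6 =>
      not_unc_of_lt (by omega) hj ⟨f_real hA.1.1 _, h6⟩
    have h6 : ¬ Last (D.φ (f h n)) := by
      rw [← φ_idx_zero, h4, rv_idx_zero]; exact h5
    have h7 : D.φ (f h (n + 1)) = nx (D.φ (f h n)) h6 := by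
      apply D.σ.injective
      rw [σφ, ← φ_eq_σ_nx, h4]
    rw [h7]
    exact ⟨h1, h2, by rw [nx_idx, h3]⟩

protected theorem TA.k [Finite V] (hO : D.Opt) {h : D.DD} (hA : TA h) : D.k (D.φ h).src (D.φ h).tgt + 1 = rt h := by
  have h0 := hA.1.rt_ge hO
  obtain ⟨h1, h2, h3⟩ := hA.e hO (j := rt h - 1) (by omega)
  have h4 := hA.φ3 hO (j := rt h - 1) (by omega)
  rw [show rt h - 1 + 1 = rt h by omega] at h4
  have h5 : Last (D.φ (f h (rt h - 1))) := by
    rw [← φ_idx_zero, h4, rv_idx_zero]; exact hA.1.hr.2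
  unfold Last at h5
  rw [h1, h2, h3] at h5
  omega

theorem TA.φ_src {h : D.DD} (hA : TA h) : (D.φ h).src = h.tgt := Drawing.φ_src hA.1.2

theorem TA.φ_tgt [Finite V] (hO : D.Opt) {h : D.DD} (hA : TA h) : (D.φ h).tgt = (hr h).tgt := by
  have h0 := hA.1.rt_ge hO
  obtain ⟨h1, h2, h3⟩ := hA.e hO (j := rt h - 1) (by omega)
  have h4 := hA.φ3 hO (j := rt h - 1) (by omega)
  rw [show rt h - 1 + 1 = rt h by omega] at h4
  have h5 : Last (D.φ (f h (rt h - 1))) := by
    rw [← φ_idx_zero, h4, rv_idx_zero]; exact hA.1.hr.2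
  have h6 := Drawing.φ_src h5
  rw [h4, h2, rv_src] at h6
  exact h6.symm

theorem TA.apex (hO : D.Opt) {h : D.DD} (hA : TA h) : Apex h.src (D.φ h) := by
  have hh := hA.1.t2a hO.tight
  -- `φ h` and `φ (σ h)` lie on the same edge
  have h1 := hA.2.apex hO
  rw [σ_real_src hA.1.1] at h1
  have h2 : D.φ (D.φ h) = Drawing.rv (D.σ h) := hh.φφ
  have h6 : ¬ Last (D.φ h) := by
    rw [← φ_idx_zero]; exact hh.2.2.2
  have h7 : D.φ (D.σ h) = nx (D.φ h) h6 := by
    apply D.σ.injective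
    rw [σφ, ← φ_eq_σ_nx, h2]
  rw [h7, Apex.congr (sameEdge_nx _ _)] at h1
  exact h1

/-! ### mirror images of angles -/

/-- the `j`-th dart clockwise from `h` -/
def f' (h : D.DD) (j : ℕ) : D.DD := (D.σ⁻¹ ^ j) h

def rt' (h : D.DD) : ℕ := @rt V G D.mirror h

def hr' (h : D.DD) : D.DD := @hr V G D.mirror h

def TA' (h : D.DD) : Prop := @TA V G D.mirror h

theorem f'_zero (h : D.DD) : f' h 0 = h := rfl

theorem f'_succ (h : D.DD) (j : ℕ) : f' h (j + 1) = D.σ⁻¹ (f' h j) := @f_succ V G D.mirror h j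

theorem f'_one (h : D.DD) : f' h 1 = D.σ⁻¹ h := @f_one V G D.mirror h

theorem f'_real {h : D.DD} (hh : h.idx = 0) (j : ℕ) : (f' h j).idx = 0 := @f_real V G D.mirror h hh j

theorem f'_src {h : D.DD} (hh : h.idx = 0) (j : ℕ) : (f' h j).src = h.src := @f_src V G D.mirror h hh j

protected theorem Unc.hr' [Finite V] {h : D.DD} (hh : Unc h) : Unc (hr' h) := @Unc.hr V G D.mirror _ h hh

theorem rt'_pos [Finite V] {h : D.DD} (hh : Unc h) : 0 < rt' h := @rt_pos V G D.mirror _ h hh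

theorem hr'_def (h : D.DD) : hr' h = f' h (rt' h) := rfl

theorem hr_def (h : D.DD) : hr h = f h (rt h) := rfl

theorem rt'_eq {h : D.DD} {n : ℕ} (h0 : 0 < n) (h1 : Unc (f' h n)) (h2 : ∀ j, 0 < j → j < n → ¬ Unc (f' h j)) :
    rt' h = n := @rt_eq V G D.mirror h n h0 h1 h2

theorem not_unc_of_lt' {h : D.DD} {j : ℕ} (h1 : 0 < j) (h2 : j < rt' h) : ¬ Unc (f' h j) :=
  @not_unc_of_lt V G D.mirror h j h1 h2

theorem f'_f {h : D.DD} {i j : ℕ} (hij : j ≤ i) : f' (f h i) j = f h (i - j) := by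
  rw [f', f, f, inv_pow, ← zpow_natCast, ← zpow_neg, ← zpow_natCast, ← Perm.mul_apply, ← zpow_add,
    ← zpow_natCast]
  congr 2
  omega

theorem f_f' {h : D.DD} {i j : ℕ} (hij : j ≤ i) : f (f' h i) j = f' h (i - j) :=
  @f'_f V G D.mirror h i j hij

theorem rt'_hr [Finite V] {h : D.DD} (hh : Unc h) : rt' (hr h) = rt h := by
  have h0 := rt_pos hh
  refine rt'_eq h0 ?_ ?_
  · rw [hr, f'_f le_rfl, Nat.sub_self]
    exact hh
  · intro j h1 h2
    rw [hr, f'_f h2.le]
    exact not_unc_of_lt (by omega) (by omega)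

theorem hr'_hr [Finite V] {h : D.DD} (hh : Unc h) : hr' (hr h) = h := by
  rw [hr'_def, rt'_hr hh, hr, f'_f le_rfl, Nat.sub_self]
  rfl

theorem rt_hr' [Finite V] {h : D.DD} (hh : Unc h) : rt (hr' h) = rt' h := @rt'_hr V G D.mirror _ h hh

theorem hr_hr' [Finite V] {h : D.DD} (hh : Unc h) : hr (hr' h) = h := @hr'_hr V G D.mirror _ h hh

theorem TA'.unc {h : D.DD} (hA : TA' h) : Unc h := hA.1

theorem ta'_iff {h : D.DD} : TA' h ↔ Unc h ∧ T1 (D.σ⁻¹ (D.σ⁻¹ h)) := by
  have h1 : TA' h ↔ Unc h ∧ @T1 V G D.mirror (D.σ⁻¹ h) := Iff.rfl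
  rw [h1, t1_mirror]

protected theorem TA.hr [Finite V] (hO : D.Opt) {h : D.DD} (hA : TA h) : TA' (hr h) := by
  have h0 := hA.1.rt_ge hO
  rw [ta'_iff]
  refine ⟨hA.1.hr, ?_⟩
  rw [hr_def, show rt h = (rt h - 2) + 1 + 1 by omega, f_succ, f_succ, inv_σ, inv_σ]
  exact hA.t1 hO _ (by omega) (by omega)

protected theorem TA'.hr' [Finite V] (hO : D.Opt) {h : D.DD} (hA : TA' h) : TA (Drawing.hr' h) :=
  @TA.hr V G D.mirror _ hO.mirror h hA

protected theorem TA.rv (hO : D.Opt) {h : D.DD} (hA : TA h) : TA' (rv h) := by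
  rw [ta'_iff]
  refine ⟨hA.1.rv, ?_⟩
  exact T1.turn hO hA.1 hA.2

protected theorem TA'.rv (hO : D.Opt) {h : D.DD} (hA : TA' h) : TA (Drawing.rv h) :=
  @TA.rv V G D.mirror hO.mirror h hA

/-- the next dart on the boundary of the face of the skeleton to the left of `h` -/
def F (h : D.DD) : D.DD := hr' (rv h)

/-- the previous dart -/
def B (h : D.DD) : D.DD := rv (hr h)

theorem F_B [Finite V] {h : D.DD} (hh : Unc h) : F (B h) = h := by
  rw [F, B, rv_rv]
  exact hr'_hr hh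

theorem B_F [Finite V] {h : D.DD} (hh : Unc h) : B (F h) = h := by
  rw [B, F, hr_hr' hh.rv, rv_rv]

protected theorem Unc.F [Finite V] {h : D.DD} (hh : Unc h) : Unc (F h) := hh.rv.hr'

protected theorem Unc.B [Finite V] {h : D.DD} (hh : Unc h) : Unc (B h) := hh.hr.rv

protected theorem TA.F [Finite V] (hO : D.Opt) {h : D.DD} (hA : TA h) : TA (F h) := (hA.rv hO).hr' hO

protected theorem TA.B [Finite V] (hO : D.Opt) {h : D.DD} (hA : TA h) : TA (B h) := (hA.hr hO).rv hO

theorem rt_F [Finite V] {h : D.DD} (hh : Unc h) : rt (F h) = rt' (rv h) := rt_hr' hh.rv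

theorem F_src [Finite V] {h : D.DD} (hh : Unc h) : (F h).src = h.tgt := by
  rw [F, hr'_def, f'_src hh.rv.1, rv_src]

theorem T1.prev' (hO : D.Opt) {r : D.DD} (h : T1 r) : T1 (f' r 1) ∨ Unc (f' r 1) := by
  rw [f'_one]; exact h.prev hO

/-- every 1-triangle lies in an angle -/
theorem T1.angle [Finite V] (hO : D.Opt) {r : D.DD} (h : T1 r) :
    ∃ h j, TA h ∧ 1 ≤ j ∧ j + 1 < rt h ∧ r = f h j := by
  -- walk clockwise
  have key : ∀ i : ℕ, (∃ j, j ≤ i ∧ Unc (f' r j)) ∨ T1 (f' r i) := by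
    intro i
    induction i with
    | zero => right; exact h
    | succ n ih =>
      rcases ih with ⟨j, h1, h2⟩ | ih
      · exact Or.inl ⟨j, by omega, h2⟩
      · rcases ih.prev hO with h1 | h1
        · right
          rw [f'_succ]; exact h1
        · left
          exact ⟨n + 1, le_rfl, by rw [f'_succ]; exact h1⟩
  have hex : {i : ℕ | Unc (f' r i)}.Nonempty := by
    by_contra hne
    rw [Set.not_nonempty_iff_eq_empty] at hne
    have hall : ∀ i, T1 (f' r i) := by
      intro i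
      rcases key i with ⟨j, _, h1⟩ | h1
      · exact (Set.notMem_empty j (hne ▸ h1)).elim
      · exact h1
    -- all edges at the vertex cross the base edge, all sectors are 1-triangles; the base edge never ends
    have h2 : ∀ i : ℕ, T1 (f r i) := by
      intro i
      have h3 := hall ((orderOf D.σ - 1) * i)
      have h4 : f' r ((orderOf D.σ - 1) * i) = f r i := by
        rw [f', f]
        congr 1
        have h5 : 0 < orderOf D.σ := orderOf_pos _
        have h6 : D.σ ^ ((orderOf D.σ - 1) * i + i) = 1 := by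
          obtain ⟨m, hm⟩ : ∃ m, orderOf D.σ = m + 1 := ⟨orderOf D.σ - 1, by omega⟩
          rw [show (orderOf D.σ - 1) * i + i = orderOf D.σ * i by
            rw [hm, Nat.add_sub_cancel]; ring, pow_mul, pow_orderOf_eq_one, one_pow]
        rw [pow_add] at h6
        rw [inv_pow]
        exact (eq_inv_of_mul_eq_one_right h6).symm
      rwa [h4] at h3
    have h3 : ∀ i : ℕ, (D.φ (f r i)).src = (D.φ r).src ∧ (D.φ (f r i)).tgt = (D.φ r).tgt ∧
        (D.φ (f r i)).idx = (D.φ r).idx + i := by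
      intro i
      induction i with
      | zero => exact ⟨rfl, rfl, rfl⟩
      | succ n ih =>
        obtain ⟨i1, i2, i3⟩ := ih
        have h6 : ¬ Last (D.φ (f r n)) := by
          rw [← φ_idx_zero]; exact (h2 n).2.2.2
        have h7 : D.φ (f r (n + 1)) = nx (D.φ (f r n)) h6 := by
          apply D.σ.injective
          rw [σφ, ← φ_eq_σ_nx, (h2 n).φφ, f_succ]
        rw [h7]
        exact ⟨i1, i2, by rw [nx_idx, i3]; omega⟩
    obtain ⟨i1, i2, i3⟩ := h3 (D.k (D.φ r).src (D.φ r).tgt + 1)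
    have := (D.φ (f r (D.k (D.φ r).src (D.φ r).tgt + 1))).le
    rw [i1, i2, i3] at this
    omega
  set i := sInf {i : ℕ | Unc (f' r i)} with hi
  have hi1 : Unc (f' r i) := Nat.sInf_mem hex
  have hi2 : ∀ j < i, ¬ Unc (f' r j) := fun j hj => Nat.notMem_of_lt_sInf hj
  have hi0 : 0 < i := by
    rcases Nat.eq_zero_or_pos i with h0 | h0
    · rw [h0] at hi1
      exact (h.not_last hi1.2).elim
    · exact h0
  have hfr : ∀ j ≤ i, f (f' r i) j = f' r (i - j) := fun j hj => f_f' hj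
  have hT : ∀ j < i, T1 (f' r j) := by
    intro j hj
    rcases key j with ⟨l, h1, h2⟩ | h1
    · exact (hi2 l (by omega) h2).elim
    · exact h1
  have hA : TA (f' r i) := by
    refine ⟨hi1, ?_⟩
    have h1 := hfr 1 hi0
    rw [f_one] at h1
    rw [h1]
    exact hT _ (by omega)
  refine ⟨f' r i, i, hA, hi0, ?_, ?_⟩
  · by_contra hc
    have h1 := hA.1.rt_ge hO
    have h2 := hA.1.hr
    rw [Drawing.hr] at h2
    rcases Nat.lt_or_ge i (rt (f' r i)) with h3 | h3
    · have h4 : rt (f' r i) = i + 1 := by omega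
      rw [h4, f_succ, hfr i le_rfl, Nat.sub_self, f'_zero] at h2
      exact h.σ_not_last h2.2
    · rw [hfr _ h3] at h2
      have h5 := rt_pos hA.1
      exact hi2 _ (by omega) h2
  · rw [hfr i le_rfl, Nat.sub_self, f'_zero]

end Drawing

end Pool.Agent.FP
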