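import Pool.Agent.Lib.MP_2e2457_lc.Pentagon

/-!
# Annular faces: the staircases (MP_2e2457_lc)
-/

set_option autoImplicit false

open Equiv

noncomputable section

namespace Pool.Agent.FP

variable {V : Type}

namespace Drawing

variable {G : SimpleGraph V} {D : Drawing G}

/-- number of crossings of the edge -/
def kk (d : D.DD) : ℕ := D.k d.src d.tgt

/-- The staircase of middle edges between the angles of `h` and of `F h`. -/
structure Stair (h : D.DD) (P : ℕ) : Prop where
  lt : P + 3 < rt h
  lt' : P + 3 < rt' (rv h)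
  kf : ∀ t, 1 ≤ t → t ≤ P + 1 → kk (fp h (P + 2 - t)) = t
  kg : ∀ t, 1 ≤ t → t ≤ P + 1 → kk (gq h t) = P + 2 - t
  rot : ∀ t, 1 ≤ t → t ≤ P + 1 → D.σ (oe (fp h (P + 2 - t))) = oe (gq h t)
  edge : ∀ t, 1 ≤ t → t ≤ P → ∃ E : D.DD, Unc E ∧ D.σ E = oe (fp h (P + 1 - t)) ∧ D.σ (oe (gq h t)) = rv E

theorem TA.stair [Finite V] (hO : D.Opt) {h : D.DD} (hA : TA h) (hP : ¬ Pent h) : ∃ P, Stair h P := by
  have hge := hA.1.rt_ge hO
  have hge' := hA.rt'_ge hO
  have nl : ∀ p, p + 1 < rt h → kk (fp h p) = 1 → p + 2 < rt h := by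
    intro p h1 h2
    by_contra h3
    have h4 : p = rt h - 2 := by omega
    have h5 := (hA.apex_last hO).1
    rw [← h4] at h5
    unfold kk at h2
    omega
  have nl' : ∀ p, p + 1 < rt' (rv h) → kk (gq h p) = 1 → p + 2 < rt' (rv h) := by
    intro p h1 h2
    by_contra h3
    have h4 : p = rt' (rv h) - 2 := by omega
    have h7 : 2 ≤ D.k (gq h (rt' (rv h) - 2)).src (gq h (rt' (rv h) - 2)).tgt :=
      (@TA.apex_last V G D.mirror _ hO.mirror (rv h) (hA.mir hO)).1
    rw [← h4] at h7
    unfold kk at h2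
    omega
  rcases hA.center hO with ⟨h1, h2, h3⟩ | hL | h1
  · -- common spoke
    have r1 := nl 1 (by omega) h1
    have r2 := nl' 1 (by omega) h2
    refine ⟨0, by omega, by omega, ?_, ?_, ?_, ?_⟩
    · intro t t1 t2
      have : t = 1 := by omega
      subst this
      exact h1
    · intro t t1 t2
      have : t = 1 := by omega
      subst this
      exact h2
    · intro t t1 t2
      have : t = 1 := by omega
      subst this
      exact h3
    · intro t t1 t2; omega
  · -- a proper staircase
    have hX11 := hL.2.2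
    have hkg1 : 2 ≤ kk (gq h 1) := by
      obtain ⟨_, _, u, _, hv⟩ := hX11
      exact hv.le
    obtain ⟨P, hkP⟩ : ∃ P, kk (gq h 1) = P + 1 := ⟨kk (gq h 1) - 1, by omega⟩
    have hP1 : 1 ≤ P := by omega
    have lef : ∀ {p q}, X h p q → q + 1 ≤ kk (fp h p) := fun hX => by
      obtain ⟨_, _, u, hu, _⟩ := hX
      exact hu.le
    have leg : ∀ {p q}, X h p q → p + 1 ≤ kk (gq h q) := fun hX => by
      obtain ⟨_, _, u, _, hv⟩ := hX
      exact hv.le
    have A : ∀ t, 1 ≤ t → t ≤ P → L h (P + 1 - t) t ∧ kk (fp h (P + 1 - t)) = t + 1 ∧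
        kk (gq h t) = P + 2 - t := by
      intro t ht
      induction t, ht using Nat.le_induction with
      | base =>
        intro _
        have h1 : X h P 1 := hL.row hO hA (by unfold kk at hkP; omega)
        have h2 : L h P 1 := ⟨hP1, le_rfl, h1⟩
        have h3 := h2.d0' hO hA hkP
        rw [show P + 1 - 1 = P by omega]
        exact ⟨h2, h3, by omega⟩
      | succ t ht ih =>
        intro htP
        obtain ⟨a1, a2, a3⟩ := ih (by omega)
        obtain ⟨p, hp⟩ : ∃ p, P = t + p := ⟨P - t, by omega⟩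
        have e1 : P + 1 - t = p + 1 := by omega
        have e2 : P + 1 - (t + 1) = p := by omega
        have e3 : P + 2 - t = p + 2 := by omega
        have e4 : P + 2 - (t + 1) = p + 1 := by omega
        rw [e1] at a1 a2
        rw [e3] at a3
        rw [e2, e4]
        have hp1 : 1 ≤ p := by omega
        have b1 : X h p t := a1.row hO hA (by unfold kk at a3; omega)
        have b2 : L h p t := ⟨hp1, ht, b1⟩
        have b3 := lef b1
        have b4 : kk (fp h p) ≠ t + 1 := by
          intro h5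
          have h6 := (b2.d0 hO hA h5).1
          unfold kk at a3
          omega
        have b5 : X h p (t + 1) := b2.col hO hA (by unfold kk at b3 b4; omega)
        have b6 : L h p (t + 1) := ⟨hp1, by omega, b5⟩
        have b7 := leg b5
        have b8 : kk (gq h (t + 1)) = p + 1 := by
          by_contra h5
          have h6 : X h (p + 1) (t + 1) := b6.row hO hA (by unfold kk at b7 h5; omega)
          have := lef h6
          omega
        exact ⟨b6, b6.d0' hO hA b8, b8⟩
    obtain ⟨p1, p2, p3⟩ := A 1 le_rfl hP1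
    obtain ⟨q1, q2, q3⟩ := A P hP1 le_rfl
    rw [show P + 1 - 1 = P by omega] at p1 p2
    rw [show P + 1 - P = 1 by omega] at q1 q2
    have l1 := p1.lt hO hA
    have l2 := q1.lt' hO hA
    -- the spoke at `h.src`
    obtain ⟨s1, s2⟩ := hA.d1 hO (p := P) (q := 0) (hA.x0 hO (by omega)) p1.2.2 (hA.x0 hO (by omega)) hkP
    have l3 := nl (P + 1) (by omega) s1
    -- the spoke at `h.tgt`
    obtain ⟨s3, s4⟩ := hA.d1' hO (p := 0) (q := P) (hA.x0' hO (by omega)) q1.2.2 (hA.x0' hO (by omega)) q2
    have l4 := nl' (P + 1) (by omega) s3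
    refine ⟨P, by omega, by omega, ?_, ?_, ?_, ?_⟩
    · intro t t1 t2
      rcases Nat.lt_or_ge t 2 with h5 | h5
      · have : t = 1 := by omega
        subst this
        exact s1
      · have h6 := (A (t - 1) (by omega) (by omega)).2.1
        rw [show P + 1 - (t - 1) = P + 2 - t by omega] at h6
        omega
    · intro t t1 t2
      rcases Nat.lt_or_ge P t with h5 | h5
      · have h6 : t = P + 1 := by omega
        subst h6
        have : kk (gq h (P + 1)) = 1 := s3
        omega
      · exact (A t t1 h5).2.2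
    · intro t t1 t2
      rcases Nat.lt_or_ge t 2 with h5 | h5
      · have : t = 1 := by omega
        subst this
        exact s2
      · rcases Nat.lt_or_ge P t with h6 | h6
        · have h7 : t = P + 1 := by omega
          subst h7
          rw [show P + 2 - (P + 1) = 1 by omega]
          exact s4
        · obtain ⟨a1, a2, a3⟩ := A t t1 h6
          obtain ⟨b1, b2, b3⟩ := A (t - 1) (by omega) (by omega)
          obtain ⟨q, hq⟩ : ∃ q, t = q + 1 := ⟨t - 1, by omega⟩
          subst hq
          obtain ⟨p, hp⟩ : ∃ p, P = q + p := ⟨P - q, by omega⟩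
          have e1 : P + 1 - (q + 1) = p := by omega
          have e2 : P + 1 - (q + 1 - 1) = p + 1 := by omega
          have e3 : P + 2 - (q + 1) = p + 1 := by omega
          rw [e1] at a1 a2
          rw [e3] at a3 ⊢
          rw [e2, Nat.add_sub_cancel] at b1
          refine (hA.d1 hO (p := p) (q := q) ?_ a1.2.2 b1.2.2 a3).2
          exact a1.col hO hA (by unfold kk at a2; omega)
    · intro t t1 t2
      obtain ⟨a1, a2, a3⟩ := A t t1 t2
      obtain ⟨E, hE, _, _, hE1, hE2⟩ := (a1.d0 hO hA a2).2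
      exact ⟨E, hE, hE1, hE2⟩
  · exact (hP h1).elim

/-- two consecutive middle edges cannot both have one crossing only -/
theorem TA.no_two_spokes [Finite V] (hO : D.Opt) {h : D.DD} (hA : TA h) {p : ℕ} (hp : p + 2 < rt h)
    (h1 : kk (fp h p) = 1) (h2 : kk (fp h (p + 1)) = 1) : False := by
  obtain ⟨_, _, u, hu, hv⟩ := hA.x0 hO (p := p) (by omega)
  obtain ⟨_, _, u3, hu3, hv3⟩ := hA.x0 hO (p := p + 1) (by omega)
  have hul : Last u := hu.last.2 h1
  have hu3l : Last u3 := hu3.last.2 h2
  have hu0 : u.idx ≠ 0 := by rw [hu.2.2]; omega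
  have hu30 : u3.idx ≠ 0 := by rw [hu3.2.2]; omega
  have hvl : ¬ Last (D.σ u) := hv.not_last hv3
  have e3 : D.σ (rv (D.σ u)) = u3 := by
    have h5 : op (D.σ u3) = rv (D.σ u) := hv.op_succ hv3
    rw [← h5, σ_op, σσ hu30, op_op]
  have e4 : D.φ (rv u3) = rv (D.σ u) := by
    conv_lhs => rw [← e3]
    rw [φ_rv_σ]
  have e5 : D.φ (D.φ (rv u3)) = u := by rw [e4, φ_rv_σ]
  have hr : (D.φ u).idx = 0 := φ_idx_zero.2 hul
  have h0 : (rv u3).idx = 0 := rv_idx_zero.2 hu3l
  rcases hO.tight.real_cases h0 with h6 | h6 | h6 | h6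
  · have h7 := h6.2.1
    rw [e5] at h7
    have h8 : (D.φ u).src = (rv u3).src := by rw [h7]
    rw [Drawing.φ_src hul, rv_src, hu.2.1, hu3.2.1] at h8
    have h9 : fp h p = fp h (p + 1) := by
      refine eq_of_idx ?_ h8 ?_
      · rw [fp_src hA.1.1, fp_src hA.1.1]
      · rw [fp_real hA.1.1, fp_real hA.1.1]
    have := fp_inj hA.1 (by omega) (by omega) h9
    omega
  · have h7 := h6.2.2.1
    rw [e4, rv_idx_zero] at h7
    exact hvl h7
  · have h7 := h6.2.2.2
    rw [e5] at h7
    exact hu0 h7
  · have h7 := h6.2.2.2.2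
    rw [e5] at h7
    exact h7 hr

/-- every angle contains exactly one spoke -/
theorem Stair.rt_eq [Finite V] (hO : D.Opt) {h : D.DD} (hA : TA h) {P P' : ℕ} (hS : Stair h P)
    (hS' : Stair (Drawing.B h) P') : rt h = P + P' + 4 := by
  have hB := hA.B hO
  have e0 := rt'_rv_B (D := D) hA.1
  have l1 := hS.lt
  have l2 := hS'.lt'
  rw [e0] at l2
  have g1 : ∀ t, 1 ≤ t → t ≤ P' + 1 → kk (f h (rt h - (t + 1))) = P' + 2 - t := by
    intro t t1 t2
    have := hS'.kg t t1 t2
    rwa [gq_B (by omega)] at this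
  have k2 := g1 (P' + 1) (by omega) le_rfl
  rcases Nat.lt_trichotomy (rt h) (P + P' + 4) with h1 | h1 | h1
  · -- the spoke of `B h` lies among the edges of the staircase of `h`
    exfalso
    have h2 := hS.kf (P + 2 - (rt h - (P' + 1 + 1) - 1)) (by omega) (by omega)
    have h3 : P + 2 - (P + 2 - (rt h - (P' + 1 + 1) - 1)) = rt h - (P' + 1 + 1) - 1 := by omega
    rw [h3, fp, show rt h - (P' + 1 + 1) - 1 + 1 = rt h - (P' + 1 + 1) by omega, k2] at h2
    omega
  · exact h1
  · exfalso
    have k1 := hS.kf 1 le_rfl (by omega)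
    rw [show P + 2 - 1 = P + 1 by omega] at k1
    refine hA.no_two_spokes hO (p := P + 1) (by omega) k1 ?_
    by_contra h3
    have h4 : kk (fp h (P + 1 + 1)) ≠ 0 := by
      intro h5
      refine not_unc_of_lt (h := h) (j := P + 1 + 1 + 1) (by omega) (by omega) ⟨f_real hA.1.1 _, ?_⟩
      have : Last (fp h (P + 1 + 1)) := by rw [Last, fp_real hA.1.1]; exact h5.symm
      exact this
    have h5 : 2 ≤ kk (fp h (P + 1 + 1)) := by omega
    rcases hA.apex_or hO (p := P + 1 + 1) (by omega) h5 with h6 | h6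
    · obtain ⟨_, _, u, hu, hv⟩ := hA.grid hO (P + 1 + 1) (by omega) h6 1 h5
      have h7 := hv.le
      have h8 := hS.kg 1 le_rfl (by omega)
      unfold kk at h8
      omega
    · have h7 : gq (Drawing.B h) (rt h - (P + 4)) = fp h (P + 1 + 1) := by
        rw [gq_B (by omega), fp]
        congr 1; omega
      have h8 : (Drawing.B h).src = (Drawing.hr h).tgt := rfl
      have h9 : X (Drawing.B h) 1 (rt h - (P + 4)) := by
        refine hB.grid' hO ?_ ?_ ?_
        · rw [e0]; omega
        · rw [h7, h8]; exact h6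
        · rw [h7]; exact h5
      obtain ⟨_, _, u, hu, hv⟩ := h9
      have h10 := hu.le
      have h11 := hS'.kf (P' + 1) (by omega) le_rfl
      rw [show P' + 2 - (P' + 1) = 1 by omega] at h11
      unfold kk at h11
      rw [h11] at h10
      -- then the edge number `P + 3` is in the staircase of `B h`
      have h12 := g1 (rt h - (P + 4)) (by omega) (by omega)
      rw [show rt h - (rt h - (P + 4) + 1) = P + 1 + 1 + 1 by omega] at h12
      have h13 : kk (fp h (P + 1 + 1)) = kk (f h (P + 1 + 1 + 1)) := rfl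
      omega

end Drawing

end Pool.Agent.FP
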