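import Pool.Agent.Lib.MP_2e2457_lc.Skel

/-!
# Construction of the annular faces (MP_2e2457_lc)
-/

set_option autoImplicit false

open Equiv

noncomputable section

namespace Pool.Agent.FP

variable {V : Type}

theorem exists_antidiff (a : ℤ → ℤ) : ∃ c : ℤ → ℤ, c 0 = 0 ∧ ∀ i, c (i + 1) = c i + a i := by
  refine ⟨fun i => if 0 ≤ i then ∑ j ∈ Finset.range i.toNat, a j
    else - ∑ j ∈ Finset.range (-i).toNat, a (-1 - j), by simp, ?_⟩
  intro i
  simp only
  rcases le_or_gt 0 i with h | h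
  · rw [if_pos h, if_pos (show 0 ≤ i + 1 by omega)]
    have h1 : (i + 1).toNat = i.toNat + 1 := by omega
    rw [h1, Finset.sum_range_succ]
    have h2 : (i.toNat : ℤ) = i := by omega
    rw [h2]
  · rw [if_neg (show ¬ 0 ≤ i by omega)]
    have h1 : (-i).toNat = (-(i + 1)).toNat + 1 := by omega
    rcases eq_or_ne i (-1) with h2 | h2
    · subst h2; simp
    · rw [if_neg (show ¬ 0 ≤ i + 1 by omega), h1, Finset.sum_range_succ]
      have h3 : (-1 - ((-(i + 1)).toNat : ℤ)) = i := by omega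
      rw [h3]; ring

theorem perm_period {α : Type} [Finite α] (σ : Perm α) (t : α) :
    0 < Function.minimalPeriod σ t ∧ ∀ i : ℤ, (σ ^ i) t = t ↔ (Function.minimalPeriod σ t : ℤ) ∣ i := by
  constructor
  · refine Function.minimalPeriod_pos_of_mem_periodicPts ?_
    refine ⟨orderOf σ, orderOf_pos σ, ?_⟩
    have h1 : (σ ^ orderOf σ) t = t := by rw [pow_orderOf_eq_one]; rfl
    rw [Function.IsPeriodicPt, Function.IsFixedPt, ← Perm.iterate_eq_pow] at *
    exact h1
  · intro i
    exact MulAction.zpow_smul_eq_iff_minimalPeriod_dvd (a := σ) (b := t) (n := i)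

namespace Drawing

variable {G : SimpleGraph V} {D : Drawing G}

instance [Finite V] : Finite (Hs D).Dart := Finite.of_injective (fun d => toD d) (fun _ _ h => toD_inj h)

section
variable [Finite V]

def hs (t : (Hs D).Dart) (i : ℤ) : D.DD := toD (((Rm D).face ^ i) t)

theorem hs_zero (t : (Hs D).Dart) : hs t 0 = toD t := rfl

theorem hs_succ (t : (Hs D).Dart) (i : ℤ) : hs t (i + 1) = F (hs t i) := by
  rw [hs, add_comm, zpow_add, zpow_one, Perm.mul_apply, toD_face]; rfl

theorem hs_unc (t : (Hs D).Dart) (i : ℤ) : Unc (hs t i) := toD_unc _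

theorem hs_pred (t : (Hs D).Dart) (i : ℤ) : hs t (i - 1) = B (hs t i) := by
  have h1 := hs_succ t (i - 1)
  rw [sub_add_cancel] at h1
  rw [h1, B_F (hs_unc _ _)]

theorem hs_AT (hO : D.Opt) {t : (Hs D).Dart} (hA : AT (toD t)) (i : ℤ) : AT (hs t i) := by
  induction i using Int.induction_on with
  | zero => exact hA
  | succ n ih => rw [hs_succ]; exact ih.F hO
  | pred n ih => rw [hs_pred]; exact ih.B hO

def NN (t : (Hs D).Dart) : ℕ := Function.minimalPeriod (Rm D).face t

theorem NN_period (t : (Hs D).Dart) (i : ℤ) : ((Rm D).face ^ i) t = t ↔ (NN t : ℤ) ∣ i :=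
  (perm_period (Rm D).face t).2 i

theorem NN_pos (t : (Hs D).Dart) : 0 < NN t := (perm_period (Rm D).face t).1

theorem hs_eq_iff (t : (Hs D).Dart) (i j : ℤ) : hs t i = hs t j ↔ (NN t : ℤ) ∣ i - j := by
  rw [← NN_period]
  constructor
  · intro h
    have h1 := toD_inj h
    rw [zpow_sub, Perm.mul_apply]
    have h2 : ((Rm D).face ^ i * ((Rm D).face ^ j)⁻¹) t = ((Rm D).face ^ j)⁻¹ (((Rm D).face ^ i) t) := by
      rw [← Perm.mul_apply, ← zpow_neg, ← zpow_add, ← zpow_add, add_comm]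
    rw [← Perm.mul_apply, h2, h1]
    exact ((Rm D).face ^ j).symm_apply_apply t
  · intro h
    have h1 : ((Rm D).face ^ i) t = ((Rm D).face ^ j) t := by
      have h2 : i = j + (i - j) := by ring
      rw [h2, zpow_add, Perm.mul_apply, h]
    rw [hs, h1, hs]

theorem hs_add_N (t : (Hs D).Dart) (i : ℤ) : hs t (i + NN t) = hs t i := by
  rw [hs_eq_iff]; simp

omit [Finite V] in
theorem F_ne [Finite V] {h : D.DD} (hh : Unc h) : F h ≠ h := by
  intro h1
  have := F_src hh
  rw [h1] at this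
  exact src_ne_tgt h this

theorem TA.F2 (hO : D.Opt) {h : D.DD} (hA : TA h) : Drawing.F (Drawing.F h) ≠ h := by
  intro h1
  have h2 := F_src hA.1.F
  rw [h1] at h2
  have h3 := hA.f0_tgt hO
  have h4 := fp_src hA.1.1 0
  exact src_ne_tgt (fp h 0) (by rw [h4, h3, h2])

theorem TA.F3 (hO : D.Opt) {h : D.DD} (hA : TA h) : Drawing.F (Drawing.F (Drawing.F h)) ≠ h := by
  intro h1
  have h2 : Drawing.B h = Drawing.F (Drawing.F h) := by
    conv_lhs => rw [← h1]
    rw [B_F ((hA.F hO).F hO).1]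
  have h3 : (Drawing.B h).src = (Drawing.hr h).tgt := rfl
  have h4 := F_src (hA.F hO).1
  rw [← h2, h3] at h4
  exact hA.ne_tgt hO h4

theorem TA.F4 (hO : D.Opt) {h : D.DD} (hA : TA h) :
    Drawing.F (Drawing.F (Drawing.F (Drawing.F h))) ≠ h := by
  intro h1
  have hge := hA.1.rt_ge hO
  have hB := hA.B hO
  have hFF := (hA.F hO).F hO
  have h2 : Drawing.B h = Drawing.F (Drawing.F (Drawing.F h)) := by
    conv_lhs => rw [← h1]
    rw [B_F (hFF.F hO).1]
  have h3 : Drawing.B (Drawing.B h) = Drawing.F (Drawing.F h) := by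
    rw [h2, B_F hFF.1]
  have h4 : fp h 0 = fp h (rt h - 2) := by
    rw [← φ_B (by omega)]
    refine eq_of_idx ?_ ?_ ?_
    · rw [fp_src hA.1.1, hB.φ_src]
      have : (Drawing.B h).tgt = (Drawing.hr h).src := rfl
      rw [this, Drawing.hr, f_src hA.1.1]
    · rw [hA.f0_tgt hO, hB.φ_tgt hO]
      have h5 : (Drawing.hr (Drawing.B h)).tgt = (Drawing.B (Drawing.B h)).src := rfl
      rw [h5, h3, F_src (hA.F hO).1]
    · rw [fp_real hA.1.1, φ_idx_zero.2 hB.1.2]
  have := fp_inj hA.1 (by omega) (by omega) h4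
  omega

theorem five_le_NN (hO : D.Opt) {t : (Hs D).Dart} (hA : TA (toD t)) : 5 ≤ NN t := by
  have h0 := NN_pos t
  have key : ∀ k : ℕ, NN t = k → hs t k = toD t := by
    intro k hk
    have := hs_add_N t 0
    rw [zero_add, hk, hs_zero] at this
    exact this
  have s1 : hs t (1 : ℕ) = F (toD t) := by
    have := hs_succ t 0
    rw [hs_zero] at this
    exact this
  have s2 : hs t (2 : ℕ) = F (F (toD t)) := by
    have := hs_succ t (1 : ℕ)
    rw [s1] at this
    exact this
  have s3 : hs t (3 : ℕ) = F (F (F (toD t))) := by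
    have := hs_succ t (2 : ℕ)
    rw [s2] at this
    exact this
  have s4 : hs t (4 : ℕ) = F (F (F (F (toD t)))) := by
    have := hs_succ t (3 : ℕ)
    rw [s3] at this
    exact this
  by_contra hc
  have : NN t = 1 ∨ NN t = 2 ∨ NN t = 3 ∨ NN t = 4 := by omega
  rcases this with h | h | h | h
  · exact F_ne hA.1 (by rw [← s1]; exact key _ h)
  · exact hA.F2 hO (by rw [← s2]; exact key _ h)
  · exact hA.F3 hO (by rw [← s3]; exact key _ h)
  · exact hA.F4 hO (by rw [← s4]; exact key _ h)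

/-- the matching function -/
def cc (t : (Hs D).Dart) : ℤ → ℤ := Classical.choose (exists_antidiff fun i => (Pn (hs t i) : ℤ))

theorem cc_zero (t : (Hs D).Dart) : cc t 0 = 0 :=
  (Classical.choose_spec (exists_antidiff fun i => (Pn (hs t i) : ℤ))).1

theorem cc_succ (t : (Hs D).Dart) (i : ℤ) : cc t (i + 1) = cc t i + Pn (hs t i) :=
  (Classical.choose_spec (exists_antidiff fun i => (Pn (hs t i) : ℤ))).2 i

theorem cc_pred (t : (Hs D).Dart) (i : ℤ) : cc t (i - 1) = cc t i - Pn (hs t (i - 1)) := by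
  have := cc_succ t (i - 1)
  rw [sub_add_cancel] at this
  omega

theorem cc_mono (t : (Hs D).Dart) : Monotone (cc t) :=
  monotone_int_of_le_succ fun i => by rw [cc_succ]; omega

theorem cc_add_N (t : (Hs D).Dart) (i : ℤ) : cc t (i + NN t) = cc t i + cc t (NN t) := by
  induction i using Int.induction_on with
  | zero => rw [zero_add, cc_zero, zero_add]
  | succ n ih =>
    rw [show (n : ℤ) + 1 + NN t = (n + NN t) + 1 by ring, cc_succ, ih, cc_succ, hs_add_N]; ring
  | pred n ih =>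
    rw [show -(n : ℤ) - 1 + NN t = (-n + NN t) - 1 by ring, cc_pred, ih, cc_pred]
    rw [show -(n : ℤ) + NN t - 1 = (-n - 1) + NN t by ring, hs_add_N]; ring

def MM (t : (Hs D).Dart) : ℕ := (cc t (NN t)).toNat

theorem MM_eq (t : (Hs D).Dart) : (MM t : ℤ) = cc t (NN t) := by
  have h1 := cc_mono t (show (0 : ℤ) ≤ NN t by omega)
  rw [cc_zero] at h1
  unfold MM; omega

theorem cc_period (t : (Hs D).Dart) (i : ℤ) : cc t (i + NN t) = cc t i + MM t := by
  rw [MM_eq, cc_add_N]

theorem cc_period_mul (t : (Hs D).Dart) (i l : ℤ) : cc t (i + NN t * l) = cc t i + MM t * l := by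
  induction l using Int.induction_on with
  | zero => simp
  | succ n ih =>
    rw [show i + NN t * ((n : ℤ) + 1) = (i + NN t * n) + NN t by ring, cc_period, ih]; ring
  | pred n ih =>
    have h1 := cc_period t (i + NN t * (-(n : ℤ) - 1))
    rw [show i + NN t * (-(n : ℤ) - 1) + NN t = i + NN t * (-n) by ring, ih] at h1
    linarith

/-- `M = 0` iff all the staircases are empty -/
theorem MM_zero (t : (Hs D).Dart) : MM t = 0 ↔ ∀ i, Pn (hs t i) = 0 := by
  have hN := NN_pos t
  constructor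
  · intro h i
    have h1 : cc t (i + NN t) = cc t i := by rw [cc_period, h]; simp
    have h2 := cc_mono t (show i + 1 ≤ i + NN t by omega)
    rw [cc_succ] at h2
    omega
  · intro h
    have h1 : ∀ n : ℕ, cc t n = 0 := by
      intro n
      induction n with
      | zero => exact cc_zero t
      | succ n ih =>
        rw [Nat.cast_succ, cc_succ, ih, h]; rfl
    have := h1 (NN t)
    rw [← MM_eq] at this
    omega

theorem NI_iff (hO : D.Opt) {t : (Hs D).Dart} (hA : AT (toD t)) (i : ℤ) : NI (hs t i) ↔ NI (toD t) := by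
  induction i using Int.induction_on with
  | zero => rfl
  | succ n ih => rw [hs_succ, ← (hs_AT hO hA _).ni_iff hO, ih]
  | pred n ih =>
    have h1 := (hs_AT hO hA (-(n : ℤ) - 1)).ni_iff hO
    rw [← hs_succ, sub_add_cancel] at h1
    rw [h1, ih]

/-- If all the staircases are empty, then all the darts at the common end of the spokes are spokes. -/
theorem all_spokes (hO : D.Opt) {t : (Hs D).Dart} (hA : AT (toD t)) (h0 : ∀ i, Pn (hs t i) = 0) {d : D.DD}
    (hd : d.idx = 0) (hs' : d.src = (sp (toD t)).tgt) : ∃ i : ℕ, d = oe (sp (hs t i)) := by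
  obtain ⟨n, hn⟩ := f_cycle (d := oe (sp (toD t))) (e := d) rfl hd hs'.symm
  refine ⟨n, ?_⟩
  rw [← hn]
  clear hn
  induction n with
  | zero => rfl
  | succ n ih =>
    rw [f_succ, ih, Nat.cast_succ, hs_succ]
    exact ((hs_AT hO hA n).sp_F_zero hO (h0 n)).1

theorem kk_sp (hO : D.Opt) {h : D.DD} (hA : AT h) : kk (sp h) = 1 := by
  have := hA.kk_f hO le_rfl (by omega)
  rw [show Pn h + 2 - 1 = Pn h + 1 by omega] at this
  exact this

theorem NI_iff_M (hO : D.Opt) {t : (Hs D).Dart} (hA : AT (toD t)) : NI (toD t) ↔ MM t ≠ 0 := by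
  constructor
  · rintro ⟨E, hE, hEs⟩ h0
    rw [MM_zero] at h0
    obtain ⟨i, hi⟩ := all_spokes hO hA h0 hE.1 hEs
    rw [hi] at hE
    refine not_unc_oe ?_ hE
    rw [kk_sp hO (hs_AT hO hA i)]; omega
  · intro h0
    rw [Ne, MM_zero] at h0
    push Not at h0
    obtain ⟨i, hi⟩ := h0
    rw [← NI_iff hO hA i]
    exact ((hs_AT hO hA i).ni_of_pos hO (by omega)).1

theorem NI.unc {h : D.DD} (hN : NI h) : Unc (Et h 0) := by
  obtain ⟨E, hE, hEs⟩ := hN
  rw [Et_zero]
  exact cwU_unc rfl hE hEs.symm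

theorem chain_step (hO : D.Opt) {h : D.DD} (hA : AT h) (hN : NI h) {e : (Hs D).Dart} (he : toD e = Et h 0) :
    ∀ s : ℕ, s ≤ Pn h → toD (((Rm D).face ^ (-(s : ℤ))) e) = Et h s := by
  intro s
  induction s with
  | zero => intro _; exact he
  | succ s ih =>
    intro hs
    have h1 := ih (by omega)
    rw [Nat.cast_succ, neg_add, add_comm, zpow_add, zpow_neg_one, Perm.mul_apply, toD_face_inv, h1]
    exact hA.b_et hO hN (by omega)

/-- the dart of the inner boundary -/
def qq (t : (Hs D).Dart) (h : NI (toD t)) : (Hs D).Dart := ofD (Et (toD t) 0) h.unc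

theorem chain (hO : D.Opt) {t : (Hs D).Dart} (hA : AT (toD t)) (hN : NI (toD t)) (i : ℤ) :
    toD (((Rm D).face ^ (-(cc t i))) (qq t hN)) = Et (hs t i) 0 := by
  induction i using Int.induction_on with
  | zero =>
    rw [cc_zero]
    exact toD_ofD _ hN.unc
  | succ n ih =>
    have hNn : NI (hs t n) := (NI_iff hO hA n).2 hN
    have h1 := chain_step hO (hs_AT hO hA n) hNn ih (Pn (hs t n)) le_rfl
    rw [← Perm.mul_apply, ← zpow_add] at h1
    rw [cc_succ, hs_succ, (hs_AT hO hA n).et_F hO hNn, ← h1]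
    congr 3
    ring
  | pred n ih =>
    set i : ℤ := -(n : ℤ) - 1 with hi
    have hNn : NI (hs t i) := (NI_iff hO hA i).2 hN
    have e0 : -(n : ℤ) = i + 1 := by rw [hi]; ring
    rw [e0, cc_succ, hs_succ, (hs_AT hO hA i).et_F hO hNn] at ih
    have h1 := chain_step hO (hs_AT hO hA i) hNn (e := ofD (Et (hs t i) 0) hNn.unc) (toD_ofD _ _)
      (Pn (hs t i)) le_rfl
    rw [← ih] at h1
    have h2 := toD_inj h1
    have h3 : ((Rm D).face ^ (-(cc t i))) (qq t hN) = ofD (Et (hs t i) 0) hNn.unc := by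
      apply ((Rm D).face ^ (-(Pn (hs t i) : ℤ))).injective
      rw [h2, ← Perm.mul_apply, ← zpow_add]
      congr 2
      ring
    rw [h3, toD_ofD]

theorem chain' (hO : D.Opt) {t : (Hs D).Dart} (hA : AT (toD t)) (hN : NI (toD t)) (i : ℤ) {s : ℕ}
    (hs' : s ≤ Pn (hs t i)) : toD (((Rm D).face ^ (-(cc t i + s))) (qq t hN)) = Et (hs t i) s := by
  have h1 := chain_step hO (hs_AT hO hA i) ((NI_iff hO hA i).2 hN) (chain hO hA hN i) s hs'
  rw [← h1, ← Perm.mul_apply, ← zpow_add]
  congr 3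
  ring

/-- For every position on the inner boundary there is a staircase. -/
theorem find_step (hO : D.Opt) {t : (Hs D).Dart} (hM : MM t ≠ 0) (j : ℤ) :
    ∃ i : ℤ, ∃ s : ℕ, 1 ≤ s ∧ s ≤ Pn (hs t i) ∧ cc t i + s = j := by
  -- largest `i` with `cc t i < j`
  have hb : ∃ b : ℤ, ∀ z : ℤ, cc t z < j → z ≤ b := by
    refine ⟨NN t * (j.toNat), fun z hz => ?_⟩
    by_contra hc
    have h1 := cc_mono t (show (0 : ℤ) + NN t * (j.toNat : ℤ) ≤ z by omega)
    rw [cc_period_mul, cc_zero] at h1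
    have h2 : (1 : ℤ) ≤ MM t := by omega
    have h3 : (j.toNat : ℤ) ≤ MM t * (j.toNat : ℤ) := by nlinarith
    omega
  have hne : ∃ z : ℤ, cc t z < j := by
    refine ⟨0 + NN t * (-((-j).toNat + 1 : ℕ) : ℤ), ?_⟩
    rw [cc_period_mul, cc_zero]
    have h2 : (1 : ℤ) ≤ MM t := by omega
    have h3 : (((-j).toNat + 1 : ℕ) : ℤ) ≤ MM t * (((-j).toNat + 1 : ℕ) : ℤ) := by nlinarith
    push_cast at h3 ⊢
    rw [mul_neg]
    omega
  obtain ⟨i, h1, h2⟩ := Int.exists_greatest_of_bdd hb hne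
  have h3 : j ≤ cc t (i + 1) := by
    by_contra hc
    have := h2 (i + 1) (by omega)
    omega
  rw [cc_succ] at h3
  exact ⟨i, (j - cc t i).toNat, by omega, by omega, by omega⟩

omit [Finite V] in
theorem mid_real (h : D.DD) (hh : h.idx = 0) (j : ℕ) : oe (oe (f h j)) = f h j := oe_oe (f_real hh j)

/-- The darts of the inner boundary determine their position. -/
theorem et_inj (hO : D.Opt) {h h' : D.DD} (hA : AT h) (hA' : AT h') {s s' : ℕ} (h1 : 1 ≤ s) (h2 : s ≤ Pn h)
    (h3 : 1 ≤ s') (h4 : s' ≤ Pn h') (he : Et h s = Et h' s') :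
    h = h' ∧ Pn h + 1 - s = Pn h' + 1 - s' := by
  have a1 := (hA.et_unc hO h1 h2).2.1
  have a2 := (hA'.et_unc hO h3 h4).2.1
  rw [he, a2] at a1
  have b1 : fp h (Pn h + 1 - s) = fp h' (Pn h' + 1 - s') := by
    rw [← oe_oe (fp_real hA.1.1.1 _), ← a1, oe_oe (fp_real hA'.1.1.1 _)]
  have c1 := hA.rt_eq hO
  have c2 := hA'.rt_eq hO
  obtain ⟨d1, d2⟩ := angle_unique hA.1.1 hA'.1.1 (by omega) (by omega) (by omega) (by omega) b1
  exact ⟨d1, by omega⟩

theorem inner_period (hO : D.Opt) {t : (Hs D).Dart} (hA : AT (toD t)) (hN : NI (toD t)) (j : ℤ) :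
    ((Rm D).face ^ j) (qq t hN) = qq t hN ↔ (MM t : ℤ) ∣ j := by
  have hM := (NI_iff_M hO hA).1 hN
  -- period `M`
  have hper : ∀ l : ℤ, ((Rm D).face ^ (-(MM t * l))) (qq t hN) = qq t hN := by
    intro l
    have h1 := chain hO hA hN (0 + NN t * l)
    rw [cc_period_mul, cc_zero, zero_add] at h1
    have h2 : hs t (0 + NN t * l) = hs t 0 := by
      rw [hs_eq_iff]; simp
    rw [h2] at h1
    apply toD_inj
    rw [h1]
    exact (toD_ofD _ hN.unc).symm
  constructor
  · intro h
    have hj : ((Rm D).face ^ (-j)) (qq t hN) = qq t hN := by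
      rw [zpow_neg]
      exact (Equiv.symm_apply_eq _).2 h.symm
    obtain ⟨i, s, h1, h2, h3⟩ := find_step hO hM j
    obtain ⟨i', s', h1', h2', h3'⟩ := find_step hO hM 0
    have e1 := chain' hO hA hN i h2
    have e2 := chain' hO hA hN i' h2'
    rw [h3, hj] at e1
    rw [h3', neg_zero, zpow_zero, Perm.one_apply, e1] at e2
    obtain ⟨f1, f2⟩ := et_inj hO (hs_AT hO hA i) (hs_AT hO hA i') h1 h2 h1' h2' e2
    rw [hs_eq_iff] at f1
    obtain ⟨l, hl⟩ := f1
    have h4 := cc_period_mul t (i' + 1) l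
    have h5 : i' + 1 + NN t * l = i + 1 := by rw [← hl]; ring
    rw [h5, cc_succ, cc_succ] at h4
    refine ⟨l, ?_⟩
    omega
  · rintro ⟨l, rfl⟩
    have := hper (-l)
    rw [mul_neg, neg_neg] at this
    exact this

/-- the annular face with outer dart `t` -/
def mkA (hO : D.Opt) (t : (Hs D).Dart) (hA : AT (toD t)) : Annulus (Rm D) where
  N := NN t
  M := MM t
  five_le := five_le_NN hO hA.1
  t := t
  t_period := NN_period t
  inner := open Classical in if h : NI (toD t) then Sum.inr (qq t h) else Sum.inl (sp (toD t)).tgt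
  inner_vertex := by
    intro v hv
    split_ifs at hv with h
    · have h0 : MM t = 0 := by
        by_contra h1
        exact h ((NI_iff_M hO hA).2 h1)
      refine ⟨h0, fun w hw => h ?_⟩
      simp only [Sum.inl.injEq] at hv
      refine ⟨⟨v, w, 0, hw.1, Nat.zero_le _⟩, ⟨rfl, hw.2.symm⟩, hv.symm⟩
  inner_dart := by
    intro q hq
    split_ifs at hq with h
    · simp only [Sum.inr.injEq] at hq
      refine ⟨(NI_iff_M hO hA).1 h, ?_⟩
      rw [← hq]
      exact inner_period hO hA h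
  c := cc t
  c_mono := cc_mono t
  c_period := cc_period t

theorem mkA_x (hO : D.Opt) {t : (Hs D).Dart} (hA : AT (toD t)) (i : ℤ) : (mkA hO t hA).x i = (hs t i).src := rfl

theorem mkA_z (hO : D.Opt) {t : (Hs D).Dart} (hA : AT (toD t)) (i : ℤ) {s : ℕ} (hs' : s ≤ Pn (hs t i)) :
    (mkA hO t hA).z (cc t i + s) = (fp (hs t i) (Pn (hs t i) + 1 - s)).tgt := by
  rw [Annulus.z]
  by_cases h : NI (toD t)
  · have h1 : (mkA hO t hA).inner = Sum.inr (qq t h) := by
      unfold mkA; exact dif_pos h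
    rw [h1]
    have h2 := chain' hO hA h i hs'
    have h3 : (Sum.elim id (fun q => (((Rm D).face ^ (-(cc t i + (s : ℤ)))) q).fst)
        (Sum.inr (qq t h) : V ⊕ (Hs D).Dart)) = (toD (((Rm D).face ^ (-(cc t i + (s : ℤ)))) (qq t h))).src := rfl
    rw [h3, h2, (hs_AT hO hA i).et_src hO hs']
  · have h1 : (mkA hO t hA).inner = Sum.inl (sp (toD t)).tgt := by
      unfold mkA; exact dif_neg h
    rw [h1]
    have h0 : MM t = 0 := by
      by_contra h1
      exact h ((NI_iff_M hO hA).2 h1)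
    rw [MM_zero] at h0
    have h2 := h0 i
    have h3 : s = 0 := by omega
    subst h3
    have h4 : (fp (hs t i) (Pn (hs t i) + 1 - 0)) = sp (hs t i) := rfl
    rw [h4]
    clear h4 h2 hs'
    have key : (sp (hs t i)).tgt = (sp (toD t)).tgt := by
      induction i using Int.induction_on with
      | zero => rfl
      | succ n ih => rw [hs_succ, ((hs_AT hO hA n).sp_F_zero hO (h0 n)).2, ih]
      | pred n ih =>
        have h5 := ((hs_AT hO hA (-(n : ℤ) - 1)).sp_F_zero hO (h0 _)).2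
        rw [← hs_succ, sub_add_cancel] at h5
        rw [← h5, ih]
    rw [key]; rfl

/-- the ends of the middle edges -/
theorem mkA_mid (hO : D.Opt) {t : (Hs D).Dart} (hA : AT (toD t)) (i : ℤ) {j : ℕ} (h1 : 2 ≤ j)
    (h2 : j + 2 ≤ rt (hs t i)) : (mkA hO t hA).z (cc t (i + 1) + 2 - j) = (f (hs t i) j).tgt := by
  have hAi := hs_AT hO hA i
  have hAp := hs_AT hO hA (i - 1)
  have hr := hAi.rt_eq hO
  rw [← hs_pred] at hr
  rcases Nat.lt_or_ge (Pn (hs t i) + 2) j with h3 | h3
  · -- in the staircase of the previous angle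
    obtain ⟨s, hs'⟩ : ∃ s : ℕ, s + j = Pn (hs t (i - 1)) + Pn (hs t i) + 2 :=
      ⟨Pn (hs t (i - 1)) + Pn (hs t i) + 2 - j, by omega⟩
    have e1 : cc t (i + 1) + 2 - j = cc t (i - 1) + s := by
      rw [cc_succ, cc_pred]
      have : ((s : ℤ) + j) = Pn (hs t (i - 1)) + Pn (hs t i) + 2 := by exact_mod_cast hs'
      linarith
    rw [e1, mkA_z hO hA (i - 1) (by omega)]
    have h4 := hAp.rot hO (t := s + 1) (by omega) (by omega)
    rw [show Pn (hs t (i - 1)) + 2 - (s + 1) = Pn (hs t (i - 1)) + 1 - s by omega] at h4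
    have h5 : (D.σ (oe (fp (hs t (i - 1)) (Pn (hs t (i - 1)) + 1 - s)))).src =
        (oe (fp (hs t (i - 1)) (Pn (hs t (i - 1)) + 1 - s))).src := σ_real_src rfl
    rw [h4] at h5
    have h6 : gq (hs t (i - 1)) (s + 1) = f (hs t i) j := by
      rw [hs_pred, gq_B (by omega)]
      congr 1; omega
    rw [h6] at h5
    exact h5.symm
  · obtain ⟨s, hs'⟩ : ∃ s : ℕ, s + j = Pn (hs t i) + 2 := ⟨Pn (hs t i) + 2 - j, by omega⟩
    have e1 : cc t (i + 1) + 2 - j = cc t i + s := by
      rw [cc_succ]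
      have : ((s : ℤ) + j) = Pn (hs t i) + 2 := by exact_mod_cast hs'
      linarith
    rw [e1, mkA_z hO hA i (by omega), fp]
    congr 2; omega

end

end Drawing

end Pool.Agent.FP
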