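import Pool.Agent.Lib.MP_2e2457_lc.Defs

/-!
# Basic facts about drawings (MP_2e2457_lc)
-/

set_option autoImplicit false

open Equiv

noncomputable section

namespace Pool.Agent.FP

variable {V : Type}

namespace Drawing

variable {G : SimpleGraph V} (D : Drawing G)

/-- The darts of the planarisation of the drawing. -/
abbrev DD : Type := Dart G D.k

variable {D}

/-- the reversed segment -/
def rv (d : D.DD) : D.DD := d.rev D.k_symm

/-- the opposite dart at the same crossing -/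
def op (d : D.DD) : D.DD := d.opp D.k_symm

/-- The segment ends at a vertex (not at a crossing). -/
def Last (d : D.DD) : Prop := d.idx = D.k d.src d.tgt

/-- next dart on the same edge -/
def nx (d : D.DD) (h : ¬ Last d) : D.DD where
  src := d.src
  tgt := d.tgt
  idx := d.idx + 1
  adj := d.adj
  le := by have := d.le; unfold Last at h; omega

variable (D) in
/-- next dart on the boundary of the face to the left -/
def φ : Perm D.DD := D.σ⁻¹ * revPerm D.k_symm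

@[simp] theorem rv_src (d : D.DD) : (rv d).src = d.tgt := rfl
@[simp] theorem rv_tgt (d : D.DD) : (rv d).tgt = d.src := rfl
theorem rv_idx (d : D.DD) : (rv d).idx = D.k d.src d.tgt - d.idx := rfl
@[simp] theorem rv_rv (d : D.DD) : rv (rv d) = d := Dart.rev_rev D.k_symm d
theorem rv_inj {d e : D.DD} : rv d = rv e ↔ d = e :=
  ⟨fun h => by rw [← rv_rv d, h, rv_rv], fun h => by rw [h]⟩
theorem rv_eq_iff {d e : D.DD} : rv d = e ↔ d = rv e :=
  ⟨fun h => by rw [← h, rv_rv], fun h => by rw [h, rv_rv]⟩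

theorem rv_idx_zero {d : D.DD} : (rv d).idx = 0 ↔ Last d := by
  have := d.le
  rw [rv_idx, Last]; omega

theorem last_rv {d : D.DD} : Last (rv d) ↔ d.idx = 0 := by
  have := d.le
  have h2 := D.k_symm d.src d.tgt
  rw [Last, rv_idx, rv_src, rv_tgt]; omega

@[simp] theorem nx_src (d : D.DD) (h : ¬ Last d) : (nx d h).src = d.src := rfl
@[simp] theorem nx_tgt (d : D.DD) (h : ¬ Last d) : (nx d h).tgt = d.tgt := rfl
@[simp] theorem nx_idx (d : D.DD) (h : ¬ Last d) : (nx d h).idx = d.idx + 1 := rfl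

theorem op_of_idx_zero {d : D.DD} (h : d.idx = 0) : op d = d := by
  simp [op, Dart.opp, h]

theorem op_src {d : D.DD} (h : d.idx ≠ 0) : (op d).src = d.tgt := by
  simp [op, Dart.opp, h]
theorem op_tgt {d : D.DD} (h : d.idx ≠ 0) : (op d).tgt = d.src := by
  simp [op, Dart.opp, h]
theorem op_idx {d : D.DD} (h : d.idx ≠ 0) : (op d).idx = D.k d.src d.tgt + 1 - d.idx := by
  simp [op, Dart.opp, h]

theorem op_idx_ne {d : D.DD} (h : d.idx ≠ 0) : (op d).idx ≠ 0 := by
  have := d.le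
  rw [op_idx h]; omega

theorem op_op {d : D.DD} : op (op d) = d := by
  by_cases h : d.idx = 0
  · rw [op_of_idx_zero h, op_of_idx_zero h]
  · have h' := op_idx_ne h
    have := d.le
    apply Dart.ext
    · rw [op_src h', op_tgt h]
    · rw [op_tgt h', op_src h]
    · rw [op_idx h', op_src h, op_tgt h, op_idx h, D.k_symm d.tgt d.src]; omega

/-- `op (rv d)` is the next dart. -/
theorem op_rv {d : D.DD} (h : ¬ Last d) : op (rv d) = nx d h := by
  have h' : (rv d).idx ≠ 0 := fun h1 => h (rv_idx_zero.1 h1)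
  have := d.le
  have h2 : d.idx ≠ D.k d.src d.tgt := h
  apply Dart.ext
  · rw [op_src h', rv_tgt, nx_src]
  · rw [op_tgt h', rv_src, nx_tgt]
  · rw [op_idx h', rv_src, rv_tgt, rv_idx, D.k_symm d.tgt d.src, nx_idx]; omega

theorem op_nx {d : D.DD} (h : ¬ Last d) : op (nx d h) = rv d := by
  rw [← op_rv h, op_op]

/-- The darts `d` and `e` lie on the same edge in the same direction. -/
theorem eq_of_idx {d e : D.DD} (h1 : d.src = e.src) (h2 : d.tgt = e.tgt) (h3 : d.idx = e.idx) : d = e :=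
  Dart.ext h1 h2 h3

/-! ### the rotation -/

@[simp] theorem σ_inv (d : D.DD) : D.σ (D.σ⁻¹ d) = d := D.σ.apply_symm_apply d

@[simp] theorem inv_σ (d : D.DD) : D.σ⁻¹ (D.σ d) = d := D.σ.symm_apply_apply d

theorem σσ {d : D.DD} (h : d.idx ≠ 0) : D.σ (D.σ d) = op d := D.cross_σ d h

theorem σ_idx_ne {d : D.DD} (h : d.idx ≠ 0) : (D.σ d).idx ≠ 0 := fun h' => h ((D.idx_σ d).1 h')

theorem σ4 {d : D.DD} (h : d.idx ≠ 0) : D.σ (D.σ (D.σ (D.σ d))) = d := by
  rw [σσ h, σσ (op_idx_ne h), op_op]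

theorem σ_op {d : D.DD} : D.σ (op d) = op (D.σ d) := by
  by_cases h : d.idx = 0
  · rw [op_of_idx_zero h, op_of_idx_zero ((D.idx_σ d).2 h)]
  · rw [← σσ h, ← σσ (σ_idx_ne h)]

theorem inv_idx {d : D.DD} : (D.σ⁻¹ d).idx = 0 ↔ d.idx = 0 := by
  have := D.idx_σ (D.σ⁻¹ d)
  rw [σ_inv] at this
  exact this.symm

theorem inv_idx_ne {d : D.DD} (h : d.idx ≠ 0) : (D.σ⁻¹ d).idx ≠ 0 := fun h' => h (inv_idx.1 h')

theorem inv_src {d : D.DD} (h : d.idx = 0) : (D.σ⁻¹ d).src = d.src := by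
  have := D.src_σ (D.σ⁻¹ d) (inv_idx.2 h)
  rw [σ_inv] at this
  exact this.symm

theorem inv_eq_op_σ {d : D.DD} (h : d.idx ≠ 0) : D.σ⁻¹ d = op (D.σ d) := by
  rw [Perm.inv_eq_iff_eq, ← σ_op, σσ (op_idx_ne h), op_op]

theorem inv_eq_σ_op {d : D.DD} (h : d.idx ≠ 0) : D.σ⁻¹ d = D.σ (op d) := by
  rw [inv_eq_op_σ h, σ_op]

/-! ### the faces -/

theorem φ_apply (d : D.DD) : D.φ d = D.σ⁻¹ (rv d) := rfl

@[simp] theorem σφ (d : D.DD) : D.σ (D.φ d) = rv d := by
  rw [φ_apply, σ_inv]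

theorem φ_eq_iff {d e : D.DD} : D.φ d = e ↔ rv d = D.σ e := by
  rw [φ_apply, Perm.inv_eq_iff_eq]

theorem φ_inj {d e : D.DD} : D.φ d = D.φ e ↔ d = e := (D.φ).injective.eq_iff

@[simp] theorem φ_rv_σ (d : D.DD) : D.φ (rv (D.σ d)) = d := by
  rw [φ_eq_iff, rv_rv]

theorem φ_idx_zero {d : D.DD} : (D.φ d).idx = 0 ↔ Last d := by
  rw [φ_apply, inv_idx, rv_idx_zero]

theorem φ_src {d : D.DD} (h : Last d) : (D.φ d).src = d.tgt := by
  rw [φ_apply, inv_src (rv_idx_zero.2 h), rv_src]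

theorem φ_eq_σ_nx {d : D.DD} (h : ¬ Last d) : D.φ d = D.σ (nx d h) := by
  have h' : (rv d).idx ≠ 0 := fun h1 => h (rv_idx_zero.1 h1)
  rw [φ_apply, inv_eq_σ_op h', op_rv h]

theorem φ_rv (d : D.DD) : D.φ (rv d) = D.σ⁻¹ d := by
  rw [φ_apply, rv_rv]

theorem σ_real {d : D.DD} (h : d.idx = 0) : (D.σ d).idx = 0 := (D.idx_σ d).2 h

theorem σ_real_src {d : D.DD} (h : d.idx = 0) : (D.σ d).src = d.src := D.src_σ d h

theorem src_ne_tgt (d : D.DD) : d.src ≠ d.tgt := d.adj.ne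

/-! ### crossings -/

/-- `a` is an end of the edge of `d`. -/
def On (a : V) (d : D.DD) : Prop := a = d.src ∨ a = d.tgt

/-- `d` and `e` lie on the same edge. -/
def SameEdge (d e : D.DD) : Prop := (d.src = e.src ∧ d.tgt = e.tgt) ∨ (d.src = e.tgt ∧ d.tgt = e.src)

theorem SameEdge.refl (d : D.DD) : SameEdge d d := Or.inl ⟨rfl, rfl⟩

theorem SameEdge.symm {d e : D.DD} (h : SameEdge d e) : SameEdge e d := by
  rcases h with ⟨h1, h2⟩ | ⟨h1, h2⟩
  · exact Or.inl ⟨h1.symm, h2.symm⟩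
  · exact Or.inr ⟨h2.symm, h1.symm⟩

theorem SameEdge.trans {d e f : D.DD} (h : SameEdge d e) (h' : SameEdge e f) : SameEdge d f := by
  rcases h with ⟨h1, h2⟩ | ⟨h1, h2⟩ <;> rcases h' with ⟨h3, h4⟩ | ⟨h3, h4⟩
  · exact Or.inl ⟨h1.trans h3, h2.trans h4⟩
  · exact Or.inr ⟨h1.trans h3, h2.trans h4⟩
  · exact Or.inr ⟨h1.trans h4, h2.trans h3⟩
  · exact Or.inl ⟨h1.trans h4, h2.trans h3⟩

theorem sameEdge_rv (d : D.DD) : SameEdge (rv d) d := Or.inr ⟨rfl, rfl⟩

theorem sameEdge_op (d : D.DD) : SameEdge (op d) d := by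
  by_cases h : d.idx = 0
  · rw [op_of_idx_zero h]; exact SameEdge.refl d
  · exact Or.inr ⟨op_src h, op_tgt h⟩

theorem sameEdge_nx (d : D.DD) (h : ¬ Last d) : SameEdge (nx d h) d := Or.inl ⟨rfl, rfl⟩

theorem SameEdge.on {a : V} {d e : D.DD} (h : SameEdge d e) : On a d ↔ On a e := by
  unfold On
  rcases h with ⟨h1, h2⟩ | ⟨h1, h2⟩
  · rw [h1, h2]
  · rw [h1, h2]; exact or_comm

theorem sameEdge_of_on {a b : V} {d e : D.DD} (hab : a ≠ b) (h1 : On a d) (h2 : On b d)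
    (h3 : On a e) (h4 : On b e) : SameEdge d e := by
  unfold On at *
  unfold SameEdge
  rcases h1 with h1 | h1 <;> rcases h2 with h2 | h2 <;> rcases h3 with h3 | h3 <;>
    rcases h4 with h4 | h4 <;> subst_vars <;> simp_all

theorem s_eq_iff {d e : D.DD} : s(d.src, d.tgt) = s(e.src, e.tgt) ↔ SameEdge d e := by
  rw [Sym2.eq_iff]; rfl

theorem Simple.not_on (hS : D.Simple) {d : D.DD} (h : d.idx ≠ 0) {a : V} (h1 : On a d) :
    ¬ On a (D.σ d) := by
  obtain ⟨h2, h3, h4, h5⟩ := hS.disjoint d h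
  unfold On at *
  rcases h1 with rfl | rfl
  · rintro (h6 | h6)
    · exact h2 h6.symm
    · exact h4 h6.symm
  · rintro (h6 | h6)
    · exact h3 h6.symm
    · exact h5 h6.symm

theorem Simple.not_sameEdge (hS : D.Simple) {d : D.DD} (h : d.idx ≠ 0) : ¬ SameEdge d (D.σ d) := fun h' =>
  hS.not_on h (Or.inl rfl) (h'.on.1 (Or.inl rfl))

theorem Simple.once' (hS : D.Simple) {d e : D.DD} (hd : d.idx ≠ 0) (he : e.idx ≠ 0)
    (h1 : d.src = e.src) (h2 : d.tgt = e.tgt) (h3 : SameEdge (D.σ d) (D.σ e)) : d = e :=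
  hS.once d e hd he h1 h2 (s_eq_iff.2 h3)

/-- The edge of `d` is crossed at least twice, and all edges which cross it are incident with `a`. -/
def Apex (a : V) (d : D.DD) : Prop :=
  2 ≤ D.k d.src d.tgt ∧ ∀ e : D.DD, e.idx ≠ 0 → SameEdge e d → On a (D.σ e)

theorem Apex.congr {a : V} {d e : D.DD} (h : SameEdge d e) : Apex a d ↔ Apex a e := by
  unfold Apex
  have hk : D.k d.src d.tgt = D.k e.src e.tgt := by
    rcases h with ⟨h1, h2⟩ | ⟨h1, h2⟩
    · rw [h1, h2]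
    · rw [h1, h2, D.k_symm]
  rw [hk]
  refine and_congr_right fun _ => forall_congr' fun f => imp_congr_right fun _ => ?_
  exact ⟨fun h1 h2 => h1 (h2.trans h.symm), fun h1 h2 => h1 (h2.trans h)⟩

theorem Apex.unique (hS : D.Simple) {a b : V} {d : D.DD} (ha : Apex a d) (hb : Apex b d) : a = b := by
  by_contra hab
  have h2 := ha.1
  let e1 : D.DD := ⟨d.src, d.tgt, 1, d.adj, by omega⟩
  let e2 : D.DD := ⟨d.src, d.tgt, 2, d.adj, by omega⟩
  have h11 := ha.2 e1 (by simp [e1]) (Or.inl ⟨rfl, rfl⟩)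
  have h12 := ha.2 e2 (by simp [e2]) (Or.inl ⟨rfl, rfl⟩)
  have h21 := hb.2 e1 (by simp [e1]) (Or.inl ⟨rfl, rfl⟩)
  have h22 := hb.2 e2 (by simp [e2]) (Or.inl ⟨rfl, rfl⟩)
  have h3 : SameEdge (D.σ e1) (D.σ e2) := sameEdge_of_on hab h11 h21 h12 h22
  have := hS.once' (d := e1) (e := e2) (by simp [e1]) (by simp [e2]) rfl rfl h3
  have h4 : e1.idx = e2.idx := by rw [this]
  simp [e1, e2] at h4

/-- directed form of fan-planarity for two crossings of the same directed edge -/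
theorem FanPlanar.pair (hF : D.FanPlanar) {d e : D.DD} (hd : d.idx ≠ 0) (he : e.idx ≠ 0)
    (h1 : d.src = e.src) (h2 : d.tgt = e.tgt) :
    (D.σ d).tgt = (D.σ e).tgt ∨ (D.σ d).src = (D.σ e).src := by
  obtain ⟨a, h | h⟩ := hF d.src d.tgt d.adj
  · left; rw [h d hd rfl rfl, h e he h1.symm h2.symm]
  · right; rw [h d hd rfl rfl, h e he h1.symm h2.symm]

/-- If two different edges which cross the edge of `d` in different crossings have the same end `a`, then `a` is the apex. -/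
theorem apex_of_two (hF : D.FanPlanar) {a : V} {d e : D.DD} (hd : d.idx ≠ 0)
    (he : e.idx ≠ 0) (hde : SameEdge d e) (hne : ¬ SameEdge (D.σ d) (D.σ e)) (h1 : On a (D.σ d))
    (h2 : On a (D.σ e)) : Apex a d := by
  have key : ∀ d e : D.DD, d.idx ≠ 0 → e.idx ≠ 0 → d.src = e.src → d.tgt = e.tgt →
      ¬ SameEdge (D.σ d) (D.σ e) → On a (D.σ d) → On a (D.σ e) → Apex a d := by
    intro d e hd he hs ht hne h1 h2
    have hne' : d.idx ≠ e.idx := fun h => hne (by rw [eq_of_idx hs ht h]; exact SameEdge.refl _)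
    have hdl := d.le
    have hel := e.le
    rw [← hs, ← ht] at hel
    have hk : 2 ≤ D.k d.src d.tgt := by omega
    refine ⟨hk, ?_⟩
    obtain ⟨b, hb⟩ := hF d.src d.tgt d.adj
    have hab : a = b := by
      by_contra hab
      have h3 : On b (D.σ d) ∧ On b (D.σ e) := by
        rcases hb with hb | hb
        · exact ⟨Or.inr (hb d hd rfl rfl).symm, Or.inr (hb e he hs.symm ht.symm).symm⟩
        · exact ⟨Or.inl (hb d hd rfl rfl).symm, Or.inl (hb e he hs.symm ht.symm).symm⟩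
      exact hne (sameEdge_of_on hab h1 h3.1 h2 h3.2)
    subst hab
    have h4 : ∀ f : D.DD, f.idx ≠ 0 → f.src = d.src → f.tgt = d.tgt → On a (D.σ f) := by
      intro f hf h5 h6
      rcases hb with hb | hb
      · exact Or.inr (hb f hf h5 h6).symm
      · exact Or.inl (hb f hf h5 h6).symm
    intro f hf hfe
    rcases hfe with ⟨h5, h6⟩ | ⟨h5, h6⟩
    · exact h4 f hf h5 h6
    · have h7 := h4 (op f) (op_idx_ne hf) (by rw [op_src hf, h6]) (by rw [op_tgt hf, h5])
      rw [σ_op] at h7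
      exact (sameEdge_op _).on.1 h7
  rcases hde with ⟨hs, ht⟩ | ⟨hs, ht⟩
  · exact key d e hd he hs ht hne h1 h2
  · refine key d (op e) hd (op_idx_ne he) (by rw [op_src he, hs]) (by rw [op_tgt he, ht]) ?_ h1 ?_
    · rw [σ_op]
      exact fun h => hne (h.trans (sameEdge_op _))
    · rw [σ_op]
      exact (sameEdge_op _).on.2 h2

end Drawing

end Pool.Agent.FP
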