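import Pool.Agent.Lib.MP_2e2457_lc.Stair

/-!
# The cell next to the crossing of two consecutive base edges (MP_2e2457_lc)
-/

set_option autoImplicit false

open Equiv

noncomputable section

namespace Pool.Agent.FP

variable {V : Type}

namespace Drawing

variable {G : SimpleGraph V} {D : Drawing G}

/-- The face of `h` is a pentagon: `c` is the central cell. -/
def Pent (h : D.DD) : Prop :=
  ∃ c : D.DD, Nth (fp h 0) 1 c ∧ D.φ (D.φ (D.φ (D.φ (D.φ c)))) = c ∧ c.idx ≠ 0 ∧ (D.φ c).idx ≠ 0 ∧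
    (D.φ (D.φ c)).idx ≠ 0 ∧ (D.φ (D.φ (D.φ c))).idx ≠ 0 ∧ (D.φ (D.φ (D.φ (D.φ c)))).idx ≠ 0

theorem TA.center [Finite V] (hO : D.Opt) {h : D.DD} (hA : TA h) :
    (D.k (fp h 1).src (fp h 1).tgt = 1 ∧ D.k (gq h 1).src (gq h 1).tgt = 1 ∧
      D.σ (oe (fp h 1)) = oe (gq h 1)) ∨ L h 1 1 ∨ Pent h := by
  have hge := hA.1.rt_ge hO
  have hge' := hA.rt'_ge hO
  obtain ⟨_, _, u0, hu0, hv0⟩ := hA.x0 hO (p := 0) (by omega)
  obtain ⟨_, _, u3, hu3, hv3⟩ := hA.x0 hO (p := 1) (by omega)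
  obtain ⟨_, _, u2, hu2, hv2⟩ := hA.x0' hO (q := 1) (by omega)
  have i0 : u0.idx ≠ 0 := by rw [hu0.2.2]; omega
  have i1 : (D.σ u2).idx ≠ 0 := by rw [hv2.2.2]; omega
  have i3 : u3.idx ≠ 0 := by rw [hu3.2.2]; omega
  have hv0l : ¬ Last (D.σ u0) := hv0.not_last hv3
  have e1 : D.φ (rv (D.σ u0)) = u0 := φ_rv_σ u0
  have e2 : D.φ u0 = D.σ u2 := hu0.φ hu2
  have e3 : D.σ (rv (D.σ u0)) = u3 := by
    have h5 : op (D.σ u3) = rv (D.σ u0) := hv0.op_succ hv3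
    rw [← h5, σ_op, σσ i3, op_op]
  have e4 : D.φ (rv u3) = rv (D.σ u0) := by
    conv_lhs => rw [← e3]
    rw [φ_rv_σ]
  have n0 : (rv (D.σ u0)).idx ≠ 0 := fun h => hv0l (rv_idx_zero.1 h)
  rcases hO.tight.cell (rv (D.σ u0)) with ⟨c1, c2, c3⟩ | ⟨c1, c2⟩ | ⟨c1, c2, c3, c4, c5, c6⟩
  · rw [e1, e2, rc_neg n0, rc_neg i0, rc_neg i1] at c2
    omega
  · rw [e1, e2] at c1
    have key : D.φ (D.σ u2) = rv u3 := by
      have : D.φ (D.φ (D.σ u2)) = D.φ (rv u3) := by rw [c1, e4]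
      exact φ_inj.1 this
    by_cases hl : Last (D.σ u2)
    · left
      have hr : (D.φ (D.σ u2)).idx = 0 := φ_idx_zero.2 hl
      have hl3 : Last u3 := by rw [← rv_idx_zero, ← key]; exact hr
      refine ⟨hu3.last.1 hl3, hv2.last.1 hl, ?_⟩
      have e5 : rv u3 = oe (fp h 1) := by
        refine eq_of_idx ?_ ?_ ?_
        · rw [rv_src, hu3.2.1]; rfl
        · rw [rv_tgt, hu3.1]; rfl
        · rw [rv_idx_zero.2 hl3]; rfl
      have e6 : rv (D.σ u2) = oe (gq h 1) := by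
        refine eq_of_idx ?_ ?_ ?_
        · rw [rv_src, hv2.2.1]; rfl
        · rw [rv_tgt, hv2.1]; rfl
        · rw [rv_idx_zero.2 hl]; rfl
      rw [← e5, ← e6, ← key, σφ]
    · right; left
      have hn : (D.φ (D.σ u2)).idx ≠ 0 := by rw [Ne, φ_idx_zero]; exact hl
      have hl3 : ¬ Last u3 := by rw [← rv_idx_zero, ← key]; exact hn
      refine ⟨le_rfl, le_rfl, by omega, by omega, nx u3 hl3, hu3.nx hl3, ?_⟩
      have e5 : D.σ (nx (D.σ u2) hl) = rv u3 := by rw [← φ_eq_σ_nx, key]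
      have e6 : D.σ (nx u3 hl3) = nx (D.σ u2) hl := by
        have h0 : (nx (D.σ u2) hl).idx ≠ 0 := by simp
        rw [← op_rv hl3, ← e5, σ_op, σσ h0, op_op]
      rw [e6]
      exact hv2.nx hl
  · right; right
    refine ⟨u0, hu0, ?_, i0, ?_, ?_, ?_, ?_⟩
    · rw [← e1]
      rw [c1]
    · rw [← e1]; exact c4
    · rw [← e1]; exact c5
    · rw [← e1]; exact c6
    · rw [← e1, c1]; exact c2

/-- every middle edge with at least two crossings has an end of the base edge as apex -/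
theorem TA.apex_or [Finite V] (hO : D.Opt) {h : D.DD} (hA : TA h) {p : ℕ} (hp : p + 1 < rt h)
    (hk : 2 ≤ D.k (fp h p).src (fp h p).tgt) : Apex h.tgt (fp h p) ∨ Apex (Drawing.hr h).tgt (fp h p) := by
  obtain ⟨_, _, u, hu1, hu2⟩ := hA.x0 hO hp
  have hu0 : u.idx ≠ 0 := by rw [hu1.2.2]; omega
  have e1 : (D.σ u).src = h.tgt := by rw [hu2.1, gq_src hA.1]
  have e2 : (D.σ u).tgt = (Drawing.hr h).tgt := by rw [hu2.2.1, gq_zero, hA.φ_tgt hO]
  have key : ∀ c, (∀ d : D.DD, d.idx ≠ 0 → SameEdge d (fp h p) → On c (D.σ d)) → Apex c (fp h p) :=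
    fun c hc => ⟨hk, hc⟩
  obtain ⟨c, hc | hc⟩ := hO.fan (fp h p).src (fp h p).tgt (fp h p).adj
  · right
    have h1 := hc u hu0 hu1.1 hu1.2.1
    rw [← e2, h1]
    refine key c fun d hd hse => ?_
    rcases hse with ⟨h2, h3⟩ | ⟨h2, h3⟩
    · exact Or.inr (hc d hd h2 h3).symm
    · have h4 := hc (op d) (op_idx_ne hd) (by rw [op_src hd, h3]) (by rw [op_tgt hd, h2])
      rw [σ_op] at h4
      exact (sameEdge_op _).on.1 (Or.inr h4.symm)
  · left
    have h1 := hc u hu0 hu1.1 hu1.2.1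
    rw [← e1, h1]
    refine key c fun d hd hse => ?_
    rcases hse with ⟨h2, h3⟩ | ⟨h2, h3⟩
    · exact Or.inl (hc d hd h2 h3).symm
    · have h4 := hc (op d) (op_idx_ne hd) (by rw [op_src hd, h3]) (by rw [op_tgt hd, h2])
      rw [σ_op] at h4
      exact (sameEdge_op _).on.1 (Or.inl h4.symm)

end Drawing

end Pool.Agent.FP
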