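import Pool.Agent.Lib.MP_2e2457_lc.Base

/-!
# The charging argument (MP_2e2457_lc)
-/

set_option autoImplicit false

open Equiv

noncomputable section

namespace Pool.Agent.FP

variable {V : Type}

namespace Drawing

variable {G : SimpleGraph V} {D : Drawing G}

/-- the face to the left of the real dart `r` is a 1-triangle -/
def T1 (r : D.DD) : Prop :=
  r.idx = 0 ∧ D.φ (D.φ (D.φ r)) = r ∧ (D.φ r).idx ≠ 0 ∧ (D.φ (D.φ r)).idx ≠ 0

/-- the designated corner of a 1-triangle -/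
def Lt (d : D.DD) : Prop :=
  Last d ∧ D.φ (D.φ (D.φ d)) = d ∧ d.idx ≠ 0 ∧ (D.φ (D.φ d)).idx ≠ 0

/-- the far corner of a 0-quad -/
def Far (d : D.DD) : Prop :=
  d.idx ≠ 0 ∧ (D.φ d).idx ≠ 0 ∧ (D.φ (D.φ d)).idx ≠ 0 ∧ (D.φ (D.φ (D.φ d))).idx ≠ 0 ∧
    D.φ (D.φ (D.φ (D.φ d))) = d ∧ (D.φ d).tgt = (D.φ (D.φ (D.φ d))).src ∧ d.tgt = (D.φ (D.φ d)).src

def Cw (d : D.DD) : Prop := Lt d ∨ Far d

theorem T1.lt {r : D.DD} (h : T1 r) : Lt (D.φ (D.φ r)) := by
  obtain ⟨h0, h3, h1, h2⟩ := h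
  refine ⟨φ_idx_zero.1 (by rw [h3]; exact h0), ?_, h2, ?_⟩
  · rw [h3]
  · rw [h3]; exact h1

theorem Lt.t1 {d : D.DD} (h : Lt d) : T1 (D.φ d) := by
  obtain ⟨h0, h3, h1, h2⟩ := h
  exact ⟨φ_idx_zero.2 h0, by rw [h3], h2, by rw [h3]; exact h1⟩

theorem σ_eq_of_φ {d e : D.DD} (h : D.φ e = d) : D.σ d = rv e := by
  rw [← h, σφ]

theorem nx_ne (d : D.DD) (h : ¬ Last d) : nx d h ≠ d := fun h' => by
  have : (nx d h).idx = d.idx := by rw [h']
  simp at this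

/-- two consecutive crossings of an edge are with different edges -/
theorem cons_ne (hS : D.Simple) {x : D.DD} (hx : x.idx ≠ 0) (hl : ¬ Last x) :
    ¬ SameEdge (D.σ x) (D.φ x) := by
  rw [φ_eq_σ_nx hl]
  intro h
  exact nx_ne x hl (hS.once' (d := x) (e := nx x hl) hx (by simp) rfl rfl h).symm

theorem apex_cons (hS : D.Simple) (hF : D.FanPlanar) {a : V} {x : D.DD} (hx : x.idx ≠ 0) (hl : ¬ Last x)
    (h1 : On a (D.σ x)) (h2 : On a (D.φ x)) : Apex a x := by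
  have h3 := cons_ne hS hx hl
  rw [φ_eq_σ_nx hl] at h2 h3
  exact apex_of_two hF hx (by simp) (sameEdge_nx x hl).symm h3 h1 h2

theorem Lt.prop (hS : D.Simple) (hF : D.FanPlanar) {d : D.DD} (h : Lt d) :
    Apex d.tgt (D.σ d) ∧ ¬ Last (D.σ d) := by
  obtain ⟨h0, h3, h1, h2⟩ := h
  have h4 : D.σ d = rv (D.φ (D.φ d)) := σ_eq_of_φ h3
  constructor
  · rw [h4]
    have h5 : Apex d.tgt (D.φ (D.φ d)) := by
      refine apex_cons hS hF h2 ?_ ?_ ?_
      · rw [← φ_idx_zero, h3]; exact h1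
      · rw [σφ]; right; rw [rv_tgt, φ_src h0]
      · rw [h3]; right; rfl
    exact (Apex.congr (sameEdge_rv _)).2 h5
  · rw [h4, last_rv]; exact h2

theorem Far.prop (hS : D.Simple) (hF : D.FanPlanar) {d : D.DD} (h : Far d) :
    Apex d.tgt (D.σ d) ∧ ¬ Last (D.σ d) ∧ ¬ Last d ∧ Apex (D.σ d).tgt d := by
  obtain ⟨h0, h1, h2, h3, h4, h5, h6⟩ := h
  have h7 : D.σ d = rv (D.φ (D.φ (D.φ d))) := σ_eq_of_φ h4
  have hl : ¬ Last d := by rw [← φ_idx_zero]; exact h1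
  refine ⟨?_, ?_, hl, ?_⟩
  · rw [h7]
    refine (Apex.congr (sameEdge_rv _)).2 (apex_cons hS hF h3 ?_ ?_ ?_)
    · rw [← φ_idx_zero, h4]; exact h0
    · rw [σφ]; right; rw [rv_tgt, h6]
    · rw [h4]; right; rfl
  · rw [h7, last_rv]; exact h3
  · refine apex_cons hS hF h0 hl (Or.inr rfl) ?_
    rw [h7, rv_tgt, ← h5]; right; rfl

theorem Cw.prop (hS : D.Simple) (hF : D.FanPlanar) {d : D.DD} (h : Cw d) :
    Apex d.tgt (D.σ d) ∧ ¬ Last (D.σ d) ∧ (Last d ∨ Apex (D.σ d).tgt d) := by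
  rcases h with h | h
  · exact ⟨(h.prop hS hF).1, (h.prop hS hF).2, Or.inl h.1⟩
  · obtain ⟨h1, h2, _, h3⟩ := h.prop hS hF
    exact ⟨h1, h2, Or.inr h3⟩

theorem Cw.idx {d : D.DD} (h : Cw d) : d.idx ≠ 0 := by
  rcases h with h | h
  · exact h.2.2.1
  · exact h.1

/-- At most one corner of a crossing is charged. -/
theorem cw_σ (hS : D.Simple) (hF : D.FanPlanar) {d : D.DD} (h : Cw d) : ¬ Cw (D.σ d) := by
  intro h'
  obtain ⟨h1, h2, _⟩ := h.prop hS hF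
  obtain ⟨_, _, h3⟩ := h'.prop hS hF
  have h4 := h3.resolve_left h2
  rw [σσ h.idx, op_tgt h.idx] at h4
  exact src_ne_tgt d (Apex.unique hS h4 h1)

theorem cw_op (hS : D.Simple) (hF : D.FanPlanar) {d : D.DD} (h : Cw d) : ¬ Cw (D.σ (D.σ d)) := by
  intro h'
  obtain ⟨h1, _, _⟩ := h.prop hS hF
  obtain ⟨h3, _, _⟩ := h'.prop hS hF
  rw [σσ h.idx, op_tgt h.idx, σ_op] at h3
  exact src_ne_tgt d (Apex.unique hS ((Apex.congr (sameEdge_op _)).1 h3) h1)

theorem cw_inv (hS : D.Simple) (hF : D.FanPlanar) {d : D.DD} (h : Cw d) : ¬ Cw (D.σ (D.σ (D.σ d))) := by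
  intro h'
  have h1 := cw_σ hS hF h'
  rw [σ4 h.idx] at h1
  exact h1 h

/-! ### small orbits of `φ` -/

theorem φ_ne_self (hS : D.Simple) (d : D.DD) : D.φ d ≠ d := by
  intro h
  have h1 : D.σ d = rv d := σ_eq_of_φ h
  by_cases h0 : d.idx = 0
  · have h2 := σ_real_src h0
    rw [h1, rv_src] at h2
    exact src_ne_tgt d h2.symm
  · refine hS.not_sameEdge h0 ?_
    rw [h1]; exact (sameEdge_rv d).symm

/-- isolated edge -/
def K2 (d : D.DD) : Prop := d.idx = 0 ∧ D.σ d = d ∧ D.σ (rv d) = rv d ∧ (rv d).idx = 0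

theorem k2_of_φφ (hS : D.Simple) {d : D.DD} (h : D.φ (D.φ d) = d) : K2 d := by
  -- general facts
  have key : ∀ e : D.DD, D.φ (D.φ e) = e → e.idx = 0 → Last e := by
    intro e he h0
    by_contra hl
    -- `f = φ e` starts at a crossing on `e` and ends at `e.src`
    have h1 : D.σ e = rv (D.φ e) := σ_eq_of_φ he
    have h2 : (rv (D.φ e)).idx = 0 := by rw [← h1]; exact σ_real h0
    have h3 : (D.φ e).idx ≠ 0 := by rw [Ne, φ_idx_zero]; exact hl
    have h4 : (D.φ e).tgt = e.src := by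
      have := σ_real_src h0
      rw [h1, rv_src] at this
      exact this
    have h5 : On e.src (D.σ (D.φ e)) := by rw [σφ]; right; rfl
    exact hS.not_on h3 (Or.inr h4.symm) h5
  have h1 : D.σ d = rv (D.φ d) := σ_eq_of_φ h
  by_cases h0 : d.idx = 0
  · have hl := key d h h0
    have h2 : (D.φ d).idx = 0 := φ_idx_zero.2 hl
    have h3 : Last (D.φ d) := by
      rw [← φ_idx_zero, h]; exact h0
    have h4 : (D.φ d).src = d.tgt := φ_src hl
    have h5 : (D.φ d).tgt = d.src := by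
      have := φ_src h3
      rw [h] at this
      exact this.symm
    have h6 : D.φ d = rv d := by
      refine eq_of_idx h4 h5 ?_
      rw [h2, rv_idx_zero.2 hl]
    refine ⟨h0, ?_, ?_, rv_idx_zero.2 hl⟩
    · rw [h1, h6, rv_rv]
    · rw [← h6]; rw [σφ, ← h6]
  · exfalso
    by_cases h00 : (D.φ d).idx = 0
    · have := key (D.φ d) (by rw [h]) h00
      rw [← φ_idx_zero, h] at this
      exact h0 this
    · have hl : ¬ Last d := by rw [← φ_idx_zero]; exact h00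
      refine cons_ne hS h0 hl ?_
      rw [h1]; exact sameEdge_rv _

/-- there is no 0-triangle -/
theorem no_tri (hS : D.Simple) (hF : D.FanPlanar) {d : D.DD} (h : D.φ (D.φ (D.φ d)) = d) (h0 : d.idx ≠ 0)
    (h1 : (D.φ d).idx ≠ 0) (h2 : (D.φ (D.φ d)).idx ≠ 0) : False := by
  have hl : ¬ Last d := by rw [← φ_idx_zero]; exact h1
  have hs : D.σ d = rv (D.φ (D.φ d)) := σ_eq_of_φ h
  have hne := cons_ne hS h0 hl
  have hp := hF.pair (d := d) (e := nx d hl) h0 (by simp) rfl rfl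
  rw [← φ_eq_σ_nx hl] at hp
  -- the edges of `φ d` and `φ φ d` cross at the tail of `φ φ d`
  have h3 : D.σ (D.φ (D.φ d)) = rv (D.φ d) := σφ _
  have h4 : ∀ a, On a (D.φ (D.φ d)) → ¬ On a (D.φ d) := by
    intro a ha hb
    refine hS.not_on h2 ha ?_
    rw [h3]; exact (sameEdge_rv _).on.2 hb
  rw [hs] at hp
  rcases hp with hp | hp
  · exact h4 (D.φ d).tgt (Or.inl (by rw [← hp]; rfl)) (Or.inr rfl)
  · exact h4 (D.φ d).src (Or.inr (by rw [← hp]; rfl)) (Or.inl rfl)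

/-- a 0-quad has a far corner -/
theorem quad_far (hS : D.Simple) (hF : D.FanPlanar) {d : D.DD} (h : D.φ (D.φ (D.φ (D.φ d))) = d)
    (h0 : d.idx ≠ 0) (h1 : (D.φ d).idx ≠ 0) (h2 : (D.φ (D.φ d)).idx ≠ 0) (h3 : (D.φ (D.φ (D.φ d))).idx ≠ 0) :
    Far d ∨ Far (D.φ d) ∨ Far (D.φ (D.φ d)) ∨ Far (D.φ (D.φ (D.φ d))) := by
  have key : ∀ e : D.DD, D.φ (D.φ (D.φ (D.φ e))) = e → e.idx ≠ 0 → (D.φ e).idx ≠ 0 →
      ((D.φ e).tgt = (D.φ (D.φ (D.φ e))).src ∨ (D.φ (D.φ (D.φ e))).tgt = (D.φ e).src) := by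
    intro e he h0 h1
    have hl : ¬ Last e := by rw [← φ_idx_zero]; exact h1
    have hs : D.σ e = rv (D.φ (D.φ (D.φ e))) := σ_eq_of_φ he
    have hp := hF.pair (d := e) (e := nx e hl) h0 (by simp) rfl rfl
    rw [← φ_eq_σ_nx hl, hs] at hp
    rcases hp with hp | hp
    · left; rw [← hp]; rfl
    · right; rw [← hp]; rfl
  have k1 := key d h h0 h1
  have k2 := key (D.φ d) (by rw [h]) h1 h2
  rw [h] at k2
  unfold Far
  rw [h]
  rcases k1 with k1 | k1 <;> rcases k2 with k2 | k2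
  · right; left
    exact ⟨h1, h2, h3, h0, rfl, k2, k1⟩
  · left
    exact ⟨h0, h1, h2, h3, rfl, k1, k2⟩
  · right; right; left
    exact ⟨h2, h3, h0, h1, rfl, k1, k2⟩
  · right; right; right
    exact ⟨h3, h0, h1, h2, rfl, k2, k1⟩

end Drawing

end Pool.Agent.FP
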