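import Pool.Agent.Lib.MP_2e2457_lc.FillCount

/-!
# The drawing of a decomposition: definitions (MP_2e2457_lc)

`OE` : the oriented edges of the drawing. `h d` : a dart of `H`; `sp d` : the two-hop edge from `d.fst` to
`(face d).snd`; `sm d` : the same edge backwards; `Sp d p` : the `p`-th edge `x i z j` at `x i = d.fst`,
`j = c (i + 1) + 1 - p`; `Sm d p` : the same edge backwards.
-/

set_option autoImplicit false

open Equiv

noncomputable section

namespace Pool.Agent.FP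

variable {V : Type} {G : SimpleGraph V}

/-- oriented edges -/
inductive OE (B : Type) : Type
  | h (d : B) : OE B
  | sp (d : B) : OE B
  | sm (d : B) : OE B
  | Sp (d : B) (p : ℕ) : OE B
  | Sm (d : B) (p : ℕ) : OE B

namespace Filling

variable (S : Filling G)

/-- the darts of `H` -/
abbrev B : Type := S.H.Dart

/-- the face permutation -/
abbrev F : Perm S.B := S.R.face

def Inn (d : S.B) : Prop := ∃ i, (S.A i).IsInner d
def Out (d : S.B) : Prop := ∃ i, (S.A i).IsOuter d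

/-- the outer dart `d` is number `a` of the walk of the annular face `i` -/
def At (i : S.ι) (a : ℤ) (d : S.B) : Prop := (S.F ^ a) (S.A i).t = d

variable {S}

theorem Out.exists_at {d : S.B} (h : S.Out d) : ∃ x : S.ι × ℤ, S.At x.1 x.2 d := by
  obtain ⟨i, a, ha⟩ := h
  exact ⟨(i, a), ha⟩

theorem At.out {i : S.ι} {a : ℤ} {d : S.B} (h : S.At i a d) : S.Out d := ⟨i, a, h⟩

theorem At.isOuter {i : S.ι} {a : ℤ} {d : S.B} (h : S.At i a d) : (S.A i).IsOuter d := ⟨a, h⟩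

/-- two positions of the same dart -/
theorem At.eq {i j : S.ι} {a b : ℤ} {d : S.B} (h : S.At i a d) (h' : S.At j b d) :
    i = j ∧ ∃ m : ℤ, b = a + (S.A i).N * m := by
  have h1 : i = j := S.outer_unique i j d h.isOuter h'.isOuter
  subst h1
  refine ⟨rfl, ?_⟩
  have h2 : (S.F ^ (b - a)) (S.A i).t = (S.A i).t := by
    rw [sub_eq_neg_add, zpow_add, Perm.mul_apply, h', ← h, ← Perm.mul_apply, ← zpow_add]
    simp
  obtain ⟨m, hm⟩ := ((S.A i).t_period _).1 h2
  exact ⟨m, by omega⟩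

theorem c_mul (i : S.ι) (a m : ℤ) : (S.A i).c (a + (S.A i).N * m) = (S.A i).c a + (S.A i).M * m := by
  induction m using Int.induction_on with
  | zero => simp
  | succ n ih =>
    rw [mul_add, mul_one, ← add_assoc, (S.A i).c_period, ih]; ring
  | pred n ih =>
    have h := (S.A i).c_period (a + (S.A i).N * (-(n : ℤ) - 1))
    rw [show a + ((S.A i).N : ℤ) * (-(n : ℤ) - 1) + (S.A i).N = a + (S.A i).N * (-(n : ℤ)) by ring, ih] at h
    linarith

theorem F_pow_inner {i : S.ι} {q : S.B} (hq : (S.A i).inner = Sum.inr q) (j m : ℤ) :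
    (S.F ^ (j + (S.A i).M * m)) q = (S.F ^ j) q := by
  rw [zpow_add, Perm.mul_apply, (((S.A i).inner_dart q hq).2 _).2 ⟨m, rfl⟩]

theorem z_mul (i : S.ι) (j m : ℤ) : (S.A i).z (j + (S.A i).M * m) = (S.A i).z j := by
  unfold Annulus.z
  cases h : (S.A i).inner with
  | inl v => rfl
  | inr q =>
    simp only [Sum.elim_inr]
    rw [show -(j + ((S.A i).M : ℤ) * m) = -j + (S.A i).M * (-m) by ring]
    rw [F_pow_inner h]

variable (S)

open Classical in
/-- `c (a + 1) - c a` -/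
def δ (d : S.B) : ℕ :=
  if h : S.Out d then ((S.A h.exists_at.choose.1).c (h.exists_at.choose.2 + 1) -
    (S.A h.exists_at.choose.1).c h.exists_at.choose.2).toNat else 0

open Classical in
/-- end of the edge `Sp d p` -/
def zv (d : S.B) (p : ℕ) : V :=
  if h : S.Out d then (S.A h.exists_at.choose.1).z
    ((S.A h.exists_at.choose.1).c (h.exists_at.choose.2 + 1) + 1 - p) else d.fst

open Classical in
/-- the dart of the inner walk which starts at the end of the edge `Sp d p` -/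
def zd (d : S.B) (p : ℕ) : S.B :=
  if h : S.Out d then Sum.elim (fun _ => d) (fun q => (S.F ^ (-((S.A h.exists_at.choose.1).c
    (h.exists_at.choose.2 + 1) + 1 - p))) q) (S.A h.exists_at.choose.1).inner else d

open Classical in
/-- the first edge `Sp d p` (read backwards) at the start of the inner dart `D` -/
def fst (D : S.B) : S.B × ℕ :=
  if h : ∃ x : S.B × ℕ, S.Out x.1 ∧ 1 ≤ x.2 ∧ x.2 ≤ S.δ x.1 ∧ S.zd x.1 x.2 = D then h.choose else (D, 0)

open Classical in
/-- number of the edges in the angle of a dart -/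
def nn (d : S.B) : ℕ := if S.Out d then S.δ d + S.δ (S.F⁻¹ d) + 3 else 2

def rv : OE S.B → OE S.B
  | .h d => .h d.symm
  | .sp d => .sm d
  | .sm d => .sp d
  | .Sp d p => .Sm d p
  | .Sm d p => .Sp d p

def ok : OE S.B → Prop
  | .h _ => True
  | .sp d => ¬ S.Inn d
  | .sm d => ¬ S.Inn d
  | .Sp d p => S.Out d ∧ 1 ≤ p ∧ p + 2 ≤ S.nn d
  | .Sm d p => S.Out d ∧ 1 ≤ p ∧ p + 2 ≤ S.nn d

/-- number of crossings -/
def K : OE S.B → ℕ
  | .h _ => 0
  | .sp d => S.nn (S.F d)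
  | .sm d => S.nn (S.F d)
  | .Sp d p => if p ≤ S.δ d + 1 then S.δ d + 2 - p else p - S.δ d
  | .Sm d p => if p ≤ S.δ d + 1 then S.δ d + 2 - p else p - S.δ d

def src : OE S.B → V
  | .h d => d.fst
  | .sp d => d.fst
  | .sm d => (S.F d).snd
  | .Sp d _ => d.fst
  | .Sm d p => S.zv d p

/-- the edges in the angle of the dart `d` -/
def f (d : S.B) (p : ℕ) : OE S.B :=
  if p = 0 then .sp d else if p + 1 = S.nn d then .sm (S.F⁻¹ (S.F⁻¹ d)) else .Sp d p

/-- the dart which follows the dart with index `i` at a crossing -/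
def X : OE S.B → ℕ → OE S.B × ℕ
  | .h d, i => (.h d, i)
  | .sp d, i => (S.f (S.F d) (S.nn (S.F d) - i), 1)
  | .sm d, i => (S.rv (S.f (S.F d) (i - 1)), S.K (S.f (S.F d) (i - 1)))
  | .Sp d p, i =>
    if i = 1 then (.sm (S.F⁻¹ d), p + 1)
    else if p ≤ S.δ d then (.Sp (S.F d) (S.nn (S.F d) - i), p + 1)
    else (.Sm (S.F⁻¹ d) (i - 1), p + 1 - i - S.δ d)
  | .Sm d p, i =>
    if i = S.K (.Sm d p) then (.sp (S.F⁻¹ d), S.nn d - p)
    else if p ≤ S.δ d then (.Sm (S.F d) (p + i + S.δ (S.F d)), i)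
    else (.Sp (S.F⁻¹ d) (p - S.δ d - i), S.nn d - p)

open Classical in
/-- the rotation at the vertices -/
def ρ : OE S.B → OE S.B
  | .h d => if S.Inn d then .Sm (S.fst d).1 (S.fst d).2 else .sp d
  | .sp d => S.f d 1
  | .sm d => .h (S.F d).symm
  | .Sp d p => S.f d (p + 1)
  | .Sm d p => if p ≤ S.δ d + 1 then .Sm (S.F d) (p + S.δ (S.F d)) else .h (S.R.rot (S.zd d p))

/-- charged darts -/
def ch : OE S.B × ℕ → Prop
  | (.h _, _) => False
  | (.sp d, i) => i = S.nn (S.F d)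
  | (.sm _, _) => False
  | (.Sp _ _, _) => False
  | (.Sm d p, i) => 1 ≤ i ∧ (p ≤ S.δ d + 1 ∨ i = S.K (.Sm d p))

variable {S}

/-! ### basic facts -/

@[simp] theorem FFi (d : S.B) : S.F (S.F⁻¹ d) = d := S.F.apply_symm_apply d
@[simp] theorem FiF (d : S.B) : S.F⁻¹ (S.F d) = d := S.F.symm_apply_apply d

theorem At.δ_eq {i : S.ι} {a : ℤ} {d : S.B} (h : S.At i a d) : (S.δ d : ℤ) = (S.A i).c (a + 1) - (S.A i).c a := by
  have h1 : S.Out d := h.out
  obtain ⟨h2, m, h3⟩ := h.eq h1.exists_at.choose_spec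
  rw [δ, dif_pos h1, ← h2, h3, show a + (S.A i).N * m + 1 = (a + 1) + (S.A i).N * m by ring, c_mul, c_mul]
  have h4 := (S.A i).c_mono (show a ≤ a + 1 by omega)
  rw [Int.toNat_of_nonneg (by omega)]
  ring

theorem At.zv_eq {i : S.ι} {a : ℤ} {d : S.B} (h : S.At i a d) (p : ℕ) :
    S.zv d p = (S.A i).z ((S.A i).c (a + 1) + 1 - p) := by
  have h1 : S.Out d := h.out
  obtain ⟨h2, m, h3⟩ := h.eq h1.exists_at.choose_spec
  rw [zv, dif_pos h1, ← h2, h3, show a + (S.A i).N * m + 1 = (a + 1) + (S.A i).N * m by ring, c_mul,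
    show (S.A i).c (a + 1) + ((S.A i).M : ℤ) * m + 1 - p = ((S.A i).c (a + 1) + 1 - p) + (S.A i).M * m by ring, z_mul]

theorem At.zd_eq {i : S.ι} {a : ℤ} {d : S.B} (h : S.At i a d) {q : S.B} (hq : (S.A i).inner = Sum.inr q) (p : ℕ) :
    S.zd d p = (S.F ^ (-((S.A i).c (a + 1) + 1 - p))) q := by
  have h1 : S.Out d := h.out
  obtain ⟨h2, m, h3⟩ := h.eq h1.exists_at.choose_spec
  rw [zd, dif_pos h1, ← h2, hq, Sum.elim_inr, h3, show a + (S.A i).N * m + 1 = (a + 1) + (S.A i).N * m by ring, c_mul,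
    show -((S.A i).c (a + 1) + ((S.A i).M : ℤ) * m + 1 - p) = -((S.A i).c (a + 1) + 1 - p) + (S.A i).M * (-m) by ring,
    F_pow_inner hq]

theorem At.F {i : S.ι} {a : ℤ} {d : S.B} (h : S.At i a d) : S.At i (a + 1) (S.F d) := by
  unfold At at *
  rw [add_comm, zpow_add, zpow_one, Perm.mul_apply, h]

theorem At.F_inv {i : S.ι} {a : ℤ} {d : S.B} (h : S.At i a d) : S.At i (a - 1) (S.F⁻¹ d) := by
  unfold At at *
  rw [sub_eq_neg_add, zpow_add, zpow_neg_one, Perm.mul_apply, h]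

theorem out_F {d : S.B} : S.Out (S.F d) ↔ S.Out d := by
  constructor
  · rintro ⟨i, h⟩
    exact ⟨i, Perm.sameCycle_apply_right.1 h⟩
  · rintro ⟨i, h⟩
    exact ⟨i, Perm.sameCycle_apply_right.2 h⟩

theorem out_F_inv {d : S.B} : S.Out (S.F⁻¹ d) ↔ S.Out d := by
  rw [← out_F, FFi]

theorem inn_F {d : S.B} : S.Inn (S.F d) ↔ S.Inn d := by
  constructor
  · rintro ⟨i, q, h, h'⟩
    exact ⟨i, q, h, Perm.sameCycle_apply_right.1 h'⟩
  · rintro ⟨i, q, h, h'⟩
    exact ⟨i, q, h, Perm.sameCycle_apply_right.2 h'⟩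

theorem inn_F_inv {d : S.B} : S.Inn (S.F⁻¹ d) ↔ S.Inn d := by
  rw [← inn_F, FFi]

theorem Out.not_inn {d : S.B} (h : S.Out d) : ¬ S.Inn d := by
  rintro ⟨j, hj⟩
  obtain ⟨i, hi⟩ := h
  exact S.outer_inner i j d hi hj

theorem nn_out {d : S.B} (h : S.Out d) : S.nn d = S.δ d + S.δ (S.F⁻¹ d) + 3 := by rw [nn, if_pos h]
theorem nn_out_F {d : S.B} (h : S.Out d) : S.nn (S.F d) = S.δ (S.F d) + S.δ d + 3 := by
  rw [nn, if_pos (out_F.2 h), FiF]
theorem nn_not_out {d : S.B} (h : ¬ S.Out d) : S.nn d = 2 := by rw [nn, if_neg h]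
theorem two_le_nn (d : S.B) : 2 ≤ S.nn d := by unfold nn; split_ifs <;> omega

theorem δ_not_out {d : S.B} (h : ¬ S.Out d) : S.δ d = 0 := by rw [δ, dif_neg h]

/-- on a pentagon `face` has order five -/
theorem F5 {d : S.B} (h : ¬ S.Out d) (h' : ¬ S.Inn d) : S.F (S.F (S.F (S.F (S.F d)))) = d := by
  have h1 := (S.pentagon d (fun i hi => h ⟨i, hi⟩) (fun i hi => h' ⟨i, hi⟩) 5).2 (dvd_refl _)
  exact h1

theorem F_fst (d : S.B) : (S.F d).fst = d.snd := by
  have h1 : S.R.rot (S.F d) = d.symm := S.R.rot.apply_symm_apply _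
  have h2 := S.R.rot_fst (S.F d)
  rw [h1] at h2
  exact h2.symm

theorem rot_F (d : S.B) : S.R.rot (S.F d) = d.symm := S.R.rot.apply_symm_apply _

theorem rot_eq (d : S.B) : S.R.rot d = (S.F⁻¹ d).symm := by
  rw [← rot_F, FFi]

end Filling

end Pool.Agent.FP
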