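import Pool.Agent.Lib.MP_2e2457_lc.ConvF1

/-!
# Charges (MP_2e2457_lc)
-/

set_option autoImplicit false

open Equiv

noncomputable section

namespace Pool.Agent.FP

variable {V : Type} {G : SimpleGraph V}

namespace Filling

variable {S : Filling G}

open Classical in
/-- indicator of the charged darts -/
def ich (x : OE S.B × ℕ) : ℕ := if S.ch x then 1 else 0

theorem ich_pos {x : OE S.B × ℕ} (h : S.ch x) : ich x = 1 := by rw [ich, if_pos h]
theorem ich_neg {x : OE S.B × ℕ} (h : ¬ S.ch x) : ich x = 0 := by rw [ich, if_neg h]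

theorem ich_h (d : S.B) (i : ℕ) : ich (S := S) (.h d, i) = 0 := ich_neg (fun h => h)
theorem ich_sm (d : S.B) (i : ℕ) : ich (S := S) (.sm d, i) = 0 := ich_neg (fun h => h)
theorem ich_Sp (d : S.B) (p i : ℕ) : ich (S := S) (.Sp d p, i) = 0 := ich_neg (fun h => h)

theorem ich_f_one (d : S.B) (p : ℕ) : ich (S.f d p, 1) = 0 := by
  by_cases h0 : p = 0
  · subst h0
    rw [f_zero]
    have := two_le_nn (S.F d)
    exact ich_neg (x := (.sp d, 1)) (fun h => by have h1 : 1 = S.nn (S.F d) := h; omega)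
  by_cases h1 : p + 1 = S.nn d
  · rw [f_last h1, ich_sm]
  · rw [f_mid h0 h1, ich_Sp]

theorem charged_sp {d : S.B} {i : ℕ} (_he : S.ok (.sp d)) (h1 : 1 ≤ i) (h2 : i ≤ S.K (.sp d)) :
    ich (S := S) (.sp d, i) + ich (S.X (.sp d) i) + ich (S.rv (.sp d), S.K (.sp d) + 1 - i) +
      ich (S.X (S.rv (.sp d)) (S.K (.sp d) + 1 - i)) = 1 := by
  rw [K_sp] at *
  have h3 : S.X (.sp d) i = (S.f (S.F d) (S.nn (S.F d) - i), 1) := rfl
  have h4 : S.X (S.rv (.sp d)) (S.nn (S.F d) + 1 - i) = (S.rv (S.f (S.F d) (S.nn (S.F d) - i)), S.K (S.f (S.F d) (S.nn (S.F d) - i))) := by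
    simp only [rv, X]
    have : S.nn (S.F d) + 1 - i - 1 = S.nn (S.F d) - i := by omega
    rw [this]
  rw [h3, h4, ich_f_one]
  have h5 : ich (S.rv (.sp d), S.nn (S.F d) + 1 - i) = 0 := ich_sm _ _
  rw [h5]
  by_cases c : i = S.nn (S.F d)
  · have h6 : ich (S := S) (.sp d, i) = 1 := ich_pos (x := (.sp d, i)) c
    have h7 : S.nn (S.F d) - i = 0 := by omega
    rw [h6, h7, f_zero]
    have h8 : ich (S.rv (.sp (S.F d)), S.K (.sp (S.F d))) = 0 := ich_sm _ _
    rw [h8]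
  · have h6 : ich (S := S) (.sp d, i) = 0 := ich_neg (x := (.sp d, i)) c
    rw [h6]
    have hK := K_f_pos (d := S.F d) (p := S.nn (S.F d) - i) (by omega)
    have h7 : ich (S.rv (S.f (S.F d) (S.nn (S.F d) - i)), S.K (S.f (S.F d) (S.nn (S.F d) - i))) = 1 := by
      refine ich_pos ?_
      by_cases c1 : S.nn (S.F d) - i + 1 = S.nn (S.F d)
      · rw [f_last c1]
        simp only [rv, K_sm]
        rfl
      · rw [f_mid (by omega) c1] at hK ⊢
        exact ⟨hK, Or.inr rfl⟩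
    rw [h7]

theorem charged_Sp {d : S.B} {p i : ℕ} (he : S.ok (.Sp d p)) (h1 : 1 ≤ i) (h2 : i ≤ S.K (.Sp d p)) :
    ich (S := S) (.Sp d p, i) + ich (S.X (.Sp d p) i) + ich (S.rv (.Sp d p), S.K (.Sp d p) + 1 - i) +
      ich (S.X (S.rv (.Sp d p)) (S.K (.Sp d p) + 1 - i)) = 1 := by
  obtain ⟨hO, hp, hp'⟩ := he
  have n1 := nn_out hO
  have hr : S.rv (.Sp d p) = .Sm d p := rfl
  rw [hr, ich_Sp]
  by_cases c1 : i = 1
  · subst c1
    rw [X_Sp_one, ich_sm, Nat.add_sub_cancel, X_Sm_K]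
    have h3 : ich (S := S) (.Sm d p, S.K (.Sp d p)) = 1 := ich_pos (x := (.Sm d p, S.K (.Sp d p))) ⟨h2, Or.inr rfl⟩
    have h4 : ich (S := S) (.sp (S.F⁻¹ d), S.nn d - p) = 0 := by
      refine ich_neg (x := (.sp (S.F⁻¹ d), S.nn d - p)) ?_
      intro h
      have h5 : S.nn d - p = S.nn (S.F (S.F⁻¹ d)) := h
      rw [FFi] at h5
      omega
    rw [h3, h4]
  by_cases c2 : p ≤ S.δ d
  · have hK : S.K (.Sp d p) = S.δ d + 2 - p := K_Sp_le (by omega)
    rw [X_Sp_le c2 c1, ich_Sp, X_Sm_le c2 (by omega)]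
    have h3 : ich (S := S) (.Sm d p, S.K (.Sp d p) + 1 - i) = 1 :=
      ich_pos (x := (.Sm d p, S.K (.Sp d p) + 1 - i)) ⟨by omega, Or.inl (by omega)⟩
    have h4 : ich (S := S) (.Sm (S.F d) (p + (S.K (.Sp d p) + 1 - i) + S.δ (S.F d)), S.K (.Sp d p) + 1 - i) = 0 := by
      refine ich_neg (x := (.Sm (S.F d) (p + (S.K (.Sp d p) + 1 - i) + S.δ (S.F d)), S.K (.Sp d p) + 1 - i)) ?_
      rintro ⟨h5, h6 | h6⟩
      · omega
      · have h7 : S.K (.Sp (S.F d) (p + (S.K (.Sp d p) + 1 - i) + S.δ (S.F d))) =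
            p + (S.K (.Sp d p) + 1 - i) + S.δ (S.F d) - S.δ (S.F d) := K_Sp_gt (by omega)
        rw [K_Sm, h7] at h6
        omega
    rw [h3, h4]
  · by_cases c3 : p = S.δ d + 1
    · rw [K_Sp_le (by omega)] at h2; omega
    have hK : S.K (.Sp d p) = p - S.δ d := K_Sp_gt (by omega)
    rw [X_Sp_gt c2 c1, X_Sm_gt c2 (by omega), ich_Sp]
    have h3 : ich (S := S) (.Sm (S.F⁻¹ d) (i - 1), p + 1 - i - S.δ d) = 1 :=
      ich_pos (x := (.Sm (S.F⁻¹ d) (i - 1), p + 1 - i - S.δ d)) ⟨by omega, Or.inl (by omega)⟩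
    have h4 : ich (S := S) (.Sm d p, S.K (.Sp d p) + 1 - i) = 0 := by
      refine ich_neg (x := (.Sm d p, S.K (.Sp d p) + 1 - i)) ?_
      rintro ⟨h5, h6 | h6⟩
      · omega
      · rw [K_Sm] at h6; omega
    rw [h3, h4]

variable [Finite V]

theorem charged : S.pre.Charged S.ch where
  zero := ch_zero
  one := by
    have sym : ∀ (e : OE S.B) (i : ℕ), 1 ≤ i → i ≤ S.K e →
        ich (e, i) + ich (S.X e i) + ich (S.rv e, S.K e + 1 - i) + ich (S.X (S.rv e) (S.K e + 1 - i)) = 1 →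
        ich (S.rv e, S.K (S.rv e) + 1 - i) + ich (S.X (S.rv e) (S.K (S.rv e) + 1 - i)) +
          ich (S.rv (S.rv e), S.K (S.rv e) + 1 - (S.K (S.rv e) + 1 - i)) +
          ich (S.X (S.rv (S.rv e)) (S.K (S.rv e) + 1 - (S.K (S.rv e) + 1 - i))) = 1 := by
      intro e i h1 h2 h
      rw [rv_rv, K_rv]
      have h3 : S.K e + 1 - (S.K e + 1 - i) = i := by omega
      rw [h3]
      omega
    have main : ∀ (e : OE S.B) (i : ℕ), S.ok e → 1 ≤ i → i ≤ S.K e →
        ich (e, i) + ich (S.X e i) + ich (S.rv e, S.K e + 1 - i) + ich (S.X (S.rv e) (S.K e + 1 - i)) = 1 := by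
      intro e i he h1 h2
      cases e with
      | h d => simp only [K] at h2; omega
      | sp d => exact charged_sp he h1 h2
      | Sp d p => exact charged_Sp he h1 h2
      | sm d =>
        have h3 : i ≤ S.K (.sp d) := h2
        have h4 := sym (.sp d) (S.K (.sp d) + 1 - i) (by omega) (by omega)
          (charged_sp he (by omega) (by omega))
        have h5 : S.K (S.rv (.sp d)) + 1 - (S.K (.sp d) + 1 - i) = i := by rw [K_rv]; omega
        rw [h5] at h4
        exact h4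
      | Sm d p =>
        have h3 : i ≤ S.K (.Sp d p) := h2
        have h4 := sym (.Sp d p) (S.K (.Sp d p) + 1 - i) (by omega) (by omega)
          (charged_Sp he (by omega) (by omega))
        have h5 : S.K (S.rv (.Sp d p)) + 1 - (S.K (.Sp d p) + 1 - i) = i := by rw [K_rv]; omega
        rw [h5] at h4
        exact h4
    exact main

end Filling

end Pool.Agent.FP
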