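import Pool.Agent.Lib.MP_2e2457_lc.ConvF2

/-!
# Every dart lies in one of the faces (MP_2e2457_lc)
-/

set_option autoImplicit false

open Equiv

noncomputable section

namespace Pool.Agent.FP

variable {V : Type} {G : SimpleGraph V}

namespace Pre

variable {T : Pre G} {ch : T.E × ℕ → Prop}

theorem Face3.c1 {a b c : T.E × ℕ} (h : T.Face3 ch a b c) : T.Covered ch a := Or.inl ⟨b, c, h⟩
theorem Face3.c2 {a b c : T.E × ℕ} (h : T.Face3 ch a b c) : T.Covered ch b :=
  Or.inl ⟨c, a, h.2.1, h.2.2.1, h.1, by have := h.2.2.2; omega⟩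
theorem Face3.c3 {a b c : T.E × ℕ} (h : T.Face3 ch a b c) : T.Covered ch c :=
  Or.inl ⟨a, b, h.2.2.1, h.1, h.2.1, by have := h.2.2.2; omega⟩
theorem Face4.c1 {a b c d : T.E × ℕ} (h : T.Face4 ch a b c d) : T.Covered ch a := Or.inr (Or.inl ⟨b, c, d, h⟩)
theorem Face4.c2 {a b c d : T.E × ℕ} (h : T.Face4 ch a b c d) : T.Covered ch b :=
  Or.inr (Or.inl ⟨c, d, a, h.2.1, h.2.2.1, h.2.2.2.1, h.1, by have := h.2.2.2.2; omega⟩)
theorem Face4.c3 {a b c d : T.E × ℕ} (h : T.Face4 ch a b c d) : T.Covered ch c :=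
  Or.inr (Or.inl ⟨d, a, b, h.2.2.1, h.2.2.2.1, h.1, h.2.1, by have := h.2.2.2.2; omega⟩)
theorem Face4.c4 {a b c d : T.E × ℕ} (h : T.Face4 ch a b c d) : T.Covered ch d :=
  Or.inr (Or.inl ⟨a, b, c, h.2.2.2.1, h.1, h.2.1, h.2.2.1, by have := h.2.2.2.2; omega⟩)
theorem Face5.c1 {a b c d e : T.E × ℕ} (h : T.Face5 ch a b c d e) : T.Covered ch a :=
  Or.inr (Or.inr ⟨b, c, d, e, h⟩)

end Pre

namespace Filling

variable [Finite V] {S : Filling G}

theorem Cov.congr {x y : OE S.B × ℕ} (h : S.pre.Covered S.ch x) (hxy : x = y) : S.pre.Covered S.ch y := hxy ▸ h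

/-- first darts of the quadrangles -/
theorem cov1a {d : S.B} {q : ℕ} (h : S.Out d) (hq : q ≤ S.δ d) : S.pre.Covered S.ch (.sp d, q + 1) := by
  by_cases c2 : q = 0
  · exact Cov.congr (faceQ0 h).c1 (by rw [c2])
  · exact Cov.congr (faceQq h (q := q) (by omega) (by omega)).c1 rfl

theorem cov1b {d : S.B} {p q : ℕ} (h : S.Out d) (h1 : 1 ≤ p) (hq : p + q ≤ S.δ d) :
    S.pre.Covered S.ch (.Sp d p, q + 1) := by
  by_cases c2 : q = 0
  · exact Cov.congr (faceQp h (p := p) (by omega) (by omega)).c1 (by rw [c2])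
  · exact Cov.congr (faceQ h (p := p) (q := q) (by omega) (by omega) (by omega)).c1 rfl

/-- second darts of the quadrangles -/
theorem cov2 {d : S.B} {p q : ℕ} (h : S.Out d) (hq : p + q ≤ S.δ d) :
    S.pre.Covered S.ch (.Sp (S.F d) (S.δ d + S.δ (S.F d) + 1 - q), p + 1) := by
  by_cases c1 : p = 0
  · by_cases c2 : q = 0
    · exact Cov.congr (faceQ0 h).c2 (by rw [c2, c1]; rfl)
    · exact Cov.congr (faceQq h (q := q) (by omega) (by omega)).c2 (by rw [c1])
  · by_cases c2 : q = 0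
    · exact Cov.congr (faceQp h (p := p) (by omega) (by omega)).c2 (by rw [c2]; rfl)
    · exact Cov.congr (faceQ h (p := p) (q := q) (by omega) (by omega) (by omega)).c2 rfl

/-- third darts of the quadrangles -/
theorem cov3 {d : S.B} {p q : ℕ} (h : S.Out d) (hq : p + q ≤ S.δ d) :
    S.pre.Covered S.ch (.Sm d (p + 1), S.δ d - p - q) := by
  by_cases c1 : p = 0
  · by_cases c2 : q = 0
    · exact Cov.congr (faceQ0 h).c3 (by rw [c2, c1]; rfl)
    · exact Cov.congr (faceQq h (q := q) (by omega) (by omega)).c3 (by rw [c1]; rfl)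
  · by_cases c2 : q = 0
    · exact Cov.congr (faceQp h (p := p) (by omega) (by omega)).c3 (by rw [c2]; rfl)
    · exact Cov.congr (faceQ h (p := p) (q := q) (by omega) (by omega) (by omega)).c3 rfl

/-- fourth darts of the quadrangles -/
theorem cov4 {d : S.B} {p q : ℕ} (h : S.Out d) (h1 : 1 ≤ q) (hq : p + q ≤ S.δ d) :
    S.pre.Covered S.ch (.Sm (S.F d) (S.δ d + S.δ (S.F d) + 2 - q), S.δ d + 1 - q - p) := by
  by_cases c1 : p = 0
  · exact Cov.congr (faceQq h (q := q) (by omega) (by omega)).c4 (by rw [c1]; rfl)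
  · exact Cov.congr (faceQ h (p := p) (q := q) (by omega) (by omega) (by omega)).c4 rfl

theorem cov4' {d : S.B} {p : ℕ} (h : S.Out d) (hp : p ≤ S.δ d) :
    S.pre.Covered S.ch (.sp (S.F⁻¹ d), S.nn d - p - 1) := by
  by_cases c1 : p = 0
  · exact Cov.congr (faceQ0 h).c4 (by rw [c1]; rfl)
  · exact Cov.congr (faceQp h (p := p) (by omega) (by omega)).c4 rfl

theorem cov_sp {d : S.B} {i : ℕ} (h : ¬ S.Inn d) (hi : i ≤ S.nn (S.F d)) : S.pre.Covered S.ch (.sp d, i) := by
  have n0 := two_le_nn d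
  have n1 := two_le_nn (S.F d)
  by_cases c0 : i = 0
  · exact Cov.congr (faceT h (p := 0) (by omega)).c1 (by rw [f_zero, c0])
  by_cases c1 : i = S.nn (S.F d)
  · have h2 : ¬ S.Inn (S.F (S.F d)) := fun h' => h (inn_F.1 (inn_F.1 h'))
    have n2 := two_le_nn (S.F (S.F d))
    have h3 : S.f (S.F (S.F d)) (S.nn (S.F (S.F d)) - 2 + 1) = .sm d := by
      rw [f_last (by omega), FiF, FiF]
    refine Cov.congr (faceT h2 (p := S.nn (S.F (S.F d)) - 2) (by omega)).c3 ?_
    rw [h3, c1]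
    rfl
  by_cases hO : S.Out d
  · have m1 := nn_out_F hO
    by_cases c2 : i ≤ S.δ d + 1
    · exact Cov.congr (cov1a hO (q := i - 1) (by omega)) (Prod.ext rfl (by simp only; omega))
    · refine Cov.congr (cov4' (out_F.2 hO) (p := S.nn (S.F d) - 1 - i) (by omega)) ?_
      rw [FiF]
      exact Prod.ext rfl (by simp only; omega)
  · have m1 : S.nn (S.F d) = 2 := nn_not_out (fun h1 => hO (out_F.1 h1))
    have : i = 1 := by omega
    rw [this]
    exact (faceC hO h).c1

theorem cov_sm {d : S.B} {i : ℕ} (h : ¬ S.Inn d) (hi : i ≤ S.nn (S.F d)) : S.pre.Covered S.ch (.sm d, i) := by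
  have h2 : ¬ S.Inn (S.F d) := fun h' => h (inn_F.1 h')
  by_cases c0 : i = 0
  · exact Cov.congr (faceH h2).c2 (by rw [FiF, c0])
  by_cases c1 : i = S.nn (S.F d)
  · exact Cov.congr (faceH h).c3 (by rw [c1])
  · refine Cov.congr (faceT h2 (p := i - 1) (by omega)).c2 ?_
    rw [FiF]
    exact Prod.ext rfl (by simp only; omega)

theorem cov_Sp {d : S.B} {p i : ℕ} (h : S.ok (.Sp d p)) (hi : i ≤ S.K (.Sp d p)) : S.pre.Covered S.ch (.Sp d p, i) := by
  obtain ⟨hO, hp, hp'⟩ := h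
  have hI := hO.not_inn
  have n1 := nn_out hO
  by_cases c0 : i = 0
  · exact Cov.congr (faceT hI hp').c1 (by rw [f_mid (by omega) (by omega), c0])
  by_cases c1 : p ≤ S.δ d
  · rw [K_Sp_le (by omega)] at hi
    by_cases c2 : i = S.δ d + 2 - p
    · exact Cov.congr (faceI hO hp c1).c3 (by rw [c2])
    · exact Cov.congr (cov1b hO hp (q := i - 1) (by omega)) (Prod.ext rfl (by simp only; omega))
  · have hi' : i + S.δ d ≤ p := by
      by_cases c3 : p ≤ S.δ d + 1
      · rw [K_Sp_le c3] at hi; omega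
      · rw [K_Sp_gt c3] at hi; omega
    refine Cov.congr (cov2 (out_F_inv.2 hO) (p := i - 1) (q := S.nn d - 2 - p) (by omega)) ?_
    rw [FFi]
    refine Prod.ext ?_ ?_
    · simp only; congr 1; omega
    · simp only; omega

theorem cov_Sm {d : S.B} {p i : ℕ} (h : S.ok (.Sm d p)) (hi : i ≤ S.K (.Sp d p)) : S.pre.Covered S.ch (.Sm d p, i) := by
  obtain ⟨hO, hp, hp'⟩ := h
  have hI := hO.not_inn
  have n1 := nn_out hO
  by_cases c0 : i = S.K (.Sp d p)
  · refine Cov.congr (faceT hI (p := p - 1) (by omega)).c3 ?_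
    have h1 : p - 1 + 1 = p := by omega
    rw [h1, f_mid (by omega) (by omega), c0]
    rfl
  by_cases c1 : p ≤ S.δ d + 1
  · rw [K_Sp_le c1] at hi c0
    refine Cov.congr (cov3 hO (p := p - 1) (q := S.δ d + 1 - p - i) (by omega)) ?_
    refine Prod.ext ?_ ?_
    · simp only; congr 1; omega
    · simp only; omega
  · rw [K_Sp_gt c1] at hi c0
    by_cases c2 : i = 0
    · refine Cov.congr (faceI (out_F_inv.2 hO) (p := p - 1 - S.δ d) (by omega) (by omega)).c2 ?_
      rw [FFi]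
      refine Prod.ext ?_ ?_
      · simp only; congr 1; omega
      · simp only; omega
    · refine Cov.congr (cov4 (out_F_inv.2 hO) (p := p - S.δ d - 1 - i) (q := S.nn d - 1 - p) (by omega) (by omega)) ?_
      rw [FFi]
      refine Prod.ext ?_ ?_
      · simp only; congr 1; omega
      · simp only; omega

theorem covered (x : S.pre.E × ℕ) (hx : S.pre.okd x) : S.pre.Covered S.ch x := by
  obtain ⟨e, i⟩ := x
  obtain ⟨he, hi⟩ := hx
  change i ≤ S.K e at hi
  change S.ok e at he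
  revert he hi
  cases e with
  | h d =>
    intro hi _
    have : i = 0 := Nat.le_zero.1 hi
    subst this
    by_cases c : S.Inn d
    · obtain ⟨h1, h2, h3, h4⟩ := fst_spec c
      exact Cov.congr (faceI h1 h2 h3).c1 (by rw [h4])
    · exact (faceH c).c1
  | sp d => exact fun hi he => cov_sp he hi
  | sm d => exact fun hi he => cov_sm he hi
  | Sp d p => exact fun hi he => cov_Sp he hi
  | Sm d p => exact fun hi he => cov_Sm he hi

end Filling

end Pool.Agent.FP
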