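import Pool.Agent.Lib.MP_2e2457_lc.Conv

/-!
# Oriented edges and the graph (MP_2e2457_lc)
-/

set_option autoImplicit false

open Equiv

noncomputable section

namespace Pool.Agent.FP

variable {V : Type} {G : SimpleGraph V}

namespace Filling

variable {S : Filling G}

theorem at_shift {i : S.ι} {a : ℤ} {d : S.B} (h : S.At i a d) (m : ℤ) : S.At i (a + (S.A i).N * m) d := by
  have h1 : (S.F ^ (a + (S.A i).N * m)) (S.A i).t = d := by
    rw [zpow_add, Perm.mul_apply, ((S.A i).t_period _).2 ⟨m, rfl⟩]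
    exact h
  exact h1

/-- the edge `Sp d p` as one of the edges in the definition of a decomposition -/
theorem spoke_slot {d : S.B} {p : ℕ} (he : S.ok (.Sp d p)) : ∃ (i : S.ι) (a k : ℤ), S.At i a d ∧ 0 ≤ a ∧ a < (S.A i).N ∧
    (S.A i).c (a - 1) ≤ k ∧ k ≤ (S.A i).c (a + 1) ∧ k = (S.A i).c (a + 1) + 1 - p := by
  obtain ⟨⟨i, b, hb⟩, h1, h2⟩ := he
  have hB : S.At i b d := hb
  have h5 := (S.A i).five_le
  have e1 := Int.emod_add_mul_ediv b (S.A i).N
  have e2 := Int.emod_nonneg b (show ((S.A i).N : ℤ) ≠ 0 by omega)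
  have e3 := Int.emod_lt_of_pos b (show (0 : ℤ) < (S.A i).N by omega)
  have hA : S.At i (b % (S.A i).N) d := by
    have := at_shift hB (-(b / (S.A i).N))
    rw [mul_neg] at this
    have e4 : b + -((S.A i).N * (b / (S.A i).N)) = b % (S.A i).N := by omega
    rw [e4] at this
    exact this
  have f1 := hA.δ_eq
  have f2 := hA.F_inv.δ_eq
  rw [sub_add_cancel] at f2
  have f3 := nn_out hA.out
  exact ⟨i, b % (S.A i).N, _, hA, e2, e3, by omega, by omega, rfl⟩

theorem slot_spoke {i : S.ι} {a k : ℤ} (h1 : (S.A i).c (a - 1) ≤ k) (h2 : k ≤ (S.A i).c (a + 1)) :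
    ∃ (d : S.B) (p : ℕ), S.ok (.Sp d p) ∧ S.At i a d ∧ k = (S.A i).c (a + 1) + 1 - p := by
  have hA : S.At i a ((S.F ^ a) (S.A i).t) := rfl
  have f1 := hA.δ_eq
  have f2 := hA.F_inv.δ_eq
  rw [sub_add_cancel] at f2
  have f3 := nn_out hA.out
  exact ⟨(S.F ^ a) (S.A i).t, ((S.A i).c (a + 1) + 1 - k).toNat, ⟨hA.out, by omega, by omega⟩, hA, by omega⟩

/-- the types of the drawn edges -/
abbrev Slots (S : Filling G) : Type := S.H.edgeSet ⊕ {d : S.H.Dart // ∀ i, ¬ (S.A i).IsInner d} ⊕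
      {p : S.ι × ℤ × ℤ // 0 ≤ p.2.1 ∧ p.2.1 < (S.A p.1).N ∧ (S.A p.1).c (p.2.1 - 1) ≤ p.2.2 ∧
        p.2.2 ≤ (S.A p.1).c (p.2.1 + 1)}

/-- ends of the drawn edges -/
def ends (S : Filling G) (s : S.Slots) : Sym2 V :=
  match s with
      | Sum.inl e => e.1
      | Sum.inr (Sum.inl d) => s(d.1.fst, (S.R.face d.1).snd)
      | Sum.inr (Sum.inr p) => s((S.A p.1.1).x p.1.2.1, (S.A p.1.1).z p.1.2.2)

theorem ends_inj : Function.Injective S.ends := by
  intro s t h
  apply S.edges_inj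
  rcases s with x | x | x <;> rcases t with y | y | y <;> exact h

theorem range_ends : Set.range S.ends = G.edgeSet := by
  rw [← S.edges_range]
  congr 1
  funext s
  rcases s with x | x | x <;> rfl

/-- `s` is the type of the oriented edge `e` -/
def isSlot : OE S.B → S.Slots → Prop
  | .h d, Sum.inl x => x.1 = d.edge
  | .sp d, Sum.inr (Sum.inl x) => x.1 = d
  | .sm d, Sum.inr (Sum.inl x) => x.1 = d
  | .Sp d p, Sum.inr (Sum.inr x) => S.At x.1.1 x.1.2.1 d ∧ x.1.2.2 = (S.A x.1.1).c (x.1.2.1 + 1) + 1 - p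
  | .Sm d p, Sum.inr (Sum.inr x) => S.At x.1.1 x.1.2.1 d ∧ x.1.2.2 = (S.A x.1.1).c (x.1.2.1 + 1) + 1 - p
  | _, _ => False

theorem not_inn_iff {d : S.B} : ¬ S.Inn d ↔ ∀ i, ¬ (S.A i).IsInner d := by
  unfold Inn; push Not; rfl

theorem exists_slot {e : OE S.B} (he : S.ok e) : ∃ s : S.Slots, isSlot e s := by
  cases e with
  | h d => exact ⟨Sum.inl ⟨d.edge, d.edge_mem⟩, rfl⟩
  | sp d => exact ⟨Sum.inr (Sum.inl ⟨d, not_inn_iff.1 he⟩), rfl⟩
  | sm d => exact ⟨Sum.inr (Sum.inl ⟨d, not_inn_iff.1 he⟩), rfl⟩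
  | Sp d p =>
    obtain ⟨i, a, k, h1, h2, h3, h4, h5, h6⟩ := spoke_slot he
    exact ⟨Sum.inr (Sum.inr ⟨(i, a, k), h2, h3, h4, h5⟩), h1, h6⟩
  | Sm d p =>
    obtain ⟨i, a, k, h1, h2, h3, h4, h5, h6⟩ := spoke_slot (S := S) (d := d) (p := p) he
    exact ⟨Sum.inr (Sum.inr ⟨(i, a, k), h2, h3, h4, h5⟩), h1, h6⟩

theorem isSlot_ends {e : OE S.B} {s : S.Slots} (h : isSlot e s) : S.ends s = s(S.src e, S.src (S.rv e)) := by
  cases e with
  | h d =>
    rcases s with x | x | x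
    · have h1 : x.1 = d.edge := h
      simp only [ends, h1]
      rfl
    · exact h.elim
    · exact h.elim
  | sp d =>
    rcases s with x | x | x
    · exact h.elim
    · have h1 : x.1 = d := h
      simp only [ends, h1]
      rfl
    · exact h.elim
  | sm d =>
    rcases s with x | x | x
    · exact h.elim
    · have h1 : x.1 = d := h
      simp only [ends, h1, src, rv]
      exact Sym2.eq_swap
    · exact h.elim
  | Sp d p =>
    rcases s with x | x | x
    · exact h.elim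
    · exact h.elim
    · obtain ⟨h1, h2⟩ := h
      simp only [ends, src, rv, h1.zv_eq, h2, Annulus.x]
      have h3 : ((S.R.face ^ x.1.2.1) (S.A x.1.1).t) = d := h1
      rw [h3]
  | Sm d p =>
    rcases s with x | x | x
    · exact h.elim
    · exact h.elim
    · obtain ⟨h1, h2⟩ := h
      simp only [ends, src, rv, h1.zv_eq, h2, Annulus.x]
      have h3 : ((S.R.face ^ x.1.2.1) (S.A x.1.1).t) = d := h1
      rw [h3]
      exact Sym2.eq_swap

theorem adj {e : OE S.B} (he : S.ok e) : G.Adj (S.src e) (S.src (S.rv e)) := by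
  obtain ⟨s, hs⟩ := exists_slot he
  have h1 : S.ends s ∈ G.edgeSet := by
    rw [← range_ends (S := S)]
    exact ⟨s, rfl⟩
  rw [isSlot_ends hs] at h1
  exact h1

theorem exists_edge (s : S.Slots) : ∃ e : OE S.B, S.ok e ∧ isSlot e s := by
  rcases s with ⟨x, hx⟩ | x | x
  · induction x with
    | _ u v => exact ⟨.h ⟨(u, v), hx⟩, trivial, rfl⟩
  · exact ⟨.sp x.1, not_inn_iff.2 x.2, rfl⟩
  · obtain ⟨d, p, h1, h2, h3⟩ := slot_spoke (S := S) (i := x.1.1) (a := x.1.2.1) (k := x.1.2.2) x.2.2.2.1 x.2.2.2.2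
    exact ⟨.Sp d p, h1, h2, h3⟩

theorem isSlot_rv {e : OE S.B} {s : S.Slots} (h : isSlot e s) : isSlot (S.rv e) s := by
  cases e with
  | h d =>
    rcases s with x | x | x
    · have h1 : x.1 = d.edge := h
      have h2 : x.1 = d.symm.edge := by rw [h1, SimpleGraph.Dart.edge_symm]
      exact h2
    · exact h.elim
    · exact h.elim
  | sp d => rcases s with x | x | x <;> exact h
  | sm d => rcases s with x | x | x <;> exact h
  | Sp d p => rcases s with x | x | x <;> exact h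
  | Sm d p => rcases s with x | x | x <;> exact h

theorem surj {u v : V} (h : G.Adj u v) : ∃ e, S.ok e ∧ S.src e = u ∧ S.src (S.rv e) = v := by
  have h1 : s(u, v) ∈ Set.range S.ends := by
    rw [range_ends]
    exact h
  obtain ⟨s, hs⟩ := h1
  obtain ⟨e, he, hes⟩ := exists_edge s
  rw [isSlot_ends hes, Sym2.eq_iff] at hs
  rcases hs with ⟨h2, h3⟩ | ⟨h2, h3⟩
  · exact ⟨e, he, h2, h3⟩
  · refine ⟨S.rv e, ?_, h3, ?_⟩
    · cases e <;> exact he
    · have : S.rv (S.rv e) = e := by cases e <;> simp [rv]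
      rw [this]; exact h2

end Filling

end Pool.Agent.FP
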