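import Pool.Agent.Lib.MP_2e2457_lc.ConvE1

/-!
# Oriented edges are determined by their ends (MP_2e2457_lc)
-/

set_option autoImplicit false

open Equiv

noncomputable section

namespace Pool.Agent.FP

variable {V : Type} {G : SimpleGraph V}

namespace Filling

variable {S : Filling G}

theorem same_slot {e e' : OE S.B} {s : S.Slots} (h : isSlot e s) (h' : isSlot e' s) : e = e' ∨ e = S.rv e' := by
  rcases s with x | x | x
  · cases e with
    | h d =>
      cases e' with
      | h d' =>
        have h1 : d.edge = d'.edge := (Eq.symm h).trans h'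
        rcases (SimpleGraph.dart_edge_eq_iff d d').1 h1 with h2 | h2
        · left; rw [h2]
        · right; rw [h2]; rfl
      | sp d' => exact h'.elim
      | sm d' => exact h'.elim
      | Sp d' p => exact h'.elim
      | Sm d' p => exact h'.elim
    | sp d => exact h.elim
    | sm d => exact h.elim
    | Sp d p => exact h.elim
    | Sm d p => exact h.elim
  · have key : ∀ {e : OE S.B}, isSlot e (Sum.inr (Sum.inl x) : S.Slots) → e = .sp x.1 ∨ e = .sm x.1 := by
      intro e h
      cases e with
      | h d => exact h.elim
      | sp d => left; have h1 : x.1 = d := h; rw [h1]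
      | sm d => right; have h1 : x.1 = d := h; rw [h1]
      | Sp d p => exact h.elim
      | Sm d p => exact h.elim
    rcases key h with h1 | h1 <;> rcases key h' with h2 | h2 <;> rw [h1, h2]
    · left; rfl
    · right; rfl
    · right; rfl
    · left; rfl
  · have key : ∀ {e : OE S.B}, isSlot e (Sum.inr (Sum.inr x) : S.Slots) →
        ∃ d p, S.At x.1.1 x.1.2.1 d ∧ x.1.2.2 = (S.A x.1.1).c (x.1.2.1 + 1) + 1 - (p : ℕ) ∧ (e = .Sp d p ∨ e = .Sm d p) := by
      intro e h
      cases e with
      | h d => exact h.elim
      | sp d => exact h.elim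
      | sm d => exact h.elim
      | Sp d p => exact ⟨d, p, h.1, h.2, Or.inl rfl⟩
      | Sm d p => exact ⟨d, p, h.1, h.2, Or.inr rfl⟩
    obtain ⟨d, p, h1, h2, h3⟩ := key h
    obtain ⟨d', p', h1', h2', h3'⟩ := key h'
    have hd : d = d' := h1.symm.trans h1'
    have hp : p = p' := by omega
    subst hd
    subst hp
    rcases h3 with h3 | h3 <;> rcases h3' with h3' | h3' <;> rw [h3, h3']
    · left; rfl
    · right; rfl
    · right; rfl
    · left; rfl

theorem inj {e e' : OE S.B} (he : S.ok e) (he' : S.ok e') (h1 : S.src e = S.src e')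
    (h2 : S.src (S.rv e) = S.src (S.rv e')) : e = e' := by
  obtain ⟨s, hs⟩ := exists_slot he
  obtain ⟨s', hs'⟩ := exists_slot he'
  have h3 : S.ends s = S.ends s' := by rw [isSlot_ends hs, isSlot_ends hs', h1, h2]
  have h4 := ends_inj h3
  subst h4
  rcases same_slot hs hs' with h5 | h5
  · exact h5
  · exfalso
    have h6 := adj he'
    rw [← h1, h5] at h6
    exact h6.ne rfl

end Filling

end Pool.Agent.FP
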