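import Pool.Agent.Lib.MP_2e2457_lc.ConvF3

/-!
# The triangles of the drawing (MP_2e2457_lc)
-/

set_option autoImplicit false

open Equiv

noncomputable section

namespace Pool.Agent.FP

variable {V : Type} {G : SimpleGraph V}

namespace Filling

variable {S : Filling G}

theorem ch_zero (e : OE S.B) : ¬ S.ch (e, 0) := by
  cases e with
  | h d => exact fun h => h
  | sp d =>
    have := two_le_nn (S.F d)
    intro h
    have h1 : 0 = S.nn (S.F d) := h
    omega
  | sm d => exact fun h => h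
  | Sp d p => exact fun h => h
  | Sm d p => exact fun h => by have := h.1; omega

variable [Finite V]

theorem w_zero (e : OE S.B) : S.pre.w S.ch (e, 0) = 2 :=
  w_eq (e, 0) (a := 1) (b := 0) (Or.inl ⟨rfl, rfl⟩) (Or.inr ⟨ch_zero e, rfl⟩)

theorem w_sm {d : S.B} {i : ℕ} (h : i ≠ 0) : S.pre.w S.ch (.sm d, i) = 1 :=
  w_eq (.sm d, i) (a := 0) (b := 0) (Or.inr ⟨h, rfl⟩) (Or.inr ⟨fun h => h, rfl⟩)

/-- the triangle at a dart of `H` which is not inner -/
theorem faceH {d : S.B} (h : ¬ S.Inn d) :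
    S.pre.Face3 S.ch (.h d, 0) (.sm (S.F⁻¹ d), 0) (.sm d, S.nn (S.F d)) := by
  have h1 := two_le_nn d
  have h2 := two_le_nn (S.F d)
  have hi : S.ok (.sm (S.F⁻¹ d)) := fun h' => h (inn_F_inv.1 h')
  refine ⟨?_, ?_, ?_, ?_⟩
  · refine nx_end (e := .h d) trivial hi rfl ?_
    simp only [ρ, rv, FFi]
  · refine nx_mid hi ?_ ?_
    · rw [K_sm, FFi]; omega
    · simp only [X, FFi, Nat.sub_self, Nat.zero_add]
      rw [f_zero]
      rfl
  · refine nx_end (e := .sm d) (e' := .h d) h trivial rfl ?_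
    simp only [ρ, rv]
    rw [if_neg h]
  · rw [w_zero, w_zero, w_sm (by omega)]

/-- the triangle between two consecutive edges in an angle -/
theorem faceT {d : S.B} {p : ℕ} (h : ¬ S.Inn d) (hp : p + 2 ≤ S.nn d) :
    S.pre.Face3 S.ch (S.f d p, 0) (.sm (S.F⁻¹ d), p + 1) (S.rv (S.f d (p + 1)), S.K (S.f d (p + 1))) := by
  have hi : S.ok (.sm (S.F⁻¹ d)) := fun h' => h (inn_F_inv.1 h')
  refine ⟨?_, ?_, ?_, ?_⟩
  · refine nx_mid (f_ok h (by omega)) ?_ ?_
    · have := K_f_pos (d := d) (p := p) (by omega)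
      omega
    · exact X_f_one (by omega)
  · refine nx_mid hi ?_ ?_
    · rw [K_sm, FFi]; omega
    · simp only [X, FFi, Nat.add_sub_cancel]
  · refine nx_end (ok_rv (f_ok h (by omega))) (f_ok h (by omega)) ?_ ?_
    · rw [K_rv]
    · rw [rv_rv, ρ_f hp]
  · have h3 : S.pre.w S.ch (S.rv (S.f d (p + 1)), S.K (S.f d (p + 1))) = 2 := by
      have hK := K_f_pos (d := d) (p := p + 1) (by omega)
      refine w_eq _ (a := 0) (b := 1) (Or.inr ⟨by simp only; omega, rfl⟩) (Or.inl ⟨?_, rfl⟩)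
      by_cases h1 : p + 1 + 1 = S.nn d
      · rw [f_last h1]
        simp only [rv, K_sm]
        rfl
      · rw [f_mid (by omega) h1] at hK ⊢
        exact ⟨hK, Or.inr rfl⟩
    rw [w_zero, w_sm (by omega), h3]

end Filling

end Pool.Agent.FP
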