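import Pool.Agent.Lib.MP_2e2457_lc.ConvF1

/-!
# The inner triangles and the central pentagons of the drawing (MP_2e2457_lc)
-/

set_option autoImplicit false

open Equiv

noncomputable section

namespace Pool.Agent.FP

variable {V : Type} {G : SimpleGraph V}

namespace Filling

variable [Finite V] {S : Filling G}

/-- the triangle at an inner dart -/
theorem faceI {d : S.B} {p : ℕ} (h : S.Out d) (h1 : 1 ≤ p) (h2 : p ≤ S.δ d) :
    S.pre.Face3 S.ch (.h (S.zd d p), 0) (.Sm (S.F d) (p + 1 + S.δ (S.F d)), 0) (.Sp d p, S.δ d + 2 - p) := by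
  have n1 := nn_out h
  have n2 := nn_out_F h
  have hO : S.Out (S.F d) := out_F.2 h
  have hδ : S.δ d ≠ 0 := by omega
  have hok : S.ok (.Sm (S.F d) (p + 1 + S.δ (S.F d))) := ⟨hO, by omega, by omega⟩
  have hok' : S.ok (.Sm d p) := ⟨h, by omega, by omega⟩
  refine ⟨?_, ?_, ?_, ?_⟩
  · refine nx_end (e := .h (S.zd d p)) trivial hok rfl ?_
    simp only [ρ, rv]
    rw [if_neg (by omega), zd_next h (Or.inl hδ), zd_succ h (Or.inl hδ), rot_F]
  · refine nx_mid hok ?_ ?_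
    · rw [K_Sm, K_Sp_gt (by omega)]; omega
    · rw [X_Sm_gt (by omega) (by rw [K_Sp_gt (by omega)]; omega), FiF]
      refine Prod.ext ?_ ?_
      · simp only; congr 1; omega
      · simp only; omega
  · refine nx_end (e := .Sp d p) (e' := .h (S.zd d p)) hok' trivial ?_ ?_
    · rw [K_Sp_le (by omega)]
    · simp only [ρ, rv]
      rw [if_pos (zd_inn h (Or.inl hδ)), fst_zd h h1 h2]
  · rw [w_zero, w_zero, w_Sp (by omega)]

theorem F_ne {d : S.B} (h : ¬ S.Out d) (h' : ¬ S.Inn d) : S.F d ≠ d := by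
  intro h1
  have h2 := (S.pentagon d (fun i hi => h ⟨i, hi⟩) (fun i hi => h' ⟨i, hi⟩) 1).1 (by rw [zpow_one]; exact h1)
  omega

theorem nx_C {d : S.B} (h : ¬ S.Out d) (h' : ¬ S.Inn d) : S.pre.NX (.sp d, 1) (.sp (S.F d), 1) := by
  have n1 : S.nn (S.F d) = 2 := nn_not_out (fun h1 => h (out_F.1 h1))
  refine nx_mid (e := .sp d) h' ?_ ?_
  · rw [K_sp]; omega
  · simp only [X]
    rw [n1]
    have : (2 : ℕ) - (1 + 1) = 0 := by omega
    rw [this, f_zero]

/-- the centre of a pentagon -/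
theorem faceC {d : S.B} (h : ¬ S.Out d) (h' : ¬ S.Inn d) :
    S.pre.Face5 S.ch (.sp d, 1) (.sp (S.F d), 1) (.sp (S.F (S.F d)), 1) (.sp (S.F (S.F (S.F d))), 1)
      (.sp (S.F (S.F (S.F (S.F d)))), 1) := by
  have o : ∀ {e : S.B}, ¬ S.Out e → ¬ S.Out (S.F e) := fun h h1 => h (out_F.1 h1)
  have i : ∀ {e : S.B}, ¬ S.Inn e → ¬ S.Inn (S.F e) := fun h h1 => h (inn_F.1 h1)
  have w1 : ∀ {e : S.B}, ¬ S.Out e → S.pre.w S.ch (.sp e, 1) = 1 := fun h => w_sp (by omega) (by rw [nn_not_out (o h)]; omega)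
  refine ⟨nx_C h h', nx_C (o h) (i h'), nx_C (o (o h)) (i (i h')), nx_C (o (o (o h))) (i (i (i h'))), ?_, ?_, ?_⟩
  · have := nx_C (o (o (o (o h)))) (i (i (i (i h'))))
    rw [F5 h h'] at this
    exact this
  · intro h1
    have h2 : OE.sp d = OE.sp (S.F d) := congrArg Prod.fst h1
    exact F_ne h h' (OE.sp.inj h2).symm
  · rw [w1 h, w1 (o h), w1 (o (o h)), w1 (o (o (o h))), w1 (o (o (o (o h))))]

end Filling

end Pool.Agent.FP
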