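import Pool.Agent.Lib.MP_2e2457_lc.ConvP

/-!
# The quadrangles of the drawing (MP_2e2457_lc)
-/

set_option autoImplicit false

open Equiv

noncomputable section

namespace Pool.Agent.FP

variable {V : Type} {G : SimpleGraph V}

namespace Filling

variable {S : Filling G}

/-! values of `X` -/

theorem X_Sp_one (d : S.B) (p : ℕ) : S.X (.Sp d p) 1 = (.sm (S.F⁻¹ d), p + 1) := by
  simp only [X]; rw [if_pos trivial]

theorem X_Sp_le {d : S.B} {p i : ℕ} (h : p ≤ S.δ d) (hi : i ≠ 1) :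
    S.X (.Sp d p) i = (.Sp (S.F d) (S.nn (S.F d) - i), p + 1) := by
  simp only [X]; rw [if_neg hi, if_pos h]

theorem X_Sp_gt {d : S.B} {p i : ℕ} (h : ¬ p ≤ S.δ d) (hi : i ≠ 1) :
    S.X (.Sp d p) i = (.Sm (S.F⁻¹ d) (i - 1), p + 1 - i - S.δ d) := by
  simp only [X]; rw [if_neg hi, if_neg h]

theorem X_Sm_K (d : S.B) (p : ℕ) : S.X (.Sm d p) (S.K (.Sp d p)) = (.sp (S.F⁻¹ d), S.nn d - p) := by
  simp only [X]; rw [if_pos (K_Sm _ _).symm]

theorem X_Sm_le {d : S.B} {p i : ℕ} (h : p ≤ S.δ d) (hi : i ≠ S.K (.Sp d p)) :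
    S.X (.Sm d p) i = (.Sm (S.F d) (p + i + S.δ (S.F d)), i) := by
  simp only [X]; rw [if_neg (by rw [K_Sm]; exact hi), if_pos h]

theorem X_Sm_gt {d : S.B} {p i : ℕ} (h : ¬ p ≤ S.δ d) (hi : i ≠ S.K (.Sp d p)) :
    S.X (.Sm d p) i = (.Sp (S.F⁻¹ d) (p - S.δ d - i), S.nn d - p) := by
  simp only [X]; rw [if_neg (by rw [K_Sm]; exact hi), if_neg h]

theorem X_sp_mid {d : S.B} {i : ℕ} (h : 2 ≤ i) (h' : i < S.nn (S.F d)) :
    S.X (.sp d) i = (.Sp (S.F d) (S.nn (S.F d) - i), 1) := by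
  simp only [X]; rw [f_mid (by omega) (by omega)]

variable [Finite V]

/-- the second dart of the quadrangles -/
theorem q_second {d : S.B} (h : S.Out d) {p q : ℕ} (hq : p + q ≤ S.δ d) :
    S.pre.NX (.Sp (S.F d) (S.δ d + S.δ (S.F d) + 1 - q), p + 1) (.Sm d (p + 1), S.δ d - p - q) := by
  have n1 := nn_out h
  have n2 := nn_out_F h
  have hO : S.Out (S.F d) := out_F.2 h
  have hok : S.ok (.Sp (S.F d) (S.δ d + S.δ (S.F d) + 1 - q)) := ⟨hO, by omega, by omega⟩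
  by_cases c : p + q = S.δ d
  · have e0 : S.δ d - p - q = 0 := by omega
    rw [e0]
    refine nx_end hok (e' := .Sm d (p + 1)) ⟨h, by omega, by omega⟩ ?_ ?_
    · by_cases c2 : S.δ d + S.δ (S.F d) + 1 - q ≤ S.δ (S.F d) + 1
      · rw [K_Sp_le c2]; omega
      · rw [K_Sp_gt c2]; omega
    · simp only [ρ, rv]
      rw [if_pos (by omega)]
      congr 1; omega
  · refine nx_mid hok ?_ ?_
    · rw [K_Sp_gt (by omega)]; omega
    · rw [X_Sp_gt (by omega) (by omega), FiF]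
      refine Prod.ext ?_ ?_
      · simp only; congr 1
      · simp only; omega

theorem q_third0 {d : S.B} (h : S.Out d) {p : ℕ} (hp : p ≤ S.δ d) :
    S.pre.NX (.Sm d (p + 1), S.δ d - p) (.sp (S.F⁻¹ d), S.nn d - p - 1) := by
  have n1 := nn_out h
  have hok : S.ok (.Sm d (p + 1)) := ⟨h, by omega, by omega⟩
  have hK : S.K (.Sp d (p + 1)) = S.δ d + 2 - (p + 1) := K_Sp_le (by omega)
  refine nx_mid hok ?_ ?_
  · rw [K_Sm, hK]; omega
  · have h1 : S.δ d - p + 1 = S.K (.Sp d (p + 1)) := by omega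
    rw [h1, X_Sm_K]
    exact Prod.ext rfl (by simp only; omega)

theorem q_third {d : S.B} (h : S.Out d) {p q : ℕ} (h1 : 1 ≤ q) (hq : p + q ≤ S.δ d) :
    S.pre.NX (.Sm d (p + 1), S.δ d - p - q) (.Sm (S.F d) (S.δ d + S.δ (S.F d) + 2 - q), S.δ d + 1 - q - p) := by
  have n1 := nn_out h
  have hok : S.ok (.Sm d (p + 1)) := ⟨h, by omega, by omega⟩
  have hK : S.K (.Sp d (p + 1)) = S.δ d + 2 - (p + 1) := K_Sp_le (by omega)
  refine nx_mid hok ?_ ?_
  · rw [K_Sm, hK]; omega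
  · rw [X_Sm_le (by omega) (by rw [hK]; omega)]
    refine Prod.ext ?_ ?_
    · simp only; congr 1; omega
    · simp only; omega

theorem w_sp {d : S.B} {i : ℕ} (h : i ≠ 0) (h' : i ≠ S.nn (S.F d)) : S.pre.w S.ch (.sp d, i) = 1 :=
  w_eq (.sp d, i) (a := 0) (b := 0) (Or.inr ⟨h, rfl⟩) (Or.inr ⟨h', rfl⟩)

theorem w_Sp {d : S.B} {p i : ℕ} (h : i ≠ 0) : S.pre.w S.ch (.Sp d p, i) = 1 :=
  w_eq (.Sp d p, i) (a := 0) (b := 0) (Or.inr ⟨h, rfl⟩) (Or.inr ⟨fun h => h, rfl⟩)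

theorem w_Sm_le {d : S.B} {p i : ℕ} (h : p ≤ S.δ d + 1) : S.pre.w S.ch (.Sm d p, i) = 2 := by
  by_cases c : i = 0
  · exact w_eq (.Sm d p, i) (a := 1) (b := 0) (Or.inl ⟨c, rfl⟩) (Or.inr ⟨fun h => by have := h.1; omega, rfl⟩)
  · exact w_eq (.Sm d p, i) (a := 0) (b := 1) (Or.inr ⟨c, rfl⟩) (Or.inl ⟨⟨by omega, Or.inl h⟩, rfl⟩)

theorem w_Sm_gt {d : S.B} {p i : ℕ} (h : ¬ p ≤ S.δ d + 1) (h0 : i ≠ 0) (hi : i ≠ S.K (.Sp d p)) :
    S.pre.w S.ch (.Sm d p, i) = 1 :=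
  w_eq (.Sm d p, i) (a := 0) (b := 0) (Or.inr ⟨h0, rfl⟩) (Or.inr ⟨fun h' => by
    rcases h'.2 with h2 | h2
    · exact h h2
    · exact hi h2, rfl⟩)

theorem faceQ0 {d : S.B} (h : S.Out d) :
    S.pre.Face4 S.ch (.sp d, 1) (.Sp (S.F d) (S.δ d + S.δ (S.F d) + 1), 1) (.Sm d 1, S.δ d)
      (.sp (S.F⁻¹ d), S.nn d - 1) := by
  have n1 := nn_out h
  have n2 := nn_out_F h
  have hI := h.not_inn
  refine ⟨?_, ?_, ?_, ?_, ?_⟩
  · refine nx_mid (e := .sp d) hI ?_ ?_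
    · rw [K_sp]; omega
    · rw [X_sp_mid (by omega) (by omega)]
      refine Prod.ext ?_ rfl
      simp only; congr 1; omega
  · have := q_second h (p := 0) (q := 0) (by omega)
    simpa using this
  · have := q_third0 h (p := 0) (by omega)
    simpa using this
  · refine nx_mid (e := .sp (S.F⁻¹ d)) (fun h' => hI (inn_F_inv.1 h')) ?_ ?_
    · rw [K_sp, FFi]; omega
    · simp only [X, FFi]
      have h1 : S.nn d - (S.nn d - 1 + 1) = 0 := by omega
      rw [h1, f_zero]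
  · rw [w_sp (by omega) (by omega), w_Sp (by omega), w_Sm_le (by omega), w_sp (by omega) (by rw [FFi]; omega)]

theorem faceQp {d : S.B} {p : ℕ} (h : S.Out d) (h1 : 1 ≤ p) (hp : p ≤ S.δ d) :
    S.pre.Face4 S.ch (.Sp d p, 1) (.Sp (S.F d) (S.δ d + S.δ (S.F d) + 1), p + 1) (.Sm d (p + 1), S.δ d - p)
      (.sp (S.F⁻¹ d), S.nn d - p - 1) := by
  have n1 := nn_out h
  have n2 := nn_out_F h
  have hI := h.not_inn
  refine ⟨?_, ?_, ?_, ?_, ?_⟩
  · refine nx_mid (e := .Sp d p) ⟨h, h1, by omega⟩ ?_ ?_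
    · rw [K_Sp_le (by omega)]; omega
    · rw [X_Sp_le (by omega) (by omega)]
      refine Prod.ext ?_ rfl
      simp only; congr 1; omega
  · have := q_second h (p := p) (q := 0) (by omega)
    simpa using this
  · exact q_third0 h hp
  · refine nx_mid (e := .sp (S.F⁻¹ d)) (fun h' => hI (inn_F_inv.1 h')) ?_ ?_
    · rw [K_sp, FFi]; omega
    · simp only [X, FFi]
      have h2 : S.nn d - (S.nn d - p - 1 + 1) = p := by omega
      rw [h2, f_mid (by omega) (by omega)]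
  · rw [w_Sp (by omega), w_Sp (by omega), w_Sm_le (by omega), w_sp (by omega) (by rw [FFi]; omega)]

theorem faceQq {d : S.B} {q : ℕ} (h : S.Out d) (h1 : 1 ≤ q) (hq : q ≤ S.δ d) :
    S.pre.Face4 S.ch (.sp d, q + 1) (.Sp (S.F d) (S.δ d + S.δ (S.F d) + 1 - q), 1) (.Sm d 1, S.δ d - q)
      (.Sm (S.F d) (S.δ d + S.δ (S.F d) + 2 - q), S.δ d + 1 - q) := by
  have n1 := nn_out h
  have n2 := nn_out_F h
  have hI := h.not_inn
  have hO : S.Out (S.F d) := out_F.2 h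
  refine ⟨?_, ?_, ?_, ?_, ?_⟩
  · refine nx_mid (e := .sp d) hI ?_ ?_
    · rw [K_sp]; omega
    · rw [X_sp_mid (by omega) (by omega)]
      refine Prod.ext ?_ rfl
      simp only; congr 1; omega
  · have := q_second h (p := 0) (q := q) (by omega)
    simpa using this
  · have := q_third h (p := 0) (q := q) h1 (by omega)
    simpa using this
  · have hK : S.K (.Sp (S.F d) (S.δ d + S.δ (S.F d) + 2 - q)) = S.δ d + 2 - q := by
      rw [K_Sp_gt (by omega)]; omega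
    refine nx_mid (e := .Sm (S.F d) (S.δ d + S.δ (S.F d) + 2 - q)) ⟨hO, by omega, by omega⟩ ?_ ?_
    · rw [K_Sm, hK]; omega
    · have h2 : S.δ d + 1 - q + 1 = S.K (.Sp (S.F d) (S.δ d + S.δ (S.F d) + 2 - q)) := by omega
      rw [h2, X_Sm_K, FiF]
      exact Prod.ext rfl (by simp only; omega)
  · have hK : S.K (.Sp (S.F d) (S.δ d + S.δ (S.F d) + 2 - q)) = S.δ d + 2 - q := by
      rw [K_Sp_gt (by omega)]; omega
    rw [w_sp (by omega) (by omega), w_Sp (by omega), w_Sm_le (by omega), w_Sm_gt (by omega) (by omega)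
      (by rw [hK]; omega)]

theorem faceQ {d : S.B} {p q : ℕ} (h : S.Out d) (h1 : 1 ≤ p) (h2 : 1 ≤ q) (hq : p + q ≤ S.δ d) :
    S.pre.Face4 S.ch (.Sp d p, q + 1) (.Sp (S.F d) (S.δ d + S.δ (S.F d) + 1 - q), p + 1)
      (.Sm d (p + 1), S.δ d - p - q) (.Sm (S.F d) (S.δ d + S.δ (S.F d) + 2 - q), S.δ d + 1 - q - p) := by
  have n1 := nn_out h
  have n2 := nn_out_F h
  have hI := h.not_inn
  have hO : S.Out (S.F d) := out_F.2 h
  have hK : S.K (.Sp (S.F d) (S.δ d + S.δ (S.F d) + 2 - q)) = S.δ d + 2 - q := by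
    rw [K_Sp_gt (by omega)]; omega
  refine ⟨?_, ?_, ?_, ?_, ?_⟩
  · refine nx_mid (e := .Sp d p) ⟨h, h1, by omega⟩ ?_ ?_
    · rw [K_Sp_le (by omega)]; omega
    · rw [X_Sp_le (by omega) (by omega)]
      refine Prod.ext ?_ rfl
      simp only; congr 1; omega
  · exact q_second h hq
  · exact q_third h h2 hq
  · refine nx_mid (e := .Sm (S.F d) (S.δ d + S.δ (S.F d) + 2 - q)) ⟨hO, by omega, by omega⟩ ?_ ?_
    · rw [K_Sm, hK]; omega
    · rw [X_Sm_gt (by omega) (by rw [hK]; omega), FiF]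
      refine Prod.ext ?_ ?_
      · simp only; congr 1; omega
      · simp only; omega
  · rw [w_Sp (by omega), w_Sp (by omega), w_Sm_le (by omega), w_Sm_gt (by omega) (by omega)
      (by rw [hK]; omega)]

end Filling

end Pool.Agent.FP
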