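import Pool.Agent.Lib.MP_2e2457_lc.ConvP

/-!
# The drawing is simple and fan-planar (MP_2e2457_lc)
-/

set_option autoImplicit false

open Equiv

noncomputable section

namespace Pool.Agent.FP

variable {V : Type} {G : SimpleGraph V}

namespace Filling

variable [Finite V] {S : Filling G}

omit [Finite V] in
theorem ConvFan_f_src (d : S.B) (p : ℕ) : S.src (S.f d p) = d.fst := by
  by_cases h0 : p = 0
  · subst h0; rw [f_zero]; rfl
  by_cases h1 : p + 1 = S.nn d
  · rw [f_last h1]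
    simp only [src]
    rw [FFi, ← F_fst, FFi]
  · rw [f_mid h0 h1]; rfl

omit [Finite V] in
theorem ConvFan_f_ne_h (d d' : S.B) (p : ℕ) : S.f d p ≠ .h d' := by
  unfold f
  split_ifs <;> simp

/-- the four ends are different -/
def ConvFan_P (e e' : OE S.B) : Prop :=
  S.src e' ≠ S.src e ∧ S.src e' ≠ S.src (S.rv e) ∧ S.src (S.rv e') ≠ S.src e ∧ S.src (S.rv e') ≠ S.src (S.rv e)

omit [Finite V] in
theorem ConvFan_P_symm {e e' : OE S.B} (h : ConvFan_P e e') : ConvFan_P e' e :=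
  ⟨h.1.symm, h.2.2.1.symm, h.2.1.symm, h.2.2.2.symm⟩

omit [Finite V] in
theorem ConvFan_P_rv {e e' : OE S.B} (h : ConvFan_P e e') : ConvFan_P e (S.rv e') :=
  ⟨h.2.2.1, h.2.2.2, by rw [rv_rv]; exact h.1, by rw [rv_rv]; exact h.2.1⟩

omit [Finite V] in
theorem ConvFan_P_rv' {e e' : OE S.B} (h : ConvFan_P e e') : ConvFan_P (S.rv e) e' :=
  ConvFan_P_symm (ConvFan_P_rv (ConvFan_P_symm h))

omit [Finite V] in
/-- an edge from the middle of a two-hop which is not an edge of the walk -/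
theorem ConvFan_A {d : S.B} (hd : ¬ S.Inn d) {q : ℕ} (hq : q < S.nn (S.F d)) : ConvFan_P (.sp d) (S.f (S.F d) q) := by
  have hok : S.ok (S.f (S.F d) q) := f_ok (fun h => hd (inn_F.1 h)) hq
  have h1 : S.src (S.f (S.F d) q) = d.snd := by rw [ConvFan_f_src, F_fst]
  refine ⟨?_, ?_, ?_, ?_⟩
  · rw [h1]
    exact d.adj.ne.symm
  · rw [h1]
    simp only [rv, src]
    rw [← F_fst]
    exact (S.F d).adj.ne
  · intro h2
    have h3 : S.f (S.F d) q = .h d.symm := by
      refine inj hok trivial ?_ ?_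
      · rw [h1]; rfl
      · rw [h2]; rfl
    exact ConvFan_f_ne_h _ _ _ h3
  · intro h2
    have h3 : S.f (S.F d) q = .h (S.F d) := by
      refine inj hok trivial ?_ ?_
      · rw [h1, ← F_fst]; rfl
      · rw [h2]; rfl
    exact ConvFan_f_ne_h _ _ _ h3

omit [Finite V] in
/-- two spokes which cross -/
theorem ConvFan_B {d : S.B} (hd : S.Out d) {p q : ℕ} (hp : 1 ≤ p) (hp' : p ≤ S.δ d)
    (hq : p + S.δ (S.F d) < q) (hq' : q + 2 ≤ S.nn (S.F d)) : ConvFan_P (.Sp d p) (.Sp (S.F d) q) := by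
  have n1 := nn_out hd
  have n2 := nn_out_F hd
  have ok1 : S.ok (.Sp d p) := ⟨hd, hp, by omega⟩
  have ok2 : S.ok (.Sp (S.F d) q) := ⟨out_F.2 hd, by omega, hq'⟩
  have ok3 : S.ok (.Sp (S.F d) (p + S.δ (S.F d))) := ⟨out_F.2 hd, by omega, by omega⟩
  refine ⟨?_, ?_, ?_, ?_⟩
  · simp only [src]
    rw [F_fst]
    exact d.adj.ne.symm
  · simp only [src, rv]
    rw [F_fst]
    intro h2
    have h3 : (OE.Sp d p : OE S.B) = .h d := inj ok1 trivial rfl h2.symm
    exact absurd h3 (by simp)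
  · simp only [src, rv]
    intro h2
    have h3 : (OE.Sp (S.F d) q : OE S.B) = .h d.symm := inj ok2 trivial (F_fst d) h2
    exact absurd h3 (by simp)
  · simp only [src, rv]
    intro h2
    rw [← zv_next hd p] at h2
    have h3 : (OE.Sp (S.F d) q : OE S.B) = .Sp (S.F d) (p + S.δ (S.F d)) := inj ok2 ok3 rfl h2
    simp only [OE.Sp.injEq, true_and] at h3
    omega

theorem fan_disjoint (e : OE S.B) (i : ℕ) (he : S.ok e) (h1 : 1 ≤ i) (h2 : i ≤ S.K e) :
    S.src (S.X e i).1 ≠ S.src e ∧ S.src (S.X e i).1 ≠ S.src (S.rv e) ∧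
    S.src (S.rv (S.X e i).1) ≠ S.src e ∧ S.src (S.rv (S.X e i).1) ≠ S.src (S.rv e) := by
  change ConvFan_P e (S.X e i).1
  cases e with
  | h d => simp only [K] at h2; omega
  | sp d =>
    have h3 := two_le_nn (S.F d)
    rw [K_sp] at h2
    simp only [X]
    exact ConvFan_A he (by omega)
  | sm d =>
    have h3 := two_le_nn (S.F d)
    rw [K_sm] at h2
    simp only [X]
    exact ConvFan_P_rv (ConvFan_P_rv' (e := .sp d) (ConvFan_A he (by omega)))
  | Sp d p =>
    obtain ⟨hO, hp, hp'⟩ := he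
    have hI := hO.not_inn
    have n1 := nn_out hO
    have n2 := nn_out_F hO
    have n3 := nn_Fi hO
    simp only [X]
    split_ifs with c1 c2
    · have h3 := ConvFan_A (d := S.F⁻¹ d) (fun h => hI (inn_F_inv.1 h)) (q := p) (by rw [FFi]; omega)
      rw [FFi, f_mid (by omega) (by omega)] at h3
      exact ConvFan_P_rv (e' := .sp (S.F⁻¹ d)) (ConvFan_P_symm h3)
    · rw [K_Sp_le (by omega)] at h2
      exact ConvFan_B hO hp c2 (by omega) (by omega)
    · by_cases c3 : p = S.δ d + 1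
      · rw [K_Sp_le (by omega)] at h2; omega
      rw [K_Sp_gt (by omega)] at h2
      have h3 := ConvFan_B (d := S.F⁻¹ d) (out_F_inv.2 hO) (p := i - 1) (q := p) (by omega) (by omega)
        (by rw [FFi]; omega) (by rw [FFi]; omega)
      rw [FFi] at h3
      exact ConvFan_P_rv (e' := .Sp (S.F⁻¹ d) (i - 1)) (ConvFan_P_symm h3)
  | Sm d p =>
    obtain ⟨hO, hp, hp'⟩ := he
    have hI := hO.not_inn
    have n1 := nn_out hO
    have n2 := nn_out_F hO
    have n3 := nn_Fi hO
    simp only [X]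
    split_ifs with c1 c2
    · have h3 := ConvFan_A (d := S.F⁻¹ d) (fun h => hI (inn_F_inv.1 h)) (q := p) (by rw [FFi]; omega)
      rw [FFi, f_mid (by omega) (by omega)] at h3
      exact ConvFan_P_rv' (e := .Sp d p) (ConvFan_P_symm h3)
    · rw [K_Sm, K_Sp_le (by omega)] at h2 c1
      exact ConvFan_P_rv (e' := .Sp (S.F d) (p + i + S.δ (S.F d)))
        (ConvFan_P_rv' (e := .Sp d p) (ConvFan_B hO hp c2 (by omega) (by omega)))
    · by_cases c3 : p = S.δ d + 1
      · rw [K_Sm, K_Sp_le (by omega)] at h2 c1; omega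
      rw [K_Sm, K_Sp_gt (by omega)] at h2 c1
      have h3 := ConvFan_B (d := S.F⁻¹ d) (out_F_inv.2 hO) (p := p - S.δ d - i) (q := p) (by omega) (by omega)
        (by rw [FFi]; omega) (by rw [FFi]; omega)
      rw [FFi] at h3
      exact ConvFan_P_rv' (e := .Sp d p) (ConvFan_P_symm h3)

end Filling

end Pool.Agent.FP
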