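import Pool.Agent.Lib.MP_2e2457_lc.ConvFan

/-!
# The drawing is simple and fan-planar (MP_2e2457_lc)
-/

set_option autoImplicit false

open Equiv

noncomputable section

namespace Pool.Agent.FP

variable {V : Type} {G : SimpleGraph V}

namespace Filling

variable [Finite V] {S : Filling G}

theorem ConvFan2_f_src (d : S.B) (p : ℕ) : S.src (S.f d p) = d.fst := by
  unfold f
  split_ifs with h1 h2
  · rfl
  · have h3 : S.src (.sm (S.F⁻¹ (S.F⁻¹ d))) = (S.F (S.F⁻¹ (S.F⁻¹ d))).snd := rfl
    rw [h3, FFi, ← F_fst, FFi]
  · rfl

theorem ConvFan2_f_inj {d : S.B} (hd : ¬ S.Inn d) {p q : ℕ} (hp : p < S.nn d) (hq : q < S.nn d)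
    (h : S.f d p = S.f d q ∨ S.f d p = S.rv (S.f d q)) : p = q := by
  have h2 := two_le_nn d
  have hne : S.F⁻¹ (S.F⁻¹ d) ≠ d := by
    intro h3
    have h4 : S.F (S.F d) = d := by
      have h5 := congrArg (fun x => S.F (S.F x)) h3
      simp only [FFi] at h5
      exact h5.symm
    have h6 : S.ok (.sp d) := hd
    have h7 := (adj h6).ne
    apply h7
    have h8 : S.src (.sp d) = d.fst := rfl
    have h9 : S.src (S.rv (.sp d)) = (S.F d).snd := rfl
    rw [h8, h9, ← F_fst, h4]
  unfold f at h
  by_cases hp0 : p = 0
  · by_cases hq0 : q = 0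
    · omega
    · by_cases hq1 : q + 1 = S.nn d
      · rw [if_pos hp0, if_neg hq0, if_pos hq1] at h
        rcases h with h | h
        · exact absurd h (by simp)
        · simp only [rv] at h
          injection h with h
          exact absurd h.symm hne
      · rw [if_pos hp0, if_neg hq0, if_neg hq1] at h
        rcases h with h | h
        · exact absurd h (by simp)
        · exact absurd h (by simp [rv])
  · by_cases hp1 : p + 1 = S.nn d
    · by_cases hq0 : q = 0
      · rw [if_neg hp0, if_pos hp1, if_pos hq0] at h
        rcases h with h | h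
        · exact absurd h (by simp)
        · simp only [rv] at h
          injection h with h
          exact absurd h hne
      · by_cases hq1 : q + 1 = S.nn d
        · omega
        · rw [if_neg hp0, if_pos hp1, if_neg hq0, if_neg hq1] at h
          rcases h with h | h
          · exact absurd h (by simp)
          · exact absurd h (by simp [rv])
    · by_cases hq0 : q = 0
      · rw [if_neg hp0, if_neg hp1, if_pos hq0] at h
        rcases h with h | h
        · exact absurd h (by simp)
        · exact absurd h (by simp [rv])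
      · by_cases hq1 : q + 1 = S.nn d
        · rw [if_neg hp0, if_neg hp1, if_neg hq0, if_pos hq1] at h
          rcases h with h | h
          · exact absurd h (by simp)
          · exact absurd h (by simp [rv])
        · rw [if_neg hp0, if_neg hp1, if_neg hq0, if_neg hq1] at h
          rcases h with h | h
          · injection h
          · exact absurd h (by simp [rv])

theorem fan_once (e : OE S.B) (i j : ℕ) (he : S.ok e) (h1 : 1 ≤ i) (h2 : i ≤ S.K e) (h3 : 1 ≤ j) (h4 : j ≤ S.K e)
    (h : (S.X e i).1 = (S.X e j).1 ∨ (S.X e i).1 = S.rv (S.X e j).1) : i = j := by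
  cases e with
  | h d =>
    have h5 : S.K (.h d) = 0 := rfl
    omega
  | sp d =>
    have hd : ¬ S.Inn (S.F d) := fun h5 => he (inn_F.1 h5)
    have hK : S.K (.sp d) = S.nn (S.F d) := rfl
    rw [hK] at h2 h4
    have h5 : S.nn (S.F d) - i = S.nn (S.F d) - j :=
      ConvFan2_f_inj hd (by omega) (by omega) h
    omega
  | sm d =>
    have hd : ¬ S.Inn (S.F d) := fun h5 => he (inn_F.1 h5)
    have hK : S.K (.sm d) = S.nn (S.F d) := rfl
    rw [hK] at h2 h4
    have h6 : S.f (S.F d) (i - 1) = S.f (S.F d) (j - 1) ∨
        S.f (S.F d) (i - 1) = S.rv (S.f (S.F d) (j - 1)) := by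
      rcases h with h | h
      · left
        have h7 : S.rv (S.f (S.F d) (i - 1)) = S.rv (S.f (S.F d) (j - 1)) := h
        rw [← rv_rv (S.f (S.F d) (i - 1)), h7, rv_rv]
      · right
        have h7 : S.rv (S.f (S.F d) (i - 1)) = S.rv (S.rv (S.f (S.F d) (j - 1))) := h
        rw [← rv_rv (S.f (S.F d) (i - 1)), h7, rv_rv]
    have h5 : i - 1 = j - 1 := ConvFan2_f_inj hd (by omega) (by omega) h6
    omega
  | Sp d p =>
    obtain ⟨hO, hp1, hp2⟩ := he
    have hnn := nn_out hO
    have hnnF := nn_out_F hO
    simp only [K] at h2 h4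
    simp only [X] at h
    by_cases hi : i = 1
    · by_cases hj : j = 1
      · omega
      · rw [if_pos hi, if_neg hj] at h
        split_ifs at h with h5
        · rcases h with h | h <;> exact absurd h (by simp [rv])
        · rcases h with h | h <;> exact absurd h (by simp [rv])
    · by_cases hj : j = 1
      · rw [if_neg hi, if_pos hj] at h
        split_ifs at h with h5
        · rcases h with h | h <;> exact absurd h (by simp [rv])
        · rcases h with h | h <;> exact absurd h (by simp [rv])
      · rw [if_neg hi, if_neg hj] at h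
        split_ifs at h2 h4 h with h5 h6 h6
        · rcases h with h | h
          · injection h with h7 h8
            omega
          · exact absurd h (by simp [rv])
        · omega
        · omega
        · rcases h with h | h
          · injection h with h7 h8
            omega
          · exact absurd h (by simp [rv])
  | Sm d p =>
    obtain ⟨hO, hp1, hp2⟩ := he
    have hnn := nn_out hO
    have hnnF := nn_out_F hO
    have hKle : i ≤ S.K (.Sm d p) := h2
    have hKle' : j ≤ S.K (.Sm d p) := h4
    simp only [X] at h
    by_cases hi : i = S.K (.Sm d p)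
    · by_cases hj : j = S.K (.Sm d p)
      · omega
      · rw [if_pos hi, if_neg hj] at h
        split_ifs at h with h5
        · rcases h with h | h <;> exact absurd h (by simp [rv])
        · rcases h with h | h <;> exact absurd h (by simp [rv])
    · by_cases hj : j = S.K (.Sm d p)
      · rw [if_neg hi, if_pos hj] at h
        split_ifs at h with h5
        · rcases h with h | h <;> exact absurd h (by simp [rv])
        · rcases h with h | h <;> exact absurd h (by simp [rv])
      · rw [if_neg hi, if_neg hj] at h
        simp only [K] at h2 h4 hi hj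
        by_cases h5 : p ≤ S.δ d
        · rw [if_pos h5, if_pos h5] at h
          rcases h with h | h
          · injection h with h7 h8
            omega
          · exact absurd h (by simp [rv])
        · rw [if_neg h5, if_neg h5] at h
          split_ifs at h2 h4 hi hj with h6
          · omega
          · rcases h with h | h
            · injection h with h7 h8
              omega
            · exact absurd h (by simp [rv])

theorem fan_fan (e : OE S.B) (he : S.ok e) : ∃ a, (∀ i, 1 ≤ i → i ≤ S.K e → S.src (S.rv (S.X e i).1) = a) ∨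
    (∀ i, 1 ≤ i → i ≤ S.K e → S.src (S.X e i).1 = a) := by
  cases e with
  | h d =>
    refine ⟨d.fst, Or.inl (fun i h1 h2 => ?_)⟩
    have h5 : S.K (.h d) = 0 := rfl
    omega
  | sp d =>
    refine ⟨(S.F d).fst, Or.inr (fun i _ _ => ?_)⟩
    exact ConvFan2_f_src (S.F d) _
  | sm d =>
    refine ⟨(S.F d).fst, Or.inl (fun i _ _ => ?_)⟩
    have h1 : (S.X (.sm d) i).1 = S.rv (S.f (S.F d) (i - 1)) := rfl
    rw [h1, rv_rv]
    exact ConvFan2_f_src (S.F d) _
  | Sp d p =>
    obtain ⟨hO, hp1, hp2⟩ := he
    by_cases hp : p ≤ S.δ d + 1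
    · refine ⟨d.snd, Or.inr (fun i h1 h2 => ?_)⟩
      simp only [K, if_pos hp] at h2
      simp only [X]
      by_cases hi : i = 1
      · rw [if_pos hi]
        have h3 : S.src (.sm (S.F⁻¹ d)) = (S.F (S.F⁻¹ d)).snd := rfl
        rw [h3, FFi]
      · rw [if_neg hi, if_pos (by omega : p ≤ S.δ d)]
        exact F_fst d
    · refine ⟨(S.F⁻¹ d).fst, Or.inl (fun i h1 h2 => ?_)⟩
      simp only [X]
      by_cases hi : i = 1
      · rw [if_pos hi]; rfl
      · rw [if_neg hi, if_neg (by omega : ¬ p ≤ S.δ d)]; rfl
  | Sm d p =>
    obtain ⟨hO, hp1, hp2⟩ := he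
    by_cases hp : p ≤ S.δ d + 1
    · refine ⟨d.snd, Or.inl (fun i h1 h2 => ?_)⟩
      have hK : S.K (.Sm d p) = S.δ d + 2 - p := by simp only [K, if_pos hp]
      simp only [X]
      by_cases hi : i = S.K (.Sm d p)
      · rw [if_pos hi]
        have h3 : S.src (S.rv (.sp (S.F⁻¹ d))) = (S.F (S.F⁻¹ d)).snd := rfl
        rw [h3, FFi]
      · rw [if_neg hi, if_pos (by omega : p ≤ S.δ d)]
        exact F_fst d
    · refine ⟨(S.F⁻¹ d).fst, Or.inr (fun i h1 h2 => ?_)⟩
      simp only [X]
      by_cases hi : i = S.K (.Sm d p)
      · rw [if_pos hi]; rfl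
      · rw [if_neg hi, if_neg (by omega : ¬ p ≤ S.δ d)]; rfl

theorem fan : S.pre.Fan where
  disjoint := fan_disjoint
  once := fan_once
  fan := fan_fan

end Filling

end Pool.Agent.FP
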