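import Pool.Agent.Lib.MP_2e2457_lc.Conv

/-!
# The crossings (MP_2e2457_lc)
-/

set_option autoImplicit false

open Equiv

noncomputable section

namespace Pool.Agent.FP

variable {V : Type} {G : SimpleGraph V}

namespace Filling

variable {S : Filling G}

theorem rv_rv (e : OE S.B) : S.rv (S.rv e) = e := by
  cases e <;> simp [rv]

theorem ok_rv {e : OE S.B} (h : S.ok e) : S.ok (S.rv e) := by
  cases e <;> exact h

theorem K_rv (e : OE S.B) : S.K (S.rv e) = S.K e := by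
  cases e <;> rfl

theorem f_zero (d : S.B) : S.f d 0 = .sp d := by simp [f]
theorem f_last {d : S.B} {p : ℕ} (h : p + 1 = S.nn d) : S.f d p = .sm (S.F⁻¹ (S.F⁻¹ d)) := by
  have := two_le_nn d
  rw [f, if_neg (by omega), if_pos h]
theorem f_mid {d : S.B} {p : ℕ} (h : p ≠ 0) (h' : p + 1 ≠ S.nn d) : S.f d p = .Sp d p := by
  rw [f, if_neg h, if_neg h']

theorem K_Sp_le {d : S.B} {p : ℕ} (h : p ≤ S.δ d + 1) : S.K (.Sp d p) = S.δ d + 2 - p := by
  simp only [K]; rw [if_pos h]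
theorem K_Sp_gt {d : S.B} {p : ℕ} (h : ¬ p ≤ S.δ d + 1) : S.K (.Sp d p) = p - S.δ d := by
  simp only [K]; rw [if_neg h]
theorem K_Sm (d : S.B) (p : ℕ) : S.K (.Sm d p) = S.K (.Sp d p) := rfl
theorem K_sp (d : S.B) : S.K (.sp d) = S.nn (S.F d) := rfl
theorem K_sm (d : S.B) : S.K (.sm d) = S.nn (S.F d) := rfl

theorem ok_sp_F {d : S.B} (h : S.ok (.sp d)) : S.ok (.sp (S.F d)) := fun h' => h (inn_F.1 h')
theorem ok_sp_Fi {d : S.B} (h : S.ok (.sp d)) : S.ok (.sp (S.F⁻¹ d)) := fun h' => h (inn_F_inv.1 h')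

theorem f_ok {d : S.B} {p : ℕ} (h : ¬ S.Inn d) (hp : p < S.nn d) : S.ok (S.f d p) := by
  by_cases h0 : p = 0
  · subst h0; rw [f_zero]; exact h
  by_cases h1 : p + 1 = S.nn d
  · rw [f_last h1]
    intro h2
    exact h (inn_F_inv.1 (inn_F_inv.1 h2))
  rw [f_mid h0 h1]
  have hO : S.Out d := by
    by_contra hO
    rw [nn_not_out hO] at hp h1
    omega
  exact ⟨hO, by omega, by omega⟩

theorem K_f_pos {d : S.B} {p : ℕ} (hp : p < S.nn d) : 1 ≤ S.K (S.f d p) := by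
  by_cases h0 : p = 0
  · subst h0; rw [f_zero, K_sp]
    have := two_le_nn (S.F d)
    omega
  by_cases h1 : p + 1 = S.nn d
  · rw [f_last h1, K_sm]
    have := two_le_nn (S.F (S.F⁻¹ (S.F⁻¹ d)))
    omega
  rw [f_mid h0 h1]
  by_cases h2 : p ≤ S.δ d + 1
  · rw [K_Sp_le h2]; omega
  · rw [K_Sp_gt h2]; omega

/-- the crossing of `sm (F⁻¹ d)` with an edge in the angle at `d`, seen from this edge -/
theorem X_f_one {d : S.B} {p : ℕ} (hp : p < S.nn d) : S.X (S.f d p) 1 = (.sm (S.F⁻¹ d), p + 1) := by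
  have hn := two_le_nn d
  by_cases h0 : p = 0
  · subst h0
    rw [f_zero]
    simp only [X]
    have h1 : S.nn (S.F d) - 1 + 1 = S.nn (S.F d) := by have := two_le_nn (S.F d); omega
    rw [f_last h1, FiF]
  by_cases h1 : p + 1 = S.nn d
  · rw [f_last h1]
    simp only [X]
    rw [FFi, Nat.sub_self, f_zero]
    simp only [rv, K_sp, FFi]
    rw [h1]
  rw [f_mid h0 h1]
  simp only [X]
  rw [if_pos trivial]

theorem X_ok_sp {d : S.B} {i : ℕ} (he : S.ok (.sp d)) (h1 : 1 ≤ i) (h2 : i ≤ S.K (.sp d)) :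
    S.ok (S.X (.sp d) i).1 ∧ 1 ≤ (S.X (.sp d) i).2 ∧ (S.X (.sp d) i).2 ≤ S.K (S.X (.sp d) i).1 := by
  have h3 := two_le_nn (S.F d)
  rw [K_sp] at h2
  simp only [X]
  exact ⟨f_ok (ok_sp_F he) (by omega), le_refl _, K_f_pos (by omega)⟩

theorem X_ok_sm {d : S.B} {i : ℕ} (he : S.ok (.sm d)) (h1 : 1 ≤ i) (h2 : i ≤ S.K (.sm d)) :
    S.ok (S.X (.sm d) i).1 ∧ 1 ≤ (S.X (.sm d) i).2 ∧ (S.X (.sm d) i).2 ≤ S.K (S.X (.sm d) i).1 := by
  have h3 := two_le_nn (S.F d)
  rw [K_sm] at h2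
  simp only [X]
  refine ⟨ok_rv (f_ok (ok_sp_F he) (by omega)), K_f_pos (by omega), ?_⟩
  rw [K_rv]

theorem nn_Fi {d : S.B} (h : S.Out d) : S.nn (S.F⁻¹ d) = S.δ (S.F⁻¹ d) + S.δ (S.F⁻¹ (S.F⁻¹ d)) + 3 := nn_out (out_F_inv.2 h)

theorem X_ok_Sp {d : S.B} {p i : ℕ} (he : S.ok (.Sp d p)) (h1 : 1 ≤ i) (h2 : i ≤ S.K (.Sp d p)) :
    S.ok (S.X (.Sp d p) i).1 ∧ 1 ≤ (S.X (.Sp d p) i).2 ∧ (S.X (.Sp d p) i).2 ≤ S.K (S.X (.Sp d p) i).1 := by
  obtain ⟨hO, hp, hp'⟩ := he
  have hI := hO.not_inn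
  have n1 := nn_out hO
  have n2 := nn_out_F hO
  have n3 := nn_Fi hO
  simp only [X]
  split_ifs with c1 c2
  · refine ⟨fun h => hI (inn_F_inv.1 h), by omega, ?_⟩
    simp only [K_sm, FFi]
    omega
  · have h3 : p ≤ S.δ d + 1 := by omega
    rw [K_Sp_le h3] at h2
    refine ⟨⟨out_F.2 hO, by omega, by omega⟩, by omega, ?_⟩
    simp only
    by_cases c3 : S.nn (S.F d) - i ≤ S.δ (S.F d) + 1
    · rw [K_Sp_le c3]; omega
    · rw [K_Sp_gt c3]; omega
  · by_cases c3 : p = S.δ d + 1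
    · rw [K_Sp_le (by omega)] at h2; omega
    rw [K_Sp_gt (by omega)] at h2
    refine ⟨⟨out_F_inv.2 hO, by omega, by omega⟩, by simp only; omega, ?_⟩
    simp only [K_Sm]
    rw [K_Sp_le (by omega)]; omega

theorem X_ok_Sm {d : S.B} {p i : ℕ} (he : S.ok (.Sm d p)) (h1 : 1 ≤ i) (h2 : i ≤ S.K (.Sm d p)) :
    S.ok (S.X (.Sm d p) i).1 ∧ 1 ≤ (S.X (.Sm d p) i).2 ∧ (S.X (.Sm d p) i).2 ≤ S.K (S.X (.Sm d p) i).1 := by
  obtain ⟨hO, hp, hp'⟩ := he
  have hI := hO.not_inn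
  have n1 := nn_out hO
  have n2 := nn_out_F hO
  have n3 := nn_Fi hO
  simp only [X]
  split_ifs with c1 c2
  · refine ⟨fun h => hI (inn_F_inv.1 h), by simp only; omega, ?_⟩
    simp only [K_sp, FFi]
    omega
  · have h3 : p ≤ S.δ d + 1 := by omega
    rw [K_Sm, K_Sp_le h3] at h2 c1
    refine ⟨⟨out_F.2 hO, by omega, by omega⟩, by simp only; omega, ?_⟩
    simp only [K_Sm]
    by_cases c3 : p + i + S.δ (S.F d) ≤ S.δ (S.F d) + 1
    · rw [K_Sp_le c3]; omega
    · rw [K_Sp_gt c3]; omega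
  · by_cases c3 : p = S.δ d + 1
    · rw [K_Sm, K_Sp_le (by omega)] at h2 c1; omega
    rw [K_Sm, K_Sp_gt (by omega)] at h2 c1
    refine ⟨⟨out_F_inv.2 hO, by omega, by omega⟩, by simp only; omega, ?_⟩
    simp only
    rw [K_Sp_le (by omega)]; omega

theorem X_ok {e : OE S.B} {i : ℕ} (he : S.ok e) (h1 : 1 ≤ i) (h2 : i ≤ S.K e) :
    S.ok (S.X e i).1 ∧ 1 ≤ (S.X e i).2 ∧ (S.X e i).2 ≤ S.K (S.X e i).1 := by
  cases e with
  | h d => simp only [K] at h2; omega
  | sp d => exact X_ok_sp he h1 h2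
  | sm d => exact X_ok_sm he h1 h2
  | Sp d p => exact X_ok_Sp he h1 h2
  | Sm d p => exact X_ok_Sm he h1 h2

theorem X_rv_f {d : S.B} {p : ℕ} (hp : p < S.nn d) : S.X (S.rv (S.f d p)) (S.K (S.f d p)) = (.sp (S.F⁻¹ d), S.nn d - p) := by
  have hn := two_le_nn d
  by_cases h0 : p = 0
  · subst h0
    rw [f_zero]
    simp only [rv, X, K_sp]
    have h1 : S.nn (S.F d) - 1 + 1 = S.nn (S.F d) := by have := two_le_nn (S.F d); omega
    rw [f_last h1, FiF]
    simp only [rv, K_sm, FFi, Nat.sub_zero]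
  by_cases h1 : p + 1 = S.nn d
  · rw [f_last h1]
    simp only [rv, X, K_sm, FFi, Nat.sub_self]
    rw [f_zero, ← h1, Nat.add_sub_cancel_left]
  rw [f_mid h0 h1]
  simp only [rv, X]
  rw [if_pos (K_Sm _ _).symm]

theorem X_X {e : OE S.B} {i : ℕ} (he : S.ok e) (h1 : 1 ≤ i) (h2 : i ≤ S.K e) :
    S.X (S.X e i).1 (S.X e i).2 = (S.rv e, S.K e + 1 - i) := by
  cases e with
  | h d => simp only [K] at h2; omega
  | sp d =>
    have h3 := two_le_nn (S.F d)
    rw [K_sp] at h2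
    have h4 : S.X (.sp d) i = (S.f (S.F d) (S.nn (S.F d) - i), 1) := rfl
    rw [h4]
    simp only
    rw [X_f_one (by omega), FiF]
    simp only [rv, K_sp]
    exact Prod.ext rfl (by simp only; omega)
  | sm d =>
    have h3 := two_le_nn (S.F d)
    rw [K_sm] at h2
    have h4 : S.X (.sm d) i = (S.rv (S.f (S.F d) (i - 1)), S.K (S.f (S.F d) (i - 1))) := rfl
    rw [h4]
    simp only
    rw [X_rv_f (by omega), FiF]
    simp only [rv, K_sm]
    exact Prod.ext rfl (by simp only; omega)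
  | Sp d p =>
    obtain ⟨hO, hp, hp'⟩ := he
    have n1 := nn_out hO
    have n2 := nn_out_F hO
    by_cases c1 : i = 1
    · subst c1
      have h4 : S.X (.Sp d p) 1 = (.sm (S.F⁻¹ d), p + 1) := by simp only [X]; rw [if_pos trivial]
      rw [h4]
      simp only
      simp only [X, FFi, Nat.add_sub_cancel]
      rw [f_mid (by omega) (by omega)]
    by_cases c2 : p ≤ S.δ d
    · have h4 : S.X (.Sp d p) i = (.Sp (S.F d) (S.nn (S.F d) - i), p + 1) := by
        simp only [X]; rw [if_neg c1, if_pos c2]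
      rw [K_Sp_le (by omega)] at h2
      rw [h4]
      simp only
      simp only [X]
      rw [if_neg (by omega), if_neg (by omega), FiF]
      simp only [rv]
      rw [K_Sp_le (by omega)]
      refine Prod.ext ?_ ?_
      · simp only [Nat.add_sub_cancel]
      · simp only; omega
    · by_cases c3 : p = S.δ d + 1
      · rw [K_Sp_le (by omega)] at h2; omega
      rw [K_Sp_gt (by omega)] at h2
      have h4 : S.X (.Sp d p) i = (.Sm (S.F⁻¹ d) (i - 1), p + 1 - i - S.δ d) := by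
        simp only [X]; rw [if_neg c1, if_neg c2]
      rw [h4]
      simp only
      simp only [X]
      rw [K_Sm, K_Sp_le (by omega), if_neg (by omega), if_pos (by omega), FFi]
      simp only [rv]
      rw [K_Sp_gt (by omega)]
      have h5 : i - 1 + (p + 1 - i - S.δ d) + S.δ d = p := by omega
      rw [h5]
      exact Prod.ext rfl (by simp only; omega)
  | Sm d p =>
    obtain ⟨hO, hp, hp'⟩ := he
    have n1 := nn_out hO
    have n2 := nn_out_F hO
    by_cases c1 : i = S.K (.Sm d p)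
    · have h4 : S.X (.Sm d p) i = (.sp (S.F⁻¹ d), S.nn d - p) := by simp only [X]; rw [if_pos c1]
      rw [h4]
      simp only
      simp only [X, FFi]
      have h5 : S.nn d - (S.nn d - p) = p := by omega
      rw [h5, f_mid (by omega) (by omega)]
      simp only [rv]
      exact Prod.ext rfl (by simp only; omega)
    by_cases c2 : p ≤ S.δ d
    · have h4 : S.X (.Sm d p) i = (.Sm (S.F d) (p + i + S.δ (S.F d)), i) := by
        simp only [X]; rw [if_neg c1, if_pos c2]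
      rw [K_Sm, K_Sp_le (by omega)] at h2 c1
      rw [h4]
      simp only
      simp only [X]
      rw [K_Sm, K_Sp_gt (by omega), if_neg (by omega), if_neg (by omega), FiF]
      simp only [rv]
      rw [K_Sm, K_Sp_le (by omega)]
      refine Prod.ext ?_ ?_
      · simp only; congr 1; omega
      · simp only; omega
    · by_cases c3 : p = S.δ d + 1
      · rw [K_Sm, K_Sp_le (by omega)] at h2 c1; omega
      rw [K_Sm, K_Sp_gt (by omega)] at h2 c1
      have h4 : S.X (.Sm d p) i = (.Sp (S.F⁻¹ d) (p - S.δ d - i), S.nn d - p) := by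
        simp only [X]; rw [if_neg (by rw [K_Sm, K_Sp_gt (by omega)]; exact c1), if_neg c2]
      rw [h4]
      simp only
      simp only [X]
      rw [if_neg (by omega), if_pos (by omega), FFi]
      simp only [rv]
      rw [K_Sm, K_Sp_gt (by omega)]
      refine Prod.ext ?_ ?_
      · simp only; congr 1; omega
      · simp only; omega

end Filling

end Pool.Agent.FP
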