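import Pool.Agent.Lib.MP_2e2457_lc.ConvR1
import Pool.Agent.Lib.MP_2e2457_lc.ConvX

/-!
# The rotation at the vertices (MP_2e2457_lc)
-/

set_option autoImplicit false

open Equiv

noncomputable section

namespace Pool.Agent.FP

variable {V : Type} {G : SimpleGraph V}

namespace Filling

variable {S : Filling G}

theorem ρ_ok {e : OE S.B} (he : S.ok e) : S.ok (S.ρ e) := by
  cases e with
  | h d =>
    simp only [ρ]
    split_ifs with c
    · obtain ⟨h1, h2, h3, h4⟩ := fst_spec c
      have := nn_out h1
      exact ⟨h1, h2, by omega⟩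
    · exact c
  | sp d =>
    have := two_le_nn d
    exact f_ok he (by omega)
  | sm d => trivial
  | Sp d p =>
    obtain ⟨h1, h2, h3⟩ := he
    exact f_ok h1.not_inn (by omega)
  | Sm d p =>
    obtain ⟨h1, h2, h3⟩ := he
    simp only [ρ]
    split_ifs with c
    · have := nn_out_F h1
      exact ⟨out_F.2 h1, by omega, by omega⟩
    · trivial

theorem src_f {d : S.B} (p : ℕ) : S.src (S.f d p) = d.fst := by
  unfold f
  split_ifs with c1 c2
  · rfl
  · simp only [src]
    rw [FFi, ← F_fst, FFi]
  · rfl

theorem ρ_src {e : OE S.B} (he : S.ok e) : S.src (S.ρ e) = S.src e := by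
  cases e with
  | h d =>
    simp only [ρ]
    split_ifs with c
    · obtain ⟨h1, h2, h3, h4⟩ := fst_spec c
      simp only [src]
      rw [zv_eq_fst h1 (Or.inl (by omega)), h4]
    · rfl
  | sp d => exact src_f 1
  | sm d => rfl
  | Sp d p => exact src_f (p + 1)
  | Sm d p =>
    obtain ⟨h1, h2, h3⟩ := he
    simp only [ρ]
    split_ifs with c
    · simp only [src]
      exact zv_next h1 p
    · have := nn_out h1
      simp only [src]
      rw [S.R.rot_fst, zv_eq_fst h1 (Or.inr (by omega))]

theorem ρ_f {d : S.B} {p : ℕ} (hp : p + 2 ≤ S.nn d) : S.ρ (S.f d p) = S.f d (p + 1) := by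
  by_cases h0 : p = 0
  · subst h0; rw [f_zero]; rfl
  · rw [f_mid h0 (by omega)]; rfl

end Filling

end Pool.Agent.FP
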