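import Pool.Agent.Lib.MP_2e2457_lc.ConvR2
import Pool.Agent.Lib.MP_2e2457_lc.ConvE2

/-!
# The rotation is cyclic (MP_2e2457_lc)
-/

set_option autoImplicit false

open Equiv

noncomputable section

namespace Pool.Agent.FP

variable {V : Type} {G : SimpleGraph V}

namespace Filling

variable {S : Filling G}

/-- `e'` is reached from `e` by iterating `ρ` -/
def Rc (e e' : OE S.B) : Prop := ∃ n : ℕ, S.ρ^[n] e = e'

theorem Rc.refl (e : OE S.B) : Rc e e := ⟨0, rfl⟩

theorem Rc.trans {e e' e'' : OE S.B} (h : Rc e e') (h' : Rc e' e'') : Rc e e'' := by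
  obtain ⟨n, rfl⟩ := h
  obtain ⟨m, rfl⟩ := h'
  exact ⟨m + n, Function.iterate_add_apply _ _ _ _⟩

theorem Rc.one {e e' : OE S.B} (h : S.ρ e = e') : Rc e e' := ⟨1, h⟩

theorem Rc.src_eq {e e' : OE S.B} (he : S.ok e) (h : Rc e e') : S.src e' = S.src e := by
  obtain ⟨n, rfl⟩ := h
  have : S.ok (S.ρ^[n] e) ∧ S.src (S.ρ^[n] e) = S.src e := by
    induction n with
    | zero => exact ⟨he, rfl⟩
    | succ n ih =>
      rw [Function.iterate_succ_apply']
      exact ⟨ρ_ok ih.1, (ρ_src ih.1).trans ih.2⟩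
  exact this.2

theorem rc_f {d : S.B} (h : ¬ S.Inn d) {p : ℕ} (hp : p < S.nn d) : Rc (.h d) (S.f d p) := by
  induction p with
  | zero =>
    refine Rc.one ?_
    simp only [ρ]
    rw [if_neg h, f_zero]
  | succ p ih => exact (ih (by omega)).trans (Rc.one (ρ_f (by omega)))

theorem rc_f' {d : S.B} {p : ℕ} (hp : p < S.nn d) : Rc (S.f d p) (.h (S.R.rot d)) := by
  obtain ⟨n, hn⟩ : ∃ n, n = S.nn d - 1 - p := ⟨_, rfl⟩
  induction n generalizing p with
  | zero =>
    rw [f_last (by omega)]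
    refine Rc.one ?_
    simp only [ρ]
    rw [FFi, rot_eq]
  | succ n ih => exact (Rc.one (ρ_f (by omega))).trans (ih (p := p + 1) (by omega) (by omega))

/-- going forward at an inner vertex -/
theorem rc_fwd {i : S.ι} (hM : (S.A i).M ≠ 0) {a : ℤ} {d : S.B} {p : ℕ} (hA : S.At i a d) (hok : S.ok (.Sm d p)) :
    Rc (.Sm d p) (.h (S.R.rot (S.zd d p))) := by
  obtain ⟨b, hb1, hb2⟩ := exists_a0 i hM ((S.A i).c (a + 1) + 1 - p + 1)
  obtain ⟨n, hn⟩ : ∃ n : ℕ, n = (b + 1 - a).toNat := ⟨_, rfl⟩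
  induction n generalizing a d p with
  | zero =>
    obtain ⟨h1, h2, h3⟩ := hok
    have hd := hA.δ_eq
    refine Rc.one ?_
    simp only [ρ]
    rw [if_neg]
    intro h4
    have := (S.A i).c_mono (show b + 1 ≤ a by omega)
    omega
  | succ n ih =>
    obtain ⟨h1, h2, h3⟩ := hok
    have hd := hA.δ_eq
    have hd2 := hA.F.δ_eq
    have hn1 := nn_out h1
    have hn2 := nn_out_F h1
    have m1 := (S.A i).c_mono (show a ≤ b by omega)
    have hp : p ≤ S.δ d + 1 := by omega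
    have h4 : S.ρ (.Sm d p) = .Sm (S.F d) (p + S.δ (S.F d)) := by
      simp only [ρ]; rw [if_pos hp]
    have hM' : S.δ d ≠ 0 ∨ S.δ (S.F⁻¹ d) ≠ 0 ∨ True := Or.inr (Or.inr trivial)
    have e1 : (S.A i).c (a + 1 + 1) + 1 - ((p + S.δ (S.F d) : ℕ) : ℤ) = (S.A i).c (a + 1) + 1 - p := by
      push_cast; omega
    have h5 := ih (a := a + 1) (d := S.F d) (p := p + S.δ (S.F d)) hA.F ⟨out_F.2 h1, by omega, by omega⟩
      (by rw [e1]; exact hb1) (by rw [e1]; exact hb2) (by omega)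
    refine (Rc.one h4).trans ?_
    have h6 : S.zd (S.F d) (p + S.δ (S.F d)) = S.zd d p := by
      obtain ⟨q, hq⟩ := exists_inr hM
      rw [hA.zd_eq hq, hA.F.zd_eq hq]
      congr 2
      omega
    rw [h6] at h5
    exact h5

/-- going backward at an inner vertex -/
theorem rc_bwd {i : S.ι} (hM : (S.A i).M ≠ 0) {a : ℤ} {d : S.B} {p : ℕ} (hA : S.At i a d) (hok : S.ok (.Sm d p)) :
    Rc (.h (S.zd d p)) (.Sm d p) := by
  obtain ⟨b, hb1, hb2⟩ := exists_a0 i hM ((S.A i).c (a + 1) + 1 - p)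
  obtain ⟨n, hn⟩ : ∃ n : ℕ, n = (a - b).toNat := ⟨_, rfl⟩
  induction n generalizing a d p with
  | zero =>
    obtain ⟨h1, h2, h3⟩ := hok
    have hd := hA.δ_eq
    have m1 := (S.A i).c_mono (show a ≤ b by omega)
    have hp : p ≤ S.δ d := by omega
    refine Rc.one ?_
    simp only [ρ]
    rw [if_pos (zd_inn h1 (Or.inl (by omega))), fst_zd h1 h2 hp]
  | succ n ih =>
    obtain ⟨h1, h2, h3⟩ := hok
    have hd := hA.δ_eq
    have hd2 := hA.F_inv.δ_eq
    rw [sub_add_cancel] at hd2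
    have hn1 := nn_out h1
    have hn2 := nn_out (out_F_inv.2 h1)
    have m1 := (S.A i).c_mono (show b + 1 ≤ a by omega)
    have hp : S.δ d < p := by omega
    have h4 : S.ρ (.Sm (S.F⁻¹ d) (p - S.δ d)) = .Sm d p := by
      simp only [ρ]
      rw [if_pos (by omega), FFi]
      congr 1
      omega
    have e1 : (S.A i).c (a - 1 + 1) + 1 - ((p - S.δ d : ℕ) : ℤ) = (S.A i).c (a + 1) + 1 - p := by
      rw [sub_add_cancel]; omega
    have h5 := ih (a := a - 1) (d := S.F⁻¹ d) (p := p - S.δ d) hA.F_inv ⟨out_F_inv.2 h1, by omega, by omega⟩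
      (by rw [e1]; exact hb1) (by rw [e1]; exact hb2) (by omega)
    refine Rc.trans ?_ (Rc.one h4)
    have h6 : S.zd (S.F⁻¹ d) (p - S.δ d) = S.zd d p := by
      obtain ⟨q, hq⟩ := exists_inr hM
      rw [hA.zd_eq hq, hA.F_inv.zd_eq hq]
      congr 2
      omega
    rw [h6] at h5
    exact h5

theorem rc_rot [Finite V] {d d' : S.B} (hd : ∀ d : S.B, Rc (.h d) (.h (S.R.rot d))) (h : d.fst = d'.fst) :
    Rc (.h d) (.h d') := by
  obtain ⟨n, hn⟩ := (S.R.rot_cycle d d' h).exists_nat_pow_eq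
  rw [← hn]
  clear hn
  induction n with
  | zero => exact Rc.refl _
  | succ n ih =>
    rw [pow_succ', Perm.mul_apply]
    exact ih.trans (hd _)

theorem rc_h [Finite V] (d : S.B) : Rc (.h d) (.h (S.R.rot d)) := by
  by_cases h : S.Inn d
  · obtain ⟨h1, h2, h3, h4⟩ := fst_spec h
    obtain ⟨i, a, hA⟩ := h1
    have hA : S.At i a (S.fst d).1 := hA
    have h0 := nn_out hA.out
    have h5 := rc_fwd (M_ne hA (Or.inl (by omega))) hA (p := (S.fst d).2) ⟨hA.out, h2, by omega⟩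
    rw [h4] at h5
    refine Rc.trans (Rc.one ?_) h5
    simp only [ρ]
    rw [if_pos h]
  · have h0 := two_le_nn d
    exact (rc_f h (p := 0) (by omega)).trans (rc_f' (by omega))

/-- an edge with an end at a vertex which is not a hub -/
theorem rc_exists {e : OE S.B} (he : S.ok e) (hub : ∀ d p i a, e = .Sm d p → S.At i a d → (S.A i).M ≠ 0) :
    (∃ d, Rc e (.h d)) ∧ ∃ d, Rc (.h d) e := by
  cases e with
  | h d => exact ⟨⟨d, Rc.refl _⟩, ⟨d, Rc.refl _⟩⟩
  | sp d =>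
    have h0 := two_le_nn d
    have h1 := rc_f (S := S) (d := d) he (p := 0) (by omega)
    have h2 := rc_f' (S := S) (d := d) (p := 0) (by omega)
    rw [f_zero] at h1 h2
    exact ⟨⟨_, h2⟩, ⟨_, h1⟩⟩
  | sm d =>
    have h0 := two_le_nn (S.F (S.F d))
    have hI : ¬ S.Inn (S.F (S.F d)) := fun h => he (inn_F.1 (inn_F.1 h))
    have h1 := rc_f hI (p := S.nn (S.F (S.F d)) - 1) (by omega)
    have h2 := rc_f' (S := S) (d := S.F (S.F d)) (p := S.nn (S.F (S.F d)) - 1) (by omega)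
    rw [f_last (by omega), FiF, FiF] at h1 h2
    exact ⟨⟨_, h2⟩, ⟨_, h1⟩⟩
  | Sp d p =>
    obtain ⟨h3, h4, h5⟩ := he
    have h1 := rc_f h3.not_inn (p := p) (by omega)
    have h2 := rc_f' (S := S) (d := d) (p := p) (by omega)
    rw [f_mid (by omega) (by omega)] at h1 h2
    exact ⟨⟨_, h2⟩, ⟨_, h1⟩⟩
  | Sm d p =>
    obtain ⟨i, a, hA⟩ := he.1
    have hM := hub d p i a rfl hA
    exact ⟨⟨_, rc_fwd hM hA he⟩, ⟨_, rc_bwd hM hA he⟩⟩

/-- at a hub there are no darts of `H` -/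
theorem hub_src {d : S.B} {p : ℕ} {i : S.ι} {a : ℤ} (hA : S.At i a d) (hM : (S.A i).M = 0) :
    (S.A i).inner = Sum.inl (S.zv d p) ∧ ∀ w, ¬ S.H.Adj (S.zv d p) w := by
  cases h : (S.A i).inner with
  | inl v =>
    have h1 : S.zv d p = v := by
      rw [hA.zv_eq, Annulus.z, h]; rfl
    rw [h1]
    exact ⟨rfl, ((S.A i).inner_vertex v h).2⟩
  | inr q => exact absurd hM ((S.A i).inner_dart q h).1

theorem hub_δ {i : S.ι} {a : ℤ} {d : S.B} (hA : S.At i a d) (hM : (S.A i).M = 0) : S.δ d = 0 := by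
  by_contra h
  exact M_ne hA (Or.inl h) hM

theorem ρ_reach [Finite V] {e e' : OE S.B} (he : S.ok e) (he' : S.ok e') (h : S.src e = S.src e') :
    ∃ n : ℕ, S.ρ^[n] e = e' := by
  have noh : ∀ {d : S.B} {p : ℕ} {i : S.ι} {a : ℤ} (hA : S.At i a d) (hM : (S.A i).M = 0)
      {x : OE S.B} (hx : S.ok x) (hs : S.src x = S.zv d p), ∃ d' p' i' a', x = .Sm d' p' ∧ S.At i' a' d' ∧ (S.A i').M = 0 := by
    intro d p i a hA hM x hx hs
    by_contra hc
    push Not at hc
    obtain ⟨⟨d', h1⟩, _⟩ := rc_exists hx (fun d' p' i' a' h1 h2 => hc d' p' i' a' h1 h2)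
    have h2 := h1.src_eq hx
    rw [hs] at h2
    have h3 : d'.fst = S.zv d p := h2
    have h4 := d'.adj
    rw [h3] at h4
    exact (hub_src hA hM).2 _ h4
  by_cases c : ∃ d p i a, e = .Sm d p ∧ S.At i a d ∧ (S.A i).M = 0
  · obtain ⟨d, p, i, a, rfl, hA, hM⟩ := c
    obtain ⟨d', p', i', a', rfl, hA', hM'⟩ := noh hA hM (p := p) he' h.symm
    have h1 := (hub_src (p := p) hA hM).1
    have h2 := (hub_src (p := p') hA' hM').1
    have h3 : S.zv d p = S.zv d' p' := h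
    rw [h3] at h1
    obtain ⟨j, _, hj⟩ := S.hub (S.zv d' p') (hub_src (p := p') hA' hM').2
    have h4 : i = i' := (hj i h1).trans (hj i' h2).symm
    subst h4
    have k1 : ∀ {x : S.B} {q : ℕ} {b : ℤ}, S.At i b x → S.ok (.Sm x q) → q = 1 := by
      intro x q b hx hok
      have e1 := nn_out hx.out
      have e2 := hub_δ hx hM
      have e3 := hub_δ hx.F_inv hM
      have e4 := hok.2.1
      have e5 := hok.2.2
      omega
    have hp := k1 hA he
    have hp' := k1 hA' he'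
    subst hp
    subst hp'
    have h5 : S.F.SameCycle d d' := by
      refine ⟨a' - a, ?_⟩
      rw [← hA, ← Perm.mul_apply, ← zpow_add, sub_add_cancel]
      exact hA'
    obtain ⟨n, hn⟩ := h5.exists_nat_pow_eq
    refine ⟨n, ?_⟩
    rw [← hn]
    have h6 : ∀ n : ℕ, S.ρ^[n] (.Sm d 1) = .Sm ((S.F ^ n) d) 1 ∧ ∃ b, S.At i b ((S.F ^ n) d) := by
      intro n
      induction n with
      | zero => exact ⟨rfl, a, hA⟩
      | succ n ih =>
        obtain ⟨h7, b, hb⟩ := ih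
        rw [Function.iterate_succ_apply', h7, pow_succ', Perm.mul_apply]
        refine ⟨?_, b + 1, hb.F⟩
        simp only [ρ]
        rw [if_pos (by omega), hub_δ hb.F hM]
    exact (h6 n).1
  · have c' : ¬ ∃ d p i a, e' = .Sm d p ∧ S.At i a d ∧ (S.A i).M = 0 := by
      rintro ⟨d, p, i, a, rfl, hA, hM⟩
      obtain ⟨d', p', i', a', h1, h2, h3⟩ := noh hA hM (p := p) he h
      exact c ⟨d', p', i', a', h1, h2, h3⟩
    push Not at c c'
    obtain ⟨⟨d, h1⟩, _⟩ := rc_exists he (fun d p i a h1 h2 => c d p i a h1 h2)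
    obtain ⟨_, ⟨d', h2⟩⟩ := rc_exists he' (fun d p i a h1 h2 => c' d p i a h1 h2)
    have h3 := h1.src_eq he
    have h4 := h2.src_eq (e := .h d') trivial
    have h5 : d.fst = d'.fst := h3.trans (h.trans h4)
    exact h1.trans ((rc_rot rc_h h5).trans h2)

end Filling

end Pool.Agent.FP
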