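import Pool.Agent.Lib.MP_2e2457_lc.Defs

/-!
# Abstract descriptions of drawings (MP_2e2457_lc)
-/

set_option autoImplicit false

open Equiv

noncomputable section

namespace Pool.Agent.FP

variable {V : Type}

/-- A description of a drawing by oriented edges (`E`, those with `ok`), the numbers of crossings `K` and the
partner function `X` at the crossings, and the rotation `ρ` at the vertices. -/
structure Pre (G : SimpleGraph V) where
  E : Type
  ok : E → Prop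
  rv : E → E
  K : E → ℕ
  src : E → V
  X : E → ℕ → E × ℕ
  ρ : E → E
  rv_rv : ∀ e, rv (rv e) = e
  ok_rv : ∀ e, ok e → ok (rv e)
  K_rv : ∀ e, K (rv e) = K e
  adj : ∀ e, ok e → G.Adj (src e) (src (rv e))
  inj : ∀ e e', ok e → ok e' → src e = src e' → src (rv e) = src (rv e') → e = e'
  surj : ∀ u v, G.Adj u v → ∃ e, ok e ∧ src e = u ∧ src (rv e) = v
  X_ok : ∀ e i, ok e → 1 ≤ i → i ≤ K e → ok (X e i).1 ∧ 1 ≤ (X e i).2 ∧ (X e i).2 ≤ K (X e i).1
  X_X : ∀ e i, ok e → 1 ≤ i → i ≤ K e → X (X e i).1 (X e i).2 = (rv e, K e + 1 - i)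
  ρ_ok : ∀ e, ok e → ok (ρ e)
  ρ_src : ∀ e, ok e → src (ρ e) = src e
  ρ_reach : ∀ e e', ok e → ok e' → src e = src e' → ∃ n : ℕ, ρ^[n] e = e'

namespace Pre

variable {G : SimpleGraph V} (T : Pre G)

/-- valid darts -/
def okd (x : T.E × ℕ) : Prop := T.ok x.1 ∧ x.2 ≤ T.K x.1

/-- the darts -/
abbrev P : Type := {x : T.E × ℕ // T.okd x}

/-- `y` follows `x` on the boundary of the face to the left -/
def NX (x y : T.E × ℕ) : Prop :=
  T.okd x ∧ T.okd y ∧ ((x.2 < T.K x.1 ∧ y = T.X x.1 (x.2 + 1)) ∨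
    (x.2 = T.K x.1 ∧ y.2 = 0 ∧ T.ρ y.1 = T.rv x.1))

open Classical in
/-- weight of a dart; `ch` is the set of the charged darts -/
def w (ch : T.E × ℕ → Prop) (x : T.E × ℕ) : ℕ := 1 + (if x.2 = 0 then 1 else 0) + (if ch x then 1 else 0)

def Face3 (ch : T.E × ℕ → Prop) (a b c : T.E × ℕ) : Prop :=
  T.NX a b ∧ T.NX b c ∧ T.NX c a ∧ T.w ch a + T.w ch b + T.w ch c = 5

def Face4 (ch : T.E × ℕ → Prop) (a b c d : T.E × ℕ) : Prop :=
  T.NX a b ∧ T.NX b c ∧ T.NX c d ∧ T.NX d a ∧ T.w ch a + T.w ch b + T.w ch c + T.w ch d = 5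

def Face5 (ch : T.E × ℕ → Prop) (a b c d e : T.E × ℕ) : Prop :=
  T.NX a b ∧ T.NX b c ∧ T.NX c d ∧ T.NX d e ∧ T.NX e a ∧ a ≠ b ∧
    T.w ch a + T.w ch b + T.w ch c + T.w ch d + T.w ch e = 5

/-- the face to the left of `a` has total weight five -/
def Covered (ch : T.E × ℕ → Prop) (a : T.E × ℕ) : Prop :=
  (∃ b c, T.Face3 ch a b c) ∨ (∃ b c d, T.Face4 ch a b c d) ∨ (∃ b c d e, T.Face5 ch a b c d e)

/-- the drawing is simple and fan-planar -/
structure Fan : Prop where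
  disjoint : ∀ e i, T.ok e → 1 ≤ i → i ≤ T.K e → T.src (T.X e i).1 ≠ T.src e ∧ T.src (T.X e i).1 ≠ T.src (T.rv e) ∧
    T.src (T.rv (T.X e i).1) ≠ T.src e ∧ T.src (T.rv (T.X e i).1) ≠ T.src (T.rv e)
  once : ∀ e i j, T.ok e → 1 ≤ i → i ≤ T.K e → 1 ≤ j → j ≤ T.K e →
    (T.X e i).1 = (T.X e j).1 ∨ (T.X e i).1 = T.rv (T.X e j).1 → i = j
  fan : ∀ e, T.ok e → ∃ a, (∀ i, 1 ≤ i → i ≤ T.K e → T.src (T.rv (T.X e i).1) = a) ∨
    (∀ i, 1 ≤ i → i ≤ T.K e → T.src (T.X e i).1 = a)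

open Classical in
/-- every crossing is charged exactly once, and vertices are not charged -/
structure Charged (ch : T.E × ℕ → Prop) : Prop where
  zero : ∀ e, ¬ ch (e, 0)
  one : ∀ e i, T.ok e → 1 ≤ i → i ≤ T.K e →
    (if ch (e, i) then 1 else 0) + (if ch (T.X e i) then 1 else 0) + (if ch (T.rv e, T.K e + 1 - i) then 1 else 0) +
      (if ch (T.X (T.rv e) (T.K e + 1 - i)) then 1 else 0) = 1

end Pre

end Pool.Agent.FP
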