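import Pool.Agent.Lib.MP_2e2457_lc.ConvX
import Pool.Agent.Lib.MP_2e2457_lc.ConvE2
import Pool.Agent.Lib.MP_2e2457_lc.ConvR2
import Pool.Agent.Lib.MP_2e2457_lc.ConvRe
import Pool.Agent.Lib.MP_2e2457_lc.Pre

/-!
# The abstract drawing of a decomposition (MP_2e2457_lc)
-/

set_option autoImplicit false

open Equiv

noncomputable section

namespace Pool.Agent.FP

variable {V : Type} {G : SimpleGraph V}

namespace Filling

/-- the abstract drawing of a decomposition -/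
def pre [Finite V] (S : Filling G) : Pre G where
  E := OE S.B
  ok := S.ok
  rv := S.rv
  K := S.K
  src := S.src
  X := S.X
  ρ := S.ρ
  rv_rv := rv_rv
  ok_rv := fun _ => ok_rv
  K_rv := K_rv
  adj := fun _ => adj
  inj := fun _ _ => inj
  surj := fun _ _ => surj
  X_ok := fun _ _ => X_ok
  X_X := fun _ _ => X_X
  ρ_ok := fun _ => ρ_ok
  ρ_src := fun _ => ρ_src
  ρ_reach := fun _ _ => ρ_reach

variable [Finite V] {S : Filling G}

theorem nx_mid {e e' : OE S.B} {i i' : ℕ} (he : S.ok e) (hi : i < S.K e) (h : S.X e (i + 1) = (e', i')) :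
    S.pre.NX (e, i) (e', i') := by
  have h1 := X_ok he (Nat.succ_le_succ (Nat.zero_le i)) hi
  have h2 : S.X e (i.succ) = (e', i') := h
  rw [h2] at h1
  exact ⟨⟨he, hi.le⟩, ⟨h1.1, h1.2.2⟩, Or.inl ⟨hi, h.symm⟩⟩

theorem nx_end {e e' : OE S.B} {i : ℕ} (he : S.ok e) (he' : S.ok e') (hi : i = S.K e) (h : S.ρ e' = S.rv e) :
    S.pre.NX (e, i) (e', 0) :=
  ⟨⟨he, hi.le⟩, ⟨he', Nat.zero_le _⟩, Or.inr ⟨hi, rfl, h⟩⟩

theorem w_eq (x : OE S.B × ℕ) {a b : ℕ} (ha : (x.2 = 0 ∧ a = 1) ∨ (x.2 ≠ 0 ∧ a = 0))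
    (hb : (S.ch x ∧ b = 1) ∨ (¬ S.ch x ∧ b = 0)) : S.pre.w S.ch x = 1 + a + b := by
  unfold Pre.w
  rcases ha with ⟨h1, rfl⟩ | ⟨h1, rfl⟩ <;> rcases hb with ⟨h2, rfl⟩ | ⟨h2, rfl⟩
  · rw [if_pos h1, if_pos h2]
  · rw [if_pos h1, if_neg h2]
  · rw [if_neg h1, if_pos h2]
  · rw [if_neg h1, if_neg h2]

end Filling

end Pool.Agent.FP
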