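import Pool.Agent.Lib.MP_2e2457_lc.Conv

/-!
# The inner ends of the edges (MP_2e2457_lc)
-/

set_option autoImplicit false

open Equiv

noncomputable section

namespace Pool.Agent.FP

variable {V : Type} {G : SimpleGraph V}

namespace Filling

variable {S : Filling G}

theorem exists_a0 (i : S.ι) (hM : (S.A i).M ≠ 0) (k : ℤ) :
    ∃ a, (S.A i).c a < k ∧ k ≤ (S.A i).c (a + 1) := by
  set m : ℤ := |(S.A i).c 0| + |k| + 1 with hm
  have h0 := abs_nonneg ((S.A i).c 0)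
  have h1 := abs_nonneg k
  have h2 := neg_abs_le ((S.A i).c 0)
  have h3 := le_abs_self ((S.A i).c 0)
  have h4 := neg_abs_le k
  have h5 := le_abs_self k
  have hM1 : (1 : ℤ) ≤ (S.A i).M := by omega
  have hMm : m ≤ (S.A i).M * m := by nlinarith
  have up := c_mul i 0 m
  have dn := c_mul i 0 (-m)
  have e1 : ((S.A i).M : ℤ) * -m = -((S.A i).M * m) := by ring
  rw [e1] at dn
  obtain ⟨a, ha, hmax⟩ := Int.exists_greatest_of_bdd (P := fun a => (S.A i).c a < k)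
    ⟨0 + (S.A i).N * m, fun z hz => by
      by_contra hc
      have := (S.A i).c_mono (show 0 + ((S.A i).N : ℤ) * m ≤ z by omega)
      omega⟩
    ⟨0 + (S.A i).N * (-m), by omega⟩
  refine ⟨a, ha, ?_⟩
  by_contra hc
  have := hmax (a + 1) (by omega)
  omega

theorem M_ne {i : S.ι} {a : ℤ} {d : S.B} (h : S.At i a d) (h1 : S.δ d ≠ 0 ∨ S.δ (S.F⁻¹ d) ≠ 0) : (S.A i).M ≠ 0 := by
  intro hM
  have h5 := (S.A i).five_le
  have e1 := h.δ_eq
  have e2 := h.F_inv.δ_eq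
  have e3 := (S.A i).c_period (a - 1)
  have m1 := (S.A i).c_mono (show a - 1 ≤ a - 1 + 1 by omega)
  have m2 := (S.A i).c_mono (show a - 1 + 1 ≤ a by omega)
  have m2' := (S.A i).c_mono (show a ≤ a - 1 + 1 by omega)
  have m3 := (S.A i).c_mono (show a ≤ a + 1 by omega)
  have m4 := (S.A i).c_mono (show a + 1 ≤ a - 1 + (S.A i).N by omega)
  rw [hM] at e3
  push_cast at e3
  rcases h1 with h1 | h1
  · apply h1; omega
  · apply h1; omega

theorem exists_inr {i : S.ι} (hM : (S.A i).M ≠ 0) : ∃ q, (S.A i).inner = Sum.inr q := by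
  cases h : (S.A i).inner with
  | inl v => exact absurd ((S.A i).inner_vertex v h).1 hM
  | inr q => exact ⟨q, rfl⟩

/-- every inner dart is the start of the inner end of a first edge -/
theorem fst_spec {D : S.B} (h : S.Inn D) : S.Out (S.fst D).1 ∧ 1 ≤ (S.fst D).2 ∧ (S.fst D).2 ≤ S.δ (S.fst D).1 ∧
    S.zd (S.fst D).1 (S.fst D).2 = D := by
  obtain ⟨i, q, hq, m, hm⟩ := h
  have hM := ((S.A i).inner_dart q hq).1
  obtain ⟨a, h1, h2⟩ := exists_a0 i hM (-m)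
  have hA : S.At i a ((S.F ^ a) (S.A i).t) := rfl
  have hex : ∃ x : S.B × ℕ, S.Out x.1 ∧ 1 ≤ x.2 ∧ x.2 ≤ S.δ x.1 ∧ S.zd x.1 x.2 = D := by
    refine ⟨((S.F ^ a) (S.A i).t, ((S.A i).c (a + 1) + 1 + m).toNat), hA.out, ?_, ?_, ?_⟩
    · simp only; omega
    · have := hA.δ_eq
      simp only; omega
    · simp only
      rw [hA.zd_eq hq, Int.toNat_of_nonneg (by omega), ← hm]
      congr 2
      ring
  rw [fst, dif_pos hex]
  exact hex.choose_spec

theorem zd_inn {d : S.B} {p : ℕ} (h : S.Out d) (h1 : S.δ d ≠ 0 ∨ S.δ (S.F⁻¹ d) ≠ 0) : S.Inn (S.zd d p) := by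
  obtain ⟨i, a, hA⟩ := h
  obtain ⟨q, hq⟩ := exists_inr (M_ne hA h1)
  rw [At.zd_eq hA hq]
  exact ⟨i, q, hq, _, rfl⟩

theorem zd_unique {d d' : S.B} {p p' : ℕ} (h : S.Out d) (h1 : 1 ≤ p) (h2 : p ≤ S.δ d) (h' : S.Out d') (h1' : 1 ≤ p')
    (h2' : p' ≤ S.δ d') (he : S.zd d p = S.zd d' p') : d = d' ∧ p = p' := by
  obtain ⟨i, a, hA⟩ := h
  obtain ⟨j, b, hB⟩ := h'
  have hA : S.At i a d := hA
  have hB : S.At j b d' := hB
  obtain ⟨q, hq⟩ := exists_inr (M_ne hA (Or.inl (by omega)))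
  obtain ⟨q', hq'⟩ := exists_inr (M_ne hB (Or.inl (by omega)))
  have hd := hA.δ_eq
  have hd' := hB.δ_eq
  rw [hA.zd_eq hq, hB.zd_eq hq'] at he
  have hij : i = j := S.inner_unique i j _ ⟨q, hq, _, rfl⟩ ⟨q', hq', _, he.symm⟩
  subst hij
  rw [hq, Sum.inr.injEq] at hq'
  subst hq'
  set k := (S.A i).c (a + 1) + 1 - (p : ℤ) with hk
  set k' := (S.A i).c (b + 1) + 1 - (p' : ℤ) with hk'
  have h3 : (S.F ^ (k' - k)) q = q := by
    rw [sub_eq_add_neg, zpow_add, Perm.mul_apply, he, ← Perm.mul_apply, ← zpow_add]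
    simp
  obtain ⟨m, hm⟩ := (((S.A i).inner_dart q hq).2 _).1 h3
  have c1 := c_mul i a m
  have c2 := c_mul i (a + 1) m
  rw [show a + 1 + ((S.A i).N : ℤ) * m = a + (S.A i).N * m + 1 by ring] at c2
  have hab : a + (S.A i).N * m = b := by
    rcases lt_trichotomy (a + (S.A i).N * m) b with h4 | h4 | h4
    · have := (S.A i).c_mono (show a + (S.A i).N * m + 1 ≤ b by omega)
      omega
    · exact h4
    · have := (S.A i).c_mono (show b + 1 ≤ a + (S.A i).N * m by omega)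
      omega
  constructor
  · rw [← hA, ← hB, ← hab, zpow_add, Perm.mul_apply, ((S.A i).t_period _).2 ⟨m, rfl⟩]
  · rw [hab] at c2
    omega

theorem fst_zd {d : S.B} {p : ℕ} (h : S.Out d) (h1 : 1 ≤ p) (h2 : p ≤ S.δ d) : S.fst (S.zd d p) = (d, p) := by
  obtain ⟨h3, h4, h5, h6⟩ := fst_spec (zd_inn (p := p) h (Or.inl (by omega)))
  obtain ⟨h7, h8⟩ := zd_unique h3 h4 h5 h h1 h2 h6
  exact Prod.ext h7 h8

/-- moving to the next outer dart -/
theorem zd_next {d : S.B} (h : S.Out d) (h1 : S.δ d ≠ 0 ∨ S.δ (S.F⁻¹ d) ≠ 0) (p : ℕ) :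
    S.zd (S.F d) (p + S.δ (S.F d)) = S.zd d p := by
  obtain ⟨i, a, hA⟩ := h
  have hA : S.At i a d := hA
  obtain ⟨q, hq⟩ := exists_inr (M_ne hA h1)
  rw [hA.zd_eq hq, hA.F.zd_eq hq]
  have := hA.F.δ_eq
  congr 2
  push_cast
  rw [this]
  ring

theorem zv_next {d : S.B} (h : S.Out d) (p : ℕ) : S.zv (S.F d) (p + S.δ (S.F d)) = S.zv d p := by
  obtain ⟨i, a, hA⟩ := h
  have hA : S.At i a d := hA
  rw [hA.zv_eq, hA.F.zv_eq]
  have := hA.F.δ_eq
  congr 1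
  push_cast
  rw [this]
  ring

/-- the dart of the inner walk at the end of the next edge -/
theorem zd_succ {d : S.B} {p : ℕ} (h : S.Out d) (h1 : S.δ d ≠ 0 ∨ S.δ (S.F⁻¹ d) ≠ 0) :
    S.zd d (p + 1) = S.F (S.zd d p) := by
  obtain ⟨i, a, hA⟩ := h
  have hA : S.At i a d := hA
  obtain ⟨q, hq⟩ := exists_inr (M_ne hA h1)
  rw [hA.zd_eq hq, hA.zd_eq hq, ← Perm.mul_apply, ← zpow_one_add]
  congr 2
  push_cast
  ring

theorem zv_eq_fst {d : S.B} {p : ℕ} (h : S.Out d) (h1 : S.δ d ≠ 0 ∨ S.δ (S.F⁻¹ d) ≠ 0) :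
    S.zv d p = (S.zd d p).fst := by
  obtain ⟨i, a, hA⟩ := h
  have hA : S.At i a d := hA
  obtain ⟨q, hq⟩ := exists_inr (M_ne hA h1)
  rw [hA.zd_eq hq, hA.zv_eq, Annulus.z, hq, Sum.elim_inr]

end Filling

end Pool.Agent.FP
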