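import Pool.Agent.Lib.MP_2e2457_lc.Charge

/-!
# Counting (MP_2e2457_lc)
-/

set_option autoImplicit false

open Equiv Finset

noncomputable section

namespace Pool.Agent.FP

/-! ### sums over orbits -/

open Classical in
theorem orbit_lemma {α : Type} [Fintype α] (φ : Perm α) (f : α → ℕ) (c : ℕ)
    (h : ∀ d, c ≤ ∑ e with φ.SameCycle d e, f e) :
    c * orbits φ ≤ ∑ d, f d ∧
      (c * orbits φ = ∑ d, f d → ∀ d, ∑ e with φ.SameCycle d e, f e = c) := by
  set s := Perm.SameCycle.setoid φ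
  have h1 : ∑ d, f d = ∑ q : Quotient s, ∑ d with Quotient.mk s d = q, f d :=
    (Finset.sum_fiberwise univ (fun d => Quotient.mk s d) f).symm
  have h2 : ∀ d, (∑ e with Quotient.mk s e = Quotient.mk s d, f e) = ∑ e with φ.SameCycle d e, f e := by
    intro d
    refine Finset.sum_congr ?_ fun _ _ => rfl
    ext e
    simp only [mem_filter, mem_univ, true_and]
    rw [Quotient.eq]
    exact ⟨fun h => Perm.SameCycle.symm h, fun h => Perm.SameCycle.symm h⟩
  have h3 : orbits φ = (univ : Finset (Quotient s)).card := by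
    rw [orbits, Nat.card_eq_fintype_card]; rfl
  have h4 : c * orbits φ = ∑ _q : Quotient s, c := by
    rw [h3, Finset.sum_const, smul_eq_mul, mul_comm]
  have h5 : ∀ q : Quotient s, c ≤ ∑ d with Quotient.mk s d = q, f d := by
    intro q
    induction q using Quotient.inductionOn with
    | h d => rw [h2]; exact h d
  constructor
  · rw [h4, h1]
    exact Finset.sum_le_sum fun q _ => h5 q
  · intro h6 d
    rw [h4, h1] at h6
    have h7 := (Finset.sum_eq_sum_iff_of_le fun q _ => h5 q).1 h6 (Quotient.mk s d) (mem_univ _)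
    rw [← h2, ← h7]

variable {V : Type}

namespace Drawing

variable {G : SimpleGraph V} {D : Drawing G}

open Classical in
/-- total weight of a dart -/
def wt (d : D.DD) : ℕ := 1 + (if d.idx = 0 then 1 else 0) + (if Cw d then 1 else 0) + (if K2 d then 1 else 0)

theorem one_le_wt (d : D.DD) : 1 ≤ wt d := by unfold wt; omega

theorem two_le_wt {d : D.DD} (h : d.idx = 0) : 2 ≤ wt d := by unfold wt; rw [if_pos h]; omega

theorem two_le_wt' {d : D.DD} (h : Cw d) : 2 ≤ wt d := by unfold wt; rw [if_pos h]; omega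

theorem three_le_wt {d : D.DD} (h : K2 d) : 3 ≤ wt d := by unfold wt; rw [if_pos h, if_pos h.1]; omega

section
variable [Fintype D.DD]

open Classical in
def orb (d : D.DD) : Finset D.DD := univ.filter (fun e => D.φ.SameCycle d e)

theorem mem_orb_self (d : D.DD) : d ∈ orb d := by
  simp [orb, Perm.SameCycle.refl]

theorem mem_orb_φ {d e : D.DD} (h : e ∈ orb d) : D.φ e ∈ orb d := by
  simp only [orb, mem_filter, mem_univ, true_and] at h ⊢
  exact Perm.sameCycle_apply_right.2 h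

theorem sum_orb_ge (d : D.DD) (l : List D.DD) (hl : l.Nodup) (h : ∀ e ∈ l, e ∈ orb d) (f : D.DD → ℕ) :
    (l.map f).sum ≤ ∑ e ∈ orb d, f e := by
  classical
  rw [← List.sum_toFinset _ hl]
  refine Finset.sum_le_sum_of_subset ?_
  intro e he
  exact h e (List.mem_toFinset.1 he)

end

/-- case distinction by the length of the orbit -/
theorem orbit_cases (hS : D.Simple) (d : D.DD) :
    (D.φ (D.φ d) = d ∧ [d, D.φ d].Nodup) ∨
    (D.φ (D.φ (D.φ d)) = d ∧ [d, D.φ d, D.φ (D.φ d)].Nodup) ∨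
    (D.φ (D.φ (D.φ (D.φ d))) = d ∧ [d, D.φ d, D.φ (D.φ d), D.φ (D.φ (D.φ d))].Nodup) ∨
    (D.φ (D.φ (D.φ (D.φ (D.φ d)))) = d ∧
      [d, D.φ d, D.φ (D.φ d), D.φ (D.φ (D.φ d)), D.φ (D.φ (D.φ (D.φ d)))].Nodup) ∨
    [d, D.φ d, D.φ (D.φ d), D.φ (D.φ (D.φ d)), D.φ (D.φ (D.φ (D.φ d))),
      D.φ (D.φ (D.φ (D.φ (D.φ d))))].Nodup := by
  have h1 : ∀ e : D.DD, D.φ e ≠ e := φ_ne_self hS
  have inj : ∀ a b : D.DD, D.φ a = D.φ b ↔ a = b := fun a b => φ_inj
  by_cases c2 : D.φ (D.φ d) = d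
  · left
    refine ⟨c2, ?_⟩
    simp [(h1 d).symm]
  by_cases c3 : D.φ (D.φ (D.φ d)) = d
  · right; left
    refine ⟨c3, ?_⟩
    simp [(h1 d).symm, (h1 _).symm, Ne.symm c2]
  by_cases c4 : D.φ (D.φ (D.φ (D.φ d))) = d
  · right; right; left
    refine ⟨c4, ?_⟩
    simp [(h1 d).symm, (h1 _).symm, Ne.symm c2, Ne.symm c3]
  by_cases c5 : D.φ (D.φ (D.φ (D.φ (D.φ d)))) = d
  · right; right; right; left
    refine ⟨c5, ?_⟩
    simp [(h1 d).symm, (h1 _).symm, Ne.symm c2, Ne.symm c3, Ne.symm c4]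
  · right; right; right; right
    simp [(h1 d).symm, (h1 _).symm, Ne.symm c2, Ne.symm c3, Ne.symm c4, Ne.symm c5]

open Classical in
/-- number of real corners (0 or 1) at a dart -/
def rc (d : D.DD) : ℕ := if d.idx = 0 then 1 else 0

theorem rc_pos {d : D.DD} (h : d.idx = 0) : rc d = 1 := by simp [rc, h]
theorem rc_neg {d : D.DD} (h : d.idx ≠ 0) : rc d = 0 := by simp [rc, h]

theorem rc_add_le_wt (d : D.DD) : 1 + rc d ≤ wt d := by unfold wt rc; omega

theorem tri_ge (hS : D.Simple) (hF : D.FanPlanar) {d : D.DD} (h : D.φ (D.φ (D.φ d)) = d) :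
    5 ≤ wt d + wt (D.φ d) + wt (D.φ (D.φ d)) := by
  have key : ∀ e : D.DD, T1 e → 5 ≤ wt e + wt (D.φ e) + wt (D.φ (D.φ e)) := by
    intro e he
    have := two_le_wt' (Or.inl he.lt)
    have := two_le_wt he.1
    have := one_le_wt (D.φ e)
    omega
  by_cases h0 : d.idx = 0 <;> by_cases h1 : (D.φ d).idx = 0 <;> by_cases h2 : (D.φ (D.φ d)).idx = 0
  · have := two_le_wt h0; have := two_le_wt h1; have := two_le_wt h2; omega
  · have := two_le_wt h0; have := two_le_wt h1; have := one_le_wt (D.φ (D.φ d)); omega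
  · have := two_le_wt h0; have := one_le_wt (D.φ d); have := two_le_wt h2; omega
  · exact key d ⟨h0, h, h1, h2⟩
  · have := one_le_wt d; have := two_le_wt h1; have := two_le_wt h2; omega
  · have := key (D.φ d) ⟨h1, by rw [h], h2, by rw [h]; exact h0⟩
    rw [h] at this; omega
  · have := key (D.φ (D.φ d)) ⟨h2, by rw [h], by rw [h]; exact h0, by rw [h]; exact h1⟩
    rw [h] at this; omega
  · exact (no_tri hS hF h h0 h1 h2).elim

theorem quad_ge (hS : D.Simple) (hF : D.FanPlanar) {d : D.DD} (h : D.φ (D.φ (D.φ (D.φ d))) = d) :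
    5 ≤ wt d + wt (D.φ d) + wt (D.φ (D.φ d)) + wt (D.φ (D.φ (D.φ d))) := by
  have o0 := one_le_wt d
  have o1 := one_le_wt (D.φ d)
  have o2 := one_le_wt (D.φ (D.φ d))
  have o3 := one_le_wt (D.φ (D.φ (D.φ d)))
  by_cases h0 : d.idx = 0
  · have := two_le_wt h0; omega
  by_cases h1 : (D.φ d).idx = 0
  · have := two_le_wt h1; omega
  by_cases h2 : (D.φ (D.φ d)).idx = 0
  · have := two_le_wt h2; omega
  by_cases h3 : (D.φ (D.φ (D.φ d))).idx = 0
  · have := two_le_wt h3; omega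
  rcases quad_far hS hF h h0 h1 h2 h3 with h4 | h4 | h4 | h4
  · have := two_le_wt' (Or.inr h4); omega
  · have := two_le_wt' (Or.inr h4); omega
  · have := two_le_wt' (Or.inr h4); omega
  · have := two_le_wt' (Or.inr h4); omega

theorem orb_ge [Fintype D.DD] (hS : D.Simple) (hF : D.FanPlanar) (d : D.DD) : 5 ≤ ∑ e ∈ orb d, wt e := by
  have m0 := mem_orb_self d
  have m1 := mem_orb_φ m0
  have m2 := mem_orb_φ m1
  have m3 := mem_orb_φ m2
  have m4 := mem_orb_φ m3
  rcases orbit_cases hS d with ⟨h, hn⟩ | ⟨h, hn⟩ | ⟨h, hn⟩ | ⟨h, hn⟩ | hn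
  · have h1 := sum_orb_ge d _ hn (by simp [m0, m1]) wt
    simp only [List.map_cons, List.map_nil, List.sum_cons, List.sum_nil] at h1
    have h2 := three_le_wt (k2_of_φφ hS h)
    have h3 := three_le_wt (k2_of_φφ hS (d := D.φ d) (by rw [h]))
    omega
  · have h1 := sum_orb_ge d _ hn (by simp [m0, m1, m2]) wt
    simp only [List.map_cons, List.map_nil, List.sum_cons, List.sum_nil] at h1
    have := tri_ge hS hF h
    omega
  · have h1 := sum_orb_ge d _ hn (by simp [m0, m1, m2, m3]) wt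
    simp only [List.map_cons, List.map_nil, List.sum_cons, List.sum_nil] at h1
    have := quad_ge hS hF h
    omega
  · have h1 := sum_orb_ge d _ hn (by simp [m0, m1, m2, m3, m4]) wt
    simp only [List.map_cons, List.map_nil, List.sum_cons, List.sum_nil] at h1
    have o0 := one_le_wt d
    have o1 := one_le_wt (D.φ d)
    have o2 := one_le_wt (D.φ (D.φ d))
    have o3 := one_le_wt (D.φ (D.φ (D.φ d)))
    have o4 := one_le_wt (D.φ (D.φ (D.φ (D.φ d))))
    omega
  · have m5 := mem_orb_φ m4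
    have h1 := sum_orb_ge d _ hn (by simp [m0, m1, m2, m3, m4, m5]) wt
    simp only [List.map_cons, List.map_nil, List.sum_cons, List.sum_nil] at h1
    have o0 := one_le_wt d
    have o1 := one_le_wt (D.φ d)
    have o2 := one_le_wt (D.φ (D.φ d))
    have o3 := one_le_wt (D.φ (D.φ (D.φ d)))
    have o4 := one_le_wt (D.φ (D.φ (D.φ (D.φ d))))
    omega

/-- The conclusion for orbits of weight exactly five. -/
def Cell (d : D.DD) : Prop :=
  (D.φ (D.φ (D.φ d)) = d ∧ 1 ≤ rc d + rc (D.φ d) + rc (D.φ (D.φ d)) ∧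
      rc d + rc (D.φ d) + rc (D.φ (D.φ d)) ≤ 2) ∨
  (D.φ (D.φ (D.φ (D.φ d))) = d ∧ rc d + rc (D.φ d) + rc (D.φ (D.φ d)) + rc (D.φ (D.φ (D.φ d))) ≤ 1) ∨
  (D.φ (D.φ (D.φ (D.φ (D.φ d)))) = d ∧ d.idx ≠ 0 ∧ (D.φ d).idx ≠ 0 ∧ (D.φ (D.φ d)).idx ≠ 0 ∧
    (D.φ (D.φ (D.φ d))).idx ≠ 0 ∧ (D.φ (D.φ (D.φ (D.φ d)))).idx ≠ 0)

theorem cell_of_eq [Fintype D.DD] (hS : D.Simple) (hF : D.FanPlanar) (d : D.DD)
    (h5 : ∑ e ∈ orb d, wt e = 5) : Cell d := by
  have m0 := mem_orb_self d
  have m1 := mem_orb_φ m0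
  have m2 := mem_orb_φ m1
  have m3 := mem_orb_φ m2
  have m4 := mem_orb_φ m3
  rcases orbit_cases hS d with ⟨h, hn⟩ | ⟨h, hn⟩ | ⟨h, hn⟩ | ⟨h, hn⟩ | hn
  · have h1 := sum_orb_ge d _ hn (by simp [m0, m1]) wt
    simp only [List.map_cons, List.map_nil, List.sum_cons, List.sum_nil] at h1
    have h2 := three_le_wt (k2_of_φφ hS h)
    have h3 := three_le_wt (k2_of_φφ hS (d := D.φ d) (by rw [h]))
    omega
  · have h1 := sum_orb_ge d _ hn (by simp [m0, m1, m2]) wt
    simp only [List.map_cons, List.map_nil, List.sum_cons, List.sum_nil] at h1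
    left
    have r0 := rc_add_le_wt d
    have r1 := rc_add_le_wt (D.φ d)
    have r2 := rc_add_le_wt (D.φ (D.φ d))
    refine ⟨h, ?_, by omega⟩
    by_contra hc
    have h0 : d.idx ≠ 0 := fun h => by rw [rc_pos h] at hc; omega
    have h1 : (D.φ d).idx ≠ 0 := fun h => by rw [rc_pos h] at hc; omega
    have h2 : (D.φ (D.φ d)).idx ≠ 0 := fun h => by rw [rc_pos h] at hc; omega
    exact no_tri hS hF h h0 h1 h2
  · have h1 := sum_orb_ge d _ hn (by simp [m0, m1, m2, m3]) wt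
    simp only [List.map_cons, List.map_nil, List.sum_cons, List.sum_nil] at h1
    right; left
    have r0 := rc_add_le_wt d
    have r1 := rc_add_le_wt (D.φ d)
    have r2 := rc_add_le_wt (D.φ (D.φ d))
    have r3 := rc_add_le_wt (D.φ (D.φ (D.φ d)))
    exact ⟨h, by omega⟩
  · have h1 := sum_orb_ge d _ hn (by simp [m0, m1, m2, m3, m4]) wt
    simp only [List.map_cons, List.map_nil, List.sum_cons, List.sum_nil] at h1
    have r0 := rc_add_le_wt d
    have r1 := rc_add_le_wt (D.φ d)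
    have r2 := rc_add_le_wt (D.φ (D.φ d))
    have r3 := rc_add_le_wt (D.φ (D.φ (D.φ d)))
    have r4 := rc_add_le_wt (D.φ (D.φ (D.φ (D.φ d))))
    right; right
    refine ⟨h, ?_, ?_, ?_, ?_, ?_⟩ <;>
    · intro h0
      have h0 := rc_pos h0
      omega
  · have m5 := mem_orb_φ m4
    have h1 := sum_orb_ge d _ hn (by simp [m0, m1, m2, m3, m4, m5]) wt
    simp only [List.map_cons, List.map_nil, List.sum_cons, List.sum_nil] at h1
    have o0 := one_le_wt d
    have o1 := one_le_wt (D.φ d)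
    have o2 := one_le_wt (D.φ (D.φ d))
    have o3 := one_le_wt (D.φ (D.φ (D.φ d)))
    have o4 := one_le_wt (D.φ (D.φ (D.φ (D.φ d))))
    have o5 := one_le_wt (D.φ (D.φ (D.φ (D.φ (D.φ d)))))
    omega

end Drawing

end Pool.Agent.FP
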