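import Mathlib

/-!
# Optimal fan-planar graphs: definitions (MP_2e2457_lc)

`Drawing G` : a drawing of the finite simple graph `G` on the sphere, given by its planarisation
(the crossings become vertices of degree four) as a combinatorial map.
-/

set_option autoImplicit false

open Equiv

noncomputable section

namespace Pool.Agent.FP

variable {V : Type}

/-- The segments (darts) of the planarisation of a drawing of `G` in which the edge `uv` has
`k u v` crossings. The edge `uv`, traversed from `src = u` to `tgt = v`, passes through its crossings
number `1, ..., k u v`; the dart `(u, v, i)`, `0 ≤ i ≤ k u v`, is the segment from the `i`-th crossing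
(from the vertex `u` if `i = 0`) to the next one (to the vertex `v` if `i = k u v`), directed from `u`
towards `v`. Every segment gives two darts, `(u, v, i)` and `(v, u, k u v - i)`. -/
@[ext] structure Dart (G : SimpleGraph V) (k : V → V → ℕ) where
  src : V
  tgt : V
  idx : ℕ
  adj : G.Adj src tgt
  le : idx ≤ k src tgt

namespace Dart

variable {G : SimpleGraph V} {k : V → V → ℕ}

instance [Finite V] : Finite (Dart G k) := by
  classical
  haveI := Fintype.ofFinite V
  let K : ℕ := Finset.univ.sup (fun p : V × V => k p.1 p.2)
  have hK : ∀ u v, k u v ≤ K := fun u v =>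
    Finset.le_sup (f := fun p : V × V => k p.1 p.2) (Finset.mem_univ (u, v))
  refine Finite.of_injective (fun d : Dart G k => (d.src, d.tgt, (⟨d.idx, by
    have := d.le; have := hK d.src d.tgt; omega⟩ : Fin (K + 1)))) ?_
  intro d e h
  simp only [Prod.mk.injEq, Fin.mk.injEq] at h
  exact Dart.ext h.1 h.2.1 h.2.2

/-- The same segment in the opposite direction. -/
def rev (hk : ∀ u v, k u v = k v u) (d : Dart G k) : Dart G k where
  src := d.tgt
  tgt := d.src
  idx := k d.src d.tgt - d.idx
  adj := d.adj.symm
  le := by rw [hk d.tgt d.src]; omega

theorem rev_rev (hk : ∀ u v, k u v = k v u) (d : Dart G k) : rev hk (rev hk d) = d := by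
  have := d.le
  ext
  · rfl
  · rfl
  · simp only [rev]
    rw [hk d.tgt d.src]
    omega

/-- The dart of the same edge which leaves the same crossing in the opposite direction
(for a dart which starts at a vertex: the dart itself). -/
def opp (hk : ∀ u v, k u v = k v u) (d : Dart G k) : Dart G k :=
  if h : d.idx = 0 then d else
  { src := d.tgt
    tgt := d.src
    idx := k d.src d.tgt + 1 - d.idx
    adj := d.adj.symm
    le := by rw [hk d.tgt d.src]; omega }

end Dart

/-- The number of cycles (orbits) of a permutation, fixed points included. -/
def orbits {α : Type} (σ : Perm α) : ℕ := Nat.card (Quotient (Perm.SameCycle.setoid σ))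

/-- The number of orbits of the group generated by two permutations. -/
def orbits₂ {α : Type} (σ τ : Perm α) : ℕ :=
  Nat.card (Quotient (Perm.SameCycle.setoid σ ⊔ Perm.SameCycle.setoid τ))

/-- The involution `rev` as a permutation. -/
def revPerm {G : SimpleGraph V} {k : V → V → ℕ} (hk : ∀ u v, k u v = k v u) : Perm (Dart G k) where
  toFun := Dart.rev hk
  invFun := Dart.rev hk
  left_inv := Dart.rev_rev hk
  right_inv := Dart.rev_rev hk

/-- A drawing of the finite simple graph `G` on the sphere, described by its planarisation.

* `k u v` is the number of crossings of the edge `uv`.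
* `σ d` is the dart which follows `d` in counterclockwise order around the common starting point
  (vertex or crossing) of the darts.
* The darts which start at a vertex `u` (`idx = 0`, `src = u`) form one cycle of `σ`.
* Every other dart starts at a crossing, at which exactly two (segments of) edges pass through each
  other: `σ (σ d)` is the opposite dart of the same edge. (So four darts start at a crossing.)
* `planar`: every connected component of the planarisation has Euler characteristic `2`, i.e. it is
  drawn on the sphere. (The number of vertices minus the number of segments plus the number of faces is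
  twice the number of components; by Euler's genus inequality each component contributes at most `2`. The face to the
  left of the dart `d` is the cycle of `d` under `σ⁻¹ * rev`. Isolated vertices of `G` do not matter.) -/
structure Drawing (G : SimpleGraph V) where
  k : V → V → ℕ
  k_symm : ∀ u v, k u v = k v u
  σ : Perm (Dart G k)
  idx_σ : ∀ d, (σ d).idx = 0 ↔ d.idx = 0
  src_σ : ∀ d, d.idx = 0 → (σ d).src = d.src
  cycle_σ : ∀ d e, d.idx = 0 → e.idx = 0 → d.src = e.src → σ.SameCycle d e
  cross_σ : ∀ d, d.idx ≠ 0 → σ (σ d) = d.opp k_symm
  planar : 2 * (orbits σ + orbits (σ⁻¹ * revPerm k_symm)) =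
    Nat.card (Dart G k) + 4 * orbits₂ σ (revPerm k_symm)

namespace Drawing

variable {G : SimpleGraph V}

/-- The drawing is simple: no edge crosses itself, edges with a common endpoint do not cross
(the edge through `σ d` crosses the edge of `d` at the starting point of `d`), and two edges cross at most once. -/
structure Simple (D : Drawing G) : Prop where
  disjoint : ∀ d, d.idx ≠ 0 → (D.σ d).src ≠ d.src ∧ (D.σ d).src ≠ d.tgt ∧
    (D.σ d).tgt ≠ d.src ∧ (D.σ d).tgt ≠ d.tgt
  once : ∀ d e, d.idx ≠ 0 → e.idx ≠ 0 → d.src = e.src → d.tgt = e.tgt →
    s((D.σ d).src, (D.σ d).tgt) = s((D.σ e).src, (D.σ e).tgt) → d = e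

/-- The drawing is fan-planar: for every edge `uv` there is a vertex `a` such that all edges which
cross `uv` are incident with `a` (no Configuration I), and, directed away from `a`, they all cross the edge
(directed from `u` to `v`) from left to right, or they all cross it from right to left (no Configuration II).
At the crossing from which the dart `d = (u, v, i)`, `i ≥ 1`, starts, `σ d` is the dart of the crossing edge
which leaves to the left. -/
def FanPlanar (D : Drawing G) : Prop :=
  ∀ u v, G.Adj u v → ∃ a,
    (∀ d : Dart G D.k, d.idx ≠ 0 → d.src = u → d.tgt = v → (D.σ d).tgt = a) ∨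
    (∀ d : Dart G D.k, d.idx ≠ 0 → d.src = u → d.tgt = v → (D.σ d).src = a)

end Drawing

/-- `G` has a simple fan-planar drawing. -/
def IsFanPlanar (G : SimpleGraph V) : Prop := ∃ D : Drawing G, D.Simple ∧ D.FanPlanar

/-- `G` is an optimal fan-planar graph: it has a simple fan-planar drawing and `5 n - 10` edges. -/
def IsOptimal [Finite V] (G : SimpleGraph V) : Prop :=
  Nat.card G.edgeSet + 10 = 5 * Nat.card V ∧ IsFanPlanar G

/-! ### Plane graphs with annular faces -/

/-- A graph `H` with a rotation system: `rot d` is the dart which follows `d` in counterclockwise order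
around `d.fst`. -/
structure Map (H : SimpleGraph V) where
  rot : Perm H.Dart
  rot_fst : ∀ d, (rot d).fst = d.fst
  rot_cycle : ∀ d e : H.Dart, d.fst = e.fst → rot.SameCycle d e

namespace Map

variable {H : SimpleGraph V} (R : Map H)

/-- Reversal of darts as a permutation. -/
def symmPerm (H : SimpleGraph V) : Perm H.Dart where
  toFun := SimpleGraph.Dart.symm
  invFun := SimpleGraph.Dart.symm
  left_inv := SimpleGraph.Dart.symm_symm
  right_inv := SimpleGraph.Dart.symm_symm

/-- `face d` is the dart which follows `d` on the boundary walk of the face to the left of `d`. -/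
def face : Perm H.Dart := R.rot⁻¹ * symmPerm H

end Map

/-- An annular face of the map `R`: it lies between a closed boundary walk `x` of length `N ≥ 5`
(outer walk; the face is to the left of its darts) and another boundary component `z`, which is either an isolated vertex
(`M = 0`) or the boundary walk, of length `M ≥ 1`, of another face side of `R`. Both faces of `R` are merged into one face; the
walk `z` is traversed with the face to the right, that is in the same angular direction as `x`.
The nondecreasing map `c` matches the positions of the two walks. The edges drawn in the annular face are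
`x (i-1) x (i+1)` for all `i`, and `x i z j` for all `i` and `j` with `c (i-1) ≤ j ≤ c (i+1)`. -/
structure Annulus {H : SimpleGraph V} (R : Map H) where
  N : ℕ
  M : ℕ
  five_le : 5 ≤ N
  /-- a dart of the outer walk -/
  t : H.Dart
  t_period : ∀ i : ℤ, (R.face ^ i) t = t ↔ (N : ℤ) ∣ i
  /-- the inner boundary component: an isolated vertex, or the face side of a dart -/
  inner : V ⊕ H.Dart
  inner_vertex : ∀ v, inner = Sum.inl v → M = 0 ∧ ∀ w, ¬ H.Adj v w
  inner_dart : ∀ q, inner = Sum.inr q → M ≠ 0 ∧ ∀ j : ℤ, (R.face ^ j) q = q ↔ (M : ℤ) ∣ j
  c : ℤ → ℤ
  c_mono : Monotone c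
  c_period : ∀ i, c (i + N) = c i + M

namespace Annulus

variable {H : SimpleGraph V} {R : Map H} (A : Annulus R)

/-- the outer walk -/
def x (i : ℤ) : V := ((R.face ^ i) A.t).fst

/-- the inner walk -/
def z (j : ℤ) : V := Sum.elim id (fun q => ((R.face ^ (-j)) q).fst) A.inner

/-- `d` is a dart of the outer walk. -/
def IsOuter (d : H.Dart) : Prop := R.face.SameCycle A.t d

/-- `d` belongs to the inner face side. -/
def IsInner (d : H.Dart) : Prop := ∃ q, A.inner = Sum.inr q ∧ R.face.SameCycle q d

end Annulus

/-- A decomposition of the graph `G`: a spanning graph `H` with a rotation system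
`R` in which every face side belongs to a pentagon or to exactly one annular face; every isolated vertex of `H` is the inner
boundary of exactly one annular face. The edges of `G` are, each exactly once: the edges of `H`; for all consecutive darts
`d, face d` of a pentagon or of an outer walk, the edge from `d.fst` to `(face d).snd` (two-hop; for a pentagon these are
the five diagonals); and the edges `x i z j`, `c (i-1) ≤ j ≤ c (i+1)`, of the annular faces. -/
structure Filling (G : SimpleGraph V) where
  H : SimpleGraph V
  R : Map H
  /-- the set of the annular faces -/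
  ι : Type
  finite : Finite ι
  A : ι → Annulus R
  outer_unique : ∀ i j d, (A i).IsOuter d → (A j).IsOuter d → i = j
  inner_unique : ∀ i j d, (A i).IsInner d → (A j).IsInner d → i = j
  outer_inner : ∀ i j d, (A i).IsOuter d → ¬ (A j).IsInner d
  hub : ∀ v, (∀ w, ¬ H.Adj v w) → ∃! i, (A i).inner = Sum.inl v
  pentagon : ∀ d, (∀ i, ¬ (A i).IsOuter d) → (∀ i, ¬ (A i).IsInner d) →
    ∀ i : ℤ, (R.face ^ i) d = d ↔ (5 : ℤ) ∣ i
  /-- the ends of the drawn edges -/
  edges_inj : Function.Injective (fun s : H.edgeSet ⊕ {d : H.Dart // ∀ i, ¬ (A i).IsInner d} ⊕
      {p : ι × ℤ × ℤ // 0 ≤ p.2.1 ∧ p.2.1 < (A p.1).N ∧ (A p.1).c (p.2.1 - 1) ≤ p.2.2 ∧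
        p.2.2 ≤ (A p.1).c (p.2.1 + 1)} =>
    (match s with
      | Sum.inl e => e.1
      | Sum.inr (Sum.inl d) => s(d.1.fst, (R.face d.1).snd)
      | Sum.inr (Sum.inr p) => s((A p.1.1).x p.1.2.1, (A p.1.1).z p.1.2.2) : Sym2 V))
  edges_range : Set.range (fun s : H.edgeSet ⊕ {d : H.Dart // ∀ i, ¬ (A i).IsInner d} ⊕
      {p : ι × ℤ × ℤ // 0 ≤ p.2.1 ∧ p.2.1 < (A p.1).N ∧ (A p.1).c (p.2.1 - 1) ≤ p.2.2 ∧
        p.2.2 ≤ (A p.1).c (p.2.1 + 1)} =>
    (match s with
      | Sum.inl e => e.1
      | Sum.inr (Sum.inl d) => s(d.1.fst, (R.face d.1).snd)
      | Sum.inr (Sum.inr p) => s((A p.1.1).x p.1.2.1, (A p.1.1).z p.1.2.2) : Sym2 V)) = G.edgeSet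

/-- The structure of an optimal fan-planar graph `G`: a decomposition as above, where moreover `G` is connected and
`H` is drawn on the sphere:
`euler` says that the sum of the Euler characteristics of the components of `H` (with all face sides capped by discs) is
`2 * (number of annular faces) + 2`. As every component has Euler characteristic at most `2`, and (`G` being connected)
the number of annular faces is at least the number of components minus one, this means that all the
components are drawn on spheres and are connected by the annular faces in the form of a tree, i.e. `H` is drawn on the sphere. -/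
structure PentagonAnnulus (G : SimpleGraph V) extends Filling G where
  connected : G.Connected
  euler : Nat.card V + (orbits R.face + Nat.card {v : V // ∀ w, ¬ H.Adj v w}) =
    Nat.card H.edgeSet + 2 * Nat.card ι + 2

end Pool.Agent.FP
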