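import Pool.Agent.Lib.MP_2e2457_lc.AnnMk

/-!
# The decomposition of an optimal drawing (MP_2e2457_lc)
-/

set_option autoImplicit false

open Equiv

noncomputable section

namespace Pool.Agent.FP

variable {V : Type}

namespace Drawing

variable {G : SimpleGraph V} {D : Drawing G}

section
variable [Finite V]

theorem at_F (hO : D.Opt) {h : D.DD} (hh : Unc h) : AT (F h) ↔ AT h := by
  constructor
  · intro hA
    have := hA.B hO
    rwa [B_F hh] at this
  · exact fun hA => hA.F hO

theorem at_hs (hO : D.Opt) (t : (Hs D).Dart) (i : ℤ) : AT (hs t i) ↔ AT (toD t) := by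
  induction i using Int.induction_on with
  | zero => rfl
  | succ n ih => rw [hs_succ, at_F hO (hs_unc _ _), ih]
  | pred n ih =>
    have h1 := at_F hO (hs_unc t (-(n : ℤ) - 1))
    rw [← hs_succ, sub_add_cancel] at h1
    rw [← h1, ih]

theorem Mid.angle (hO : D.Opt) {m : D.DD} (h : Mid m) :
    ∃ h j, AT h ∧ 2 ≤ j ∧ j + 2 ≤ rt h ∧ m = f h j := by
  obtain ⟨h0, j, hA, h1, h2, rfl⟩ := h.1.angle hO
  have h3 : j ≠ 1 := by
    rintro rfl
    have h4 := h.2
    rw [f_one, inv_σ] at h4
    exact h4.not_last hA.1.2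
  refine ⟨h0, j, ⟨hA, fun hP => ?_⟩, by omega, by omega, rfl⟩
  have := hP.rt hO hA
  omega

theorem mid_of (hO : D.Opt) {h : D.DD} (hA : TA h) {j : ℕ} (h1 : 2 ≤ j) (h2 : j + 2 ≤ rt h) : Mid (f h j) := by
  have := hA.mid_f hO (p := j - 1) (by omega) (by omega)
  rwa [fp, show j - 1 + 1 = j by omega] at this

theorem TA.base_first (hO : D.Opt) {h : D.DD} (hA : TA h) : Base (D.σ h) := by
  have h1 : @Base V G D.mirror (@Drawing.φ V G D.mirror (rv h)) := ⟨rv h, hA.mir hO, SameEdge.refl (D := D.mirror) _⟩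
  have h2 : @Drawing.φ V G D.mirror (rv h) = D.σ (rv (rv h)) := rfl
  rw [rv_rv] at h2
  rw [h2] at h1
  exact base_of_mirror hO h1

/-- the darts of the skeleton -/
theorem dart_cases (hO : D.Opt) {d : D.DD} (hd : Unc d) :
    TA d ∨ ∃ h s, AT h ∧ 1 ≤ s ∧ s ≤ Pn h ∧ d = Et h s := by
  have hm0 : (D.σ d).idx = 0 := σ_real hd.1
  have hl : ¬ Last (D.σ d) := hd.not_σ hO.tight
  by_cases hb : Base (D.σ d)
  · left
    obtain ⟨k, hk, h1 | h1⟩ := hb.real hO hm0
    · exfalso
      refine hd.not_σσ hO ?_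
      rw [h1, σφ]; exact hk.1.rv
    · have : d = Drawing.B k := D.σ.injective h1
      rw [this]
      exact hk.B hO
  · rcases hO.lemE hm0 hl hb with h1 | h1
    · exact Or.inl ⟨hd, h1.1⟩
    · right
      obtain ⟨h, j, hA, h2, h3, h4⟩ := h1.angle hO
      have hr := hA.rt_eq hO
      have hm : D.σ d = oe (f h j) := by rw [← h4, oe_oe hm0]
      rcases Nat.lt_or_ge (Pn h + 1) j with h5 | h5
      · exfalso
        have hB := hA.B hO
        have h6 := hB.rot hO (t := rt h - 1 - j) (by omega) (by omega)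
        rw [gq_B (by omega), show rt h - (rt h - 1 - j + 1) = j by omega, ← hm] at h6
        have h7 := D.σ.injective h6
        have h8 := hB.kk_f hO (t := rt h - 1 - j) (by omega) (by omega)
        rw [← h7] at hd
        exact not_unc_oe (by rw [h8]; omega) hd
      · refine ⟨h, Pn h + 2 - j, hA, by omega, by omega, ?_⟩
        have h6 := (hA.et_unc hO (t := Pn h + 2 - j) (by omega) (by omega)).2.1
        rw [fp, show Pn h + 1 - (Pn h + 2 - j) + 1 = j by omega, ← hm] at h6
        exact D.σ.injective h6.symm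

theorem ta_not_et (hO : D.Opt) {h : D.DD} (hA : AT h) {s : ℕ} (h1 : 1 ≤ s) (h2 : s ≤ Pn h) : ¬ TA (Et h s) := by
  intro h3
  have h4 := h3.base_first hO
  rw [(hA.et_unc hO h1 h2).2.1, Base.congr (sameEdge_oe _)] at h4
  have hr := hA.rt_eq hO
  exact (hA.1.mid_f hO (p := Pn h + 1 - s) (by omega) (by omega)).not_base hO h4

theorem isInner_iff (hO : D.Opt) {t : (Hs D).Dart} (hA : AT (toD t)) (d : (Hs D).Dart) :
    (mkA hO t hA).IsInner d ↔ ∃ i : ℤ, ∃ s : ℕ, 1 ≤ s ∧ s ≤ Pn (hs t i) ∧ toD d = Et (hs t i) s := by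
  constructor
  · rintro ⟨q, hq, ⟨j, hj⟩⟩
    have hN : NI (toD t) := by
      by_contra hc
      have h1 : (mkA hO t hA).inner = Sum.inl (sp (toD t)).tgt := by
        unfold mkA; exact dif_neg hc
      rw [h1] at hq
      exact absurd hq (by simp)
    have h1 : (mkA hO t hA).inner = Sum.inr (qq t hN) := by
      unfold mkA; exact dif_pos hN
    rw [h1, Sum.inr.injEq] at hq
    obtain ⟨i, s, a1, a2, a3⟩ := find_step hO ((NI_iff_M hO hA).1 hN) (-j)
    refine ⟨i, s, a1, a2, ?_⟩
    rw [← chain' hO hA hN i a2, a3, neg_neg, hq, hj]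
  · rintro ⟨i, s, a1, a2, a3⟩
    have hN : NI (toD t) := by
      rw [← NI_iff hO hA i]
      exact ((hs_AT hO hA i).ni_of_pos hO (by omega)).1
    have h1 : (mkA hO t hA).inner = Sum.inr (qq t hN) := by
      unfold mkA; exact dif_pos hN
    refine ⟨qq t hN, h1, -(cc t i + s), ?_⟩
    apply toD_inj
    rw [a3, chain' hO hA hN i a2]

theorem sameCycle_of_hs {t t' : (Hs D).Dart} {i i' : ℤ} (h : hs t i = hs t' i') :
    (Rm D).face.SameCycle t t' := by
  have h1 := toD_inj h
  refine ⟨i - i', ?_⟩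
  rw [sub_eq_neg_add, zpow_add, Perm.mul_apply, h1, ← Perm.mul_apply, ← zpow_add]
  simp

/-- the orbits of annular faces -/
def Io (D : Drawing G) : Type :=
  {o : Quotient (Perm.SameCycle.setoid (Rm D).face) // AT (toD o.out)}

instance : Finite (Io D) := by unfold Io; infer_instance

def tt (o : Io D) : (Hs D).Dart := o.1.out

theorem tt_at (o : Io D) : AT (toD (tt o)) := o.2

theorem io_eq {o o' : Io D} (h : (Rm D).face.SameCycle (tt o) (tt o')) : o = o' := by
  apply Subtype.ext
  rw [← Quotient.out_eq o.1, ← Quotient.out_eq o'.1]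
  exact Quotient.sound h

theorem exists_io (hO : D.Opt) {d : (Hs D).Dart} (hA : AT (toD d)) :
    ∃ o : Io D, (Rm D).face.SameCycle (tt o) d := by
  set q : Quotient (Perm.SameCycle.setoid (Rm D).face) := Quotient.mk _ d with hq
  have h1 : (Rm D).face.SameCycle q.out d := by
    have h0 : Quotient.mk (Perm.SameCycle.setoid (Rm D).face) q.out =
        Quotient.mk (Perm.SameCycle.setoid (Rm D).face) d := by rw [Quotient.out_eq]
    exact Quotient.exact h0
  obtain ⟨i, hi⟩ := id h1
  have h2 : AT (toD q.out) := by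
    rw [← at_hs hO q.out i]
    have : hs q.out i = toD d := by rw [hs, hi]
    rw [this]; exact hA
  exact ⟨⟨q, h2⟩, h1⟩

theorem exists_io' (hO : D.Opt) {h : D.DD} (hA : AT h) : ∃ o : Io D, ∃ i : ℤ, hs (tt o) i = h := by
  obtain ⟨o, i, hi⟩ := exists_io hO (d := ofD h hA.1.1) (by rw [toD_ofD]; exact hA)
  exact ⟨o, i, by rw [hs, hi, toD_ofD]⟩

theorem isOuter_iff (hO : D.Opt) {t : (Hs D).Dart} (hA : AT (toD t)) (d : (Hs D).Dart) :
    (mkA hO t hA).IsOuter d ↔ (Rm D).face.SameCycle t d := Iff.rfl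

theorem isOuter_at (hO : D.Opt) {t : (Hs D).Dart} (hA : AT (toD t)) {d : (Hs D).Dart}
    (h : (mkA hO t hA).IsOuter d) : AT (toD d) := by
  obtain ⟨i, hi⟩ := (isOuter_iff hO hA d).1 h
  rw [← hi]
  exact hs_AT hO hA i

/-- position of a middle edge -/
theorem mid_slot (hO : D.Opt) {m : D.DD} (h : Mid m) :
    ∃ o : Io D, ∃ a k : ℤ, 0 ≤ a ∧ a < NN (tt o) ∧ cc (tt o) (a - 1) ≤ k ∧ k ≤ cc (tt o) (a + 1) ∧
      m.src = (mkA hO (tt o) (tt_at o)).x a ∧ m.tgt = (mkA hO (tt o) (tt_at o)).z k := by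
  obtain ⟨h0, j, hA, h1, h2, rfl⟩ := h.angle hO
  obtain ⟨o, i, hi⟩ := exists_io' hO hA
  have hN := NN_pos (tt o)
  set a : ℤ := i % NN (tt o) with ha
  have ha' : hs (tt o) a = h0 := by
    rw [← hi, hs_eq_iff, ha]
    have := Int.emod_add_mul_ediv i (NN (tt o))
    exact ⟨-(i / NN (tt o)), by linarith⟩
  refine ⟨o, a, cc (tt o) (a + 1) + 2 - j, Int.emod_nonneg _ (by omega), Int.emod_lt_of_pos _ (by omega),
    ?_, by omega, ?_, ?_⟩
  · have hr := (hs_AT hO (tt_at o) a).rt_eq hO
    rw [← hs_pred, ha'] at hr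
    rw [cc_succ, cc_pred, ha']
    omega
  · rw [mkA_x, ha', f_src hA.1.1.1]
  · rw [mkA_mid hO (tt_at o) a h1 (by rw [ha']; exact h2), ha']

/-- the middle edge at a position -/
theorem slot_mid (hO : D.Opt) {t : (Hs D).Dart} (hA : AT (toD t)) {a k : ℤ} (h1 : cc t (a - 1) ≤ k)
    (h2 : k ≤ cc t (a + 1)) : ∃ j : ℕ, 2 ≤ j ∧ j + 2 ≤ rt (hs t a) ∧ (j : ℤ) = cc t (a + 1) + 2 - k ∧
      (f (hs t a) j).src = (mkA hO t hA).x a ∧ (f (hs t a) j).tgt = (mkA hO t hA).z k := by
  have hr := (hs_AT hO hA a).rt_eq hO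
  rw [← hs_pred] at hr
  have h3 := cc_succ t a
  have h4 := cc_pred t a
  refine ⟨(cc t (a + 1) + 2 - k).toNat, by omega, by omega, by omega, ?_, ?_⟩
  · rw [mkA_x, f_src (hs_unc _ _).1]
  · have h5 := mkA_mid hO hA a (j := (cc t (a + 1) + 2 - k).toNat) (by omega) (by omega)
    rw [← h5]
    congr 1
    omega

omit [Finite V] in
theorem real_sameEdge {m m' : D.DD} (hm : m.idx = 0) (hm' : m'.idx = 0) (h : SameEdge m m') :
    m = m' ∨ m = oe m' := by
  rcases h with ⟨h1, h2⟩ | ⟨h1, h2⟩
  · exact Or.inl (eq_of_idx h1 h2 (hm.trans hm'.symm))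
  · exact Or.inr (eq_of_idx h1 h2 hm)

omit [Finite V] in
theorem sym2_sameEdge {m m' : D.DD} (h : s(m.src, m.tgt) = s(m'.src, m'.tgt)) : SameEdge m m' := s_eq_iff.1 h

/-- two-hops are determined by their edges -/
theorem hop_inj (hO : D.Opt) {d d' : D.DD} (hA : TA d) (hA' : TA d') (h : SameEdge (D.σ d) (D.σ d')) : d = d' := by
  rcases real_sameEdge (σ_real hA.1.1) (σ_real hA'.1.1) h with h1 | h1
  · exact D.σ.injective h1
  · exfalso
    have hF := hA'.F hO
    have h2 := hF.oe_φ hO
    have h3 : D.σ (rv (hr (Drawing.F d'))) = D.σ d' := by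
      have : rv (hr (Drawing.F d')) = d' := B_F hA'.1
      rw [this]
    rw [h3] at h2
    have h4 : oe (D.σ d') = D.φ (Drawing.F d') := by
      rw [← h2, oe_oe (φ_idx_zero.2 hF.1.2)]
    rw [h4] at h1
    refine hA.1.not_σσ hO ?_
    rw [h1, σφ]
    exact hF.1.rv

/-- base edges are two-hops -/
theorem base_hop (hO : D.Opt) {m : D.DD} (hb : Base m) : ∃ d : D.DD, TA d ∧ SameEdge (D.σ d) m := by
  obtain ⟨k, hk, hse⟩ := hb
  refine ⟨Drawing.B k, hk.B hO, ?_⟩
  have h1 := hk.oe_φ hO
  have h2 : D.σ (Drawing.B k) = oe (D.φ k) := h1.symm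
  rw [h2]
  exact (sameEdge_oe _).trans hse

theorem hop_edge (hO : D.Opt) {d : (Hs D).Dart} (hA : TA (toD d)) :
    s(d.fst, ((Rm D).face d).snd) = s((D.σ (toD d)).src, (D.σ (toD d)).tgt) := by
  have h1 : (toD ((Rm D).face d)).tgt = ((Rm D).face d).snd := rfl
  have h2 := hA.f0_tgt hO
  rw [fp_zero, ← toD_face, h1] at h2
  rw [h2, σ_real_src hA.1.1]
  rfl

/-- The decomposition of `G`. -/
def fill (hO : D.Opt) : Filling G where
  H := Hs D
  R := Rm D
  ι := Io D
  finite := inferInstance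
  A := fun o => mkA hO (tt o) (tt_at o)
  outer_unique := by
    intro o o' d h1 h2
    exact io_eq (h1.trans h2.symm)
  inner_unique := by
    intro o o' d h1 h2
    rw [isInner_iff] at h1 h2
    obtain ⟨i, s, a1, a2, a3⟩ := h1
    obtain ⟨i', s', b1, b2, b3⟩ := h2
    obtain ⟨c1, _⟩ := et_inj hO (hs_AT hO (tt_at o) i) (hs_AT hO (tt_at o') i') a1 a2 b1 b2 (a3.symm.trans b3)
    exact io_eq (sameCycle_of_hs c1)
  outer_inner := by
    intro o o' d h1 h2
    rw [isInner_iff] at h2
    obtain ⟨i, s, a1, a2, a3⟩ := h2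
    have h3 := (isOuter_at hO (tt_at o) h1).1
    rw [a3] at h3
    exact ta_not_et hO (hs_AT hO (tt_at o') i) a1 a2 h3
  hub := by
    intro v hv
    have hiso : ∀ d : D.DD, d.src = v → ¬ Unc d := fun d hd hu =>
      hv d.tgt ⟨hd ▸ d.adj, hd ▸ hu.k⟩
    obtain ⟨w, hw⟩ := hO.tight.noniso v
    set m : D.DD := ⟨v, w, 0, hw, Nat.zero_le _⟩ with hm
    have hms : m.src = v := rfl
    have hm0 : m.idx = 0 := rfl
    have hml : ¬ Last m := fun hl => hiso m rfl ⟨rfl, hl⟩
    have hmb : ¬ Base m := by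
      intro hb
      rcases hb.real' hO hm0 with h1 | h1
      · exact hiso _ (σ_real_src hm0) h1
      · exact hiso _ (inv_src hm0) h1
    have hmid : Mid (oe m) := by
      rcases hO.lemE hm0 hml hmb with h1 | h1
      · exfalso
        obtain ⟨h, j, hA, _, _, h2⟩ := h1.1.angle hO
        refine hiso h ?_ hA.1
        have h4 : m.src = h.src := by rw [h2, f_src hA.1.1]
        rw [← h4]
      · exact h1
    obtain ⟨h, j, hA, h1, h2, h3⟩ := hmid.angle hO
    obtain ⟨o, i, hi⟩ := exists_io' hO hA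
    have hz := mkA_mid hO (tt_at o) i h1 (by rw [hi]; exact h2)
    have hv' : (f (hs (tt o) i) j).tgt = v := by rw [hi, ← h3]; rfl
    rw [hv'] at hz
    have hNI : ¬ NI (toD (tt o)) := by
      intro hN
      have h4 : (mkA hO (tt o) (tt_at o)).inner = Sum.inr (qq (tt o) hN) := by
        unfold mkA; exact dif_pos hN
      rw [Annulus.z, h4] at hz
      have h5 : (toD (((Rm D).face ^ (-(cc (tt o) (i + 1) + 2 - (j : ℤ)))) (qq (tt o) hN))).src = v := hz
      exact hiso _ h5 (toD_unc _)
    have hin : (mkA hO (tt o) (tt_at o)).inner = Sum.inl (sp (toD (tt o))).tgt := by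
      unfold mkA; exact dif_neg hNI
    have hsp : (sp (toD (tt o))).tgt = v := by
      rw [Annulus.z, hin] at hz
      exact hz
    refine ⟨o, hin.trans (by rw [hsp]), ?_⟩
    intro o' ho'
    have hNI' : ¬ NI (toD (tt o')) := by
      intro hN
      have h4 : (mkA hO (tt o') (tt_at o')).inner = Sum.inr (qq (tt o') hN) := by
        unfold mkA; exact dif_pos hN
      rw [h4] at ho'
      exact absurd ho' (by simp)
    have hin' : (mkA hO (tt o') (tt_at o')).inner = Sum.inl (sp (toD (tt o'))).tgt := by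
      unfold mkA; exact dif_neg hNI'
    rw [hin', Sum.inl.injEq] at ho'
    have hM : MM (tt o') = 0 := by
      by_contra hc
      exact hNI' ((NI_iff_M hO (tt_at o')).2 hc)
    rw [MM_zero] at hM
    obtain ⟨n, hn⟩ := all_spokes hO (tt_at o') hM (d := oe (sp (toD (tt o)))) rfl (by rw [oe_src, hsp, ho'])
    have h6 : sp (toD (tt o)) = sp (hs (tt o') n) := by
      have hA1 := (tt_at o).1.1.1
      have hA2 := (hs_AT hO (tt_at o') n).1.1.1
      have e1 : oe (oe (sp (toD (tt o)))) = sp (toD (tt o)) := oe_oe (fp_real hA1 _)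
      have e2 : oe (oe (sp (hs (tt o') n))) = sp (hs (tt o') n) := oe_oe (fp_real hA2 _)
      rw [← e1, ← e2, hn]
    have r1 := (tt_at o).rt_eq hO
    have r2 := (hs_AT hO (tt_at o') n).rt_eq hO
    obtain ⟨h7, _⟩ := angle_unique (tt_at o).1.1 (hs_AT hO (tt_at o') n).1.1 (by omega) (by omega)
      (by omega) (by omega) h6
    exact (io_eq (sameCycle_of_hs (t := tt o) (i := 0) h7)).symm
  pentagon := by
    intro d h1 h2 i
    have hA : TA (toD d) := by
      rcases dart_cases hO (toD_unc d) with h3 | ⟨h, s, hA, a1, a2, a3⟩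
      · exact h3
      · exfalso
        obtain ⟨o, i, hi⟩ := exists_io' hO hA
        refine h2 o ?_
        rw [isInner_iff]
        refine ⟨i, s, a1, ?_, ?_⟩
        · rw [hi]; exact a2
        · rw [hi]; exact a3
    have hP : Pent (toD d) := by
      by_contra hc
      obtain ⟨o, ho⟩ := exists_io hO (d := d) ⟨hA, hc⟩
      exact h1 o ho
    have h5 := hP.five hO hA
    have hN5 : (NN d : ℤ) ∣ 5 := by
      rw [← NN_period]
      apply toD_inj
      rw [← h5, ← toD_face, ← toD_face, ← toD_face, ← toD_face, ← toD_face]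
      rfl
    have h6 : NN d ∣ 5 := by exact_mod_cast hN5
    have h7 := five_le_NN hO hA
    have h8 : NN d = 5 := le_antisymm (Nat.le_of_dvd (by norm_num) h6) h7
    have := NN_period d i
    rw [h8] at this
    exact_mod_cast this
  edges_inj := by
    -- the three kinds of slots
    have hT : ∀ d : (Hs D).Dart, (∀ o : Io D, ¬ (mkA hO (tt o) (tt_at o)).IsInner d) → TA (toD d) := by
      intro d hd
      rcases dart_cases hO (toD_unc d) with h3 | ⟨h, s, hA, a1, a2, a3⟩
      · exact h3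
      · exfalso
        obtain ⟨o, i, hi⟩ := exists_io' hO hA
        refine hd o ?_
        rw [isInner_iff]
        refine ⟨i, s, a1, ?_, ?_⟩
        · rw [hi]; exact a2
        · rw [hi]; exact a3
    -- crossed edges are not edges of the skeleton
    have c1 : ∀ (e : Sym2 V) (m : D.DD), e ∈ (Hs D).edgeSet → e = s(m.src, m.tgt) → kk m ≠ 0 → False := by
      intro e m he hm hk
      rw [hm] at he
      exact hk he.2
    have c2 : ∀ d : D.DD, TA d → kk (D.σ d) ≠ 0 := by
      intro d hd hk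
      refine hd.1.not_σ hO.tight ?_
      rw [Last, σ_real hd.1.1]
      exact hk.symm
    have c3 : ∀ m : D.DD, Mid m → kk m ≠ 0 := by
      intro m hm hk
      refine hm.1.not_last ?_
      rw [Last, hm.1.1]
      exact hk.symm
    have c4 : ∀ d m : D.DD, TA d → Mid m → SameEdge (D.σ d) m → False := by
      intro d m hd hm hse
      exact hm.not_base hO ((Base.congr hse).1 (hd.base_first hO))
    rintro (e | ⟨d, hd⟩ | ⟨⟨o, a, k⟩, hp⟩) (e' | ⟨d', hd'⟩ | ⟨⟨o', a', k'⟩, hp'⟩) h
    · simp only at h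
      exact congrArg Sum.inl (Subtype.ext h)
    · exfalso
      simp only at h
      rw [hop_edge hO (hT d' hd')] at h
      exact c1 e.1 _ e.2 h (c2 _ (hT d' hd'))
    · exfalso
      simp only at h hp'
      obtain ⟨j, j1, j2, j3, j4, j5⟩ := slot_mid hO (tt_at o') hp'.2.2.1 hp'.2.2.2
      rw [← j4, ← j5] at h
      exact c1 e.1 _ e.2 h (c3 _ (mid_of hO (hs_AT hO (tt_at o') a').1 j1 j2))
    · exfalso
      simp only at h
      rw [hop_edge hO (hT d hd)] at h
      exact c1 e'.1 _ e'.2 h.symm (c2 _ (hT d hd))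
    · simp only at h
      rw [hop_edge hO (hT d hd), hop_edge hO (hT d' hd')] at h
      have h1 := toD_inj (hop_inj hO (hT d hd) (hT d' hd') (sym2_sameEdge h))
      subst h1
      rfl
    · exfalso
      simp only at h hp'
      obtain ⟨j, j1, j2, j3, j4, j5⟩ := slot_mid hO (tt_at o') hp'.2.2.1 hp'.2.2.2
      rw [← j4, ← j5, hop_edge hO (hT d hd)] at h
      exact c4 _ _ (hT d hd) (mid_of hO (hs_AT hO (tt_at o') a').1 j1 j2) (sym2_sameEdge h)
    · exfalso
      simp only at h hp
      obtain ⟨j, j1, j2, j3, j4, j5⟩ := slot_mid hO (tt_at o) hp.2.2.1 hp.2.2.2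
      rw [← j4, ← j5] at h
      exact c1 e'.1 _ e'.2 h.symm (c3 _ (mid_of hO (hs_AT hO (tt_at o) a).1 j1 j2))
    · exfalso
      simp only at h hp
      obtain ⟨j, j1, j2, j3, j4, j5⟩ := slot_mid hO (tt_at o) hp.2.2.1 hp.2.2.2
      rw [← j4, ← j5, hop_edge hO (hT d' hd')] at h
      exact c4 _ _ (hT d' hd') (mid_of hO (hs_AT hO (tt_at o) a).1 j1 j2) (sym2_sameEdge h.symm)
    · simp only at h hp hp'
      obtain ⟨j, j1, j2, j3, j4, j5⟩ := slot_mid hO (tt_at o) hp.2.2.1 hp.2.2.2
      obtain ⟨j', j1', j2', j3', j4', j5'⟩ := slot_mid hO (tt_at o') hp'.2.2.1 hp'.2.2.2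
      rw [← j4, ← j5, ← j4', ← j5'] at h
      have hA := hs_AT hO (tt_at o) a
      have hA' := hs_AT hO (tt_at o') a'
      have hm := mid_of hO hA.1 j1 j2
      have hm' := mid_of hO hA'.1 j1' j2'
      rcases real_sameEdge hm.1.1 hm'.1.1 (sym2_sameEdge h) with h1 | h1
      · obtain ⟨h2, h3⟩ := angle_unique hA.1.1 hA'.1.1 (by omega) (by omega) (by omega) (by omega) h1
        have h4 := io_eq (sameCycle_of_hs h2)
        subst h4
        rw [hs_eq_iff] at h2
        have h5 : a = a' := by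
          obtain ⟨l, hl⟩ := h2
          have b1 := hp.1
          have b2 := hp.2.1
          have b3 := hp'.1
          have b4 := hp'.2.1
          have b2' : a < NN (tt o) := b2
          have b4' : a' < NN (tt o) := b4
          have hl0 : l = 0 := by
            have hN := NN_pos (tt o)
            by_contra hl0
            rcases lt_or_gt_of_ne hl0 with h6 | h6
            · have : (NN (tt o) : ℤ) * l ≤ NN (tt o) * (-1) :=
                mul_le_mul_of_nonneg_left (by omega) (by omega)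
              omega
            · have : (NN (tt o) : ℤ) * 1 ≤ NN (tt o) * l :=
                mul_le_mul_of_nonneg_left (by omega) (by omega)
              omega
          rw [hl0, mul_zero] at hl
          omega
        subst h5
        have h6 : k = k' := by omega
        subst h6
        rfl
      · exfalso
        rw [h1] at hm
        exact hm'.lemB hO hm
  edges_range := by
    have hT : ∀ d : (Hs D).Dart, (∀ o : Io D, ¬ (mkA hO (tt o) (tt_at o)).IsInner d) → TA (toD d) := by
      intro d hd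
      rcases dart_cases hO (toD_unc d) with h3 | ⟨h, s, hA, a1, a2, a3⟩
      · exact h3
      · exfalso
        obtain ⟨o, i, hi⟩ := exists_io' hO hA
        refine hd o ?_
        rw [isInner_iff]
        refine ⟨i, s, a1, ?_, ?_⟩
        · rw [hi]; exact a2
        · rw [hi]; exact a3
    ext e
    constructor
    · rintro ⟨(e' | ⟨d, hd⟩ | ⟨⟨o, a, k⟩, hp⟩), h⟩
      · simp only at h
        have h1 := e'.2
        rw [h] at h1
        induction e with
        | _ u v => exact h1.1
      · simp only at h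
        rw [hop_edge hO (hT d hd)] at h
        rw [← h]
        exact (D.σ (toD d)).adj
      · simp only at h hp
        obtain ⟨j, j1, j2, j3, j4, j5⟩ := slot_mid hO (tt_at o) hp.2.2.1 hp.2.2.2
        rw [← j4, ← j5] at h
        rw [← h]
        exact (f (hs (tt o) a) j).adj
    · intro he
      induction e with
      | _ u v =>
        set m : D.DD := ⟨u, v, 0, he, Nat.zero_le _⟩ with hm
        have hm0 : m.idx = 0 := rfl
        by_cases hl : Last m
        · exact ⟨Sum.inl ⟨s(u, v), he, hl.symm⟩, rfl⟩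
        by_cases hb : Base m
        · obtain ⟨d, hd, hse⟩ := base_hop hO hb
          have hd' : TA (toD (ofD d hd.1)) := by rw [toD_ofD]; exact hd
          refine ⟨Sum.inr (Sum.inl ⟨ofD d hd.1, ?_⟩), ?_⟩
          · intro o ho
            rw [isInner_iff] at ho
            obtain ⟨i, s, a1, a2, a3⟩ := ho
            rw [a3] at hd'
            exact ta_not_et hO (hs_AT hO (tt_at o) i) a1 a2 hd'
          · simp only
            rw [hop_edge hO hd', toD_ofD]
            exact s_eq_iff.2 hse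
        · rcases hO.lemE hm0 hl hb with h1 | h1
          · obtain ⟨o, a, k, a1, a2, a3, a4, a5, a6⟩ := mid_slot hO h1
            refine ⟨Sum.inr (Sum.inr ⟨(o, a, k), a1, a2, a3, a4⟩), ?_⟩
            simp only
            rw [← a5, ← a6]
          · obtain ⟨o, a, k, a1, a2, a3, a4, a5, a6⟩ := mid_slot hO h1
            refine ⟨Sum.inr (Sum.inr ⟨(o, a, k), a1, a2, a3, a4⟩), ?_⟩
            simp only
            rw [← a5, ← a6]
            exact Sym2.eq_swap

end

end Drawing

end Pool.Agent.FP
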