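import Pool.Agent.Lib.MP_2e2457_lc.Defs

/-!
# Counting for decompositions (MP_2e2457_lc)
-/

set_option autoImplicit false

open Equiv Finset

noncomputable section

namespace Pool.Agent.FP

theorem card_cycle {α : Type} [Finite α] (σ : Perm α) (t : α) (p : ℕ)
    (hp : ∀ i : ℤ, (σ ^ i) t = t ↔ (p : ℤ) ∣ i) : Nat.card {d // σ.SameCycle t d} = p := by
  have hp0 : 0 < p := by
    rcases Nat.eq_zero_or_pos p with h | h
    · exfalso
      have h1 := (hp (orderOf σ)).1 (by rw [zpow_natCast, pow_orderOf_eq_one]; rfl)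
      rw [h] at h1
      have h2 : (orderOf σ : ℤ) = 0 := by simpa using h1
      have h3 := orderOf_pos σ
      omega
    · exact h
  have key : Function.Bijective (fun k : Fin p => (⟨(σ ^ (k.1 : ℤ)) t, ⟨k.1, rfl⟩⟩ : {d // σ.SameCycle t d})) := by
    constructor
    · intro k l hkl
      have hkl' : (σ ^ (k.1 : ℤ)) t = (σ ^ (l.1 : ℤ)) t := congrArg Subtype.val hkl
      have h1 : (σ ^ ((k.1 : ℤ) - l.1)) t = t := by
        rw [sub_eq_neg_add, zpow_add, Perm.mul_apply, hkl', ← Perm.mul_apply, ← zpow_add]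
        simp
      obtain ⟨m, hm⟩ := (hp _).1 h1
      have hk := k.2
      have hl := l.2
      have hm0 : m = 0 := by
        by_contra h0
        rcases lt_or_gt_of_ne h0 with h | h
        · have : (p : ℤ) * m ≤ p * (-1) := mul_le_mul_of_nonneg_left (by omega) (by omega)
          omega
        · have : (p : ℤ) * 1 ≤ p * m := mul_le_mul_of_nonneg_left (by omega) (by omega)
          omega
      rw [hm0, mul_zero] at hm
      exact Fin.ext (by omega)
    · rintro ⟨d, i, hi⟩
      have h1 := Int.emod_add_mul_ediv i p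
      have h2 := Int.emod_nonneg i (show (p : ℤ) ≠ 0 by omega)
      have h3 := Int.emod_lt_of_pos i (show (0 : ℤ) < p by omega)
      refine ⟨⟨(i % p).toNat, by omega⟩, ?_⟩
      apply Subtype.ext
      simp only
      have h4 : (((i % p).toNat : ℕ) : ℤ) = i % p := by omega
      rw [h4, ← hi]
      have h5 : (σ ^ i) t = (σ ^ (i % p)) ((σ ^ (p * (i / p))) t) := by
        rw [← Perm.mul_apply, ← zpow_add, h1]
      rw [h5, (hp _).2 ⟨_, rfl⟩]
  rw [← Nat.card_congr (Equiv.ofBijective _ key), Nat.card_fin]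

theorem orbits_eq {α : Type} [Fintype α] (φ : Perm α) (f : α → ℕ) (c : ℕ)
    (h : ∀ d, ∀ T : Finset α, (∀ e, e ∈ T ↔ φ.SameCycle d e) → ∑ e ∈ T, f e = c) : c * orbits φ = ∑ d, f d := by
  classical
  set s := Perm.SameCycle.setoid φ
  have h1 : ∑ d, f d = ∑ q : Quotient s, ∑ d with Quotient.mk s d = q, f d :=
    (Finset.sum_fiberwise univ (fun d => Quotient.mk s d) f).symm
  have h2 : ∀ d, (∑ e with Quotient.mk s e = Quotient.mk s d, f e) = ∑ e with φ.SameCycle d e, f e := by
    intro d
    refine Finset.sum_congr ?_ fun _ _ => rfl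
    ext e
    simp only [mem_filter, mem_univ, true_and]
    rw [Quotient.eq]
    exact ⟨fun h => Perm.SameCycle.symm h, fun h => Perm.SameCycle.symm h⟩
  have h3 : orbits φ = (univ : Finset (Quotient s)).card := by
    rw [orbits, Nat.card_eq_fintype_card]; rfl
  have h4 : c * orbits φ = ∑ _q : Quotient s, c := by
    rw [h3, Finset.sum_const, smul_eq_mul, mul_comm]
  rw [h4, h1]
  refine Finset.sum_congr rfl fun q _ => ?_
  induction q using Quotient.inductionOn with
  | h d => rw [h2, h d _ (fun e => by simp)]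

theorem tele (g : ℤ → ℤ) (n : ℕ) : ∑ a ∈ Finset.Ico (0 : ℤ) n, (g (a + 1) - g a) = g n - g 0 := by
  induction n with
  | zero => simp
  | succ n ih =>
    have h1 : Finset.Ico (0 : ℤ) ((n + 1 : ℕ) : ℤ) = insert (n : ℤ) (Finset.Ico (0 : ℤ) n) := by
      ext a
      simp only [mem_insert, mem_Ico]
      push_cast
      omega
    rw [h1, Finset.sum_insert (by simp), ih]
    push_cast
    ring

variable {V : Type} {G : SimpleGraph V}

/-- number of the edges `x i z j` of an annular face -/
theorem Annulus.card_slots {H : SimpleGraph V} {R : Map H} (A : Annulus R) :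
    Nat.card {p : ℤ × ℤ // 0 ≤ p.1 ∧ p.1 < A.N ∧ A.c (p.1 - 1) ≤ p.2 ∧ p.2 ≤ A.c (p.1 + 1)} =
      A.N + 2 * A.M := by
  classical
  let T : Finset (Σ _ : ℤ, ℤ) := (Finset.Ico (0 : ℤ) A.N).sigma fun a => Finset.Icc (A.c (a - 1)) (A.c (a + 1))
  have e : {p : ℤ × ℤ // 0 ≤ p.1 ∧ p.1 < A.N ∧ A.c (p.1 - 1) ≤ p.2 ∧ p.2 ≤ A.c (p.1 + 1)} ≃ T :=
    { toFun := fun p => ⟨⟨p.1.1, p.1.2⟩, by
        simp only [T, mem_sigma, mem_Ico, mem_Icc]
        exact ⟨⟨p.2.1, p.2.2.1⟩, p.2.2.2⟩⟩
      invFun := fun p => ⟨(p.1.1, p.1.2), by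
        have := p.2
        simp only [T, mem_sigma, mem_Ico, mem_Icc] at this
        exact ⟨this.1.1, this.1.2, this.2⟩⟩
      left_inv := fun p => rfl
      right_inv := fun p => rfl }
  rw [Nat.card_congr e, Nat.card_eq_fintype_card, Fintype.card_coe, Finset.card_sigma]
  zify
  have h1 : ∀ a ∈ Finset.Ico (0 : ℤ) A.N, (((Finset.Icc (A.c (a - 1)) (A.c (a + 1))).card : ℕ) : ℤ) =
      ((A.c (a + 1) + A.c (a + 1 - 1)) - (A.c a + A.c (a - 1))) + 1 := by
    intro a _
    have h2 := A.c_mono (show a - 1 ≤ a + 1 by omega)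
    rw [Int.card_Icc, Int.toNat_of_nonneg (by omega), add_sub_cancel_right]
    ring
  rw [Finset.sum_congr rfl h1, Finset.sum_add_distrib, tele (fun a => A.c a + A.c (a - 1))]
  have h3 := A.c_period 0
  have h4 := A.c_period (-1)
  rw [zero_add] at h3
  rw [show (-1 : ℤ) + A.N = A.N - 1 by ring] at h4
  rw [h3, h4]
  simp
  ring

namespace Filling

variable (S : Filling G)

/-- number of darts of pentagons -/
def pd : ℕ := Nat.card {d : S.H.Dart // (∀ i, ¬ (S.A i).IsOuter d) ∧ (∀ i, ¬ (S.A i).IsInner d)}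

theorem isOuter_congr {i : S.ι} {d e : S.H.Dart} (h : S.R.face.SameCycle d e) :
    (S.A i).IsOuter d ↔ (S.A i).IsOuter e :=
  ⟨fun h1 => h1.trans h, fun h1 => h1.trans h.symm⟩

theorem isInner_congr {i : S.ι} {d e : S.H.Dart} (h : S.R.face.SameCycle d e) :
    (S.A i).IsInner d ↔ (S.A i).IsInner e :=
  ⟨fun ⟨q, h1, h2⟩ => ⟨q, h1, h2.trans h⟩, fun ⟨q, h1, h2⟩ => ⟨q, h1, h2.trans h.symm⟩⟩

instance finDart [Finite V] (H : SimpleGraph V) : Finite H.Dart :=
  Finite.of_injective (fun d : H.Dart => d.toProd) (fun a b h => SimpleGraph.Dart.ext a b h)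

theorem card_outer [Finite V] (i : S.ι) : Nat.card {d // (S.A i).IsOuter d} = (S.A i).N :=
  card_cycle _ _ _ (S.A i).t_period

theorem card_inner [Finite V] (i : S.ι) : Nat.card {d // (S.A i).IsInner d} = (S.A i).M := by
  cases h : (S.A i).inner with
  | inl v =>
    rw [((S.A i).inner_vertex v h).1]
    have : IsEmpty {d // (S.A i).IsInner d} := by
      refine ⟨fun ⟨d, q, h1, _⟩ => ?_⟩
      rw [h] at h1
      exact absurd h1 (by simp)
    exact Nat.card_of_isEmpty
  | inr q =>
    obtain ⟨h1, h2⟩ := (S.A i).inner_dart q h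
    rw [← card_cycle _ _ _ h2]
    refine Nat.card_congr (Equiv.subtypeEquivRight fun d => ?_)
    constructor
    · rintro ⟨q', h3, h4⟩
      rw [h, Sum.inr.injEq] at h3
      rw [h3]; exact h4
    · intro h3
      exact ⟨q, h, h3⟩

open Classical in
theorem count_darts [Finite V] [Fintype S.ι] :
    Nat.card S.H.Dart = S.pd + ∑ i, (S.A i).N + ∑ i, (S.A i).M ∧
    Nat.card {d : S.H.Dart // ∀ i, ¬ (S.A i).IsInner d} = S.pd + ∑ i, (S.A i).N := by
  have hO : Nat.card {d : S.H.Dart // ∃ i, (S.A i).IsOuter d} = ∑ i, (S.A i).N := by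
    have e : (Σ i, {d // (S.A i).IsOuter d}) ≃ {d : S.H.Dart // ∃ i, (S.A i).IsOuter d} :=
      { toFun := fun x => ⟨x.2.1, x.1, x.2.2⟩
        invFun := fun d => ⟨Classical.choose d.2, d.1, Classical.choose_spec d.2⟩
        left_inv := by
          rintro ⟨i, d, hd⟩
          have h1 := S.outer_unique _ _ _ (Classical.choose_spec (⟨i, hd⟩ : ∃ i, (S.A i).IsOuter d)) hd
          simp only
          refine Sigma.ext h1 ?_
          simp only
          exact (Subtype.heq_iff_coe_eq (fun x => by rw [h1])).2 rfl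
        right_inv := fun d => rfl }
    rw [← Nat.card_congr e, Nat.card_sigma]
    exact Finset.sum_congr rfl fun i _ => S.card_outer i
  have hI : Nat.card {d : S.H.Dart // ∃ i, (S.A i).IsInner d} = ∑ i, (S.A i).M := by
    have e : (Σ i, {d // (S.A i).IsInner d}) ≃ {d : S.H.Dart // ∃ i, (S.A i).IsInner d} :=
      { toFun := fun x => ⟨x.2.1, x.1, x.2.2⟩
        invFun := fun d => ⟨Classical.choose d.2, d.1, Classical.choose_spec d.2⟩
        left_inv := by
          rintro ⟨i, d, hd⟩
          have h1 := S.inner_unique _ _ _ (Classical.choose_spec (⟨i, hd⟩ : ∃ i, (S.A i).IsInner d)) hd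
          simp only
          refine Sigma.ext h1 ?_
          simp only
          exact (Subtype.heq_iff_coe_eq (fun x => by rw [h1])).2 rfl
        right_inv := fun d => rfl }
    rw [← Nat.card_congr e, Nat.card_sigma]
    exact Finset.sum_congr rfl fun i _ => S.card_inner i
  have h1 : Nat.card {d : S.H.Dart // ∀ i, ¬ (S.A i).IsInner d} =
      S.pd + Nat.card {d : S.H.Dart // ∃ i, (S.A i).IsOuter d} := by
    have e : {d : S.H.Dart // ∀ i, ¬ (S.A i).IsInner d} ≃
        {d : S.H.Dart // (∀ i, ¬ (S.A i).IsOuter d) ∧ (∀ i, ¬ (S.A i).IsInner d)} ⊕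
          {d : S.H.Dart // ∃ i, (S.A i).IsOuter d} :=
      { toFun := fun d => if h : ∃ i, (S.A i).IsOuter d.1 then Sum.inr ⟨d.1, h⟩ else
          Sum.inl ⟨d.1, by push Not at h; exact h, d.2⟩
        invFun := fun x => match x with
          | Sum.inl d => ⟨d.1, d.2.2⟩
          | Sum.inr d => ⟨d.1, fun i hi => by
              obtain ⟨j, hj⟩ := d.2
              exact S.outer_inner j i _ hj hi⟩
        left_inv := by
          rintro ⟨d, hd⟩
          by_cases h : ∃ i, (S.A i).IsOuter d
          · simp [h]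
          · simp [h]
        right_inv := by
          rintro (⟨d, hd⟩ | ⟨d, hd⟩)
          · have h : ¬ ∃ i, (S.A i).IsOuter d := by push Not; exact hd.1
            simp [h]
          · simp [hd] }
    rw [Nat.card_congr e, Nat.card_sum]; rfl
  have h2 : Nat.card S.H.Dart = Nat.card {d : S.H.Dart // ∀ i, ¬ (S.A i).IsInner d} +
      Nat.card {d : S.H.Dart // ∃ i, (S.A i).IsInner d} := by
    have e : S.H.Dart ≃ {d : S.H.Dart // ∀ i, ¬ (S.A i).IsInner d} ⊕
          {d : S.H.Dart // ∃ i, (S.A i).IsInner d} :=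
      { toFun := fun d => if h : ∃ i, (S.A i).IsInner d then Sum.inr ⟨d, h⟩ else
          Sum.inl ⟨d, by push Not at h; exact h⟩
        invFun := fun x => match x with
          | Sum.inl d => d.1
          | Sum.inr d => d.1
        left_inv := by
          intro d
          by_cases h : ∃ i, (S.A i).IsInner d
          · simp [h]
          · simp [h]
        right_inv := by
          rintro (⟨d, hd⟩ | ⟨d, hd⟩)
          · have h : ¬ ∃ i, (S.A i).IsInner d := by push Not; exact hd
            simp [h]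
          · simp [hd] }
    rw [Nat.card_congr e, Nat.card_sum]
  rw [hI, h1, hO] at h2
  rw [hO] at h1
  exact ⟨h2, h1⟩

theorem card_dart [Finite V] (H : SimpleGraph V) : Nat.card H.Dart = 2 * Nat.card H.edgeSet := by
  classical
  have := Fintype.ofFinite V
  rw [Nat.card_eq_fintype_card, Nat.card_eq_fintype_card, SimpleGraph.dart_card_eq_twice_card_edges,
    SimpleGraph.edgeFinset_card]

/-- number of edges -/
theorem count_edges [Finite V] : Nat.card G.edgeSet + S.pd = 5 * Nat.card S.H.edgeSet := by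
  classical
  have := S.finite
  have := Fintype.ofFinite S.ι
  obtain ⟨h1, h2⟩ := S.count_darts
  have h3 := card_dart S.H
  have h4 : Nat.card G.edgeSet = Nat.card (S.H.edgeSet ⊕ {d : S.H.Dart // ∀ i, ¬ (S.A i).IsInner d} ⊕
      {p : S.ι × ℤ × ℤ // 0 ≤ p.2.1 ∧ p.2.1 < (S.A p.1).N ∧ (S.A p.1).c (p.2.1 - 1) ≤ p.2.2 ∧
        p.2.2 ≤ (S.A p.1).c (p.2.1 + 1)}) := by
    rw [← S.edges_range]
    exact (Nat.card_congr (Equiv.ofInjective _ S.edges_inj)).symm
  have e : {p : S.ι × ℤ × ℤ // 0 ≤ p.2.1 ∧ p.2.1 < (S.A p.1).N ∧ (S.A p.1).c (p.2.1 - 1) ≤ p.2.2 ∧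
        p.2.2 ≤ (S.A p.1).c (p.2.1 + 1)} ≃
      Σ i, {p : ℤ × ℤ // 0 ≤ p.1 ∧ p.1 < (S.A i).N ∧ (S.A i).c (p.1 - 1) ≤ p.2 ∧ p.2 ≤ (S.A i).c (p.1 + 1)} :=
    { toFun := fun p => ⟨p.1.1, p.1.2, p.2⟩
      invFun := fun p => ⟨(p.1, p.2.1), p.2.2⟩
      left_inv := fun p => rfl
      right_inv := fun p => rfl }
  have hfin : ∀ i, Finite {p : ℤ × ℤ // 0 ≤ p.1 ∧ p.1 < (S.A i).N ∧ (S.A i).c (p.1 - 1) ≤ p.2 ∧
      p.2 ≤ (S.A i).c (p.1 + 1)} := by
    intro i
    have h5 := (S.A i).card_slots
    exact Nat.finite_of_card_ne_zero (by rw [h5]; have := (S.A i).five_le; omega)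
  have h5 : Nat.card {p : S.ι × ℤ × ℤ // 0 ≤ p.2.1 ∧ p.2.1 < (S.A p.1).N ∧ (S.A p.1).c (p.2.1 - 1) ≤ p.2.2 ∧
        p.2.2 ≤ (S.A p.1).c (p.2.1 + 1)} = ∑ i, ((S.A i).N + 2 * (S.A i).M) := by
    rw [Nat.card_congr e, Nat.card_sigma]
    exact Finset.sum_congr rfl fun i _ => (S.A i).card_slots
  have hfin' : Finite {p : S.ι × ℤ × ℤ // 0 ≤ p.2.1 ∧ p.2.1 < (S.A p.1).N ∧ (S.A p.1).c (p.2.1 - 1) ≤ p.2.2 ∧
        p.2.2 ≤ (S.A p.1).c (p.2.1 + 1)} := Finite.of_equiv _ e.symm
  rw [h4, Nat.card_sum, Nat.card_sum, h5, h2, Finset.sum_add_distrib, ← Finset.mul_sum]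
  omega

/-- number of face sides -/
theorem count_faces [Finite V] :
    5 * (orbits S.R.face + Nat.card {v : V // ∀ w, ¬ S.H.Adj v w}) = S.pd + 10 * Nat.card S.ι := by
  classical
  have := S.finite
  have := Fintype.ofFinite S.ι
  have := Fintype.ofFinite S.H.Dart
  let g1 : S.H.Dart → ℕ := fun d => if (∀ i, ¬ (S.A i).IsOuter d) ∧ (∀ i, ¬ (S.A i).IsInner d) then 1 else 0
  let g2 : S.H.Dart → ℕ := fun d => (univ.filter fun i : S.ι => (S.A i).t = d).card
  let g3 : S.H.Dart → ℕ := fun d => (univ.filter fun i : S.ι => (S.A i).inner = Sum.inr d).card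
  have s2 : ∀ T : Finset S.H.Dart, ∑ e ∈ T, g2 e = (univ.filter fun i : S.ι => (S.A i).t ∈ T).card := by
    intro T
    rw [Finset.card_eq_sum_card_fiberwise (f := fun i => (S.A i).t) (t := T)]
    · refine Finset.sum_congr rfl fun d hd => ?_
      simp only [g2]
      congr 1
      ext i
      simp only [mem_filter, mem_univ, true_and]
      constructor
      · rintro rfl; exact ⟨hd, rfl⟩
      · exact fun h => h.2
    · intro i hi
      simpa using hi
  have s3 : ∀ T : Finset S.H.Dart, ∑ e ∈ T, g3 e =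
      (univ.filter fun i : S.ι => ∃ q ∈ T, (S.A i).inner = Sum.inr q).card := by
    intro T
    simp only [g3]
    rw [← Finset.card_biUnion]
    · congr 1
      ext i
      simp only [mem_biUnion, mem_filter, mem_univ, true_and]
    · intro a _ b _ hab
      rw [Function.onFun, Finset.disjoint_left]
      intro i h1 h2
      simp only [mem_filter, mem_univ, true_and] at h1 h2
      rw [h1, Sum.inr.injEq] at h2
      exact hab h2
  have key : ∀ d, ∀ T : Finset S.H.Dart, (∀ e, e ∈ T ↔ S.R.face.SameCycle d e) →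
      ∑ e ∈ T, (g1 e + 5 * g2 e + 5 * g3 e) = 5 := by
    intro d T hT
    rw [Finset.sum_add_distrib, Finset.sum_add_distrib, ← Finset.mul_sum, ← Finset.mul_sum, s2, s3]
    have c1 : ∀ e, S.R.face.SameCycle d e → g1 e = g1 d := by
      intro e he
      simp only [g1]
      congr 1
      apply propext
      constructor
      · rintro ⟨h1, h2⟩
        exact ⟨fun i hi => h1 i ((S.isOuter_congr he).1 hi), fun i hi => h2 i ((S.isInner_congr he).1 hi)⟩
      · rintro ⟨h1, h2⟩
        exact ⟨fun i hi => h1 i ((S.isOuter_congr he).2 hi), fun i hi => h2 i ((S.isInner_congr he).2 hi)⟩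
    have c2 : ∑ e ∈ T, g1 e = T.card * g1 d := by
      rw [Finset.sum_congr rfl (g := fun _ => g1 d), Finset.sum_const, smul_eq_mul]
      intro e he
      exact c1 e ((hT e).1 he)
    rw [c2]
    by_cases hO : ∃ i, (S.A i).IsOuter d
    · obtain ⟨i, hi⟩ := hO
      have a1 : g1 d = 0 := by
        simp only [g1]
        rw [if_neg]
        rintro ⟨h, _⟩
        exact h i hi
      have a2 : (univ.filter fun j : S.ι => (S.A j).t ∈ T) = {i} := by
        ext j
        simp only [mem_filter, mem_univ, true_and, mem_singleton, hT]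
        constructor
        · intro h
          exact S.outer_unique j i d h.symm hi
        · rintro rfl
          exact hi.symm
      have a3 : (univ.filter fun j : S.ι => ∃ q ∈ T, (S.A j).inner = Sum.inr q) = ∅ := by
        ext j
        simp only [mem_filter, mem_univ, true_and, notMem_empty, iff_false, hT]
        rintro ⟨q, h1, h2⟩
        exact S.outer_inner i j d hi ⟨q, h2, h1.symm⟩
      rw [a1, a2, a3]; simp
    · push Not at hO
      by_cases hI : ∃ i, (S.A i).IsInner d
      · obtain ⟨i, hi⟩ := hI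
        have a1 : g1 d = 0 := by
          simp only [g1]
          rw [if_neg]
          rintro ⟨_, h⟩
          exact h i hi
        have a2 : (univ.filter fun j : S.ι => (S.A j).t ∈ T) = ∅ := by
          ext j
          simp only [mem_filter, mem_univ, true_and, notMem_empty, iff_false, hT]
          intro h
          exact hO j h.symm
        have a3 : (univ.filter fun j : S.ι => ∃ q ∈ T, (S.A j).inner = Sum.inr q) = {i} := by
          ext j
          simp only [mem_filter, mem_univ, true_and, mem_singleton, hT]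
          constructor
          · rintro ⟨q, h1, h2⟩
            exact S.inner_unique j i d ⟨q, h2, h1.symm⟩ hi
          · rintro rfl
            obtain ⟨q, h1, h2⟩ := hi
            exact ⟨q, h2.symm, h1⟩
        rw [a1, a2, a3]; simp
      · push Not at hI
        have a1 : g1 d = 1 := by
          simp only [g1]
          rw [if_pos ⟨hO, hI⟩]
        have a2 : (univ.filter fun j : S.ι => (S.A j).t ∈ T) = ∅ := by
          ext j
          simp only [mem_filter, mem_univ, true_and, notMem_empty, iff_false, hT]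
          intro h
          exact hO j h.symm
        have a3 : (univ.filter fun j : S.ι => ∃ q ∈ T, (S.A j).inner = Sum.inr q) = ∅ := by
          ext j
          simp only [mem_filter, mem_univ, true_and, notMem_empty, iff_false, hT]
          rintro ⟨q, h1, h2⟩
          exact hI j ⟨q, h2, h1.symm⟩
        have a4 : T.card = 5 := by
          have := card_cycle _ _ 5 (S.pentagon d hO hI)
          rw [Nat.card_eq_fintype_card, Fintype.card_subtype] at this
          rw [← this]
          congr 1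
          ext e
          simp [hT]
        rw [a1, a2, a3, a4]; simp
  have h1 := orbits_eq S.R.face (fun e => g1 e + 5 * g2 e + 5 * g3 e) 5 key
  rw [Finset.sum_add_distrib, Finset.sum_add_distrib, ← Finset.mul_sum, ← Finset.mul_sum, s2, s3] at h1
  have h2 : ∑ d, g1 d = S.pd := by
    simp only [g1]
    rw [Finset.sum_boole, pd, Nat.card_eq_fintype_card, Fintype.card_subtype]
    rfl
  have h3 : (univ.filter fun i : S.ι => (S.A i).t ∈ (univ : Finset S.H.Dart)).card = Nat.card S.ι := by
    simp
  have h4 : (univ.filter fun i : S.ι => ∃ q ∈ (univ : Finset S.H.Dart), (S.A i).inner = Sum.inr q).card +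
      Nat.card {v : V // ∀ w, ¬ S.H.Adj v w} = Nat.card S.ι := by
    have e : {v : V // ∀ w, ¬ S.H.Adj v w} ≃ {i : S.ι // ¬ ∃ q ∈ (univ : Finset S.H.Dart), (S.A i).inner = Sum.inr q} :=
      Equiv.ofBijective (fun v => ⟨(S.hub v.1 v.2).choose, by
        have h5 := (S.hub v.1 v.2).choose_spec.1
        rintro ⟨q, _, h6⟩
        simp only at h5
        rw [h5] at h6
        exact absurd h6 (by simp)⟩) (by
        constructor
        · intro v v' h
          simp only [Subtype.mk.injEq] at h
          have h5 := (S.hub v.1 v.2).choose_spec.1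
          have h6 := (S.hub v'.1 v'.2).choose_spec.1
          simp only at h5 h6
          rw [h, h6, Sum.inl.injEq] at h5
          exact Subtype.ext h5.symm
        · rintro ⟨i, hi⟩
          cases h : (S.A i).inner with
          | inl v =>
            refine ⟨⟨v, ((S.A i).inner_vertex v h).2⟩, ?_⟩
            apply Subtype.ext
            exact ((S.hub v ((S.A i).inner_vertex v h).2).choose_spec.2 i h).symm
          | inr q => exact (hi ⟨q, mem_univ _, h⟩).elim)
    rw [Nat.card_congr e, Nat.card_eq_fintype_card, Nat.card_eq_fintype_card, Fintype.card_subtype,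
      Finset.card_filter_add_card_filter_not]
    exact Finset.card_univ
  rw [h2, h3] at h1
  omega

/-- The Euler equation is equivalent to the number of edges being `5 n - 10`. -/
theorem euler_iff [Finite V] : Nat.card V + (orbits S.R.face + Nat.card {v : V // ∀ w, ¬ S.H.Adj v w}) =
    Nat.card S.H.edgeSet + 2 * Nat.card S.ι + 2 ↔ Nat.card G.edgeSet + 10 = 5 * Nat.card V := by
  have h1 := S.count_edges
  have h2 := S.count_faces
  omega

end Filling

end Pool.Agent.FP
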