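import Pool.Agent.Lib.MP_2e2457_lc.Fill
import Pool.Agent.Lib.MP_2e2457_lc.FillCount

/-!
# Optimal fan-planar graphs have the structure (MP_2e2457_lc)
-/

set_option autoImplicit false

open Equiv

noncomputable section

namespace Pool.Agent.FP

variable {V : Type}

namespace Drawing

variable {G : SimpleGraph V} {D : Drawing G}

theorem Unc.reach {h : D.DD} : G.Reachable h.src h.tgt := h.adj.reachable

theorem reach_on {a : V} {d : D.DD} (h : On a d) : G.Reachable d.src a := by
  rcases h with h | h
  · rw [h]
  · rw [h]; exact d.adj.reachable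

/-- crossing edges lie in the same component of `G` -/
theorem cross_reach [Finite V] (hO : D.Opt) {d : D.DD} (hd : d.idx ≠ 0) : G.Reachable d.src (D.σ d).src := by
  -- it is enough that one of the edges has an end `a` on the other edge's component
  have mid : ∀ {m x : D.DD}, Mid m → x.idx ≠ 0 → SameEdge x m → G.Reachable m.src (D.σ x).src := by
    intro m x hm hx hse
    obtain ⟨h, j, hA, h1, h2, rfl⟩ := hm.angle hO
    have hk : D.k x.src x.tgt = D.k (f h j).src (f h j).tgt := by
      rcases hse with ⟨a1, a2⟩ | ⟨a1, a2⟩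
      · rw [a1, a2]
      · rw [a1, a2, D.k_symm]
    have hfp : f h j = fp h (j - 1) := by rw [fp]; congr 1; omega
    have hsrc : (f h j).src = h.src := f_src hA.1.1.1 _
    have hr1 : G.Reachable h.src h.tgt := h.adj.reachable
    have hr2 : G.Reachable h.src (hr h).tgt := by
      have h3 : (hr h).src = h.src := f_src hA.1.1.1 _
      rw [← h3]; exact (hr h).adj.reachable
    -- an end of the crossing edge
    have key : ∃ b, G.Reachable h.src b ∧ On b (D.σ x) := by
      rcases Nat.lt_or_ge 1 (D.k (f h j).src (f h j).tgt) with h3 | h3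
      · rw [hfp] at h3
        rcases hA.1.apex_or hO (p := j - 1) (by omega) h3 with h4 | h4
        · exact ⟨_, hr1, h4.2 x hx (by rw [← hfp]; exact hse)⟩
        · exact ⟨_, hr2, h4.2 x hx (by rw [← hfp]; exact hse)⟩
      · obtain ⟨_, _, u, hu, hv⟩ := hA.1.x0 hO (p := j - 1) (by omega)
        rw [← hfp] at hu
        have hxl := x.le
        have h5 : On h.tgt (D.σ u) := by left; rw [hv.1, gq_src hA.1.1]
        refine ⟨_, hr1, ?_⟩
        have hx1 : x.idx = 1 := by omega
        rcases hse with ⟨a1, a2⟩ | ⟨a1, a2⟩
        · have : x = u := eq_of_idx (a1.trans hu.1.symm) (a2.trans hu.2.1.symm) (hx1.trans hu.2.2.symm)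
          rw [this]; exact h5
        · have hu0 : u.idx ≠ 0 := by rw [hu.2.2]; omega
          have hul := hu.le
          have : x = op u := by
            refine eq_of_idx ?_ ?_ ?_
            · rw [op_src hu0, hu.2.1, a1]
            · rw [op_tgt hu0, hu.1, a2]
            · rw [op_idx hu0, hu.1, hu.2.1, hu.2.2]; omega
          rw [this, σ_op]
          exact (sameEdge_op _).on.2 h5
    obtain ⟨b, hb1, hb2⟩ := key
    rw [hsrc]
    exact hb1.trans (reach_on hb2).symm
  by_cases hb : Base d
  · obtain ⟨h, hA, hse⟩ := hb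
    have h1 := (hA.apex hO).2 d hd hse.symm
    have h2 : G.Reachable d.src h.src := by
      have h3 : G.Reachable (D.φ h).src h.src := by
        rw [hA.φ_src]; exact h.adj.reachable.symm
      have h4 : On d.src (D.φ h) := hse.symm.on.1 (Or.inl rfl)
      exact (reach_on h4).symm.trans h3
    exact h2.trans (reach_on h1).symm
  · set m : D.DD := ⟨d.src, d.tgt, 0, d.adj, Nat.zero_le _⟩ with hm
    have hse : SameEdge d m := Or.inl ⟨rfl, rfl⟩
    have hml : ¬ Last m := by
      intro h1
      have h2 := d.le
      have h3 : 0 = D.k d.src d.tgt := h1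
      omega
    rcases hO.lemE (m := m) rfl hml (fun h => hb ((Base.congr hse).2 h)) with h1 | h1
    · have h2 : G.Reachable m.src (D.σ d).src := mid h1 hd hse
      exact h2
    · have h2 := mid h1 hd (hse.trans (sameEdge_oe m).symm)
      have h3 : G.Reachable d.src (oe m).src := d.adj.reachable
      exact h3.trans h2

theorem Opt.connected [Finite V] (hO : D.Opt) : G.Connected := by
  have h1 := hO.tight.conn
  rw [orbits₂, Nat.card_eq_one_iff_unique] at h1
  obtain ⟨h2, ⟨q⟩⟩ := h1
  have hall : ∀ x y : D.DD, G.Reachable x.src y.src := by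
    intro x y
    have h3 : (Perm.SameCycle.setoid D.σ ⊔ Perm.SameCycle.setoid (revPerm D.k_symm)) x y :=
      Quotient.eq.1 (Subsingleton.elim (α := Quotient (Perm.SameCycle.setoid D.σ ⊔
        Perm.SameCycle.setoid (revPerm D.k_symm))) _ _)
    refine (sup_inv (fun d : D.DD => G.Reachable x.src d.src) ?_ ?_ h3).1 (SimpleGraph.Reachable.refl _)
    · intro d
      have h4 : G.Reachable d.src (D.σ d).src := by
        by_cases h0 : d.idx = 0
        · rw [σ_real_src h0]
        · exact cross_reach hO h0
      exact ⟨fun h => h.trans h4.symm, fun h => h.trans h4⟩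
    · intro d
      have h4 : G.Reachable d.src (rv d).src := d.adj.reachable
      exact ⟨fun h => h.trans h4.symm, fun h => h.trans h4⟩
  have hne : Nonempty V := ⟨(Quotient.out q).src⟩
  refine ⟨fun u v => ?_⟩
  obtain ⟨u', hu⟩ := hO.tight.noniso u
  obtain ⟨v', hv⟩ := hO.tight.noniso v
  exact hall ⟨u, u', 0, hu, Nat.zero_le _⟩ ⟨v, v', 0, hv, Nat.zero_le _⟩

end Drawing

/-- Optimal fan-planar graphs decompose into pentagons and annular faces. -/
theorem forward [Finite V] {G : SimpleGraph V} (hn : 3 ≤ Nat.card V) (h : IsOptimal G) :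
    Nonempty (PentagonAnnulus G) := by
  obtain ⟨hm, D, hS, hF⟩ := h
  have hO := Drawing.opt_of_optimal hS hF hn hm
  exact ⟨{ toFilling := Drawing.fill hO
           connected := hO.connected
           euler := (Drawing.fill hO).euler_iff.2 hm }⟩

end Pool.Agent.FP
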