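import Pool.Agent.Lib.MP_2e2457_lc.LemmaB

/-!
# The grid of crossings between two consecutive angles (MP_2e2457_lc)
-/

set_option autoImplicit false

open Equiv

noncomputable section

namespace Pool.Agent.FP

variable {V : Type}

namespace Drawing

variable {G : SimpleGraph V} {D : Drawing G}

/-- `u` is the dart number `i` of the edge of `m`, in the direction of `m` -/
def Nth (m : D.DD) (i : ℕ) (u : D.DD) : Prop := u.src = m.src ∧ u.tgt = m.tgt ∧ u.idx = i

theorem Nth.eq {m : D.DD} {i : ℕ} {u v : D.DD} (hu : Nth m i u) (hv : Nth m i v) : u = v :=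
  eq_of_idx (hu.1.trans hv.1.symm) (hu.2.1.trans hv.2.1.symm) (hu.2.2.trans hv.2.2.symm)

theorem Nth.self {m : D.DD} (h : m.idx = 0) : Nth m 0 m := ⟨rfl, rfl, h⟩

theorem Nth.le {m : D.DD} {i : ℕ} {u : D.DD} (hu : Nth m i u) : i ≤ D.k m.src m.tgt := by
  have := u.le
  rw [hu.1, hu.2.1, hu.2.2] at this
  exact this

theorem nth_exists (m : D.DD) {i : ℕ} (h : i ≤ D.k m.src m.tgt) : ∃ u, Nth m i u :=
  ⟨⟨m.src, m.tgt, i, m.adj, h⟩, rfl, rfl, rfl⟩

theorem Nth.last {m : D.DD} {i : ℕ} {u : D.DD} (hu : Nth m i u) : Last u ↔ D.k m.src m.tgt = i := by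
  unfold Last; rw [hu.1, hu.2.1, hu.2.2]; exact eq_comm

protected theorem Nth.nx {m : D.DD} {i : ℕ} {u : D.DD} (hu : Nth m i u) (h : ¬ Last u) : Nth m (i + 1) (nx u h) :=
  ⟨hu.1, hu.2.1, by rw [nx_idx, hu.2.2]⟩

theorem Nth.not_last {m : D.DD} {i : ℕ} {u v : D.DD} (hu : Nth m i u) (hv : Nth m (i + 1) v) : ¬ Last u := by
  rw [hu.last]; have := hv.le; omega

theorem Nth.sameEdge {m : D.DD} {i : ℕ} {u : D.DD} (hu : Nth m i u) : SameEdge u m := Or.inl ⟨hu.1, hu.2.1⟩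

/-- `op` of the next dart is `rv` -/
theorem Nth.op_succ {m : D.DD} {i : ℕ} {u v : D.DD} (hu : Nth m i u) (hv : Nth m (i + 1) v) : op v = rv u := by
  have h := hu.not_last hv
  rw [← op_nx h, (hu.nx h).eq hv]

protected theorem Nth.φ {m : D.DD} {i : ℕ} {u v : D.DD} (hu : Nth m i u) (hv : Nth m (i + 1) v) : D.φ u = D.σ v := by
  have h := hu.not_last hv
  rw [φ_eq_σ_nx h, (hu.nx h).eq hv]

/-- the edge number `p` of the fan at `h.src`, counted from `h` -/
def fp (h : D.DD) (p : ℕ) : D.DD := f h (p + 1)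

/-- the edge number `q` of the fan at `h.tgt`, counted from `rv h` -/
def gq (h : D.DD) (q : ℕ) : D.DD := f' (rv h) (q + 1)

/-- the crossing `(p, q)` -/
def X (h : D.DD) (p q : ℕ) : Prop :=
  p + 1 < rt h ∧ q + 1 < rt' (rv h) ∧ ∃ u, Nth (fp h p) (q + 1) u ∧ Nth (gq h q) (p + 1) (D.σ u)

theorem X_mirror {h : D.DD} {p q : ℕ} : @X V G D.mirror (rv h) q p ↔ X h p q := by
  have e : @X V G D.mirror (rv h) q p ↔ (q + 1 < rt' (rv h) ∧ p + 1 < rt (rv (rv h)) ∧
      ∃ u : D.DD, Nth (gq h q) (p + 1) u ∧ Nth (f (rv (rv h)) (p + 1)) (q + 1) (D.σ⁻¹ u)) := Iff.rfl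
  rw [e, rv_rv]
  unfold X
  constructor
  · rintro ⟨h1, h2, u, h3, h4⟩
    refine ⟨h2, h1, D.σ⁻¹ u, h4, ?_⟩
    rw [σ_inv]; exact h3
  · rintro ⟨h1, h2, u, h3, h4⟩
    refine ⟨h2, h1, D.σ u, h4, ?_⟩
    rw [inv_σ]; exact h3

theorem fp_real {h : D.DD} (hh : h.idx = 0) (p : ℕ) : (fp h p).idx = 0 := f_real hh _

theorem fp_src {h : D.DD} (hh : h.idx = 0) (p : ℕ) : (fp h p).src = h.src := f_src hh _

theorem gq_real {h : D.DD} (hh : Unc h) (p : ℕ) : (gq h p).idx = 0 := f'_real hh.rv.1 _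

theorem gq_src {h : D.DD} (hh : Unc h) (p : ℕ) : (gq h p).src = h.tgt := f'_src hh.rv.1 _

theorem gq_zero (h : D.DD) : gq h 0 = D.φ h := by rw [gq, f'_one]; rfl

theorem fp_zero (h : D.DD) : fp h 0 = D.σ h := by rw [fp, f_one]

/-- the first column -/
theorem TA.x0 [Finite V] (hO : D.Opt) {h : D.DD} (hA : TA h) {p : ℕ} (hp : p + 1 < rt h) : X h p 0 := by
  have h1 := hA.1.rt_ge hO
  have h2 : 3 ≤ rt' (rv h) := by
    have := hA.1.F.rt_ge hO
    rwa [rt_F hA.1] at this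
  obtain ⟨e1, e2, e3⟩ := hA.e hO hp
  have h3 : ¬ Last (fp h p) := fun h4 => not_unc_of_lt (by omega) hp ⟨f_real hA.1.1 _, h4⟩
  refine ⟨hp, by omega, nx (fp h p) h3, (Nth.self (fp_real hA.1.1 p)).nx h3, ?_⟩
  rw [← φ_eq_σ_nx, gq_zero]
  exact ⟨e1, e2, e3⟩

theorem TA.mir (hO : D.Opt) {h : D.DD} (hA : TA h) : @TA V G D.mirror (rv h) := hA.rv hO

/-- the first row -/
theorem TA.x0' [Finite V] (hO : D.Opt) {h : D.DD} (hA : TA h) {q : ℕ} (hq : q + 1 < rt' (rv h)) : X h 0 q :=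
  X_mirror.1 (@TA.x0 V G D.mirror _ hO.mirror (rv h) (hA.mir hO) q hq)

theorem TA.k_g0 [Finite V] (hO : D.Opt) {h : D.DD} (hA : TA h) :
    D.k (gq h 0).src (gq h 0).tgt + 1 = rt h := by
  rw [gq_zero]; exact hA.k hO

theorem TA.k_f0 [Finite V] (hO : D.Opt) {h : D.DD} (hA : TA h) :
    D.k (fp h 0).src (fp h 0).tgt + 1 = rt' (rv h) := by
  have h1 := @TA.k V G D.mirror _ hO.mirror (rv h) (hA.mir hO)
  have h2 : @Drawing.φ V G D.mirror (rv h) = D.σ (rv (rv h)) := rfl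
  rw [rv_rv] at h2
  rw [fp_zero]
  rw [h2] at h1
  exact h1

theorem TA.apex_g0 (hO : D.Opt) {h : D.DD} (hA : TA h) : Apex h.src (gq h 0) := by
  rw [gq_zero]; exact hA.apex hO

theorem TA.apex_f0 (hO : D.Opt) {h : D.DD} (hA : TA h) : Apex h.tgt (fp h 0) := by
  have h1 := @TA.apex V G D.mirror hO.mirror (rv h) (hA.mir hO)
  have h2 : @Drawing.φ V G D.mirror (rv h) = D.σ (rv (rv h)) := rfl
  rw [rv_rv] at h2
  rw [fp_zero]
  rw [h2] at h1
  exact apex_mirror.1 h1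

theorem TA.mid_f [Finite V] (hO : D.Opt) {h : D.DD} (hA : TA h) {p : ℕ} (h1 : 1 ≤ p) (h2 : p + 2 < rt h) :
    Mid (fp h p) := by
  refine ⟨hA.t1 hO _ (by omega) (by omega), ?_⟩
  rw [fp, f_succ, inv_σ]
  exact hA.t1 hO _ (by omega) (by omega)

theorem TA.mid_g [Finite V] (hO : D.Opt) {h : D.DD} (hA : TA h) {q : ℕ} (h1 : 1 ≤ q) (h2 : q + 2 < rt' (rv h)) :
    Mid (gq h q) :=
  mid_mirror.1 (@TA.mid_f V G D.mirror _ hO.mirror (rv h) (hA.mir hO) q h1 h2)

/-- All edges which cross a middle edge (seen from its end in the angle) have this end as apex. -/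
theorem Mid.apex_all [Finite V] (hO : D.Opt) {m u : D.DD} (h : Mid m) (hu : u.idx ≠ 0) (h1 : u.src = m.tgt)
    (h2 : u.tgt = m.src) : Apex m.src (D.σ u) := by
  have hb : ¬ Base u := fun h3 => h.not_base hO ((Base.congr (Or.inr ⟨h1, h2⟩)).1 h3)
  rcases hO.dir hu hb with h3 | h3
  · rwa [h2] at h3
  · exfalso
    have h4 : Mid (oe (op u)) := by
      refine hO.walk (D.k (op u).src (op u).tgt - (op u).idx) (x := op u) (by have := (op u).le; omega)
        (op_idx_ne hu) (fun h => hb ((Base.congr (sameEdge_op u)).1 h)) ?_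
      rw [op_tgt hu, σ_op, Apex.congr (sameEdge_op _)]
      exact h3
    have h5 : oe (op u) = oe m := by
      refine eq_of_idx ?_ ?_ rfl
      · rw [oe_src, op_tgt hu, h1]; rfl
      · rw [oe_tgt, op_src hu, h2]; rfl
    rw [h5] at h4
    exact h.lemB hO h4

/-- 0-quads along a middle edge -/
theorem Mid.far [Finite V] (hO : D.Opt) {m : D.DD} (h : Mid m) {b : V} (hap : Apex b m)
    (hdir : ∀ d : D.DD, d.idx ≠ 0 → d.src = m.tgt → d.tgt = m.src → (D.σ d).tgt = b) {u : D.DD} (hu : u.idx ≠ 0)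
    (h1 : u.src = m.tgt) (h2 : u.tgt = m.src) (hl : ¬ Last u) : Far u := by
  have hb : ¬ Base u := fun h3 => h.not_base hO ((Base.congr (Or.inr ⟨h1, h2⟩)).1 h3)
  have hc : Cw u := by
    refine hO.corner hu ?_ ?_ ?_
    · intro z hz hse
      exact hb ((Base.congr hse).1 (hz.base hO))
    · rw [h2]; exact h.apex_all hO hu h1 h2
    · rw [hdir u hu h1 h2]
      exact (Apex.congr (Or.inr ⟨h1, h2⟩)).2 hap
  rcases hc with hc | hc
  · exact (hl hc.1).elim
  · exact hc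

/-- directed form of the apex for a middle edge with apex `h.tgt` -/
theorem TA.dir_f [Finite V] (hO : D.Opt) {h : D.DD} (hA : TA h) {p : ℕ} (hp : p + 1 < rt h)
    (hap : Apex h.tgt (fp h p)) :
    ∀ d : D.DD, d.idx ≠ 0 → d.src = (fp h p).tgt → d.tgt = (fp h p).src → (D.σ d).tgt = h.tgt := by
  obtain ⟨_, _, u, hu1, hu2⟩ := hA.x0 hO hp
  have hu0 : u.idx ≠ 0 := by rw [hu1.2.2]; omega
  have h1 := op_idx_ne hu0
  have h2 : (op u).src = (fp h p).tgt := by rw [op_src hu0, hu1.2.1]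
  have h3 : (op u).tgt = (fp h p).src := by rw [op_tgt hu0, hu1.1]
  have h4 : (D.σ (op u)).tgt = h.tgt := by
    rw [σ_op, op_tgt (σ_idx_ne hu0), hu2.1, gq_src hA.1]
  obtain ⟨c, hc | hc⟩ := hO.fan (fp h p).tgt (fp h p).src (fp h p).adj.symm
  · intro d hd h5 h6
    rw [hc d hd h5 h6, ← hc _ h1 h2 h3, h4]
  · exfalso
    have h5 : Apex c (fp h p) := by
      refine ⟨hap.1, ?_⟩
      intro e he hse
      rcases hse with ⟨h6, h7⟩ | ⟨h6, h7⟩
      · have h8 := hc (op e) (op_idx_ne he) (by rw [op_src he, h7]) (by rw [op_tgt he, h6])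
        rw [σ_op] at h8
        exact (sameEdge_op _).on.1 (Or.inl h8.symm)
      · exact Or.inl (hc e he h6 h7).symm
    have h6 := Apex.unique hO.simple h5 hap
    have h7 := hc _ h1 h2 h3
    rw [h6, ← h4] at h7
    exact src_ne_tgt _ h7

/-- Lemma C -/
theorem TA.grid [Finite V] (hO : D.Opt) {h : D.DD} (hA : TA h) : ∀ p, p + 2 < rt h →
    Apex h.tgt (fp h p) → ∀ q, q + 1 ≤ D.k (fp h p).src (fp h p).tgt → X h p q := by
  intro p
  induction p with
  | zero =>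
    intro _ _ q hq
    have := hA.k_f0 hO
    exact hA.x0' hO (by omega)
  | succ p ih =>
    intro hp hap
    have hm := hA.mid_f hO (p := p + 1) (by omega) hp
    have hdir := hA.dir_f hO (p := p + 1) (by omega) hap
    have hr := fp_real (D := D) hA.1.1 (p + 1)
    -- the 0-quad at the crossing number `q + 2`
    have quad : ∀ q, q + 2 ≤ D.k (fp h (p + 1)).src (fp h (p + 1)).tgt → X h (p + 1) q → X h p q →
        ∃ u' Z, Nth (fp h p) (q + 1) u' ∧ ¬ Last u' ∧ D.φ u' = Z ∧ Z.idx ≠ 0 ∧ On h.tgt Z ∧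
          (∀ x, Nth (fp h (p + 1)) (q + 2) x → ∃ hZ : ¬ Last Z, D.σ x = nx Z hZ) := by
      rintro q hq ⟨_, _, x, hx1, hx2⟩ ⟨_, _, u', hu1, hu2⟩
      have hxl : ¬ Last x := by rw [hx1.last]; omega
      set y := rv x with hy
      have hy0 : y.idx ≠ 0 := fun h1 => hxl (rv_idx_zero.1 h1)
      have hyl : ¬ Last y := by rw [hy, last_rv, hx1.2.2]; omega
      have hfar := hm.far hO hap hdir (u := y) hy0 (by rw [hy, rv_src, hx1.2.1]) (by rw [hy, rv_tgt, hx1.1]) hyl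
      have e1 : D.φ y = rv (D.σ u') := by
        have h1 : nx y hyl = op x := by
          rw [← op_rv hyl, hy, rv_rv]
        rw [φ_eq_σ_nx hyl, h1, σ_op]
        exact hu2.op_succ hx2
      have e2 : D.φ (D.φ y) = u' := by rw [e1, φ_rv_σ]
      obtain ⟨_, f1, f2, f3, f4, f5, f6⟩ := hfar
      rw [e2] at f3 f4
      have hul : ¬ Last u' := by rw [← φ_idx_zero]; exact f3
      have hZy : D.σ y = rv (D.φ u') := σ_eq_of_φ f4
      refine ⟨u', D.φ u', hu1, hul, rfl, f3, ?_, ?_⟩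
      · have h1 : (D.σ y).tgt = h.tgt := hdir y hy0 (by rw [hy, rv_src, hx1.2.1]) (by rw [hy, rv_tgt, hx1.1])
        rw [hZy, rv_tgt] at h1
        exact Or.inl h1.symm
      · intro x' hx'
        have hZl : ¬ Last (D.φ u') := by
          rw [← φ_idx_zero, f4]; exact hy0
        refine ⟨hZl, ?_⟩
        have h1 : x' = op y := by
          have := hx1.op_succ hx'
          rw [hy, ← this, op_op]
        rw [h1, σ_op, hZy, op_rv hZl]
    -- apex of the neighbour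
    have hap' : Apex h.tgt (fp h p) := by
      rcases Nat.eq_zero_or_pos p with rfl | hp0
      · exact hA.apex_f0 hO
      · obtain ⟨u', Z, hu1, hul, hZ, hZ0, hZb, _⟩ := quad 0 (by have := hap.1; omega)
          (hA.x0 hO (by omega)) (hA.x0 hO (by omega))
        obtain ⟨_, _, u'', hu3, hu4⟩ := hA.x0 hO (p := p) (by omega)
        have h1 := hu1.eq hu3
        subst h1
        have h2 : Apex h.tgt u' := by
          refine apex_cons hO.simple hO.fan (by rw [hu1.2.2]; omega) hul ?_ ?_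
          · left; rw [hu4.1, gq_src hA.1]
          · rw [hZ]; exact hZb
        exact (Apex.congr hu1.sameEdge).1 h2
    have ih' := ih (by omega) hap'
    have key : ∀ q, q + 1 ≤ D.k (fp h (p + 1)).src (fp h (p + 1)).tgt → X h (p + 1) q ∧ X h p q := by
      intro q
      induction q with
      | zero => intro _; exact ⟨hA.x0 hO (by omega), hA.x0 hO (by omega)⟩
      | succ q ihq =>
        intro hq
        obtain ⟨hX, hXp⟩ := ihq (by omega)
        obtain ⟨x, hx⟩ := nth_exists (fp h (p + 1)) (i := q + 2) (by omega)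
        obtain ⟨u', Z, hu1, hul, hZ, hZ0, hZb, hZx⟩ := quad q (by omega) hX hXp
        obtain ⟨hZl, hσx⟩ := hZx x hx
        have hn := ih' (q + 1) (by have h1 := (hu1.nx hul).le; omega)
        obtain ⟨b1, b2, u'', hu3, hu4⟩ := id hn
        have h1 : D.φ u' = D.σ u'' := hu1.φ hu3
        rw [hZ] at h1
        refine ⟨⟨by omega, b2, x, hx, ?_⟩, hn⟩
        rw [hσx]
        have h2 : Nth (gq h (q + 1)) (p + 1) Z := by rw [h1]; exact hu4
        exact h2.nx hZl
    exact fun q hq => (key q hq).1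

end Drawing

end Pool.Agent.FP
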