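import Pool.Agent.Lib.MP_2e2457_lc.PreS

/-!
# The charges (MP_2e2457_lc)
-/

set_option autoImplicit false

open Equiv

noncomputable section

namespace Pool.Agent.FP

variable {V : Type} {G : SimpleGraph V}

namespace Pre

variable {T : Pre G}

/-- the charged darts -/
theorem card_ch [Finite V] {ch : T.E × ℕ → Prop} (hC : T.Charged ch) :
    4 * Nat.card {x : T.P // ch x.1} = Nat.card {x : T.P // x.1.2 ≠ 0} := by
  classical
  have : Fintype T.P := Fintype.ofFinite _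
  let f : T.P → ℕ := fun x => if ch x.1 then 1 else 0
  have h0 : Nat.card {x : T.P // ch x.1} = ∑ x : T.P, f x := by
    rw [Nat.card_eq_fintype_card, Fintype.card_subtype, Finset.sum_boole]
    rfl
  have h0' : Nat.card {x : T.P // x.1.2 ≠ 0} = ∑ x : T.P, (if x.1.2 ≠ 0 then 1 else 0) := by
    rw [Nat.card_eq_fintype_card, Fintype.card_subtype, Finset.sum_boole]
    rfl
  have h1 : ∀ g : T.P → ℕ, ∑ x : T.P, g (T.sg x) = ∑ x : T.P, g x := fun g => Equiv.sum_comp T.sg g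
  have h2 : 4 * ∑ x : T.P, f x = ∑ x : T.P, (f x + f (T.sg x) + f (T.sg (T.sg x)) + f (T.sg (T.sg (T.sg x)))) := by
    rw [Finset.sum_add_distrib, Finset.sum_add_distrib, Finset.sum_add_distrib]
    rw [h1 f, h1 (fun d => f (T.sg d)), h1 f, h1 (fun d => f (T.sg (T.sg d))), h1 (fun d => f (T.sg d)), h1 f]
    ring
  rw [h0, h0', h2]
  refine Finset.sum_congr rfl fun x _ => ?_
  have hz : ∀ y : T.P, y.1.2 = 0 → f y = 0 := by
    intro y hy
    simp only [f]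
    rw [if_neg]
    have h3 : y.1 = (y.1.1, 0) := Prod.ext rfl hy
    rw [h3]
    exact hC.zero _
  by_cases h : x.1.2 = 0
  · rw [if_neg (by simpa using h)]
    have a1 : (T.sg x).1.2 = 0 := sgF_idx.2 h
    have a2 : (T.sg (T.sg x)).1.2 = 0 := sgF_idx.2 a1
    have a3 : (T.sg (T.sg (T.sg x))).1.2 = 0 := sgF_idx.2 a2
    rw [hz _ h, hz _ a1, hz _ a2, hz _ a3]
  · rw [if_pos h]
    have a1 : (T.sg x).1 = T.X x.1.1 x.1.2 := sgF_pos h
    have a2 : (T.sg (T.sg x)).1 = (T.rv x.1.1, T.K x.1.1 + 1 - x.1.2) := sgF_sgF h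
    have a3 : (T.sg (T.sg (T.sg x))).1 = T.X (T.rv x.1.1) (T.K x.1.1 + 1 - x.1.2) := by
      have h4 : (T.sg (T.sg x)).1.2 ≠ 0 := fun h' => h (sgF_idx.1 (sgF_idx.1 h'))
      have h5 : (T.sg (T.sg (T.sg x))).1 = T.X (T.sg (T.sg x)).1.1 (T.sg (T.sg x)).1.2 := sgF_pos h4
      rw [h5, a2]
    have h6 := hC.one x.1.1 x.1.2 x.2.1 (by omega) x.2.2
    simp only [f]
    rw [a1, a2, a3]
    exact h6

theorem card_real [Finite V] : Nat.card {x : T.P // x.1.2 = 0} = 2 * Nat.card G.edgeSet := by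
  classical
  have := Fintype.ofFinite V
  have h1 : 2 * Nat.card G.edgeSet = Nat.card G.Dart := by
    rw [Nat.card_eq_fintype_card, Nat.card_eq_fintype_card, SimpleGraph.dart_card_eq_twice_card_edges,
      SimpleGraph.edgeFinset_card]
  rw [h1]
  refine Nat.card_congr (Equiv.ofBijective (fun x : {x : T.P // x.1.2 = 0} =>
    (⟨(T.src x.1.1.1, T.src (T.rv x.1.1.1)), T.adj _ x.1.2.1⟩ : G.Dart)) ⟨?_, ?_⟩)
  · rintro ⟨⟨⟨e, i⟩, he⟩, hi⟩ ⟨⟨⟨e', i'⟩, he'⟩, hi'⟩ h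
    simp only [SimpleGraph.Dart.mk.injEq, Prod.mk.injEq] at h
    have h2 := T.inj e e' he.1 he'.1 h.1 h.2
    subst h2
    simp only at hi hi'
    subst hi
    subst hi'
    rfl
  · intro g
    refine ⟨⟨⟨(T.eOf g.fst g.snd g.adj, 0), eOf_ok _ _ g.adj, Nat.zero_le _⟩, rfl⟩, ?_⟩
    apply SimpleGraph.Dart.ext
    exact Prod.ext (eOf_src _ _ g.adj) (eOf_tgt _ _ g.adj)

end Pre

end Pool.Agent.FP
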