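import Pool.Agent.Lib.MP_2e2457_lc.PreS

/-!
# The vertices and the crossings (MP_2e2457_lc)
-/

set_option autoImplicit false

open Equiv

noncomputable section

namespace Pool.Agent.FP

variable {V : Type} {G : SimpleGraph V}

namespace Pre

variable {T : Pre G}

theorem sg_src_zero [Finite V] {x y : T.P} (h : T.sg.SameCycle x y) :
    (x.1.2 = 0 ↔ y.1.2 = 0) ∧ (x.1.2 = 0 → T.src y.1.1 = T.src x.1.1) := by
  have h1 : x.1.2 = 0 ↔ y.1.2 = 0 :=
    sameCycle_inv (fun x : T.P => x.1.2 = 0) (fun x => sgF_idx) h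
  refine ⟨h1, fun h0 => ?_⟩
  have h2 : (x.1.2 = 0 ∧ T.src x.1.1 = T.src x.1.1) ↔ (y.1.2 = 0 ∧ T.src y.1.1 = T.src x.1.1) := by
    refine sameCycle_inv (fun z : T.P => z.1.2 = 0 ∧ T.src z.1.1 = T.src x.1.1) (fun z => ?_) h
    by_cases hz : z.1.2 = 0
    · have h3 : (T.sg z).1 = (T.ρ z.1.1, 0) := sgF_zero hz
      rw [h3]
      simp only [T.ρ_src _ z.2.1, hz]
    · have h3 : (T.sg z).1.2 ≠ 0 := fun h' => hz (sgF_idx.1 h')
      simp [hz, h3]
  exact (h2.1 ⟨h0, rfl⟩).2

theorem sg_cycle [Finite V] {x y : T.P} (hx : x.1.2 = 0) (hy : y.1.2 = 0) (h : T.src x.1.1 = T.src y.1.1) :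
    T.sg.SameCycle x y := by
  obtain ⟨⟨e, i⟩, he, hi⟩ := x
  obtain ⟨⟨e', i'⟩, he', hi'⟩ := y
  simp only at hx hy h
  subst hx
  subst hy
  obtain ⟨n, hn⟩ := T.ρ_reach e e' he he' h
  subst hn
  have key : ∀ n : ℕ, T.sg.SameCycle ⟨(e, 0), he, Nat.zero_le _⟩ ⟨(T.ρ^[n] e, 0), ρ_iter_ok he n, Nat.zero_le _⟩ := by
    intro n
    induction n with
    | zero => exact Perm.SameCycle.refl _ _
    | succ n ih =>
      have h1 : T.sg ⟨(T.ρ^[n] e, 0), ρ_iter_ok he n, Nat.zero_le _⟩ =
          ⟨(T.ρ^[n + 1] e, 0), ρ_iter_ok he (n + 1), Nat.zero_le _⟩ := by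
        apply Subtype.ext
        rw [sg_apply, sgF_zero rfl]
        simp only [Function.iterate_succ_apply']
      rw [← h1]
      exact Perm.sameCycle_apply_right.2 ih
  exact key n

theorem sg_nodup [Finite V] (hF : T.Fan) {x : T.P} (h : x.1.2 ≠ 0) :
    [x, T.sg x, T.sg (T.sg x), T.sg (T.sg (T.sg x))].Nodup := by
  have h1 : ∀ y : T.P, y.1.2 ≠ 0 → T.sg y ≠ y := by
    intro y hy h'
    have h2 : (T.sg y).1 = T.X y.1.1 y.1.2 := sgF_pos hy
    have h3 := (hF.disjoint y.1.1 y.1.2 y.2.1 (by omega) y.2.2).1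
    rw [← h2, h'] at h3
    exact h3 rfl
  have h2 : ∀ y : T.P, y.1.2 ≠ 0 → T.sg (T.sg y) ≠ y := by
    intro y hy h'
    have h3 : (T.sg (T.sg y)).1 = (T.rv y.1.1, T.K y.1.1 + 1 - y.1.2) := sgF_sgF hy
    have h4 := (T.adj _ y.2.1).ne
    rw [h'] at h3
    have h5 : y.1.1 = T.rv y.1.1 := by
      have := congrArg Prod.fst h3
      exact this
    rw [← h5] at h4
    exact h4 rfl
  have h3 : T.sg (T.sg (T.sg x)) ≠ x := by
    intro h'
    have h4 : T.sg (T.sg (T.sg (T.sg x))) = x := sgF4 h
    rw [h'] at h4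
    exact h1 x h h4
  have a1 : (T.sg x).1.2 ≠ 0 := fun h' => h (sgF_idx.1 h')
  have a2 : (T.sg (T.sg x)).1.2 ≠ 0 := fun h' => a1 (sgF_idx.1 h')
  simp [(h1 x h).symm, (h2 x h).symm, h3.symm, (h1 _ a1).symm, (h2 _ a1).symm, (h1 _ a2).symm]

/-- the vertices and crossings -/
theorem orbits_σ [Finite V] (hF : T.Fan) (hV : ∀ v : V, ∃ w, G.Adj v w) :
    4 * orbits T.sg = 4 * Nat.card V + Nat.card {x : T.P // x.1.2 ≠ 0} := by
  classical
  have : Fintype T.P := Fintype.ofFinite _
  have : Fintype V := Fintype.ofFinite _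
  choose w hw using hV
  let r : V → T.P := fun v => ⟨(T.eOf v (w v) (hw v), 0), eOf_ok _ _ (hw v), Nat.zero_le _⟩
  have hr : ∀ v, T.src (r v).1.1 = v := fun v => eOf_src _ _ (hw v)
  have hr0 : ∀ v, (r v).1.2 = 0 := fun v => rfl
  let f1 : T.P → ℕ := fun x => if x.1.2 ≠ 0 then 1 else 0
  let f2 : T.P → ℕ := fun x => if x = r (T.src x.1.1) then 4 else 0
  have key : ∀ d, ∀ U : Finset T.P, (∀ e, e ∈ U ↔ T.sg.SameCycle d e) → ∑ e ∈ U, (f1 e + f2 e) = 4 := by
    intro d U hU
    rw [Finset.sum_add_distrib]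
    by_cases h : d.1.2 = 0
    · have s1 : ∑ e ∈ U, f1 e = 0 := by
        refine Finset.sum_eq_zero fun e he => ?_
        have := (sg_src_zero ((hU e).1 he)).1.1 h
        simp only [f1]
        rw [if_neg (by simpa using this)]
      have s2 : ∑ e ∈ U, f2 e = 4 := by
        rw [Finset.sum_eq_single (r (T.src d.1.1))]
        · simp only [f2]
          rw [if_pos]
          rw [hr]
        · intro e he hne
          have h1 := (sg_src_zero ((hU e).1 he)).2 h
          simp only [f2]
          rw [if_neg]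
          intro h2
          rw [h1] at h2
          exact hne h2
        · intro hne
          exact absurd ((hU _).2 (sg_cycle h (hr0 _) (hr _).symm)) hne
      rw [s1, s2]
    · have h1 := sg_nodup hF h
      have hsc : ∀ x : T.P, T.sg.SameCycle x (T.sg x) := fun x =>
        Perm.sameCycle_apply_right.2 (Perm.SameCycle.refl _ _)
      have h2 : U = [d, T.sg d, T.sg (T.sg d), T.sg (T.sg (T.sg d))].toFinset := by
        ext e
        rw [hU]
        simp only [List.mem_toFinset, List.mem_cons, List.not_mem_nil, or_false]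
        constructor
        · intro h6
          have := (sameCycle_inv (σ := T.sg) (fun e => e = d ∨ e = T.sg d ∨ e = T.sg (T.sg d) ∨
            e = T.sg (T.sg (T.sg d))) ?_ h6).1 (Or.inl rfl)
          · exact this
          · intro x
            have h7 : T.sg (T.sg (T.sg (T.sg d))) = d := sgF4 h
            constructor
            · rintro (h8 | h8 | h8 | h8)
              · right; right; right
                apply T.sg.injective
                rw [h8, h7]
              · left; exact T.sg.injective h8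
              · right; left; exact T.sg.injective h8
              · right; right; left; exact T.sg.injective h8
            · rintro (rfl | rfl | rfl | rfl)
              · right; left; rfl
              · right; right; left; rfl
              · right; right; right; rfl
              · left; exact h7
        · rintro (rfl | rfl | rfl | rfl)
          · exact Perm.SameCycle.refl _ _
          · exact hsc _
          · exact (hsc _).trans (hsc _)
          · exact (hsc _).trans ((hsc _).trans (hsc _))
      have s1 : ∑ e ∈ U, f1 e = U.card := by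
        rw [Finset.card_eq_sum_ones]
        refine Finset.sum_congr rfl fun e he => ?_
        simp only [f1]
        rw [if_pos]
        exact fun h' => h ((sg_src_zero ((hU e).1 he)).1.2 h')
      have s2 : ∑ e ∈ U, f2 e = 0 := by
        refine Finset.sum_eq_zero fun e he => ?_
        simp only [f2]
        rw [if_neg]
        intro h3
        apply h
        rw [(sg_src_zero ((hU e).1 he)).1, h3]
      rw [s1, s2, h2, List.toFinset_card_of_nodup h1]
      rfl
  have h1 := orbits_eq T.sg (fun e => f1 e + f2 e) 4 key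
  rw [h1, Finset.sum_add_distrib]
  have s1 : ∑ e, f1 e = Nat.card {x : T.P // x.1.2 ≠ 0} := by
    rw [Nat.card_eq_fintype_card, Fintype.card_subtype, Finset.sum_boole]
    rfl
  have s2 : ∑ e, f2 e = 4 * Nat.card V := by
    have h2 : ∑ e, f2 e = ∑ e ∈ Finset.univ.image r, 4 := by
      have h3 : ∑ e, f2 e = ∑ e ∈ Finset.univ.filter (fun x : T.P => x = r (T.src x.1.1)), 4 := by
        rw [Finset.sum_filter]
      rw [h3]
      congr 1
      ext e
      simp only [Finset.mem_filter, Finset.mem_univ, true_and, Finset.mem_image]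
      constructor
      · intro h4; exact ⟨_, h4.symm⟩
      · rintro ⟨v, rfl⟩
        rw [hr]
    rw [h2, Finset.sum_const, Finset.card_image_of_injective, Finset.card_univ, Nat.card_eq_fintype_card, smul_eq_mul, mul_comm]
    intro u v huv
    rw [← hr u, huv, hr]
  omega

end Pre

end Pool.Agent.FP
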