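import Pool.Agent.Lib.MP_2e2457_lc.PreS

/-!
# Connectivity (MP_2e2457_lc)
-/

set_option autoImplicit false

open Equiv

noncomputable section

namespace Pool.Agent.FP

variable {V : Type} {G : SimpleGraph V}

namespace Pre

variable {T : Pre G}

/-- the equivalence relation generated by `sg` and `rvP` -/
def cls (T : Pre G) [Finite V] : Setoid T.P := Perm.SameCycle.setoid T.sg ⊔ Perm.SameCycle.setoid T.rvP

theorem cls_sg [Finite V] (x : T.P) : T.cls x (T.sg x) := by
  have h : Perm.SameCycle.setoid T.sg ≤ T.cls := le_sup_left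
  exact h (Perm.sameCycle_apply_right.2 (Perm.SameCycle.refl _ _))

theorem cls_rv [Finite V] (x : T.P) : T.cls x (T.rvP x) := by
  have h : Perm.SameCycle.setoid T.rvP ≤ T.cls := le_sup_right
  exact h (Perm.sameCycle_apply_right.2 (Perm.SameCycle.refl _ _))

theorem cls_edge [Finite V] {e : T.E} (he : T.ok e) (i : ℕ) (hi : i ≤ T.K e) :
    T.cls ⟨(e, 0), he, Nat.zero_le _⟩ ⟨(e, i), he, hi⟩ := by
  induction i with
  | zero => exact T.cls.refl' _
  | succ i ih =>
    refine T.cls.trans' (ih (by omega)) ?_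
    set x : T.P := ⟨(e, i), he, by simp only; omega⟩ with hx
    have h1 : (T.rvP x).1 = (T.rv e, T.K e - i) := rfl
    have h2 : (T.rvP x).1.2 ≠ 0 := by rw [h1]; simp only; omega
    have h3 : (T.sg (T.sg (T.rvP x))).1 = (e, i + 1) := by
      have h4 : (T.sg (T.sg (T.rvP x))).1 = (T.rv (T.rvP x).1.1, T.K (T.rvP x).1.1 + 1 - (T.rvP x).1.2) := sgF_sgF h2
      rw [h4, h1]
      simp only [T.rv_rv, T.K_rv]
      exact Prod.ext rfl (by simp only; omega)
    have h5 : T.sg (T.sg (T.rvP x)) = ⟨(e, i + 1), he, hi⟩ := Subtype.ext h3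
    rw [← h5]
    exact T.cls.trans' (cls_rv x) (T.cls.trans' (cls_sg _) (cls_sg _))

theorem cls_vertex [Finite V] {e e' : T.E} (he : T.ok e) (he' : T.ok e') (h : T.src e = T.src e') :
    T.cls ⟨(e, 0), he, Nat.zero_le _⟩ ⟨(e', 0), he', Nat.zero_le _⟩ := by
  obtain ⟨n, hn⟩ := T.ρ_reach e e' he he' h
  subst hn
  clear h
  have key : ∀ n : ℕ, T.cls ⟨(e, 0), he, Nat.zero_le _⟩ ⟨(T.ρ^[n] e, 0), ρ_iter_ok he n, Nat.zero_le _⟩ := ?_
  · exact key n
  intro n
  induction n with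
  | zero => exact T.cls.refl' _
  | succ n ih =>
    have h1 : T.sg ⟨(T.ρ^[n] e, 0), ρ_iter_ok he n, Nat.zero_le _⟩ =
        ⟨(T.ρ^[n + 1] e, 0), ρ_iter_ok he (n + 1), Nat.zero_le _⟩ := by
      apply Subtype.ext
      rw [sg_apply, sgF_zero rfl]
      simp only [Function.iterate_succ_apply']
    rw [← h1]
    exact T.cls.trans' ih (cls_sg _)

theorem cls_adj [Finite V] {e : T.E} (he : T.ok e) :
    T.cls ⟨(e, 0), he, Nat.zero_le _⟩ ⟨(T.rv e, 0), T.ok_rv _ he, Nat.zero_le _⟩ := by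
  refine T.cls.trans' (cls_rv _) ?_
  have h1 : T.rvP ⟨(e, 0), he, Nat.zero_le _⟩ = ⟨(T.rv e, T.K e), T.ok_rv _ he, by simp only [T.K_rv]; exact le_refl _⟩ := by
    apply Subtype.ext
    rfl
  rw [h1]
  exact T.cls.symm' (cls_edge (T.ok_rv _ he) (T.K e) (by rw [T.K_rv]))

theorem cls_walk [Finite V] {u v : V} (p : G.Walk u v) : ∀ {e e' : T.E} (he : T.ok e) (he' : T.ok e'), T.src e = u →
    T.src e' = v → T.cls ⟨(e, 0), he, Nat.zero_le _⟩ ⟨(e', 0), he', Nat.zero_le _⟩ := by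
  induction p with
  | nil =>
    intro e e' he he' h1 h2
    exact cls_vertex he he' (h1.trans h2.symm)
  | cons h p ih =>
    rename_i a b c
    intro e e' he he' h1 h2
    have h3 := eOf_ok (T := T) _ _ h
    refine T.cls.trans' (cls_vertex he h3 (h1.trans (eOf_src _ _ h).symm)) ?_
    refine T.cls.trans' (cls_adj h3) ?_
    exact ih (T.ok_rv _ h3) he' (eOf_tgt _ _ h) h2

theorem conn [Finite V] (hG : G.Connected) (hV : ∀ v : V, ∃ w, G.Adj v w) : orbits₂ T.sg T.rvP = 1 := by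
  obtain ⟨v⟩ := hG.nonempty
  obtain ⟨w, hw⟩ := hV v
  have hx : Nonempty T.P := ⟨⟨(T.eOf v w hw, 0), eOf_ok _ _ hw, Nat.zero_le _⟩⟩
  rw [orbits₂, Nat.card_eq_one_iff_unique]
  constructor
  · constructor
    intro a b
    induction a using Quotient.inductionOn with
    | h x =>
      induction b using Quotient.inductionOn with
      | h y =>
        apply Quotient.sound
        change T.cls x y
        obtain ⟨⟨e, i⟩, he, hi⟩ := x
        obtain ⟨⟨e', i'⟩, he', hi'⟩ := y
        refine T.cls.trans' (T.cls.symm' (cls_edge he i hi)) (T.cls.trans' ?_ (cls_edge he' i' hi'))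
        obtain ⟨p⟩ := hG.preconnected (T.src e) (T.src e')
        exact cls_walk p he he' rfl rfl
  · obtain ⟨x⟩ := hx
    exact ⟨Quotient.mk _ x⟩

end Pre

end Pool.Agent.FP
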