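import Pool.Agent.Lib.MP_2e2457_lc.PreS

/-!
# The drawing (MP_2e2457_lc)
-/

set_option autoImplicit false

open Equiv

noncomputable section

namespace Pool.Agent.FP

variable {V : Type} {G : SimpleGraph V}

namespace Pre

variable {T : Pre G}

/-! ### transport of orbits -/

theorem PreE_zpow {α β : Type} (Φ : α ≃ β) (p : Perm β) (n : ℤ) (a : α) :
    ((Φ.symm.permCongr p) ^ n) a = Φ.symm ((p ^ n) (Φ a)) := by
  have h : Φ.symm.permCongr p = Φ.symm.permCongrHom p := rfl
  rw [h, ← map_zpow]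
  rfl

theorem PreE_sameCycle {α β : Type} (Φ : α ≃ β) (p : Perm β) (a b : α) :
    (Φ.symm.permCongr p).SameCycle a b ↔ p.SameCycle (Φ a) (Φ b) := by
  constructor
  · rintro ⟨n, hn⟩
    refine ⟨n, ?_⟩
    rw [← hn, PreE_zpow]
    simp
  · rintro ⟨n, hn⟩
    refine ⟨n, ?_⟩
    rw [PreE_zpow, hn]
    simp

theorem PreE_orbits {α β : Type} (Φ : α ≃ β) (p : Perm β) :
    orbits (Φ.symm.permCongr p) = orbits p := by
  refine Nat.card_congr (Quotient.congr Φ ?_)
  intro a b
  exact PreE_sameCycle Φ p a b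

theorem PreE_orbits₂ {α β : Type} (Φ : α ≃ β) (p q : Perm β) :
    orbits₂ (Φ.symm.permCongr p) (Φ.symm.permCongr q) = orbits₂ p q := by
  refine Nat.card_congr (Quotient.congr Φ ?_)
  intro a b
  constructor
  · intro h
    have h1 : Perm.SameCycle.setoid (Φ.symm.permCongr p) ⊔ Perm.SameCycle.setoid (Φ.symm.permCongr q) ≤
        Setoid.comap Φ (Perm.SameCycle.setoid p ⊔ Perm.SameCycle.setoid q) := by
      refine sup_le ?_ ?_
      · intro x y hxy
        have h2 : Perm.SameCycle.setoid p ≤ Perm.SameCycle.setoid p ⊔ Perm.SameCycle.setoid q := le_sup_left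
        exact h2 ((PreE_sameCycle Φ p x y).1 hxy)
      · intro x y hxy
        have h2 : Perm.SameCycle.setoid q ≤ Perm.SameCycle.setoid p ⊔ Perm.SameCycle.setoid q := le_sup_right
        exact h2 ((PreE_sameCycle Φ q x y).1 hxy)
    exact h1 h
  · intro h
    have h1 : Perm.SameCycle.setoid p ⊔ Perm.SameCycle.setoid q ≤
        Setoid.comap Φ.symm (Perm.SameCycle.setoid (Φ.symm.permCongr p) ⊔
          Perm.SameCycle.setoid (Φ.symm.permCongr q)) := by
      refine sup_le ?_ ?_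
      · intro x y hxy
        have h2 : Perm.SameCycle.setoid (Φ.symm.permCongr p) ≤ Perm.SameCycle.setoid (Φ.symm.permCongr p) ⊔
          Perm.SameCycle.setoid (Φ.symm.permCongr q) := le_sup_left
        refine h2 ((PreE_sameCycle Φ p _ _).2 ?_)
        rw [Φ.apply_symm_apply, Φ.apply_symm_apply]
        exact hxy
      · intro x y hxy
        have h2 : Perm.SameCycle.setoid (Φ.symm.permCongr q) ≤ Perm.SameCycle.setoid (Φ.symm.permCongr p) ⊔
          Perm.SameCycle.setoid (Φ.symm.permCongr q) := le_sup_right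
        refine h2 ((PreE_sameCycle Φ q _ _).2 ?_)
        rw [Φ.apply_symm_apply, Φ.apply_symm_apply]
        exact hxy
    have h3 := h1 h
    have h4 : (Perm.SameCycle.setoid (Φ.symm.permCongr p) ⊔
          Perm.SameCycle.setoid (Φ.symm.permCongr q)) (Φ.symm (Φ a)) (Φ.symm (Φ b)) := h3
    rw [Φ.symm_apply_apply, Φ.symm_apply_apply] at h4
    exact h4

variable (T)

open Classical in
/-- number of crossings -/
def kk (u v : V) : ℕ := if h : G.Adj u v then T.K (T.eOf u v h) else 0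

variable {T}

theorem kk_adj {u v : V} (h : G.Adj u v) : T.kk u v = T.K (T.eOf u v h) := by
  rw [kk, dif_pos h]

theorem eOf_symm {u v : V} (h : G.Adj u v) : T.eOf v u h.symm = T.rv (T.eOf u v h) := by
  refine T.inj _ _ (eOf_ok _ _ _) (T.ok_rv _ (eOf_ok _ _ _)) ?_ ?_
  · rw [eOf_src, eOf_tgt]
  · rw [eOf_tgt, T.rv_rv, eOf_src]

theorem kk_symm (u v : V) : T.kk u v = T.kk v u := by
  by_cases h : G.Adj u v
  · rw [kk_adj h, kk_adj h.symm, eOf_symm h, T.K_rv]
  · rw [kk, dif_neg h, kk, dif_neg (fun h' => h h'.symm)]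

/-- the darts of the drawing -/
def Φ : Dart G T.kk ≃ T.P where
  toFun d := ⟨(T.eOf d.src d.tgt d.adj, d.idx), eOf_ok _ _ d.adj, by
    have := d.le
    rw [kk_adj d.adj] at this
    exact this⟩
  invFun x :=
    { src := T.src x.1.1
      tgt := T.src (T.rv x.1.1)
      idx := x.1.2
      adj := T.adj _ x.2.1
      le := by
        rw [kk_adj (T.adj _ x.2.1), eOf_eq x.2.1]
        exact x.2.2 }
  left_inv d := by
    ext
    · exact eOf_src _ _ d.adj
    · exact eOf_tgt _ _ d.adj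
    · rfl
  right_inv x := by
    refine Subtype.ext (Prod.ext ?_ rfl)
    exact eOf_eq x.2.1 (T.adj _ x.2.1)

theorem Φ_rev (d : Dart G T.kk) : Φ (Dart.rev kk_symm d) = T.rvP (Φ d) := by
  apply Subtype.ext
  refine Prod.ext ?_ ?_
  · exact eOf_symm d.adj
  · change T.kk d.src d.tgt - d.idx = T.K (T.eOf d.src d.tgt d.adj) - d.idx
    rw [kk_adj d.adj]

theorem rev_eq : revPerm (G := G) (k := T.kk) kk_symm = Φ.symm.permCongr T.rvP := by
  ext1 d
  apply Φ.injective
  change Φ (Dart.rev kk_symm d) = Φ (Φ.symm (T.rvP (Φ d)))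
  rw [Φ_rev, Φ.apply_symm_apply]

theorem sg_iter [Finite V] {x : T.P} (h : x.1.2 = 0) (n : ℕ) :
    ((T.sg ^ n) x).1 = (T.ρ^[n] x.1.1, 0) := by
  induction n with
  | zero => exact Prod.ext rfl h
  | succ n ih =>
    rw [pow_succ', Perm.mul_apply, sg_apply, sgF_zero (by rw [ih]), ih, Function.iterate_succ_apply']

/-- the rotation of the drawing -/
def sD [Finite V] : Perm (Dart G T.kk) := Φ.symm.permCongr T.sg

theorem sD_apply [Finite V] (d : Dart G T.kk) : sD d = Φ.symm (T.sgF (Φ d)) := rfl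

theorem Φ_idx (d : Dart G T.kk) : (Φ d).1.2 = d.idx := rfl

theorem sD_X [Finite V] {d : Dart G T.kk} (h : d.idx ≠ 0) :
    (sD d).src = T.src (T.X (T.eOf d.src d.tgt d.adj) d.idx).1 ∧
      (sD d).tgt = T.src (T.rv (T.X (T.eOf d.src d.tgt d.adj) d.idx).1) := by
  rw [sD_apply]
  have h1 : (T.sgF (Φ d)).1 = T.X (T.eOf d.src d.tgt d.adj) d.idx := sgF_pos (x := Φ d) h
  refine ⟨?_, ?_⟩
  · change T.src (T.sgF (Φ d)).1.1 = _
    rw [h1]
  · change T.src (T.rv (T.sgF (Φ d)).1.1) = _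
    rw [h1]

theorem idx_K (d : Dart G T.kk) : d.idx ≤ T.K (T.eOf d.src d.tgt d.adj) := by
  have := d.le
  rw [kk_adj d.adj] at this
  exact this

/-- the drawing -/
theorem drawing [Finite V] (hF : T.Fan)
    (hp : 2 * (orbits T.sg + orbits (T.sg⁻¹ * T.rvP)) = Nat.card T.P + 4 * orbits₂ T.sg T.rvP) : IsFanPlanar G := by
  let D : Drawing G :=
    { k := T.kk
      k_symm := kk_symm
      σ := sD
      idx_σ := fun d => by
        rw [sD_apply]
        change (T.sgF (Φ d)).1.2 = 0 ↔ _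
        rw [sgF_idx]
        rfl
      src_σ := fun d hd => by
        rw [sD_apply]
        change T.src (T.sgF (Φ d)).1.1 = _
        rw [sgF_zero (x := Φ d) hd]
        change T.src (T.ρ (T.eOf d.src d.tgt d.adj)) = _
        rw [T.ρ_src _ (eOf_ok _ _ _), eOf_src]
      cycle_σ := fun d e hd he hde => by
        rw [sD, PreE_sameCycle]
        obtain ⟨n, hn⟩ := T.ρ_reach (T.eOf d.src d.tgt d.adj) (T.eOf e.src e.tgt e.adj) (eOf_ok _ _ _)
          (eOf_ok _ _ _) (by rw [eOf_src, eOf_src, hde])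
        refine ⟨(n : ℤ), ?_⟩
        rw [zpow_natCast]
        apply Subtype.ext
        rw [sg_iter (x := Φ d) hd]
        exact Prod.ext hn he.symm
      cross_σ := fun d hd => by
        apply Φ.injective
        have h1 : sD (sD d) = Φ.symm (T.sgF (T.sgF (Φ d))) := by
          rw [sD_apply, sD_apply, Φ.apply_symm_apply]
        rw [h1, Φ.apply_symm_apply]
        apply Subtype.ext
        rw [sgF_sgF (x := Φ d) hd, Dart.opp, dif_neg hd]
        refine Prod.ext (eOf_symm d.adj).symm ?_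
        change T.K (T.eOf d.src d.tgt d.adj) + 1 - d.idx = T.kk d.src d.tgt + 1 - d.idx
        rw [kk_adj d.adj]
      planar := by
        have h1 : (sD (T := T))⁻¹ * revPerm kk_symm = Φ.symm.permCongr (T.sg⁻¹ * T.rvP) := by
          rw [rev_eq, sD]
          change (Φ.symm.permCongrHom T.sg)⁻¹ * Φ.symm.permCongrHom T.rvP = Φ.symm.permCongrHom (T.sg⁻¹ * T.rvP)
          rw [map_mul, map_inv]
        rw [h1, rev_eq, PreE_orbits, sD, PreE_orbits, PreE_orbits₂, Nat.card_congr (Φ (T := T))]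
        exact hp }
  refine ⟨D, ⟨?_, ?_⟩, ?_⟩
  · intro d hd
    have h1 := sD_X hd
    have h2 := hF.disjoint _ d.idx (eOf_ok d.src d.tgt d.adj) (by omega) (idx_K d)
    rw [eOf_src, eOf_tgt] at h2
    change (sD d).src ≠ _ ∧ (sD d).src ≠ _ ∧ (sD d).tgt ≠ _ ∧ (sD d).tgt ≠ _
    rw [h1.1, h1.2]
    exact h2
  · intro d e hd he h1 h2 h3
    change s((sD d).src, (sD d).tgt) = s((sD e).src, (sD e).tgt) at h3
    obtain ⟨u, v, i, ha, hi⟩ := d
    obtain ⟨u', v', j, ha', hj⟩ := e
    simp only at h1 h2 hd he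
    subst h1
    subst h2
    rw [(sD_X (d := ⟨u, v, i, ha, hi⟩) hd).1, (sD_X (d := ⟨u, v, i, ha, hi⟩) hd).2,
      (sD_X (d := ⟨u, v, j, ha', hj⟩) he).1, (sD_X (d := ⟨u, v, j, ha', hj⟩) he).2] at h3
    simp only at h3
    have hi' := idx_K (T := T) ⟨u, v, i, ha, hi⟩
    have hj' := idx_K (T := T) ⟨u, v, j, ha', hj⟩
    simp only at hi' hj'
    have hoki := (T.X_ok _ i (eOf_ok u v ha) (by omega) hi').1
    have hokj := (T.X_ok _ j (eOf_ok u v ha) (by omega) hj').1
    have h4 : i = j := by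
      refine hF.once _ i j (eOf_ok u v ha) (by omega) hi' (by omega) hj' ?_
      rcases Sym2.eq_iff.1 h3 with ⟨h5, h6⟩ | ⟨h5, h6⟩
      · exact Or.inl (T.inj _ _ hoki hokj h5 h6)
      · refine Or.inr (T.inj _ _ hoki (T.ok_rv _ hokj) h5 ?_)
        rw [T.rv_rv]
        exact h6
    subst h4
    rfl
  · intro u v huv
    obtain ⟨a, ha⟩ := hF.fan _ (eOf_ok u v huv)
    refine ⟨a, ?_⟩
    rcases ha with ha | ha
    · left
      intro d hd h1 h2
      subst h1
      subst h2
      change (sD d).tgt = a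
      rw [(sD_X hd).2]
      exact ha _ (by omega) (idx_K d)
    · right
      intro d hd h1 h2
      subst h1
      subst h2
      change (sD d).src = a
      rw [(sD_X hd).1]
      exact ha _ (by omega) (idx_K d)

end Pre

end Pool.Agent.FP
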