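import Pool.Agent.Lib.MP_2e2457_lc.PreA
import Pool.Agent.Lib.MP_2e2457_lc.PreB
import Pool.Agent.Lib.MP_2e2457_lc.PreC
import Pool.Agent.Lib.MP_2e2457_lc.PreD
import Pool.Agent.Lib.MP_2e2457_lc.PreE

/-!
# From abstract descriptions to drawings: the theorem (MP_2e2457_lc)
-/

set_option autoImplicit false

open Equiv

noncomputable section

namespace Pool.Agent.FP

variable {V : Type} {G : SimpleGraph V}

namespace Pre

variable {T : Pre G}

theorem isFanPlanar [Finite V] {ch : T.E × ℕ → Prop} (hF : T.Fan) (hC : T.Charged ch)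
    (hcov : ∀ x, T.okd x → T.Covered ch x) (hG : G.Connected) (hn : 3 ≤ Nat.card V)
    (hm : Nat.card G.edgeSet + 10 = 5 * Nat.card V) : IsFanPlanar G := by
  classical
  have hnt : Nontrivial V := by
    have : 1 < Nat.card V := by omega
    exact (Finite.one_lt_card_iff_nontrivial).1 this
  have hV : ∀ v : V, ∃ w, G.Adj v w := by
    intro v
    obtain ⟨u, hu⟩ := exists_ne v
    obtain ⟨p⟩ := hG.preconnected v u
    cases p with
    | nil => exact absurd rfl hu
    | cons h _ => exact ⟨_, h⟩
  have e1 := orbits_φ hcov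
  have e2 := card_ch hC
  have e3 := orbits_σ hF hV
  have e4 := card_real (T := T)
  have e5 := conn (T := T) hG hV
  have e6 : Nat.card T.P = Nat.card {x : T.P // x.1.2 = 0} + Nat.card {x : T.P // x.1.2 ≠ 0} := by
    rw [← Nat.card_sum]
    exact Nat.card_congr (Equiv.sumCompl (fun x : T.P => x.1.2 = 0)).symm
  refine drawing hF ?_
  rw [e5]
  omega

end Pre

end Pool.Agent.FP
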