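import Pool.Agent.Lib.MP_2e2457_lc.Forward
import Pool.Agent.Lib.MP_2e2457_lc.PreMain
import Pool.Agent.Lib.MP_2e2457_lc.ConvCov
import Pool.Agent.Lib.MP_2e2457_lc.ConvCh
import Pool.Agent.Lib.MP_2e2457_lc.ConvFan2

/-!
# The characterisation of optimal fan-planar graphs (MP_2e2457_lc)
-/

set_option autoImplicit false

noncomputable section

namespace Pool.Agent.FP

variable {V : Type} {G : SimpleGraph V}

theorem backward [Finite V] (hn : 3 ≤ Nat.card V) (h : Nonempty (PentagonAnnulus G)) : IsOptimal G := by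
  obtain ⟨S⟩ := h
  have hm := S.toFilling.euler_iff.1 S.euler
  exact ⟨hm, Pre.isFanPlanar (T := S.toFilling.pre) (ch := S.toFilling.ch) Filling.fan Filling.charged Filling.covered
    S.connected hn hm⟩

theorem characterisation [Finite V] (hn : 3 ≤ Nat.card V) : IsOptimal G ↔ Nonempty (PentagonAnnulus G) :=
  ⟨forward hn, backward hn⟩

end Pool.Agent.FP
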