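import Pool.Agent.Lib.MP_2e2457_lc.Mirror

/-!
# Local structure at the vertices (MP_2e2457_lc)
-/

set_option autoImplicit false

open Equiv

noncomputable section

namespace Pool.Agent.FP

variable {V : Type}

namespace Drawing

variable {G : SimpleGraph V} {D : Drawing G}

/-- uncrossed edge, as a dart at a vertex -/
def Unc (r : D.DD) : Prop := r.idx = 0 ∧ Last r

def T2A (r : D.DD) : Prop :=
  r.idx = 0 ∧ D.φ (D.φ (D.φ r)) = r ∧ (D.φ r).idx = 0 ∧ (D.φ (D.φ r)).idx ≠ 0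

def T2C (r : D.DD) : Prop :=
  r.idx = 0 ∧ D.φ (D.φ (D.φ r)) = r ∧ (D.φ r).idx ≠ 0 ∧ (D.φ (D.φ r)).idx = 0

def Q1 (r : D.DD) : Prop :=
  r.idx = 0 ∧ D.φ (D.φ (D.φ (D.φ r))) = r ∧ (D.φ r).idx ≠ 0 ∧ (D.φ (D.φ r)).idx ≠ 0 ∧
    (D.φ (D.φ (D.φ r))).idx ≠ 0

theorem Tight.real_cases (hT : D.Tight) {r : D.DD} (h : r.idx = 0) : T1 r ∨ T2A r ∨ T2C r ∨ Q1 r := by
  have r0 := rc_pos h
  rcases hT.cell r with ⟨h3, _, hs⟩ | ⟨h4, hs⟩ | ⟨_, h0, _⟩
  · by_cases h1 : (D.φ r).idx = 0 <;> by_cases h2 : (D.φ (D.φ r)).idx = 0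
    · rw [r0, rc_pos h1, rc_pos h2] at hs; omega
    · exact Or.inr (Or.inl ⟨h, h3, h1, h2⟩)
    · exact Or.inr (Or.inr (Or.inl ⟨h, h3, h1, h2⟩))
    · exact Or.inl ⟨h, h3, h1, h2⟩
  · right; right; right
    refine ⟨h, h4, ?_, ?_, ?_⟩ <;>
    · intro h1
      have := rc_pos h1
      omega
  · exact (h0 h).elim

protected theorem Unc.rv {r : D.DD} (h : Unc r) : Unc (Drawing.rv r) := ⟨rv_idx_zero.2 h.2, last_rv.2 h.1⟩

theorem unc_rv {r : D.DD} : Unc (Drawing.rv r) ↔ Unc r :=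
  ⟨fun h => by have := h.rv; rwa [rv_rv] at this, fun h => h.rv⟩

theorem unc_mirror {r : D.DD} : Unc (D := D.mirror) r ↔ Unc (D := D) r := Iff.rfl

theorem Unc.t2a (hT : D.Tight) {r : D.DD} (h : Unc r) : T2A r := by
  have h1 : (D.φ r).idx = 0 := φ_idx_zero.2 h.2
  rcases hT.real_cases h.1 with h2 | h2 | h2 | h2
  · exact (h2.2.2.1 h1).elim
  · exact h2
  · exact (h2.2.2.1 h1).elim
  · exact (h2.2.2.1 h1).elim

theorem T2C.unc {r : D.DD} (h : T2C r) : Unc (D.σ r) :=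
  ⟨σ_real h.1, by rw [σ_eq_of_φ h.2.1, last_rv]; exact h.2.2.2⟩

theorem t2c_of_unc (hT : D.Tight) {r : D.DD} (h : Unc (D.σ r)) : T2C r := by
  have h0 : r.idx = 0 := (D.idx_σ r).1 h.1
  rcases hT.real_cases h0 with h2 | h2 | h2 | h2
  · have := h.2
    rw [σ_eq_of_φ h2.2.1, last_rv] at this
    exact (h2.2.2.2 this).elim
  · have := h.2
    rw [σ_eq_of_φ h2.2.1, last_rv] at this
    exact (h2.2.2.2 this).elim
  · exact h2
  · have := h.2
    rw [σ_eq_of_φ h2.2.1, last_rv] at this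
    exact (h2.2.2.2.2 this).elim

theorem T1.not_last {r : D.DD} (h : T1 r) : ¬ Last r := by
  rw [← φ_idx_zero]; exact h.2.2.1

theorem T1.σ_not_last {r : D.DD} (h : T1 r) : ¬ Last (D.σ r) := by
  rw [σ_eq_of_φ h.2.1, last_rv]; exact h.2.2.2

protected theorem T1.φφ {r : D.DD} (h : T1 r) : D.φ (D.φ r) = Drawing.rv (D.σ r) := by
  rw [σ_eq_of_φ h.2.1, rv_rv]

theorem T2A.φφ {r : D.DD} (h : T2A r) : D.φ (D.φ r) = Drawing.rv (D.σ r) := by
  rw [σ_eq_of_φ h.2.1, rv_rv]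

theorem T2C.φφ {r : D.DD} (h : T2C r) : D.φ (D.φ r) = Drawing.rv (D.σ r) := by
  rw [σ_eq_of_φ h.2.1, rv_rv]

theorem Unc.not_σ (hT : D.Tight) {h : D.DD} (hh : Unc h) : ¬ Last (D.σ h) := by
  rw [σ_eq_of_φ (hh.t2a hT).2.1, last_rv]; exact (hh.t2a hT).2.2.2

/-- the apex of the base edge of a 1-triangle -/
theorem T1.apex (hO : D.Opt) {r : D.DD} (h : T1 r) : Apex r.src (D.φ r) := by
  have h1 := h.lt
  have h2 := (h1.prop hO.simple hO.fan).1
  have h3 : D.σ (D.φ (D.φ r)) = Drawing.rv (D.φ r) := σφ _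
  rw [h3, Apex.congr (sameEdge_rv _), h.φφ, rv_tgt, σ_real_src h.1] at h2
  exact h2

/-- mirror form of `T1.lt` -/
theorem T1.lt' {r : D.DD} (h : T1 r) : Lt (D := D.mirror) (Drawing.rv r) := by
  have h1 : T1 (D := D.mirror) (D.σ r) := by
    rw [t1_mirror, inv_σ]; exact h
  have h2 := h1.lt
  have h3 : D.mirror.φ (D.mirror.φ (D.σ r)) = D.σ (Drawing.rv (D.σ (Drawing.rv (D.σ r)))) := rfl
  have h4 : D.φ (D.φ r) = Drawing.rv (D.σ r) := h.φφ
  have h5 : D.σ (Drawing.rv (D.σ r)) = Drawing.rv (D.φ r) := σ_eq_of_φ h4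
  have h6 : D.mirror.φ (D.mirror.φ (D.σ r)) = Drawing.rv r := by
    rw [h3, h5, rv_rv, σφ]
  rwa [h6] at h2

theorem Lt'.t1 {x : D.DD} (h : Lt (D := D.mirror) x) : T1 (D := D) (Drawing.rv x) := by
  have h1 := h.t1
  have h2 : D.mirror.φ x = D.σ (Drawing.rv x) := rfl
  have h3 : T1 (D := D) (D.σ⁻¹ (D.mirror.φ x)) := t1_mirror.1 h1
  rw [h2] at h3
  have h4 : D.σ⁻¹ (D.σ (Drawing.rv x)) = Drawing.rv x := inv_σ _
  rw [h4] at h3
  exact h3

/-- The corner between the rays towards the two apexes is charged. -/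
theorem Opt.corner (hO : D.Opt) {x : D.DD} (hx : x.idx ≠ 0)
    (hnb : ∀ z : D.DD, Lt z → ¬ SameEdge (D.σ z) x) (h1 : Apex x.tgt (D.σ x)) (h2 : Apex (D.σ x).tgt x) :
    Cw x := by
  have hS := hO.simple
  have hF := hO.fan
  have hσ := σ_idx_ne hx
  rcases hO.tight.node x hx with h | h | h | h
  · exact h
  · exfalso
    rcases h with h | h
    · refine hnb _ h ?_
      rw [σσ hx]; exact sameEdge_op _
    · have h3 := (h.prop hS hF).2.2.2
      rw [σσ hx, op_tgt hx] at h3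
      exact src_ne_tgt x (Apex.unique hS h3 h1)
  · exfalso
    rw [σσ hx] at h
    have h3 := (h.prop hS hF).1
    rw [op_tgt hx, σ_op, Apex.congr (sameEdge_op _)] at h3
    exact src_ne_tgt x (Apex.unique hS h3 h1)
  · exfalso
    have h3 := (h.prop hS hF).1
    rw [σ4 hx, σσ hσ, op_tgt hσ] at h3
    exact src_ne_tgt (D.σ x) (Apex.unique hS h3 h2)

/-- the side of a charged corner -/
theorem Cw.side {x : D.DD} (h : Cw x) : ¬ Last (D.σ x) ∧ (D.φ (D.σ x)).idx ≠ 0 ∧ (D.φ (D.σ x)).src = x.tgt := by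
  rcases h with h | h
  · obtain ⟨h0, h3, h1, h2⟩ := h
    have h4 : D.σ x = rv (D.φ (D.φ x)) := σ_eq_of_φ h3
    have h5 : ¬ Last (D.σ x) := by rw [h4, last_rv]; exact h2
    have h6 : (D.φ (D.σ x)).idx ≠ 0 := by rw [Ne, φ_idx_zero]; exact h5
    have h7 : D.φ (D.σ x) = op (rv (D.φ x)) := by
      rw [h4, φ_rv, inv_eq_op_σ h2, σφ]
    have h8 : ¬ Last (D.φ x) := by rw [← φ_idx_zero]; exact h2
    refine ⟨h5, h6, ?_⟩
    rw [h7, op_rv h8, nx_src, φ_src h0]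
  · obtain ⟨h0, h1, h2, h3, h4, _, h6⟩ := h
    have h7 : D.σ x = rv (D.φ (D.φ (D.φ x))) := σ_eq_of_φ h4
    have h5 : ¬ Last (D.σ x) := by rw [h7, last_rv]; exact h3
    have h8 : (D.φ (D.σ x)).idx ≠ 0 := by rw [Ne, φ_idx_zero]; exact h5
    have h9 : D.φ (D.σ x) = op (rv (D.φ (D.φ x))) := by
      rw [h7, φ_rv, inv_eq_op_σ h3, σφ]
    have h10 : ¬ Last (D.φ (D.φ x)) := by rw [← φ_idx_zero]; exact h3
    refine ⟨h5, h8, ?_⟩
    rw [h9, op_rv h10, nx_src, ← h6]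

theorem inv_inv_eq {x : D.DD} (hx : x.idx ≠ 0) : D.σ⁻¹ (D.σ⁻¹ x) = op x := by
  rw [inv_eq_σ_op hx, inv_σ]

/-- mirror form of `Cw` -/
def Cw' (x : D.DD) : Prop := Cw (D := D.mirror) x

theorem Cw'.prop (hO : D.Opt) {x : D.DD} (h : Cw' x) :
    Apex x.tgt (D.σ⁻¹ x) ∧ ¬ Last (D.σ⁻¹ x) ∧ (Last x ∨ Apex (D.σ⁻¹ x).tgt x) := by
  obtain ⟨h1, h2, h3⟩ := Cw.prop hO.mirror.simple hO.mirror.fan h
  refine ⟨apex_mirror.1 h1, h2, ?_⟩
  rcases h3 with h3 | h3
  · exact Or.inl h3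
  · exact Or.inr (apex_mirror.1 h3)

theorem Opt.node' (hO : D.Opt) {x : D.DD} (hx : x.idx ≠ 0) :
    Cw' x ∨ Cw' (D.σ⁻¹ x) ∨ Cw' (op x) ∨ Cw' (D.σ x) := by
  have h1 : Cw' x ∨ Cw' (D.σ⁻¹ x) ∨ Cw' (D.σ⁻¹ (D.σ⁻¹ x)) ∨ Cw' (D.σ⁻¹ (D.σ⁻¹ (D.σ⁻¹ x))) :=
    hO.tight'.node x hx
  have e3 : D.σ⁻¹ (D.σ⁻¹ (D.σ⁻¹ x)) = D.σ x := by
    rw [inv_inv_eq (inv_idx_ne hx), inv_eq_op_σ hx, op_op]
  rw [e3, inv_inv_eq hx] at h1
  exact h1

/-- Lemma A1 -/
theorem T1.next (hO : D.Opt) {r : D.DD} (h : T1 r) : T1 (D.σ r) ∨ Unc (D.σ (D.σ r)) := by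
  have hS := hO.mirror.simple
  have hF := hO.mirror.fan
  -- the crossing at the head of `σ r`
  set d0 : D.DD := rv (D.σ r) with hd0
  have h0 : d0.idx ≠ 0 := by
    rw [hd0, ← h.φφ]; exact h.2.2.2
  have hl : Last d0 := last_rv.2 (σ_real h.1)
  have hap : Apex r.src (D.σ d0) := by
    have h1 := h.apex hO
    have h2 : D.σ d0 = rv (D.φ r) := by rw [hd0, ← h.φφ, σφ]
    rw [h2, Apex.congr (sameEdge_rv _)]; exact h1
  have hap' : Apex (D := D.mirror) r.src (D.σ d0) := apex_mirror.2 hap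
  have e1 : D.mirror.σ d0 = D.σ⁻¹ d0 := rfl
  have e2 : D.mirror.σ (D.mirror.σ d0) = op (D := D.mirror) d0 := σσ (D := D.mirror) h0
  have ht : d0.tgt = r.src := by rw [hd0, rv_tgt, σ_real_src h.1]
  have hs : d0.src ≠ r.src := by rw [← ht]; exact src_ne_tgt d0
  have hse : SameEdge (D := D.mirror) (D.σ⁻¹ d0) (D.σ d0) := by
    rw [inv_eq_op_σ h0]; exact sameEdge_op (D := D) _
  rcases hO.tight'.node d0 h0 with hc | hc | hc | hc
  · rcases hc with hc | hc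
    · left
      have := Lt'.t1 hc
      rwa [hd0, rv_rv] at this
    · exact ((hc.prop hS hF).2.2.1 hl).elim
  · -- base edge through the other ray
    have h3 := (Cw.prop hS hF hc).2.2
    have h4 : Last (D := D.mirror) (D.mirror.σ d0) := by
      refine h3.resolve_right fun h5 => ?_
      rw [e2, e1, Apex.congr hse] at h5
      have h6 := Apex.unique hS h5 hap'
      have h7 : (op (D := D.mirror) d0).tgt = d0.src := op_tgt (D := D.mirror) h0
      rw [h7] at h6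
      exact hs h6
    right
    -- the face of `σ r`
    have h5 : D.φ (D.σ r) = D.σ⁻¹ d0 := rfl
    have h6 : (D.φ (D.σ r)).idx ≠ 0 := by rw [h5]; exact inv_idx_ne h0
    have h7 : (D.φ (D.φ (D.σ r))).idx = 0 := by
      rw [h5, φ_idx_zero]; exact h4
    have h8 : T2C (D.σ r) := by
      rcases hO.tight.real_cases (σ_real h.1) with h9 | h9 | h9 | h9
      · exact (h9.2.2.2 h7).elim
      · exact (h6 h9.2.2.1).elim
      · exact h9
      · exact (h9.2.2.2.1 h7).elim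
    exact h8.unc
  · exfalso
    have h3 := (Cw.prop hS hF hc).1
    have h4 : SameEdge (D := D.mirror) (D.mirror.σ (op (D := D.mirror) d0)) (D.σ d0) := by
      have : D.mirror.σ (op (D := D.mirror) d0) = D.σ⁻¹ (op d0) := rfl
      rw [this, inv_eq_σ_op (op_idx_ne h0), op_op]
      exact SameEdge.refl _
    rw [e2, Apex.congr h4] at h3
    have h6 := Apex.unique hS h3 hap'
    have h7 : (op (D := D.mirror) d0).tgt = d0.src := op_tgt (D := D.mirror) h0
    rw [h7] at h6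
    exact hs h6
  · exfalso
    have h3 := (Cw.prop hS hF hc).2.1
    rw [σ4 (D := D.mirror) h0] at h3
    exact h3 hl

/-- Lemma A1, mirror form -/
theorem T1.prev (hO : D.Opt) {r : D.DD} (h : T1 r) : T1 (D.σ⁻¹ r) ∨ Unc (D.σ⁻¹ r) := by
  have h1 : T1 (D := D.mirror) (D.σ r) := by
    rw [t1_mirror, inv_σ]; exact h
  have e1 : D.mirror.σ (D.σ r) = r := inv_σ r
  have e2 : D.mirror.σ r = D.σ⁻¹ r := rfl
  have h2 := T1.next hO.mirror h1
  rw [e1, e2, t1_mirror] at h2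
  exact h2

/-- Lemma A2: every angle contains at least two edges -/
theorem Unc.not_σσ (hO : D.Opt) {h : D.DD} (hh : Unc h) : ¬ Unc (D.σ (D.σ h)) := by
  intro h2
  have hT := hO.tight
  have ha := hh.t2a hT
  have hc := t2c_of_unc hT h2
  set g := D.σ h with hg
  set d0 : D.DD := Drawing.rv g with hd0
  have hd : D.φ (D.φ h) = d0 := ha.φφ
  have h0 : d0.idx ≠ 0 := by rw [← hd]; exact ha.2.2.2
  have hl : Last d0 := last_rv.2 (σ_real hh.1)
  have e1 : D.σ d0 = Drawing.rv (D.φ h) := σ_eq_of_φ hd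
  have hl1 : Last (D.σ d0) := by rw [e1]; exact last_rv.2 ha.2.2.1
  have e2 : D.σ⁻¹ d0 = D.φ g := rfl
  have hl2 : Last (D.σ⁻¹ d0) := by rw [e2, ← φ_idx_zero]; exact hc.2.2.2
  -- the edge of `σ d0` has exactly one crossing
  have hk : D.k (D.σ d0).src (D.σ d0).tgt = 1 := by
    have h3 := σ_idx_ne h0
    rw [inv_eq_op_σ h0] at hl2
    unfold Last at hl1 hl2
    rw [op_idx h3, op_src h3, op_tgt h3, D.k_symm (D.σ d0).tgt] at hl2
    omega
  have hna : ∀ (a : V) (x : D.DD), Apex a x → SameEdge x (D.σ d0) → False := by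
    intro a x hx hse
    have h5 := ((Apex.congr hse).1 hx).1
    omega
  have key1 : Apex (D.σ d0).tgt g := by
    rcases hT.node d0 h0 with hx | hx | hx | hx
    · exact (hna _ _ (hx.prop hO.simple hO.fan).1 (Or.inl ⟨rfl, rfl⟩)).elim
    · have := (hx.prop hO.simple hO.fan).1
      rw [σσ h0, Apex.congr (sameEdge_op _), hd0, Apex.congr (sameEdge_rv _)] at this
      exact this
    · have := (hx.prop hO.simple hO.fan).1
      rw [σσ h0, σ_op] at this
      exact (hna _ _ this (sameEdge_op _)).elim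
    · have := (hx.prop hO.simple hO.fan).2.1
      rw [σ4 h0] at this
      exact (this hl).elim
  have key2 : Apex (D.σ d0).src g := by
    rcases hO.node' h0 with hx | hx | hx | hx
    · have := (Cw'.prop hO hx).1
      rw [inv_eq_op_σ h0] at this
      exact (hna _ _ this (sameEdge_op (D := D) _)).elim
    · have := (Cw'.prop hO hx).1
      rw [inv_inv_eq h0, inv_eq_op_σ h0, Apex.congr (sameEdge_op _), hd0,
        Apex.congr (sameEdge_rv _), ← hd0, op_tgt (σ_idx_ne h0)] at this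
      exact this
    · have := (Cw'.prop hO hx).1
      rw [inv_eq_σ_op (op_idx_ne h0), op_op] at this
      exact (hna _ _ this (SameEdge.refl _)).elim
    · have := (Cw'.prop hO hx).2.1
      rw [inv_σ] at this
      exact (this hl).elim
  exact src_ne_tgt (D.σ d0) (Apex.unique hO.simple key2 key1)

/-- Lemma A3: the neighbouring angle on the same face contains 1-triangles, too -/
theorem T1.turn (hO : D.Opt) {h : D.DD} (hh : Unc h) (h1 : T1 (D.σ h)) : T1 (D.σ⁻¹ (D.φ h)) := by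
  have hS := hO.simple
  have hF := hO.fan
  have hT := hO.tight
  have ha := hh.t2a hT
  set d0 : D.DD := D.φ (D.φ h) with hd0
  have h0 : d0.idx ≠ 0 := ha.2.2.2
  have hd : d0 = rv (D.σ h) := ha.φφ
  have hl : Last d0 := by rw [hd]; exact last_rv.2 (σ_real hh.1)
  have e1 : D.σ d0 = rv (D.φ h) := σφ _
  have hl1 : Last (D.σ d0) := by rw [e1]; exact last_rv.2 ha.2.2.1
  have e2 : D.φ (D.σ h) = D.σ⁻¹ d0 := by rw [φ_apply, ← hd]
  have hap : Apex h.src (D.σ d0) := by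
    have h3 := h1.apex hO
    rw [e2, inv_eq_op_σ h0, Apex.congr (sameEdge_op _), σ_real_src hh.1] at h3
    exact h3
  have ht : d0.tgt = h.src := by rw [hd, rv_tgt, σ_real_src hh.1]
  have hs : d0.src ≠ h.src := by rw [← ht]; exact src_ne_tgt d0
  rcases hT.node d0 h0 with hx | hx | hx | hx
  · exfalso
    rcases hx with hx | hx
    · have h3 := hx.t1
      have h4 : D.φ d0 = h := ha.2.1
      rw [h4] at h3
      exact h3.2.2.1 ha.2.2.1
    · exact (hx.prop hS hF).2.2.1 hl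
  · rcases hx with hx | hx
    · have h3 := hx.t1
      rwa [e1, φ_rv] at h3
    · exact ((hx.prop hS hF).2.2.1 hl1).elim
  · exfalso
    have h3 := (hx.prop hS hF).1
    rw [σσ h0, σ_op, Apex.congr (sameEdge_op _), op_tgt h0] at h3
    exact hs (Apex.unique hS h3 hap)
  · exfalso
    have h3 := (hx.prop hS hF).2.1
    rw [σ4 h0] at h3
    exact h3 hl

end Drawing

end Pool.Agent.FP
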