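import Pool.Agent.Lib.MP_2e2457_lc.Middle

/-!
# No edge is a middle edge at both ends (MP_2e2457_lc)
-/

set_option autoImplicit false

open Equiv

noncomputable section

namespace Pool.Agent.FP

variable {V : Type}

namespace Drawing

variable {G : SimpleGraph V} {D : Drawing G}

theorem Opt.corner' (hO : D.Opt) {x : D.DD} (hx : x.idx ≠ 0)
    (hnb : ∀ z : D.DD, Lt' z → ¬ SameEdge (D.σ⁻¹ z) x) (h1 : Apex x.tgt (D.σ⁻¹ x))
    (h2 : Apex (D.σ⁻¹ x).tgt x) : Cw' x :=
  @Opt.corner V G D.mirror hO.mirror x hx hnb (apex_mirror.2 h1) (apex_mirror.2 h2)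

theorem Cw'.side {x : D.DD} (h : Cw' x) : ¬ Last (D.σ⁻¹ x) ∧ (D.σ (rv (D.σ⁻¹ x))).idx ≠ 0 ∧
    (D.σ (rv (D.σ⁻¹ x))).src = x.tgt := @Cw.side V G D.mirror x h

theorem Mid.rv_apex (hO : D.Opt) {m : D.DD} (h : Mid m) : Apex m.src (D.σ (rv m)) := by
  have h1 := h.1.apex hO
  have h2 : (rv m).idx ≠ 0 := fun h3 => h.1.not_last (rv_idx_zero.1 h3)
  rw [φ_apply, inv_eq_op_σ h2, Apex.congr (sameEdge_op _)] at h1
  exact h1

/-- the ends of the base edge of the angle of a 1-triangle are uncrossed neighbours of the apex -/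
theorem T1.ends [Finite V] (hO : D.Opt) {r : D.DD} (h : T1 r) {b : V} (hb : On b (D.φ r)) : D.k r.src b = 0 := by
  obtain ⟨h0, j, hA, h1, h2, rfl⟩ := h.angle hO
  obtain ⟨e1, e2, _⟩ := hA.e hO (j := j) (by omega)
  rw [f_src hA.1.1]
  have h3 := hA.1.2
  have h4 := hA.1.hr.2
  rw [Last, hA.1.1] at h3
  rw [Last, hA.1.hr.1] at h4
  rcases hb with hb | hb
  · rw [hb, e1, hA.φ_src]; exact h3.symm
  · rw [hb, e2, hA.φ_tgt hO]
    have h5 : (hr h0).src = h0.src := f_src hA.1.1 _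
    rw [h5] at h4
    exact h4.symm

/-- Lemma B, the case that all crossing edges have their common end to the right -/
theorem lemB_aux [Finite V] (hO : D.Opt) {m : D.DD} (h1 : Mid m) (h2 : Mid (oe m)) {b : V}
    (hb : ∀ d : D.DD, d.idx ≠ 0 → d.src = m.tgt → d.tgt = m.src → (D.σ d).tgt = b) : False := by
  have hS := hO.simple
  have hF := hO.fan
  have hm := h1.1.1
  have hnb := h1.not_base hO
  set a := m.src with ha
  set w := m.tgt with hw
  have haw : a ≠ w := src_ne_tgt m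
  set l := D.k w a with hl
  have hl0 : D.k a w = l := D.k_symm _ _
  have hlpos : l ≠ 0 := by
    intro h0
    apply h1.1.not_last
    rw [Last, hm, ← ha, ← hw, hl0, h0]
  -- darts towards `a`
  have hu : ∀ i, 1 ≤ i → i ≤ l → ∃ u : D.DD, u.src = w ∧ u.tgt = a ∧ u.idx = i :=
    fun i _ h => ⟨⟨w, a, i, m.adj.symm, h⟩, rfl, rfl, rfl⟩
  have hbase : ∀ u : D.DD, u.src = w → u.tgt = a → ¬ Base u := fun u h3 h4 h5 =>
    hnb ((Base.congr (Or.inr ⟨h3, h4⟩)).1 h5)
  have hfirst : ∀ u : D.DD, u.src = w → u.tgt = a → u.idx = l → Apex a (D.σ u) := by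
    intro u h3 h4 h5
    have h6 : u = rv m := by
      refine eq_of_idx h3 h4 ?_
      rw [rv_idx, ← ha, ← hw, hl0, hm, h5]; omega
    rw [h6]
    exact h1.rv_apex hO
  have hlast : ∀ u : D.DD, u.src = w → u.tgt = a → u.idx = 1 → Apex w (D.σ u) ∧ D.k w b = 0 := by
    intro u h3 h4 h5
    have h0 : u.idx ≠ 0 := by omega
    have h6 : op u = rv (oe m) := by
      refine eq_of_idx ?_ ?_ ?_
      · rw [op_src h0, h4]; rfl
      · rw [op_tgt h0, h3]; rfl
      · rw [op_idx h0, rv_idx, h3, h4, h5, oe_src, oe_tgt, oe_idx, ← ha, ← hw]; omega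
    have h7 := h2.rv_apex hO
    rw [← h6, σ_op, Apex.congr (sameEdge_op _)] at h7
    refine ⟨h7, ?_⟩
    have h8 : On b (D.φ (oe m)) := by
      rw [φ_apply, ← h6, inv_eq_σ_op (op_idx_ne h0), op_op]
      right
      exact (hb u h0 h3 h4).symm
    exact h2.1.ends hO h8
  -- find the place where the apex changes
  have hex : ∃ i, 1 ≤ i ∧ i < l ∧ (∀ u : D.DD, u.src = w → u.tgt = a → u.idx = i → Apex w (D.σ u)) ∧
      (∀ u : D.DD, u.src = w → u.tgt = a → u.idx = i + 1 → Apex a (D.σ u)) := by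
    by_contra hc
    push Not at hc
    have key : ∀ i, 1 ≤ i → i ≤ l → ∀ u : D.DD, u.src = w → u.tgt = a → u.idx = i → Apex w (D.σ u) := by
      intro i hi
      induction i, hi using Nat.le_induction with
      | base => intro _ u h3 h4 h5; exact (hlast u h3 h4 h5).1
      | succ n hn ih =>
        intro hnl u h3 h4 h5
        obtain ⟨u', h3', h4', h5', h6'⟩ := hc n hn (by omega) (ih (by omega))
        have h7 : u' = u := eq_of_idx (h3'.trans h3.symm) (h4'.trans h4.symm) (h5'.trans h5.symm)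
        rw [h7] at h6'
        rcases hO.dir (x := u) (by omega) (hbase u h3 h4) with h8 | h8
        · rw [h4] at h8; exact (h6' h8).elim
        · rw [h3] at h8; exact h8
    obtain ⟨u, h3, h4, h5⟩ := hu l (by omega) le_rfl
    exact haw (Apex.unique hS (hfirst u h3 h4 h5) (key l (by omega) le_rfl u h3 h4 h5))
  obtain ⟨i, hi1, hil, hiw, hia⟩ := hex
  obtain ⟨y, y1, y2, y3⟩ := hu i hi1 hil.le
  have hy0 : y.idx ≠ 0 := by omega
  have hyl : ¬ Last y := by rw [Last, y1, y2, y3]; omega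
  have hyw := hiw y y1 y2 y3
  have hnx : Apex a (D.σ (nx y hyl)) := hia _ y1 y2 (by rw [nx_idx, y3])
  have hby := hbase y y1 y2
  -- apex of the edge itself
  have hk2 : 2 ≤ D.k y.src y.tgt := by rw [y1, y2]; omega
  have hdir : ∀ d : D.DD, d.idx ≠ 0 → SameEdge d y → On b (D.σ d) := by
    intro d hd hdy
    rcases hdy with ⟨h3, h4⟩ | ⟨h3, h4⟩
    · right; exact (hb d hd (h3.trans y1) (h4.trans y2)).symm
    · have h5 := hb (op d) (op_idx_ne hd) (by rw [op_src hd, h4, y1]) (by rw [op_tgt hd, h3, y2])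
      rw [σ_op] at h5
      exact (sameEdge_op _).on.1 (Or.inr h5.symm)
  have hapb : Apex b y := ⟨hk2, hdir⟩
  -- the corner at `nx y`
  have hc1 : Cw (nx y hyl) := by
    refine hO.corner (by simp) ?_ ?_ ?_
    · intro z hz hse
      exact hby ((Base.congr (hse.trans (sameEdge_nx y hyl))).1 (hz.base hO))
    · rw [nx_tgt, y2]; exact hnx
    · rw [hb (nx y hyl) (by simp) (by rw [nx_src, y1]) (by rw [nx_tgt, y2]),
        Apex.congr (sameEdge_nx y hyl)]
      exact hapb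
  obtain ⟨c1, c2, c3⟩ := hc1.side
  rw [← φ_eq_σ_nx hyl] at c1 c2 c3
  rw [nx_tgt, y2] at c3
  -- the mirror corner at `op y`
  have e1 : D.σ⁻¹ (op y) = D.σ y := by rw [inv_eq_σ_op (op_idx_ne hy0), op_op]
  have hc2 : Cw' (op y) := by
    refine hO.corner' (op_idx_ne hy0) ?_ ?_ ?_
    · intro z hz hse
      exact hby ((Base.congr (hse.trans (sameEdge_op y))).1 (Lt'.base hO hz))
    · rw [e1, op_tgt hy0, y1]
      exact hyw
    · rw [e1, Apex.congr (sameEdge_op y), hb y hy0 y1 y2]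
      exact hapb
  obtain ⟨d1', d2', d3'⟩ := hc2.side
  rw [e1] at d1' d2' d3'
  rw [op_tgt hy0, y1] at d3'
  -- the cell
  have hφy : (D.φ y).idx ≠ 0 := by rw [Ne, φ_idx_zero]; exact hyl
  rcases hO.tight.cell y with ⟨_, hs, _⟩ | ⟨h4, _⟩ | ⟨h5, n0, n1, n2, n3, n4⟩
  · rw [rc_neg hy0, rc_neg hφy, rc_neg c2] at hs; omega
  · -- quadrilateral
    have g1 : D.σ y = rv (D.φ (D.φ (D.φ y))) := σ_eq_of_φ h4
    have g2 : D.σ (rv (D.σ y)) = rv (D.φ (D.φ y)) := by rw [g1, rv_rv, σφ]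
    rw [g2, rv_src] at d3'
    -- `φ φ y` lies on the edge `a w` and starts at a crossing with the edge of `φ y`
    have g3 : SameEdge (D.σ (op (D.φ (D.φ y)))) (D.σ (nx y hyl)) := by
      rw [σ_op, σφ, ← φ_eq_σ_nx]
      exact (sameEdge_op _).trans (sameEdge_rv _)
    have g4 : op (D.φ (D.φ y)) = nx y hyl := by
      refine hS.once' (op_idx_ne c2) (by simp) ?_ ?_ g3
      · rw [op_src c2, d3', nx_src, y1]
      · rw [op_tgt c2, c3, nx_tgt, y2]
    have g5 : D.φ (D.φ y) = rv y := by rw [← op_nx hyl, ← g4, op_op]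
    have g6 : D.σ (rv y) = rv (D.φ y) := by rw [← g5, σφ]
    have g7 : D.φ y = op (rv (D.φ y)) := by
      have h0 : (rv y).idx ≠ 0 := fun h => hyl (rv_idx_zero.1 h)
      conv_lhs => rw [φ_apply, inv_eq_op_σ h0, g6]
    have h00 : ¬ Last (D.φ y) := by rw [← φ_idx_zero]; exact c2
    rw [op_rv h00] at g7
    exact nx_ne _ h00 g7.symm
  · -- pentagon
    have g1 : D.σ y = rv (D.φ (D.φ (D.φ (D.φ y)))) := σ_eq_of_φ h5
    have g2 : D.σ (rv (D.σ y)) = rv (D.φ (D.φ (D.φ y))) := by rw [g1, rv_rv, σφ]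
    rw [g2, rv_src] at d3'
    have hx1 : ¬ Last (D.φ (D.φ y)) := by rw [← φ_idx_zero]; exact n3
    have hp := hF.pair (d := D.φ (D.φ y)) (e := nx (D.φ (D.φ y)) hx1) n2 (by simp) rfl rfl
    rw [← φ_eq_σ_nx hx1, σφ, rv_tgt, rv_src, d3'] at hp
    rcases hp with hp | hp
    · rw [φ_eq_σ_nx hyl] at hp
      have := (hS.disjoint (nx y hyl) (by simp)).1
      rw [hp, nx_src, y1] at this
      exact this rfl
    · have h6 : (D.φ y).tgt = b := by
        rw [φ_eq_σ_nx hyl]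
        exact hb _ (by simp) y1 y2
      rw [h6] at hp
      obtain ⟨u, h7, h8, h9⟩ := hu 1 le_rfl (by omega)
      have h10 := (hlast u h7 h8 h9).2
      have h11 := (D.φ (D.φ (D.φ y))).le
      rw [← hp, d3', D.k_symm b w, h10] at h11
      omega

/-- Lemma B -/
theorem Mid.lemB [Finite V] (hO : D.Opt) {m : D.DD} (h1 : Mid m) (h2 : Mid (oe m)) : False := by
  obtain ⟨b, hb | hb⟩ := hO.fan m.tgt m.src m.adj.symm
  · exact lemB_aux hO h1 h2 (b := b) hb
  · refine @lemB_aux V G D.mirror _ hO.mirror m (mid_mirror.2 h1) (mid_mirror.2 h2) b ?_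
    intro d hd h3 h4
    have h5 : D.mirror.σ d = op (D.σ d) := inv_eq_op_σ (D := D) hd
    have h6 : (op (D.σ d)).tgt = (D.σ d).src := op_tgt (σ_idx_ne (D := D) hd)
    rw [h5]
    exact h6.trans (hb d hd h3 h4)

end Drawing

end Pool.Agent.FP
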