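import Pool.Agent.Lib.MP_2e2457_lc.Angle

/-!
# Base edges and middle edges (MP_2e2457_lc)
-/

set_option autoImplicit false

open Equiv

noncomputable section

namespace Pool.Agent.FP

variable {V : Type}

namespace Drawing

variable {G : SimpleGraph V} {D : Drawing G}

/-- middle edge, seen from its end in the angle -/
def Mid (m : D.DD) : Prop := T1 m ∧ T1 (D.σ⁻¹ m)

theorem mid_mirror {m : D.DD} : Mid (D := D.mirror) m ↔ Mid (D := D) m := by
  have h1 : Mid (D := D.mirror) m ↔ T1 (D := D.mirror) m ∧ T1 (D := D.mirror) (D.σ m) := Iff.rfl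
  rw [h1, t1_mirror, t1_mirror, inv_σ]
  exact and_comm

/-- base edges -/
def Base (d : D.DD) : Prop := ∃ h, TA h ∧ SameEdge (D.φ h) d

theorem Base.congr {d e : D.DD} (h : SameEdge d e) : Base d ↔ Base e :=
  ⟨fun ⟨h1, h2, h3⟩ => ⟨h1, h2, h3.trans h⟩, fun ⟨h1, h2, h3⟩ => ⟨h1, h2, h3.trans h.symm⟩⟩

theorem T1.base [Finite V] (hO : D.Opt) {r : D.DD} (h : T1 r) : Base (D.φ r) := by
  obtain ⟨h0, j, hA, h1, h2, rfl⟩ := h.angle hO
  obtain ⟨e1, e2, _⟩ := hA.e hO (j := j) (by omega)
  exact ⟨h0, hA, Or.inl ⟨e1.symm, e2.symm⟩⟩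

theorem Lt.base [Finite V] (hO : D.Opt) {x : D.DD} (h : Lt x) : Base (D.σ x) := by
  have h1 := h.t1.base hO
  rw [σ_eq_of_φ h.2.1]
  exact (Base.congr (sameEdge_rv _)).2 h1

/-- mirror form of `Lt` -/
def Lt' (x : D.DD) : Prop := Lt (D := D.mirror) x

theorem Lt'.base [Finite V] (hO : D.Opt) {x : D.DD} (h : Lt' x) : Base (D.σ⁻¹ x) := by
  have h1 : T1 (Drawing.rv x) := Lt'.t1 h
  have h2 := h1.base hO
  rw [φ_rv] at h2
  exact h2

theorem Base.real [Finite V] (hO : D.Opt) {m : D.DD} (h : Base m) (hm : m.idx = 0) :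
    ∃ h, TA h ∧ (m = D.φ h ∨ m = D.σ (rv (hr h))) := by
  obtain ⟨h0, hA, hse⟩ := h
  refine ⟨h0, hA, ?_⟩
  rcases hse with ⟨h1, h2⟩ | ⟨h1, h2⟩
  · left
    refine eq_of_idx h1.symm h2.symm ?_
    rw [hm, φ_idx_zero.2 hA.1.2]
  · right
    have h3 := hA.1.rt_ge hO
    obtain ⟨e1, e2, e3⟩ := hA.e hO (j := rt h0 - 1) (by omega)
    have e4 := hA.φ3 hO (j := rt h0 - 1) (by omega)
    rw [show rt h0 - 1 + 1 = rt h0 by omega] at e4
    have e5 : D.σ (rv (hr h0)) = rv (D.φ (f h0 (rt h0 - 1))) := σ_eq_of_φ e4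
    have e6 := hA.k hO
    rw [e5]
    refine eq_of_idx ?_ ?_ ?_
    · rw [rv_src, e2, h2]
    · rw [rv_tgt, e1, h1]
    · rw [rv_idx, e1, e2, e3, hm]; omega

theorem Base.real' [Finite V] (hO : D.Opt) {m : D.DD} (h : Base m) (hm : m.idx = 0) :
    Unc (D.σ m) ∨ Unc (D.σ⁻¹ m) := by
  obtain ⟨h0, hA, h1 | h1⟩ := h.real hO hm
  · left; rw [h1, σφ]; exact hA.1.rv
  · right; rw [h1, inv_σ]; exact hA.1.hr.rv

theorem Mid.not_base [Finite V] (hO : D.Opt) {m : D.DD} (h : Mid m) : ¬ Base m := by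
  intro hb
  rcases hb.real' hO h.1.1 with h1 | h1
  · exact h.1.σ_not_last h1.2
  · exact h.2.not_last h1.2

/-- the real dart at the other end of the edge -/
def oe (d : D.DD) : D.DD := ⟨d.tgt, d.src, 0, d.adj.symm, Nat.zero_le _⟩

@[simp] theorem oe_src (d : D.DD) : (oe d).src = d.tgt := rfl
@[simp] theorem oe_tgt (d : D.DD) : (oe d).tgt = d.src := rfl
@[simp] theorem oe_idx (d : D.DD) : (oe d).idx = 0 := rfl

theorem oe_oe {d : D.DD} (h : d.idx = 0) : oe (oe d) = d := eq_of_idx rfl rfl h.symm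

theorem sameEdge_oe (d : D.DD) : SameEdge (oe d) d := Or.inr ⟨rfl, rfl⟩

/-- At every crossing of a non-base edge the crossing edge has its apex on this edge. -/
theorem Opt.dir [Finite V] (hO : D.Opt) {x : D.DD} (hx : x.idx ≠ 0) (hb : ¬ Base x) :
    Apex x.tgt (D.σ x) ∨ Apex x.src (D.σ x) := by
  have hS := hO.simple
  have hF := hO.fan
  rcases hO.tight.node x hx with h | h | h | h
  · exact Or.inl (h.prop hS hF).1
  · rcases h with h | h
    · have := h.base hO
      rw [σσ hx, Base.congr (sameEdge_op _)] at this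
      exact (hb this).elim
    · have := (h.prop hS hF).2.2.2
      rw [σσ hx, op_tgt hx] at this
      exact Or.inr this
  · have := (h.prop hS hF).1
    rw [σσ hx, op_tgt hx, σ_op, Apex.congr (sameEdge_op _)] at this
    exact Or.inr this
  · rcases h with h | h
    · have := h.base hO
      rw [σ4 hx] at this
      exact (hb this).elim
    · have := (h.prop hS hF).2.2.2
      rw [σ4 hx, σσ (σ_idx_ne hx), Apex.congr (sameEdge_op _)] at this
      exact Or.inl this

/-- The apexes point in the same direction along a non-base edge. -/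
theorem Opt.step [Finite V] (hO : D.Opt) {x : D.DD} (hx : x.idx ≠ 0) (hb : ¬ Base x)
    (ha : Apex x.tgt (D.σ x)) (hl : ¬ Last x) : Apex x.tgt (D.σ (nx x hl)) := by
  have hS := hO.simple
  have hF := hO.fan
  rcases hO.tight.node x hx with h | h | h | h
  · rcases h with h | h
    · exact (hl h.1).elim
    · obtain ⟨_, h1, h2, h3, h4, h5, h6⟩ := h
      rw [← φ_eq_σ_nx hl]
      refine apex_cons hS hF h1 (by rw [← φ_idx_zero]; exact h2) ?_ ?_
      · rw [σφ]; left; rfl
      · rw [h6]; left; rfl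
  · exfalso
    rcases h with h | h
    · have := h.base hO
      rw [σσ hx, Base.congr (sameEdge_op _)] at this
      exact hb this
    · have := (h.prop hS hF).2.2.2
      rw [σσ hx, op_tgt hx] at this
      exact src_ne_tgt x (Apex.unique hS this ha)
  · exfalso
    have := (h.prop hS hF).1
    rw [σσ hx, op_tgt hx, σ_op, Apex.congr (sameEdge_op _)] at this
    exact src_ne_tgt x (Apex.unique hS this ha)
  · rcases h with h | h
    · have := h.base hO
      rw [σ4 hx] at this
      exact (hb this).elim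
    · set y := D.σ (D.σ (D.σ x)) with hy
      have hyx : D.σ y = x := σ4 hx
      obtain ⟨_, h1, h2, h3, h4, h5, h6⟩ := h
      have h7 : x = rv (D.φ (D.φ (D.φ y))) := by rw [← hyx]; exact σ_eq_of_φ h4
      have h8 : x.tgt = (D.φ (D.φ (D.φ y))).src := by
        rw [h7, rv_tgt]
      have h9 : Apex x.tgt (D.φ (D.φ y)) := by
        refine apex_cons hS hF h2 (by rw [← φ_idx_zero]; exact h3) ?_ ?_
        · rw [σφ, h8, ← h5]; left; rfl
        · rw [h8]; left; rfl
      have h10 : D.σ (nx x hl) = op (rv (D.φ (D.φ y))) := by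
        have : nx x hl = op (D.φ (D.φ (D.φ y))) := by
          rw [← op_rv hl]
          congr 1
          rw [h7, rv_rv]
        rw [this, σ_op, σφ]
      rw [h10, Apex.congr (sameEdge_op _), Apex.congr (sameEdge_rv _)]
      exact h9

/-- the last crossing -/
theorem Opt.last [Finite V] (hO : D.Opt) {z : D.DD} (hz : z.idx ≠ 0) (hb : ¬ Base z)
    (ha : Apex z.tgt (D.σ z)) (hl : Last z) : Lt z := by
  have hS := hO.simple
  have hF := hO.fan
  rcases hO.tight.node z hz with h | h | h | h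
  · rcases h with h | h
    · exact h
    · exact ((h.prop hS hF).2.2.1 hl).elim
  · exfalso
    rcases h with h | h
    · have := h.base hO
      rw [σσ hz, Base.congr (sameEdge_op _)] at this
      exact hb this
    · have := (h.prop hS hF).2.2.2
      rw [σσ hz, op_tgt hz] at this
      exact src_ne_tgt z (Apex.unique hS this ha)
  · exfalso
    have := (h.prop hS hF).1
    rw [σσ hz, op_tgt hz, σ_op, Apex.congr (sameEdge_op _)] at this
    exact src_ne_tgt z (Apex.unique hS this ha)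
  · exfalso
    have := (h.prop hS hF).2.1
    rw [σ4 hz] at this
    exact this hl

/-- `Base` is invariant under reflection -/
theorem base_mirror [Finite V] (hO : D.Opt) {d : D.DD} (h : Base (D := D) d) : Base (D := D.mirror) d := by
  obtain ⟨h0, hA, hse⟩ := h
  have h1 : TA' (D := D) (hr (D := D) h0) := hA.hr hO
  refine ⟨hr (D := D) h0, h1, ?_⟩
  -- the base edge of the mirror angle
  have h3 := hA.1.rt_ge hO
  obtain ⟨e1, e2, e3⟩ := hA.e hO (j := rt h0 - 1) (by omega)
  have e4 := hA.φ3 hO (j := rt h0 - 1) (by omega)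
  rw [show rt h0 - 1 + 1 = rt h0 by omega] at e4
  have e5 : D.σ (rv (hr h0)) = rv (D.φ (f h0 (rt h0 - 1))) := σ_eq_of_φ e4
  have e6 : @φ V G D.mirror (hr (D := D) h0) = D.σ (rv (hr (D := D) h0)) := rfl
  rw [e6, e5]
  have h7 : SameEdge (D := D) (rv (D.φ (f h0 (rt h0 - 1)))) (D.φ h0) :=
    (sameEdge_rv _).trans (Or.inl ⟨e1, e2⟩)
  exact h7.trans hse

theorem base_of_mirror [Finite V] (hO : D.Opt) {d : D.DD} (h : Base (D := D.mirror) d) : Base (D := D) d :=
  base_mirror (D := D.mirror) hO.mirror h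

theorem Opt.last' [Finite V] (hO : D.Opt) {z : D.DD} (hz : z.idx ≠ 0) (hb : ¬ Base z)
    (ha : Apex z.tgt (D.σ z)) (hl : Last z) : Mid (rv z) := by
  have h1 : Lt z := hO.last hz hb ha hl
  have h2 : Lt' z := by
    refine @Opt.last V G D.mirror _ hO.mirror z hz (fun h => hb (base_of_mirror hO h)) ?_ hl
    have h3 : D.mirror.σ z = op (D.σ z) := inv_eq_op_σ (D := D) hz
    rw [h3]
    exact apex_mirror.2 ((Apex.congr (sameEdge_op _)).2 ha)
  refine ⟨Lt'.t1 h2, ?_⟩
  have := h1.t1
  rwa [φ_apply] at this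

/-- walking along the edge -/
theorem Opt.walk [Finite V] (hO : D.Opt) : ∀ (n : ℕ) {x : D.DD}, x.idx + n = D.k x.src x.tgt → x.idx ≠ 0 →
    ¬ Base x → Apex x.tgt (D.σ x) → Mid (oe x) := by
  intro n
  induction n with
  | zero =>
    intro x h1 hx hb ha
    have hl : Last x := by unfold Last; omega
    have h2 := hO.last' hx hb ha hl
    have h3 : rv x = oe x := eq_of_idx rfl rfl (rv_idx_zero.2 hl)
    rwa [h3] at h2
  | succ n ih =>
    intro x h1 hx hb ha
    have hl : ¬ Last x := by unfold Last; omega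
    have h2 := ih (x := nx x hl) (by rw [nx_idx, nx_src, nx_tgt]; omega) (by simp)
      (fun h => hb ((Base.congr (sameEdge_nx x hl)).1 h)) (hO.step hx hb ha hl)
    exact h2

/-- Lemma E: every crossed edge is a base edge or a middle edge. -/
theorem Opt.lemE [Finite V] (hO : D.Opt) {m : D.DD} (hm : m.idx = 0) (hl : ¬ Last m) (hb : ¬ Base m) :
    Mid m ∨ Mid (oe m) := by
  set x := nx m hl with hx
  have hx0 : x.idx ≠ 0 := by rw [hx]; simp
  have hbx : ¬ Base x := fun h => hb ((Base.congr (sameEdge_nx m hl)).1 h)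
  rcases hO.dir hx0 hbx with h | h
  · right
    exact hO.walk (D.k x.src x.tgt - x.idx) (x := x) (by have := x.le; omega) hx0 hbx h
  · left
    have h1 : Mid (oe (op x)) := by
      refine hO.walk (D.k (op x).src (op x).tgt - (op x).idx) (x := op x) (by have := (op x).le; omega)
        (op_idx_ne hx0) (fun h => hbx ((Base.congr (sameEdge_op x)).1 h)) ?_
      rw [op_tgt hx0, σ_op, Apex.congr (sameEdge_op _)]
      exact h
    have h2 : oe (op x) = m := by
      refine eq_of_idx ?_ ?_ hm.symm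
      · rw [oe_src, op_tgt hx0]; rfl
      · rw [oe_tgt, op_src hx0]; rfl
    rwa [h2] at h1

end Drawing

end Pool.Agent.FP
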