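import Pool.Agent.Lib.MP_2e2457_lc.Tight

/-!
# The mirror image of a drawing (MP_2e2457_lc)
-/

set_option autoImplicit false

open Equiv

noncomputable section

namespace Pool.Agent.FP

theorem setoid_inv {α : Type} (σ : Perm α) : Perm.SameCycle.setoid σ⁻¹ = Perm.SameCycle.setoid σ := by
  ext x y
  exact Perm.sameCycle_inv

theorem orbits_inv {α : Type} (σ : Perm α) : orbits σ⁻¹ = orbits σ := by
  unfold orbits; rw [setoid_inv]

theorem orbits_conj {α : Type} (σ τ : Perm α) : orbits (τ * σ * τ⁻¹) = orbits σ := by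
  unfold orbits
  refine Nat.card_congr (Quotient.congr τ.symm ?_)
  intro x y
  exact Perm.sameCycle_conj

variable {V : Type}

namespace Drawing

variable {G : SimpleGraph V} {D : Drawing G}

theorem revPerm_inv : (revPerm (G := G) D.k_symm)⁻¹ = revPerm (G := G) D.k_symm := by
  ext1 d
  rfl

/-- the mirror image -/
def mirror (D : Drawing G) : Drawing G where
  k := D.k
  k_symm := D.k_symm
  σ := D.σ⁻¹
  idx_σ := fun _ => inv_idx
  src_σ := fun _ h => inv_src h
  cycle_σ := fun d e h1 h2 h3 => (D.cycle_σ d e h1 h2 h3).inv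
  cross_σ := fun d hd => by
    have h1 : D.σ (D.σ (op d)) = d := by rw [σσ (op_idx_ne hd), op_op]
    have h2 : D.σ⁻¹ (D.σ⁻¹ d) = op d := by
      conv_lhs => rw [← h1]
      rw [inv_σ, inv_σ]
    exact h2
  planar := by
    have h1 : (D.σ⁻¹)⁻¹ * revPerm D.k_symm =
        revPerm D.k_symm * (D.σ⁻¹ * revPerm D.k_symm)⁻¹ * (revPerm D.k_symm)⁻¹ := by
      rw [mul_inv_rev, inv_inv, ← mul_assoc, mul_inv_cancel, one_mul, revPerm_inv]
    rw [orbits_inv, h1, orbits_conj, orbits_inv, D.planar]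
    unfold orbits₂
    rw [setoid_inv]

theorem mirror_mirror (D : Drawing G) : D.mirror.mirror = D := rfl

theorem mirror_σ (d : D.DD) : D.mirror.σ d = D.σ⁻¹ d := rfl

theorem mirror_φ (d : D.DD) : D.mirror.φ d = D.σ (rv d) := rfl

theorem Simple.mirror (h : D.Simple) : D.mirror.Simple := by
  constructor
  · intro d hd
    have hd' : (d : D.DD).idx ≠ 0 := hd
    have h1 : D.mirror.σ d = op (D.σ d) := inv_eq_op_σ (D := D) hd
    have h2 := h.disjoint d hd
    have h3 := σ_idx_ne (D := D) hd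
    rw [h1]
    have h4 : (op (D.σ d)).src = (D.σ d).tgt := op_src h3
    have h5 : (op (D.σ d)).tgt = (D.σ d).src := op_tgt h3
    refine ⟨?_, ?_, ?_, ?_⟩
    · rw [h4]; exact h2.2.2.1
    · rw [h4]; exact h2.2.2.2
    · rw [h5]; exact h2.1
    · rw [h5]; exact h2.2.1
  · intro d e hd he h1 h2 h3
    refine h.once d e hd he h1 h2 ?_
    have h4 : D.mirror.σ d = op (D.σ d) := inv_eq_op_σ (D := D) hd
    have h5 : D.mirror.σ e = op (D.σ e) := inv_eq_op_σ (D := D) he
    rw [h4, h5] at h3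
    have h6 : SameEdge (D := D) (op (D.σ d)) (op (D.σ e)) := s_eq_iff.1 h3
    exact s_eq_iff.2 ((sameEdge_op _).symm.trans (h6.trans (sameEdge_op _)))

theorem FanPlanar.mirror (h : D.FanPlanar) : D.mirror.FanPlanar := by
  intro u v huv
  obtain ⟨a, h1 | h1⟩ := h u v huv
  · refine ⟨a, Or.inr fun d hd h2 h3 => ?_⟩
    have h4 : D.mirror.σ d = op (D.σ d) := inv_eq_op_σ (D := D) hd
    have h5 : (op (D.σ d)).src = (D.σ d).tgt := op_src (σ_idx_ne (D := D) hd)
    rw [h4]
    exact h5.trans (h1 d hd h2 h3)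
  · refine ⟨a, Or.inl fun d hd h2 h3 => ?_⟩
    have h4 : D.mirror.σ d = op (D.σ d) := inv_eq_op_σ (D := D) hd
    have h5 : (op (D.σ d)).tgt = (D.σ d).src := op_tgt (σ_idx_ne (D := D) hd)
    rw [h4]
    exact h5.trans (h1 d hd h2 h3)

/-- optimal drawing -/
structure Opt (D : Drawing G) : Prop where
  simple : D.Simple
  fan : D.FanPlanar
  tight : D.Tight
  tight' : D.mirror.Tight

theorem Opt.mirror (h : D.Opt) : D.mirror.Opt :=
  ⟨h.simple.mirror, h.fan.mirror, h.tight', by rw [mirror_mirror]; exact h.tight⟩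

theorem opt_of_optimal [Finite V] (hS : D.Simple) (hF : D.FanPlanar) (hn : 3 ≤ Nat.card V)
    (hm : Nat.card G.edgeSet + 10 = 5 * Nat.card V) : Opt D :=
  ⟨hS, hF, tight_of_optimal hS hF hn hm, tight_of_optimal hS.mirror hF.mirror hn hm⟩

theorem sameEdge_mirror {d e : D.DD} : SameEdge (D := D.mirror) d e ↔ SameEdge (D := D) d e := Iff.rfl

theorem on_mirror {a : V} {d : D.DD} : On (D := D.mirror) a d ↔ On (D := D) a d := Iff.rfl

theorem last_mirror {d : D.DD} : Last (D := D.mirror) d ↔ Last (D := D) d := Iff.rfl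

theorem apex_mirror {a : V} {d : D.DD} : Apex (D := D.mirror) a d ↔ Apex (D := D) a d := by
  unfold Apex
  refine and_congr Iff.rfl (forall_congr' fun e => ?_)
  refine forall_congr' fun he => ?_
  refine forall_congr' fun _ => ?_
  have h4 : D.mirror.σ e = op (D.σ e) := inv_eq_op_σ (D := D) he
  rw [h4]
  exact (sameEdge_op (D := D) _).on

/-- 1-triangles of the mirror image -/
theorem t1_mirror {r : D.DD} : T1 (D := D.mirror) r ↔ T1 (D := D) (D.σ⁻¹ r) := by
  have e1 : T1 (D := D.mirror) r ↔ (r.idx = 0 ∧ D.σ (rv (D.σ (rv (D.σ (rv r))))) = r ∧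
    (D.σ (rv r)).idx ≠ 0 ∧ (D.σ (rv (D.σ (rv r)))).idx ≠ 0) := Iff.rfl
  rw [e1]
  clear e1
  unfold T1
  rw [inv_idx]
  set x := D.σ⁻¹ r with hx
  have hr : r = D.σ x := by rw [hx, σ_inv]
  constructor
  · rintro ⟨h0, h1, h2, h3⟩
    set y := rv (D.σ (rv r)) with hy
    have hy' : D.σ (rv r) = rv y := by rw [hy, rv_rv]
    rw [hy'] at h2
    have hxy : rv (D.σ y) = x := D.σ.injective (by rw [h1, hr])
    have h4 : D.φ x = y := by rw [φ_eq_iff, ← hxy, rv_rv]
    have h5 : D.φ y = rv r := by rw [φ_eq_iff, hy']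
    refine ⟨h0, ?_, ?_, ?_⟩
    · rw [h4, h5, φ_rv]
    · rw [h4]
      intro h6
      apply h3
      rw [σ_eq_of_φ h4, rv_idx_zero, ← φ_idx_zero, h4]; exact h6
    · rw [h4, h5]
      intro h6
      apply h2
      rw [rv_idx_zero, ← φ_idx_zero, h5]; exact h6
  · rintro ⟨h0, h1, h2, h3⟩
    set y := D.φ x with hy
    have h5 : D.σ x = rv (D.φ y) := σ_eq_of_φ h1
    have h6 : D.φ y = rv r := by rw [hr, h5, rv_rv]
    have h7 : D.σ (rv r) = rv y := σ_eq_of_φ h6
    have h8 : D.σ y = rv x := σ_eq_of_φ hy.symm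
    rw [h7, rv_rv, h8, rv_rv]
    refine ⟨h0, hr.symm, ?_, ?_⟩
    · rw [Ne, rv_idx_zero, ← φ_idx_zero]; exact h3
    · rw [Ne, rv_idx_zero, ← φ_idx_zero]; exact h2

end Drawing

end Pool.Agent.FP
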