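import Pool.Agent.Lib.MP_2e2457_lc.Center

/-!
# Pentagons (MP_2e2457_lc)
-/

set_option autoImplicit false

open Equiv

noncomputable section

namespace Pool.Agent.FP

variable {V : Type}

namespace Drawing

variable {G : SimpleGraph V} {D : Drawing G}

/-- the last edge of the fan -/
theorem φ_B [Finite V] {h : D.DD} (h2 : 2 ≤ rt h) : D.φ (B h) = fp h (rt h - 2) := by
  rw [B, φ_rv, fp, hr, show rt h = (rt h - 2 + 1) + 1 by omega, f_succ, inv_σ]
  rfl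

theorem gq_B [Finite V] {h : D.DD} {q : ℕ} (hq : q + 1 ≤ rt h) : gq (B h) q = f h (rt h - (q + 1)) := by
  rw [gq, B, rv_rv, hr, f'_f hq]

theorem rt'_rv_B [Finite V] {h : D.DD} (hh : Unc h) : rt' (rv (B h)) = rt h := by
  rw [B, rv_rv, rt'_hr hh]

theorem TA.oe_φ [Finite V] (hO : D.Opt) {h : D.DD} (hA : TA h) : oe (D.φ h) = D.σ (rv (Drawing.hr h)) := by
  have h3 := hA.1.rt_ge hO
  obtain ⟨e1, e2, e3⟩ := hA.e hO (j := rt h - 1) (by omega)
  have e4 := hA.φ3 hO (j := rt h - 1) (by omega)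
  rw [show rt h - 1 + 1 = rt h by omega] at e4
  have e5 : D.σ (rv (Drawing.hr h)) = rv (D.φ (f h (rt h - 1))) := σ_eq_of_φ e4
  have e6 := hA.k hO
  rw [e5]
  refine eq_of_idx ?_ ?_ ?_
  · rw [rv_src, e2]; rfl
  · rw [rv_tgt, e1]; rfl
  · rw [rv_idx, e1, e2, e3, oe_idx]; omega

theorem TA.grid' [Finite V] (hO : D.Opt) {h : D.DD} (hA : TA h) {q : ℕ} (hq : q + 2 < rt' (rv h))
    (hap : Apex h.src (gq h q)) {p : ℕ} (hp : p + 1 ≤ D.k (gq h q).src (gq h q).tgt) : X h p q :=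
  X_mirror.1 (@TA.grid V G D.mirror _ hO.mirror (rv h) (hA.mir hO) q hq (apex_mirror.2 hap) p hp)

theorem TA.base_last [Finite V] (hO : D.Opt) {h : D.DD} (hA : TA h) : Base (fp h (rt h - 2)) := by
  have := hA.1.rt_ge hO
  refine ⟨Drawing.B h, hA.B hO, ?_⟩
  rw [φ_B (by omega)]
  exact SameEdge.refl _

theorem TA.base_last' [Finite V] (hO : D.Opt) {h : D.DD} (hA : TA h) : Base (gq h (rt' (rv h) - 2)) :=
  base_of_mirror hO (@TA.base_last V G D.mirror _ hO.mirror (rv h) (hA.mir hO))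

theorem Pent.mir [Finite V] (hO : D.Opt) {h : D.DD} (hA : TA h) (hP : Pent h) : @Pent V G D.mirror (rv h) := by
  have hge := hA.1.rt_ge hO
  obtain ⟨c, hc, h5, n0, n1, n2, n3, n4⟩ := hP
  obtain ⟨_, _, u0, hu0, hv0⟩ := hA.x0 hO (p := 0) (by omega)
  have := hc.eq hu0
  subst this
  have f1 : D.σ c = rv (D.φ (D.φ (D.φ (D.φ c)))) := σ_eq_of_φ h5
  have key : D.σ (rv (D.σ (rv (D.σ (rv (D.σ (rv (D.σ (rv (D.σ c)))))))))) = D.σ c ∧
      (D.σ c).idx ≠ 0 ∧ (D.σ (rv (D.σ c))).idx ≠ 0 ∧ (D.σ (rv (D.σ (rv (D.σ c))))).idx ≠ 0 ∧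
      (D.σ (rv (D.σ (rv (D.σ (rv (D.σ c))))))).idx ≠ 0 ∧
      (D.σ (rv (D.σ (rv (D.σ (rv (D.σ (rv (D.σ c))))))))).idx ≠ 0 := by
    have g1 : D.σ (rv (D.σ c)) = rv (D.φ (D.φ (D.φ c))) := by rw [f1, rv_rv, σφ]
    have g2 : D.σ (rv (D.σ (rv (D.σ c)))) = rv (D.φ (D.φ c)) := by rw [g1, rv_rv, σφ]
    have g3 : D.σ (rv (D.σ (rv (D.σ (rv (D.σ c)))))) = rv (D.φ c) := by rw [g2, rv_rv, σφ]
    have g4 : D.σ (rv (D.σ (rv (D.σ (rv (D.σ (rv (D.σ c)))))))) = rv c := by rw [g3, rv_rv, σφ]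
    rw [g4, g3, g2, g1, rv_rv]
    refine ⟨rfl, σ_idx_ne n0, ?_, ?_, ?_, ?_⟩
    · rw [Ne, rv_idx_zero, ← φ_idx_zero]; exact n4
    · rw [Ne, rv_idx_zero, ← φ_idx_zero]; exact n3
    · rw [Ne, rv_idx_zero, ← φ_idx_zero]; exact n2
    · rw [Ne, rv_idx_zero, ← φ_idx_zero]; exact n1
  exact ⟨D.σ c, hv0, key⟩

/-- the fifth side of the central cell -/
theorem Pent.side [Finite V] (hO : D.Opt) {h : D.DD} (hA : TA h) {c : D.DD} (hc : Nth (fp h 0) 1 c)
    (h5 : D.φ (D.φ (D.φ (D.φ (D.φ c)))) = c) (n1 : (D.φ c).idx ≠ 0) (n2 : (D.φ (D.φ c)).idx ≠ 0)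
    (n3 : (D.φ (D.φ (D.φ c))).idx ≠ 0) (n4 : (D.φ (D.φ (D.φ (D.φ c)))).idx ≠ 0) :
    Nth (gq h 1) 1 (D.φ c) ∧ SameEdge (D.φ (D.φ c)) (fp (Drawing.B h) 1) ∧
      ∃ x : D.DD, x.idx ≠ 0 ∧ SameEdge x (fp (Drawing.B h) 1) ∧ SameEdge (D.σ x) (fp h 1) := by
  have hge := hA.1.rt_ge hO
  have hge' := hA.rt'_ge hO
  obtain ⟨_, _, u0, hu0, hv0⟩ := hA.x0 hO (p := 0) (by omega)
  obtain ⟨_, _, u3, hu3, hv3⟩ := hA.x0 hO (p := 1) (by omega)
  obtain ⟨_, _, u2, hu2, hv2⟩ := hA.x0' hO (q := 1) (by omega)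
  have := hc.eq hu0
  subst this
  have i3 : u3.idx ≠ 0 := by rw [hu3.2.2]; omega
  have e2 : D.φ c = D.σ u2 := hu0.φ hu2
  have e0 : rv (D.σ c) = D.φ (D.φ (D.φ (D.φ c))) := by rw [σ_eq_of_φ h5, rv_rv]
  have e3 : D.σ (rv (D.σ c)) = u3 := by
    have h5 : op (D.σ u3) = rv (D.σ c) := hv0.op_succ hv3
    rw [← h5, σ_op, σσ i3, op_op]
  have e4 : D.φ (D.φ (D.φ c)) = rv u3 := by
    have h6 : D.φ (rv u3) = rv (D.σ c) := by
      conv_lhs => rw [← e3]
      rw [φ_rv_σ]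
    have h7 : D.φ (rv u3) = D.φ (D.φ (D.φ (D.φ c))) := by rw [h6, e0]
    exact (φ_inj.1 h7).symm
  set t := D.φ (D.φ c) with ht
  have hl3 : ¬ Last u3 := by rw [← rv_idx_zero, ← e4]; exact n3
  have htl : ¬ Last t := by rw [← φ_idx_zero]; exact n3
  -- the second crossing of `fp h 1` is with the edge of `t`
  have e5 : D.σ (nx u3 hl3) = nx t htl := by
    rw [← op_rv hl3, σ_op, ← e4, σφ, op_rv htl]
  have hk2 : 2 ≤ D.k (fp h 1).src (fp h 1).tgt := (hu3.nx hl3).le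
  -- the apex of `fp h 1`
  have hap : Apex (Drawing.hr h).tgt (fp h 1) := by
    rcases Nat.lt_or_ge 3 (rt h) with h6 | h6
    · rcases hA.apex_or hO (p := 1) (by omega) hk2 with h7 | h7
      · exfalso
        obtain ⟨_, _, u, hu, hv⟩ := hA.grid hO 1 (by omega) h7 1 hk2
        have h8 := hu.eq (hu3.nx hl3)
        rw [h8, e5] at hv
        have h9 : Nth (gq h 1) 1 t := ⟨hv.1, hv.2.1, by have := hv.2.2; simp at this; exact this⟩
        have h10 : t = D.φ c := by rw [e2]; exact h9.eq hv2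
        exact φ_ne_self hO.simple _ h10
      · exact h7
    · have h7 := hA.apex_last hO
      have h8 : rt h - 2 = 1 := by omega
      rwa [h8] at h7
  -- the crossing in the previous grid
  have hB := hA.B hO
  have hBB := rt'_rv_B hA.1
  have hgq : gq (Drawing.B h) (rt h - 3) = fp h 1 := by
    rw [gq_B (by omega), fp]
    congr 1; omega
  have hX : X (Drawing.B h) 1 (rt h - 3) := by
    have h6 := hB.rt'_ge hO
    rcases Nat.lt_or_ge 3 (rt h) with h7 | h7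
    · refine hB.grid' hO (q := rt h - 3) ?_ ?_ (p := 1) ?_
      · rw [hBB]; omega
      · have h8 : (Drawing.B h).src = (Drawing.hr h).tgt := rfl
        rw [hgq, h8]; exact hap
      · rw [hgq]; exact hk2
    · have h8 : rt h - 3 = 0 := by omega
      rw [h8]
      refine hB.x0 hO ?_
      have := hB.1.rt_ge hO
      omega
  obtain ⟨_, _, x, hx1, hx2⟩ := hX
  rw [hgq] at hx2
  have e6 : D.σ x = nx u3 hl3 := hx2.eq (hu3.nx hl3)
  have hx0 : x.idx ≠ 0 := by rw [hx1.2.2]; omega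
  have e7 : op x = nx t htl := by rw [← σσ hx0, e6, e5]
  have e8 : SameEdge t (fp (Drawing.B h) 1) := by
    have h6 : SameEdge (nx t htl) t := sameEdge_nx t htl
    rw [← e7] at h6
    exact h6.symm.trans ((sameEdge_op x).trans hx1.sameEdge)
  refine ⟨?_, e8, x, hx0, hx1.sameEdge, ?_⟩
  · rw [e2]; exact hv2
  · rw [e6]; exact (sameEdge_nx _ _).trans hu3.sameEdge

theorem TA.f0_tgt [Finite V] (hO : D.Opt) {h : D.DD} (hA : TA h) : (fp h 0).tgt = (Drawing.F h).tgt := by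
  have h1 := @TA.φ_tgt V G D.mirror _ hO.mirror (rv h) (hA.mir hO)
  have h2 : @Drawing.φ V G D.mirror (rv h) = D.σ (rv (rv h)) := rfl
  rw [rv_rv] at h2
  rw [h2] at h1
  rw [fp_zero]
  exact h1

/-- the two neighbours of the ends of `h` are different -/
theorem TA.ne_tgt [Finite V] (hO : D.Opt) {h : D.DD} (hA : TA h) : (Drawing.hr h).tgt ≠ (Drawing.F h).tgt := by
  intro h1
  have h2 := hA.1.rt_ge hO
  have h3 : fp h 0 = Drawing.hr h := by
    refine eq_of_idx ?_ ?_ ?_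
    · rw [fp_src hA.1.1, Drawing.hr, f_src hA.1.1]
    · rw [hA.f0_tgt hO, h1]
    · rw [fp_real hA.1.1, hA.1.hr.1]
  have h4 : Unc (f h 1) := by
    have : f h 1 = Drawing.hr h := h3
    rw [this]; exact hA.1.hr
  exact not_unc_of_lt (by omega) (by omega) h4

/-- Pentagons: one half -/
theorem Pent.half [Finite V] (hO : D.Opt) {h : D.DD} (hA : TA h) (hP : Pent h) :
    ∃ t : D.DD, SameEdge t (fp (Drawing.B h) 1) ∧ SameEdge t (gq (Drawing.F h) 1) ∧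
      ∃ x : D.DD, x.idx ≠ 0 ∧ SameEdge x (fp (Drawing.B h) 1) ∧ SameEdge (D.σ x) (fp h 1) := by
  obtain ⟨c, hc, h5, n0, n1, n2, n3, n4⟩ := id hP
  obtain ⟨h1, h2, h3⟩ := Pent.side hO hA hc h5 n1 n2 n3 n4
  refine ⟨D.φ (D.φ c), h2, ?_, h3⟩
  obtain ⟨c', hc', h5', n0', n1', n2', n3', n4'⟩ := hP.mir hO hA
  obtain ⟨_, h4, _⟩ := @Pent.side V G D.mirror _ hO.mirror (rv h) (hA.mir hO) c' hc' h5' n1' n2' n3' n4'
  -- identify
  obtain ⟨_, _, u0, hu0, hv0⟩ := hA.x0 hO (p := 0) (by have := hA.1.rt_ge hO; omega)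
  have e1 := hc.eq hu0
  subst e1
  have hc'' : Nth (gq h 0) 1 c' := hc'
  have e2 : c' = D.σ c := hc''.eq hv0
  have e3 : @φ V G D.mirror (@φ V G D.mirror c') = D.σ (rv (D.σ (rv c'))) := rfl
  have e4 : D.σ (rv (D.σ (rv c'))) = rv (D.φ (D.φ c)) := by
    rw [e2, σ_eq_of_φ h5, rv_rv, σφ, rv_rv, σφ]
  have h6 : SameEdge (D := D) (D.σ (rv (D.σ (rv c')))) (gq (Drawing.F h) 1) := by
    have h7 : @fp V G D.mirror (@Drawing.B V G D.mirror (rv h)) 1 = gq (Drawing.F h) 1 := rfl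
    rw [← e3, ← h7]
    exact h4
  rw [e4] at h6
  exact (sameEdge_rv _).symm.trans h6

theorem Pent.t_real [Finite V] (hO : D.Opt) {h : D.DD} (hA : TA h) (hP : Pent h) :
    gq (Drawing.F h) 1 = oe (fp (Drawing.B h) 1) := by
  obtain ⟨t, h1, h2, _⟩ := hP.half hO hA
  have hB := hA.B hO
  have hF := hA.F hO
  have h3 := h1.symm.trans h2
  rcases h3 with ⟨h4, h5⟩ | ⟨h4, h5⟩
  · exfalso
    rw [fp_src hB.1.1, gq_src hF.1] at h4
    exact hA.ne_tgt hO h4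
  · refine eq_of_idx h5.symm h4.symm ?_
    rw [gq_real hF.1]; rfl

theorem Pent.rt_B [Finite V] (hO : D.Opt) {h : D.DD} (hA : TA h) (hP : Pent h) :
    rt (Drawing.B h) = 3 ∧ rt' (rv (Drawing.F h)) = 3 := by
  have hB := hA.B hO
  have hF := hA.F hO
  have h1 := hP.t_real hO hA
  have h2 := hB.1.rt_ge hO
  have h3 := hF.rt'_ge hO
  have a1 : rt (Drawing.B h) = 3 ∨ Mid (fp (Drawing.B h) 1) := by
    rcases Nat.lt_or_ge 3 (rt (Drawing.B h)) with h4 | h4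
    · exact Or.inr (hB.mid_f hO le_rfl (by omega))
    · left; omega
  have a2 : rt' (rv (Drawing.F h)) = 3 ∨ Mid (gq (Drawing.F h) 1) := by
    rcases Nat.lt_or_ge 3 (rt' (rv (Drawing.F h))) with h4 | h4
    · exact Or.inr (hF.mid_g hO le_rfl (by omega))
    · left; omega
  have b1 : rt (Drawing.B h) = 3 → Base (fp (Drawing.B h) 1) := by
    intro h4
    refine ⟨Drawing.B (Drawing.B h), hB.B hO, ?_⟩
    rw [φ_B (by omega), h4]
    exact SameEdge.refl _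
  have b2 : rt' (rv (Drawing.F h)) = 3 → Base (gq (Drawing.F h) 1) := by
    intro h4
    have h5 := hF.base_last' hO
    rwa [h4] at h5
  rcases a1 with a1 | a1 <;> rcases a2 with a2 | a2
  · exact ⟨a1, a2⟩
  · exfalso
    rw [h1] at a2
    exact a2.not_base hO ((Base.congr (sameEdge_oe _)).2 (b1 a1))
  · exfalso
    have h4 := b2 a2
    rw [h1] at h4
    exact a1.not_base hO ((Base.congr (sameEdge_oe _)).1 h4)
  · exfalso
    rw [h1] at a2
    exact a1.lemB hO a2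

theorem Pent.rt [Finite V] (hO : D.Opt) {h : D.DD} (hA : TA h) (hP : Pent h) : Drawing.rt h = 3 := by
  have hB := hA.B hO
  have hBB := hB.B hO
  obtain ⟨t, h1, h2, x, hx0, hx1, hx2⟩ := hP.half hO hA
  obtain ⟨r1, r2⟩ := hP.rt_B hO hA
  have hge := hA.1.rt_ge hO
  have hgeB := hB.1.rt_ge hO
  have hap := hBB.apex hO
  rw [φ_B (by omega), r1] at hap
  have h3 := hap.2 x hx0 hx1
  have h4 : On (Drawing.B (Drawing.B h)).src (fp h 1) := hx2.on.1 h3
  have h5 : (D.φ (Drawing.B h)).src = h.src := by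
    rw [hB.φ_src]
    have : (Drawing.B h).tgt = (Drawing.hr h).src := rfl
    rw [this, Drawing.hr, f_src hA.1.1]
  have h6 : (D.φ (Drawing.B h)).tgt = (Drawing.B (Drawing.B h)).src := by
    rw [hB.φ_tgt hO]; rfl
  have h7 : (fp h 1).tgt = (Drawing.B (Drawing.B h)).src := by
    rcases h4 with h4 | h4
    · exfalso
      rw [fp_src hA.1.1, ← h5, ← h6] at h4
      exact src_ne_tgt _ h4.symm
    · exact h4.symm
  have h8 : fp h 1 = fp h (Drawing.rt h - 2) := by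
    rw [← φ_B (by omega)]
    refine eq_of_idx ?_ ?_ ?_
    · rw [fp_src hA.1.1, h5]
    · rw [h7, h6]
    · rw [fp_real hA.1.1, φ_idx_zero.2 hB.1.2]
  have := fp_inj hA.1 (by omega) (by omega) h8
  omega

theorem Pent.five [Finite V] (hO : D.Opt) {h : D.DD} (hA : TA h) (hP : Pent h) :
    Drawing.F (Drawing.F (Drawing.F (Drawing.F (Drawing.F h)))) = h := by
  have hB := hA.B hO
  have hBB := hB.B hO
  have hF := hA.F hO
  have hFF := hF.F hO
  obtain ⟨r1, r2⟩ := hP.rt_B hO hA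
  have hgeB := hB.1.rt_ge hO
  have e1 : D.φ (Drawing.B (Drawing.B h)) = fp (Drawing.B h) 1 := by
    rw [φ_B (by omega), r1]
  have e2 : gq (Drawing.F h) 1 = D.σ (Drawing.F (Drawing.F h)) := by
    have h1 : Drawing.F (Drawing.F h) = f' (rv (Drawing.F h)) 3 := by
      rw [Drawing.F, hr'_def, r2]
    rw [h1, gq, f'_succ (rv (Drawing.F h)) 2, σ_inv]
  have e3 := hP.t_real hO hA
  rw [e2, ← e1, hBB.oe_φ hO] at e3
  have e4 : Drawing.F (Drawing.F h) = Drawing.B (Drawing.B (Drawing.B h)) := D.σ.injective e3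
  rw [e4, F_B hBB.1, F_B hB.1, F_B hA.1]

theorem Pent.F [Finite V] (hO : D.Opt) {h : D.DD} (hA : TA h) (hP : Pent h) : Pent (Drawing.F h) := by
  obtain ⟨c, hc, h5, n0, n1, n2, n3, n4⟩ := id hP
  obtain ⟨h1, _, _⟩ := Pent.side hO hA hc h5 n1 n2 n3 n4
  have h2 : rt' (rv h) = 3 := @Pent.rt V G D.mirror _ hO.mirror (rv h) (hA.mir hO) (hP.mir hO hA)
  have h3 : fp (Drawing.F h) 0 = gq h 1 := by
    rw [fp_zero, Drawing.F, hr'_def, h2, gq, f'_succ (rv h) 2, σ_inv]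
  refine ⟨D.φ c, by rw [h3]; exact h1, by rw [h5], n1, n2, n3, n4, by rw [h5]; exact n0⟩

end Drawing

end Pool.Agent.FP
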