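import Pool.Agent.Lib.MP_2e2457_lc.PreS

/-!
# The faces (MP_2e2457_lc)
-/

set_option autoImplicit false

open Equiv

noncomputable section

namespace Pool.Agent.FP

variable {V : Type} {G : SimpleGraph V}

namespace Pre

variable {T : Pre G}

theorem PreA_nx [Finite V] {x y : T.P} (h : T.NX x.1 y.1) : (T.sg⁻¹ * T.rvP) x = y := by
  rw [Perm.mul_apply, Perm.inv_eq_iff_eq, sg_apply]
  apply Subtype.ext
  change (T.rv x.1.1, T.K x.1.1 - x.1.2) = (T.sgF y).1
  obtain ⟨h1, _, h | h⟩ := h
  · obtain ⟨h2, h3⟩ := h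
    have h4 := (T.X_ok x.1.1 (x.1.2 + 1) h1.1 (by omega) (by omega)).2.1
    rw [← h3] at h4
    rw [sgF_pos (by omega), h3, T.X_X x.1.1 (x.1.2 + 1) h1.1 (by omega) (by omega)]
    exact Prod.ext rfl (by simp only; omega)
  · obtain ⟨h2, h3, h4⟩ := h
    rw [sgF_zero h3, h4]
    exact Prod.ext rfl (by simp only; omega)

theorem PreA_closed {α : Type} [Finite α] (φ : Perm α) {a : α} (S : α → Prop) (ha : S a) (hS : ∀ x, S x → S (φ x))
    {e : α} (h : φ.SameCycle a e) : S e := by
  obtain ⟨n, _, hn⟩ := h.exists_pow_eq'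
  have key : ∀ n : ℕ, S ((φ ^ n) a) := by
    intro n
    induction n with
    | zero => exact ha
    | succ n ih => rw [pow_succ', Perm.mul_apply]; exact hS _ ih
  rw [← hn]
  exact key n

theorem PreA_three {α : Type} [Finite α] (φ : Perm α) (f : α → ℕ) {a b c : α} (h1 : φ a = b) (h2 : φ b = c)
    (h3 : φ c = a) (hs : f a + f b + f c = 5) (T : Finset α) (hT : ∀ e, e ∈ T ↔ φ.SameCycle a e) :
    ∑ e ∈ T, f e = 5 := by
  classical
  have hab : a ≠ b := by
    rintro rfl
    rw [h1] at h2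
    subst h2
    omega
  have hbc : b ≠ c := by
    rintro rfl
    exact hab (φ.injective (h1.trans h2.symm))
  have hca : c ≠ a := by
    rintro rfl
    exact hbc (φ.injective (h2.trans h3.symm))
  have e1 : T = {a, b, c} := by
    ext e
    rw [hT]
    simp only [Finset.mem_insert, Finset.mem_singleton]
    constructor
    · intro h
      refine PreA_closed φ (fun e => e = a ∨ e = b ∨ e = c) (Or.inl rfl) ?_ h
      rintro x (rfl | rfl | rfl)
      · exact Or.inr (Or.inl h1)
      · exact Or.inr (Or.inr h2)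
      · exact Or.inl h3
    · rintro (rfl | rfl | rfl)
      · exact Perm.SameCycle.refl _ _
      · exact ⟨1, by simpa using h1⟩
      · exact ⟨2, by rw [← h2, ← h1]; rfl⟩
  rw [e1, Finset.sum_insert (by simp [hab, hca.symm]), Finset.sum_insert (by simp [hbc]), Finset.sum_singleton]
  omega

theorem PreA_four {α : Type} [Finite α] (φ : Perm α) (f : α → ℕ) {a b c d : α} (h1 : φ a = b) (h2 : φ b = c)
    (h3 : φ c = d) (h4 : φ d = a) (hs : f a + f b + f c + f d = 5) (T : Finset α)
    (hT : ∀ e, e ∈ T ↔ φ.SameCycle a e) :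
    ∑ e ∈ T, f e = 5 := by
  classical
  have hac : a ≠ c := by
    rintro rfl
    have h5 := h1.symm.trans h3
    subst h5
    omega
  have hbd : b ≠ d := by
    rintro rfl
    exact hac (h4.symm.trans h2)
  have hab : a ≠ b := by
    rintro rfl
    exact hac (h1.symm.trans h2)
  have hbc : b ≠ c := by
    rintro rfl
    exact hbd (h2.symm.trans h3)
  have hcd : c ≠ d := by
    rintro rfl
    exact hac (h4.symm.trans h3)
  have hda : d ≠ a := by
    rintro rfl
    exact hbd (h1.symm.trans h4)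
  have e1 : T = {a, b, c, d} := by
    ext e
    rw [hT]
    simp only [Finset.mem_insert, Finset.mem_singleton]
    constructor
    · intro h
      refine PreA_closed φ (fun e => e = a ∨ e = b ∨ e = c ∨ e = d) (Or.inl rfl) ?_ h
      rintro x (rfl | rfl | rfl | rfl)
      · exact Or.inr (Or.inl h1)
      · exact Or.inr (Or.inr (Or.inl h2))
      · exact Or.inr (Or.inr (Or.inr h3))
      · exact Or.inl h4
    · rintro (rfl | rfl | rfl | rfl)
      · exact Perm.SameCycle.refl _ _
      · exact ⟨1, by simpa using h1⟩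
      · exact ⟨2, by rw [← h2, ← h1]; rfl⟩
      · exact ⟨3, by rw [← h3, ← h2, ← h1]; rfl⟩
  rw [e1, Finset.sum_insert (by simp [hab, hac, hda.symm]), Finset.sum_insert (by simp [hbc, hbd]),
    Finset.sum_insert (by simp [hcd]), Finset.sum_singleton]
  omega

theorem PreA_five {α : Type} [Finite α] (φ : Perm α) (f : α → ℕ) {a b c d g : α} (h1 : φ a = b) (h2 : φ b = c)
    (h3 : φ c = d) (h4 : φ d = g) (h5 : φ g = a) (hab : a ≠ b) (hs : f a + f b + f c + f d + f g = 5) (T : Finset α)
    (hT : ∀ e, e ∈ T ↔ φ.SameCycle a e) :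
    ∑ e ∈ T, f e = 5 := by
  classical
  have hbc : b ≠ c := by
    rintro rfl
    exact hab (φ.injective (h1.trans h2.symm))
  have hcd : c ≠ d := by
    rintro rfl
    exact hbc (φ.injective (h2.trans h3.symm))
  have hdg : d ≠ g := by
    rintro rfl
    exact hcd (φ.injective (h3.trans h4.symm))
  have hga : g ≠ a := by
    rintro rfl
    exact hdg (φ.injective (h4.trans h5.symm))
  have hac : a ≠ c := by
    rintro rfl
    have h6 := h1.symm.trans h3
    subst h6
    have h7 := h2.symm.trans h4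
    exact hga h7.symm
  have hbd : b ≠ d := by
    rintro rfl
    exact hac (φ.injective (h1.trans (by rw [h3])))
  have hcg : c ≠ g := by
    rintro rfl
    exact hbd (φ.injective (h2.trans h4.symm))
  have hda : d ≠ a := by
    rintro rfl
    exact hcg (φ.injective (h3.trans h5.symm))
  have hgb : g ≠ b := by
    rintro rfl
    exact hda (φ.injective (h4.trans h1.symm))
  have e1 : T = {a, b, c, d, g} := by
    ext e
    rw [hT]
    simp only [Finset.mem_insert, Finset.mem_singleton]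
    constructor
    · intro h
      refine PreA_closed φ (fun e => e = a ∨ e = b ∨ e = c ∨ e = d ∨ e = g) (Or.inl rfl) ?_ h
      rintro x (rfl | rfl | rfl | rfl | rfl)
      · exact Or.inr (Or.inl h1)
      · exact Or.inr (Or.inr (Or.inl h2))
      · exact Or.inr (Or.inr (Or.inr (Or.inl h3)))
      · exact Or.inr (Or.inr (Or.inr (Or.inr h4)))
      · exact Or.inl h5
    · rintro (rfl | rfl | rfl | rfl | rfl)
      · exact Perm.SameCycle.refl _ _
      · exact ⟨1, by simpa using h1⟩
      · exact ⟨2, by rw [← h2, ← h1]; rfl⟩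
      · exact ⟨3, by rw [← h3, ← h2, ← h1]; rfl⟩
      · exact ⟨4, by rw [← h4, ← h3, ← h2, ← h1]; rfl⟩
  rw [e1, Finset.sum_insert (by simp [hab, hac, hda.symm, hga.symm]), Finset.sum_insert (by simp [hbc, hbd, hgb.symm]),
    Finset.sum_insert (by simp [hcd, hcg]), Finset.sum_insert (by simp [hdg]), Finset.sum_singleton]
  omega

/-- the faces -/
theorem orbits_φ [Finite V] {ch : T.E × ℕ → Prop} (hcov : ∀ x, T.okd x → T.Covered ch x) :
    5 * orbits (T.sg⁻¹ * T.rvP) = Nat.card T.P + Nat.card {x : T.P // x.1.2 = 0} + Nat.card {x : T.P // ch x.1} := by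
  classical
  have := Fintype.ofFinite T.P
  have h1 := orbits_eq (T.sg⁻¹ * T.rvP) (fun x : T.P => T.w ch x.1) 5 (by
    intro x S hS
    rcases hcov x.1 x.2 with ⟨b, c, n1, n2, n3, hs⟩ | ⟨b, c, d, n1, n2, n3, n4, hs⟩ | ⟨b, c, d, e, n1, n2, n3, n4, n5, hab, hs⟩
    · exact PreA_three (T.sg⁻¹ * T.rvP) (fun x : T.P => T.w ch x.1) (b := ⟨b, n1.2.1⟩) (c := ⟨c, n2.2.1⟩)
        (PreA_nx n1) (PreA_nx n2) (PreA_nx n3) hs S hS
    · exact PreA_four (T.sg⁻¹ * T.rvP) (fun x : T.P => T.w ch x.1) (b := ⟨b, n1.2.1⟩) (c := ⟨c, n2.2.1⟩)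
        (d := ⟨d, n3.2.1⟩) (PreA_nx n1) (PreA_nx n2) (PreA_nx n3) (PreA_nx n4) hs S hS
    · exact PreA_five (T.sg⁻¹ * T.rvP) (fun x : T.P => T.w ch x.1) (b := ⟨b, n1.2.1⟩) (c := ⟨c, n2.2.1⟩)
        (d := ⟨d, n3.2.1⟩) (g := ⟨e, n4.2.1⟩) (PreA_nx n1) (PreA_nx n2) (PreA_nx n3) (PreA_nx n4) (PreA_nx n5)
        (fun h => hab (congrArg Subtype.val h)) hs S hS)
  rw [h1]
  simp only [w]
  have h2 : ∀ p : T.P → Prop, Nat.card {x : T.P // p x} = (Finset.univ.filter p).card := fun p => by
    rw [Nat.card_eq_fintype_card, Fintype.card_subtype]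
  rw [Finset.sum_add_distrib, Finset.sum_add_distrib, Finset.sum_boole, Finset.sum_boole, Finset.sum_const,
    h2 (fun x => x.1.2 = 0), h2 (fun x => ch x.1), Nat.card_eq_fintype_card (α := T.P)]
  simp
  congr 1
  ext x
  simp only [Finset.mem_filter]

end Pre

end Pool.Agent.FP
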