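import Pool.Agent.Lib.MP_2e2457_lc.Count

/-!
# Tightness (MP_2e2457_lc)
-/

set_option autoImplicit false

open Equiv Finset

noncomputable section

namespace Pool.Agent.FP

theorem zpow_inv {α : Type} (σ : Perm α) (P : α → Prop) (h : ∀ x, P (σ x) ↔ P x) (i : ℤ) (x : α) :
    P ((σ ^ i) x) ↔ P x := by
  induction i using Int.induction_on generalizing x with
  | zero => simp
  | succ n ih => rw [zpow_add_one, Perm.mul_apply, ih, h]
  | pred n ih =>
    rw [zpow_sub_one, Perm.mul_apply, ih, ← h (σ⁻¹ x)]
    exact Iff.of_eq (congrArg P (σ.apply_symm_apply x))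

theorem sameCycle_inv {α : Type} {σ : Perm α} (P : α → Prop) (h : ∀ x, P (σ x) ↔ P x) {x y : α}
    (hxy : σ.SameCycle x y) : P x ↔ P y := by
  obtain ⟨i, rfl⟩ := hxy
  exact (zpow_inv σ P h i x).symm

/-- invariants of the group generated by two permutations -/
theorem sup_inv {α : Type} {σ τ : Perm α} (P : α → Prop) (h : ∀ x, P (σ x) ↔ P x)
    (h' : ∀ x, P (τ x) ↔ P x) {x y : α}
    (hxy : (Perm.SameCycle.setoid σ ⊔ Perm.SameCycle.setoid τ) x y) : P x ↔ P y := by
  have h1 : Perm.SameCycle.setoid σ ≤ Setoid.ker P := by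
    intro a b hab
    exact propext (sameCycle_inv P h hab)
  have h2 : Perm.SameCycle.setoid τ ≤ Setoid.ker P := by
    intro a b hab
    exact propext (sameCycle_inv P h' hab)
  have h3 := sup_le h1 h2 hxy
  exact Iff.of_eq h3

theorem card_image_congr {α β γ : Type} [DecidableEq β] [DecidableEq γ] (S : Finset α) (f : α → β)
    (g : α → γ) (h : ∀ x ∈ S, ∀ y ∈ S, f x = f y ↔ g x = g y) : (S.image f).card = (S.image g).card := by
  classical
  have h1 : (S.image f) = (S.image fun x => (f x, g x)).image Prod.fst := by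
    rw [Finset.image_image]; rfl
  have h2 : (S.image g) = (S.image fun x => (f x, g x)).image Prod.snd := by
    rw [Finset.image_image]; rfl
  rw [h1, h2]
  rw [Finset.card_image_of_injOn (f := Prod.fst), Finset.card_image_of_injOn (f := Prod.snd)]
  · intro a ha b hb hab
    simp only [coe_image, Set.mem_image, mem_coe] at ha hb
    obtain ⟨x, hx, rfl⟩ := ha
    obtain ⟨y, hy, rfl⟩ := hb
    simp only at hab
    exact Prod.ext ((h x hx y hy).2 hab) hab
  · intro a ha b hb hab
    simp only [coe_image, Set.mem_image, mem_coe] at ha hb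
    obtain ⟨x, hx, rfl⟩ := ha
    obtain ⟨y, hy, rfl⟩ := hb
    simp only at hab
    exact Prod.ext hab ((h x hx y hy).1 hab)

variable {V : Type}

namespace Drawing

variable {G : SimpleGraph V} {D : Drawing G}

/-- Everything is tight. -/
structure Tight (D : Drawing G) : Prop where
  cell : ∀ d : D.DD, Cell d
  node : ∀ d : D.DD, d.idx ≠ 0 → Cw d ∨ Cw (D.σ d) ∨ Cw (D.σ (D.σ d)) ∨ Cw (D.σ (D.σ (D.σ d)))
  conn : orbits₂ D.σ (revPerm D.k_symm) = 1
  noniso : ∀ v, ∃ w, G.Adj v w

section
variable [Fintype D.DD]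

open Classical in
theorem sum_wt : ∑ d : D.DD, wt d =
    2 * (univ.filter fun d : D.DD => d.idx = 0).card + (univ.filter fun d : D.DD => d.idx ≠ 0).card +
      (univ.filter fun d : D.DD => Cw d).card + (univ.filter fun d : D.DD => K2 d).card := by
  unfold wt
  rw [Finset.sum_add_distrib, Finset.sum_add_distrib, Finset.sum_add_distrib, Finset.sum_boole,
    Finset.sum_boole, Finset.sum_boole, Finset.sum_const]
  have h := Finset.card_filter_add_card_filter_not (s := (univ : Finset D.DD)) (fun d : D.DD => d.idx = 0)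
  simp only [smul_eq_mul, mul_one, Nat.cast_id]
  rw [← h]
  ring

open Classical in
theorem four_cw (hS : D.Simple) (hF : D.FanPlanar) :
    4 * (univ.filter fun d : D.DD => Cw d).card ≤ (univ.filter fun d : D.DD => d.idx ≠ 0).card ∧
    (4 * (univ.filter fun d : D.DD => Cw d).card = (univ.filter fun d : D.DD => d.idx ≠ 0).card →
      ∀ d : D.DD, d.idx ≠ 0 → Cw d ∨ Cw (D.σ d) ∨ Cw (D.σ (D.σ d)) ∨ Cw (D.σ (D.σ (D.σ d)))) := by
  let f : D.DD → ℕ := fun d => if Cw d then 1 else 0
  have h0 : (univ.filter fun d : D.DD => Cw d).card = ∑ d : D.DD, f d := by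
    simp only [f]; rw [Finset.sum_boole]; rfl
  have h1 : ∀ g : D.DD → ℕ, ∑ d : D.DD, g (D.σ d) = ∑ d : D.DD, g d := fun g => Equiv.sum_comp D.σ g
  have h2 : 4 * (univ.filter fun d : D.DD => Cw d).card =
      ∑ d : D.DD, (f d + f (D.σ d) + f (D.σ (D.σ d)) + f (D.σ (D.σ (D.σ d)))) := by
    rw [Finset.sum_add_distrib, Finset.sum_add_distrib, Finset.sum_add_distrib]
    rw [h1 f, h1 (fun d => f (D.σ d)), h1 f, h1 (fun d => f (D.σ (D.σ d))), h1 (fun d => f (D.σ d)), h1 f, h0]
    ring
  have h3 : (univ.filter fun d : D.DD => d.idx ≠ 0).card = ∑ d : D.DD, (if d.idx ≠ 0 then 1 else 0) := by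
    rw [Finset.sum_boole]; rfl
  have hz : ∀ d : D.DD, d.idx = 0 → f d = 0 := by
    intro d h
    simp only [f]
    rw [if_neg]
    exact fun h' => h'.idx h
  have h4 : ∀ d ∈ (univ : Finset D.DD), f d + f (D.σ d) + f (D.σ (D.σ d)) + f (D.σ (D.σ (D.σ d))) ≤
      (if d.idx ≠ 0 then 1 else 0) := by
    intro d _
    by_cases h : d.idx = 0
    · rw [hz d h, hz _ (σ_real h), hz _ (σ_real (σ_real h)), hz _ (σ_real (σ_real (σ_real h)))]
      simp
    · rw [if_pos h]
      simp only [f]
      have a1 : Cw d → ¬ Cw (D.σ d) := cw_σ hS hF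
      have a1' : Cw (D.σ d) → ¬ Cw (D.σ (D.σ d)) := cw_σ hS hF
      have a1'' : Cw (D.σ (D.σ d)) → ¬ Cw (D.σ (D.σ (D.σ d))) := cw_σ hS hF
      have a2 : Cw d → ¬ Cw (D.σ (D.σ d)) := cw_op hS hF
      have a2' : Cw (D.σ d) → ¬ Cw (D.σ (D.σ (D.σ d))) := cw_op hS hF
      have a3 : Cw d → ¬ Cw (D.σ (D.σ (D.σ d))) := cw_inv hS hF
      split_ifs <;> first | omega | (exfalso; tauto)
  rw [h2, h3]
  refine ⟨Finset.sum_le_sum h4, fun h5 d hd => ?_⟩
  have h6 := (Finset.sum_eq_sum_iff_of_le h4).1 h5 d (mem_univ _)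
  rw [if_pos hd] at h6
  by_contra hc
  push Not at hc
  obtain ⟨c0, c1, c2, c3⟩ := hc
  simp only [f, if_neg c0, if_neg c1, if_neg c2, if_neg c3] at h6
  omega

open Classical in
theorem card_real [Fintype V] : (univ.filter fun d : D.DD => d.idx = 0).card = 2 * Nat.card G.edgeSet := by
  have h1 : Nat.card G.edgeSet = G.edgeFinset.card := by
    rw [Nat.card_eq_fintype_card, ← SimpleGraph.edgeFinset_card]
  rw [h1, ← SimpleGraph.dart_card_eq_twice_card_edges, ← Finset.card_univ]
  refine Finset.card_bij' (fun d _ => (⟨(d.src, d.tgt), d.adj⟩ : G.Dart))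
    (fun g _ => (⟨g.fst, g.snd, 0, g.adj, Nat.zero_le _⟩ : D.DD)) ?_ ?_ ?_ ?_
  · intro d _; exact mem_univ _
  · intro g _; simp
  · intro d hd
    simp only [mem_filter, mem_univ, true_and] at hd
    exact eq_of_idx rfl rfl hd.symm
  · intro g _; rfl

omit [Fintype D.DD] in
theorem nodup4 (hS : D.Simple) {d : D.DD} (h : d.idx ≠ 0) :
    [d, D.σ d, D.σ (D.σ d), D.σ (D.σ (D.σ d))].Nodup := by
  have h1 : ∀ e : D.DD, e.idx ≠ 0 → D.σ e ≠ e := by
    intro e he h'
    apply hS.not_sameEdge he
    rw [h']; exact SameEdge.refl _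
  have h2 : ∀ e : D.DD, e.idx ≠ 0 → D.σ (D.σ e) ≠ e := by
    intro e he h'
    rw [σσ he] at h'
    have := op_src he
    rw [h'] at this
    exact src_ne_tgt e this
  have h3 : D.σ (D.σ (D.σ d)) ≠ d := by
    intro h'
    have := σ4 h
    rw [h'] at this
    exact h1 d h this
  simp [(h1 d h).symm, (h2 d h).symm, h3.symm, (h1 _ (σ_idx_ne h)).symm, (h2 _ (σ_idx_ne h)).symm,
    (h1 _ (σ_idx_ne (σ_idx_ne h))).symm]

open Classical in
theorem four_orbits [Fintype V] (hS : D.Simple) : 4 * orbits D.σ =
    4 * (univ.filter fun v : V => ∃ w, G.Adj v w).card + (univ.filter fun d : D.DD => d.idx ≠ 0).card := by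
  set s := Perm.SameCycle.setoid D.σ with hs
  set A := (univ.filter fun d : D.DD => d.idx = 0).image (Quotient.mk s) with hA
  set B := (univ.filter fun d : D.DD => d.idx ≠ 0).image (Quotient.mk s) with hB
  have hr : ∀ x y : D.DD, Quotient.mk s x = Quotient.mk s y ↔ D.σ.SameCycle x y := fun x y => Quotient.eq
  have hinv : ∀ x y : D.DD, D.σ.SameCycle x y → (x.idx = 0 ↔ y.idx = 0) := fun x y h =>
    sameCycle_inv (fun d => d.idx = 0) D.idx_σ h
  have hU : (univ : Finset (Quotient s)) = A ∪ B := by
    ext q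
    induction q using Quotient.inductionOn with
    | h d =>
      simp only [mem_univ, true_iff, mem_union, hA, hB, mem_image, mem_filter, true_and]
      by_cases h : d.idx = 0
      · exact Or.inl ⟨d, h, rfl⟩
      · exact Or.inr ⟨d, h, rfl⟩
  have hd : Disjoint A B := by
    rw [Finset.disjoint_left]
    intro q h1 h2
    simp only [hA, hB, mem_image, mem_filter, mem_univ, true_and] at h1 h2
    obtain ⟨d, h3, rfl⟩ := h1
    obtain ⟨e, h4, h5⟩ := h2
    exact h4 ((hinv _ _ ((hr _ _).1 h5)).2 h3)
  have h1 : orbits D.σ = A.card + B.card := by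
    rw [← Finset.card_union_of_disjoint hd, ← hU, orbits, Nat.card_eq_fintype_card]; rfl
  have h2 : A.card = (univ.filter fun v : V => ∃ w, G.Adj v w).card := by
    have h3 : A.card = ((univ.filter fun d : D.DD => d.idx = 0).image (fun d => d.src)).card := by
      refine card_image_congr _ _ _ ?_
      intro x hx y hy
      simp only [mem_filter, mem_univ, true_and] at hx hy
      rw [hr]
      constructor
      · intro h
        obtain ⟨i, rfl⟩ := h
        have : ∀ (i : ℤ), ((D.σ ^ i) x).idx = 0 ∧ ((D.σ ^ i) x).src = x.src := by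
          intro i
          induction i using Int.induction_on with
          | zero => simp [hx]
          | succ n ih =>
            rw [add_comm, zpow_add, zpow_one, Perm.mul_apply]
            exact ⟨σ_real ih.1, (σ_real_src ih.1).trans ih.2⟩
          | pred n ih =>
            rw [show -(n : ℤ) - 1 = -1 + -n by ring, zpow_add, zpow_neg_one, Perm.mul_apply]
            exact ⟨inv_idx.2 ih.1, (inv_src ih.1).trans ih.2⟩
        exact (this i).2.symm
      · intro h
        exact D.cycle_σ x y hx hy h
    rw [h3]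
    congr 1
    ext v
    simp only [mem_image, mem_filter, mem_univ, true_and]
    constructor
    · rintro ⟨d, _, rfl⟩
      exact ⟨d.tgt, d.adj⟩
    · rintro ⟨w, hw⟩
      exact ⟨⟨v, w, 0, hw, Nat.zero_le _⟩, rfl, rfl⟩
  have h3 : 4 * B.card = (univ.filter fun d : D.DD => d.idx ≠ 0).card := by
    rw [Finset.card_eq_sum_card_fiberwise (f := Quotient.mk s) (t := B)]
    · rw [Finset.sum_const_nat (m := 4), mul_comm]
      intro q hq
      simp only [hB, mem_image, mem_filter, mem_univ, true_and] at hq
      obtain ⟨d, hd, rfl⟩ := hq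
      have h4 := nodup4 hS hd
      have h5 : (univ.filter fun d : D.DD => d.idx ≠ 0).filter (fun e => Quotient.mk s e = Quotient.mk s d) =
          [d, D.σ d, D.σ (D.σ d), D.σ (D.σ (D.σ d))].toFinset := by
        ext e
        simp only [mem_filter, mem_univ, true_and, List.mem_toFinset, List.mem_cons, List.not_mem_nil, or_false]
        rw [hr]
        constructor
        · rintro ⟨_, h6⟩
          have := (sameCycle_inv (σ := D.σ) (fun e => e = d ∨ e = D.σ d ∨ e = D.σ (D.σ d) ∨ e = D.σ (D.σ (D.σ d))) ?_ h6).2 (Or.inl rfl)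
          · exact this
          · intro x
            have h7 := σ4 hd
            constructor
            · rintro (h8 | h8 | h8 | h8)
              · right; right; right
                apply D.σ.injective
                rw [h8, h7]
              · left; exact D.σ.injective h8
              · right; left; exact D.σ.injective h8
              · right; right; left; exact D.σ.injective h8
            · rintro (rfl | rfl | rfl | rfl)
              · right; left; rfl
              · right; right; left; rfl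
              · right; right; right; rfl
              · left; exact h7
        · have hsc : ∀ x : D.DD, D.σ.SameCycle (D.σ x) x := fun x =>
            Perm.sameCycle_apply_left.2 (Perm.SameCycle.refl _ _)
          rintro (rfl | rfl | rfl | rfl)
          · exact ⟨hd, Perm.SameCycle.refl _ _⟩
          · exact ⟨σ_idx_ne hd, hsc _⟩
          · exact ⟨σ_idx_ne (σ_idx_ne hd), (hsc _).trans (hsc _)⟩
          · exact ⟨σ_idx_ne (σ_idx_ne (σ_idx_ne hd)), (hsc _).trans ((hsc _).trans (hsc _))⟩
      rw [h5, List.toFinset_card_of_nodup h4]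
      rfl
    · intro d hd
      exact mem_image_of_mem _ hd
  omega

omit [Fintype D.DD] in
protected theorem K2.rv {d : D.DD} (h : K2 d) : K2 (Drawing.rv d) := by
  obtain ⟨h0, h1, h2, h3⟩ := h
  exact ⟨h3, h2, by rw [rv_rv, h1], by rw [rv_rv]; exact h0⟩

omit [Fintype D.DD] in
theorem K2.class {d e : D.DD} (h : K2 d)
    (he : (Perm.SameCycle.setoid D.σ ⊔ Perm.SameCycle.setoid (revPerm D.k_symm)) d e) :
    e = d ∨ e = Drawing.rv d := by
  refine (sup_inv (fun e => e = d ∨ e = Drawing.rv d) ?_ ?_ he).1 (Or.inl rfl)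
  · intro x
    obtain ⟨h0, h1, h2, h3⟩ := h
    constructor
    · rintro (h | h)
      · left; apply D.σ.injective; rw [h, h1]
      · right; apply D.σ.injective; rw [h, h2]
    · rintro (rfl | rfl)
      · exact Or.inl h1
      · exact Or.inr h2
  · intro x
    change Drawing.rv x = d ∨ Drawing.rv x = Drawing.rv d ↔ _
    rw [rv_eq_iff, rv_inj]
    exact or_comm

open Classical in
theorem card_k2 : (univ.filter fun d : D.DD => K2 d).card ≤ 2 * orbits₂ D.σ (revPerm D.k_symm) := by
  set s := Perm.SameCycle.setoid D.σ ⊔ Perm.SameCycle.setoid (revPerm D.k_symm) with hs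
  have h1 : orbits₂ D.σ (revPerm D.k_symm) = (univ : Finset (Quotient s)).card := by
    rw [orbits₂, Nat.card_eq_fintype_card]; rfl
  have h2 : (univ.filter fun d : D.DD => K2 d).card ≤
      2 * ((univ.filter fun d : D.DD => K2 d).image (Quotient.mk s)).card := by
    refine Finset.card_le_mul_card_image _ 2 ?_
    intro q hq
    simp only [mem_image, mem_filter, mem_univ, true_and] at hq
    obtain ⟨d, hd, rfl⟩ := hq
    refine (Finset.card_le_card (t := {d, Drawing.rv d}) ?_).trans Finset.card_le_two
    intro e he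
    simp only [mem_filter, mem_univ, true_and] at he
    have := hd.class (Setoid.symm' s (Quotient.eq.1 he.2))
    simpa using this
  rw [h1]
  exact h2.trans (Nat.mul_le_mul_left _ (Finset.card_le_univ _))

end

theorem tight_of_optimal [Finite V] (hS : D.Simple) (hF : D.FanPlanar) (hn : 3 ≤ Nat.card V)
    (hm : Nat.card G.edgeSet + 10 = 5 * Nat.card V) : Tight D := by
  classical
  have := Fintype.ofFinite V
  have : Fintype D.DD := Fintype.ofFinite _
  have e1 := sum_wt (D := D)
  obtain ⟨e2, e2'⟩ := four_cw hS hF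
  have e3 := card_real (D := D)
  have e4 := four_orbits (D := D) hS
  have e5 := card_k2 (D := D)
  obtain ⟨e6, e6'⟩ := orbit_lemma D.φ wt 5 (fun d => orb_ge hS hF d)
  have e7 := D.planar
  have e8 : (univ.filter fun d : D.DD => d.idx = 0).card + (univ.filter fun d : D.DD => d.idx ≠ 0).card =
      (univ : Finset D.DD).card :=
    Finset.card_filter_add_card_filter_not (s := (univ : Finset D.DD)) (fun d : D.DD => d.idx = 0)
  rw [Nat.card_eq_fintype_card, ← Finset.card_univ, ← e8] at e7
  change 2 * (orbits D.σ + orbits D.φ) = _ at e7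
  have e9 : (univ.filter fun v : V => ∃ w, G.Adj v w).card ≤ Nat.card V := by
    rw [Nat.card_eq_fintype_card]
    exact Finset.card_le_univ _
  have hpos : 0 < orbits₂ D.σ (revPerm D.k_symm) := by
    have h1 : 0 < (univ.filter fun d : D.DD => d.idx = 0).card := by omega
    obtain ⟨d, _⟩ := Finset.card_pos.1 h1
    have : Nonempty (Quotient (Perm.SameCycle.setoid D.σ ⊔ Perm.SameCycle.setoid (revPerm D.k_symm))) :=
      ⟨Quotient.mk _ d⟩
    exact Nat.card_pos
  have hκ1 : orbits₂ D.σ (revPerm D.k_symm) = 1 := by omega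
  have hall : ∀ x y : D.DD, (Perm.SameCycle.setoid D.σ ⊔ Perm.SameCycle.setoid (revPerm D.k_symm)) x y := by
    intro x y
    have h1 := hκ1
    rw [orbits₂, Nat.card_eq_one_iff_unique] at h1
    obtain ⟨h2, _⟩ := h1
    exact Quotient.eq.1 (Subsingleton.elim (α := Quotient (Perm.SameCycle.setoid D.σ ⊔ Perm.SameCycle.setoid (revPerm D.k_symm))) _ _)
  have hK : (univ.filter fun d : D.DD => K2 d).card = 0 := by
    by_contra hc
    obtain ⟨d, hd⟩ := Finset.card_pos.1 (Nat.pos_of_ne_zero hc)
    simp only [mem_filter, mem_univ, true_and] at hd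
    have h1 : (univ.filter fun d : D.DD => d.idx = 0).card ≤ 2 := by
      refine (Finset.card_le_card (t := {d, Drawing.rv d}) ?_).trans Finset.card_le_two
      intro e _
      simpa using hd.class (hall d e)
    omega
  refine ⟨?_, ?_, hκ1, ?_⟩
  · intro d
    refine cell_of_eq hS hF d ?_
    exact e6' (by omega) d
  · exact e2' (by omega)
  · have h1 : (univ.filter fun v : V => ∃ w, G.Adj v w).card = (univ : Finset V).card := by
      rw [Finset.card_univ, ← Nat.card_eq_fintype_card]
      omega
    have h2 := Finset.eq_univ_of_card _ (h1.trans Finset.card_univ)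
    intro v
    have h3 : v ∈ (univ.filter fun v : V => ∃ w, G.Adj v w) := by rw [h2]; exact mem_univ _
    simpa using h3

end Drawing

end Pool.Agent.FP
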