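import Pool.Agent.Lib.MP_2e2457_lc.Pre
import Pool.Agent.Lib.MP_2e2457_lc.FillCount
import Pool.Agent.Lib.MP_2e2457_lc.Tight

/-!
# From abstract descriptions to drawings (MP_2e2457_lc)
-/

set_option autoImplicit false

open Equiv

noncomputable section

namespace Pool.Agent.FP

variable {V : Type} {G : SimpleGraph V}

namespace Pre

variable (T : Pre G)

/-- the oriented edge from `u` to `v` -/
def eOf (u v : V) (h : G.Adj u v) : T.E := (T.surj u v h).choose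

variable {T}

theorem eOf_ok (u v : V) (h : G.Adj u v) : T.ok (T.eOf u v h) := (T.surj u v h).choose_spec.1
theorem eOf_src (u v : V) (h : G.Adj u v) : T.src (T.eOf u v h) = u := (T.surj u v h).choose_spec.2.1
theorem eOf_tgt (u v : V) (h : G.Adj u v) : T.src (T.rv (T.eOf u v h)) = v := (T.surj u v h).choose_spec.2.2

theorem eOf_eq {e : T.E} (he : T.ok e) (h : G.Adj (T.src e) (T.src (T.rv e))) : T.eOf (T.src e) (T.src (T.rv e)) h = e :=
  T.inj _ _ (eOf_ok _ _ h) he (eOf_src _ _ h) (eOf_tgt _ _ h)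

theorem finE [Finite V] : Finite {e : T.E // T.ok e} :=
  Finite.of_injective (fun e : {e : T.E // T.ok e} => (T.src e.1, T.src (T.rv e.1))) (by
    rintro ⟨e, he⟩ ⟨e', he'⟩ h
    simp only [Prod.mk.injEq] at h
    exact Subtype.ext (T.inj e e' he he' h.1 h.2))

instance [Finite V] : Finite T.P := by
  have : Finite {e : T.E // T.ok e} := finE
  have : ∀ e : {e : T.E // T.ok e}, Finite (Fin (T.K e.1 + 1)) := fun e => inferInstance
  refine Finite.of_injective (β := Σ e : {e : T.E // T.ok e}, Fin (T.K e.1 + 1))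
    (fun x => ⟨⟨x.1.1, x.2.1⟩, ⟨x.1.2, Nat.lt_succ_of_le x.2.2⟩⟩) ?_
  rintro ⟨⟨e, i⟩, h⟩ ⟨⟨e', i'⟩, h'⟩ hxy
  simp only [Sigma.mk.injEq, Subtype.mk.injEq] at hxy
  obtain ⟨h1, h2⟩ := hxy
  subst h1
  simp only [heq_eq_eq, Fin.mk.injEq] at h2
  subst h2
  rfl

variable (T)

/-- reversal of darts -/
def rvP : Perm T.P where
  toFun x := ⟨(T.rv x.1.1, T.K x.1.1 - x.1.2), by
    have := x.2.2
    exact ⟨T.ok_rv _ x.2.1, by simp only [T.K_rv]; omega⟩⟩
  invFun x := ⟨(T.rv x.1.1, T.K x.1.1 - x.1.2), by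
    have := x.2.2
    exact ⟨T.ok_rv _ x.2.1, by simp only [T.K_rv]; omega⟩⟩
  left_inv x := by
    have := x.2.2
    apply Subtype.ext
    simp only [T.rv_rv, T.K_rv]
    exact Prod.ext rfl (by simp only; omega)
  right_inv x := by
    have := x.2.2
    apply Subtype.ext
    simp only [T.rv_rv, T.K_rv]
    exact Prod.ext rfl (by simp only; omega)

open Classical in
/-- the rotation of the darts -/
def sgF (x : T.P) : T.P :=
  if h : x.1.2 = 0 then ⟨(T.ρ x.1.1, 0), T.ρ_ok _ x.2.1, Nat.zero_le _⟩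
  else ⟨T.X x.1.1 x.1.2, (T.X_ok _ _ x.2.1 (by omega) x.2.2).1, (T.X_ok _ _ x.2.1 (by omega) x.2.2).2.2⟩

variable {T}

theorem sgF_zero {x : T.P} (h : x.1.2 = 0) : (T.sgF x).1 = (T.ρ x.1.1, 0) := by
  rw [sgF, dif_pos h]

theorem sgF_pos {x : T.P} (h : x.1.2 ≠ 0) : (T.sgF x).1 = T.X x.1.1 x.1.2 := by
  rw [sgF, dif_neg h]

theorem sgF_idx {x : T.P} : (T.sgF x).1.2 = 0 ↔ x.1.2 = 0 := by
  by_cases h : x.1.2 = 0
  · rw [sgF_zero h]; simp [h]
  · rw [sgF_pos h]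
    have := (T.X_ok _ _ x.2.1 (by omega) x.2.2).2.1
    exact ⟨fun h' => by omega, fun h' => absurd h' h⟩

theorem sgF_sgF {x : T.P} (h : x.1.2 ≠ 0) : (T.sgF (T.sgF x)).1 = (T.rv x.1.1, T.K x.1.1 + 1 - x.1.2) := by
  rw [sgF_pos (fun h' => h (sgF_idx.1 h')), sgF_pos h]
  exact T.X_X _ _ x.2.1 (by omega) x.2.2

theorem sgF4 {x : T.P} (h : x.1.2 ≠ 0) : T.sgF (T.sgF (T.sgF (T.sgF x))) = x := by
  apply Subtype.ext
  have h1 : (T.sgF (T.sgF x)).1.2 ≠ 0 := fun h' => h (sgF_idx.1 (sgF_idx.1 h'))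
  have h2 := x.2.2
  rw [sgF_sgF h1, sgF_sgF h]
  simp only [T.rv_rv, T.K_rv]
  exact Prod.ext rfl (by simp only; omega)

theorem ρ_iter_ok {e : T.E} (he : T.ok e) (n : ℕ) : T.ok (T.ρ^[n] e) := by
  induction n with
  | zero => exact he
  | succ n ih => rw [Function.iterate_succ_apply']; exact T.ρ_ok _ ih

theorem ρ_iter_src {e : T.E} (he : T.ok e) (n : ℕ) : T.src (T.ρ^[n] e) = T.src e := by
  induction n with
  | zero => rfl
  | succ n ih => rw [Function.iterate_succ_apply', T.ρ_src _ (ρ_iter_ok he n), ih]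

theorem sgF_surj : Function.Surjective T.sgF := by
  intro x
  by_cases h : x.1.2 = 0
  · obtain ⟨n, hn⟩ := T.ρ_reach (T.ρ x.1.1) x.1.1 (T.ρ_ok _ x.2.1) x.2.1 (T.ρ_src _ x.2.1)
    refine ⟨⟨(T.ρ^[n] x.1.1, 0), ρ_iter_ok x.2.1 n, Nat.zero_le _⟩, ?_⟩
    apply Subtype.ext
    rw [sgF_zero rfl]
    simp only
    have h2 : T.ρ (T.ρ^[n] x.1.1) = x.1.1 := by
      rw [← Function.iterate_succ_apply' T.ρ, Function.iterate_succ_apply, hn]
    rw [h2]
    exact Prod.ext rfl h.symm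
  · exact ⟨_, sgF4 h⟩

theorem sgF_bij [Finite V] : Function.Bijective T.sgF :=
  Finite.surjective_iff_bijective.1 sgF_surj

variable (T)

def sg [Finite V] : Perm T.P := Equiv.ofBijective T.sgF sgF_bij

variable {T}

theorem sg_apply [Finite V] (x : T.P) : T.sg x = T.sgF x := rfl

end Pre

end Pool.Agent.FP
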