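import Pool.Agent.Lib.MP_2e2457_lc.Ann

/-!
# The skeleton (MP_2e2457_lc)
-/

set_option autoImplicit false

open Equiv

noncomputable section

namespace Pool.Agent.FP

variable {V : Type}

namespace Drawing

variable {G : SimpleGraph V} {D : Drawing G}

/-- the graph of the uncrossed edges -/
def Hs (D : Drawing G) : SimpleGraph V where
  Adj u v := G.Adj u v ∧ D.k u v = 0
  symm := ⟨fun u v h => ⟨h.1.symm, by rw [D.k_symm]; exact h.2⟩⟩
  loopless := ⟨fun u h => h.1.ne rfl⟩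

def toD (d : (Hs D).Dart) : D.DD := ⟨d.fst, d.snd, 0, d.adj.1, Nat.zero_le _⟩

theorem toD_unc (d : (Hs D).Dart) : Unc (toD d) := ⟨rfl, d.adj.2.symm⟩

theorem Unc.k {d : D.DD} (h : Unc d) : D.k d.src d.tgt = 0 := by
  have h1 := h.2
  rw [Last, h.1] at h1
  exact h1.symm

def ofD (d : D.DD) (h : Unc d) : (Hs D).Dart := ⟨(d.src, d.tgt), d.adj, h.k⟩

theorem toD_ofD (d : D.DD) (h : Unc d) : toD (ofD d h) = d := eq_of_idx rfl rfl h.1.symm

theorem ofD_toD (d : (Hs D).Dart) : ofD (toD d) (toD_unc d) = d := rfl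

theorem toD_inj {d e : (Hs D).Dart} (h : toD d = toD e) : d = e := by
  have h1 : (toD d).src = (toD e).src := by rw [h]
  have h2 : (toD d).tgt = (toD e).tgt := by rw [h]
  exact SimpleGraph.Dart.ext _ _ (Prod.ext h1 h2)

theorem toD_symm (d : (Hs D).Dart) : toD d.symm = rv (toD d) := by
  refine eq_of_idx rfl rfl ?_
  rw [rv_idx_zero.2 (toD_unc d).2]; rfl

theorem f_cycle [Finite V] {d e : D.DD} (hd : d.idx = 0) (he : e.idx = 0) (h : d.src = e.src) :
    ∃ n : ℕ, f d n = e := by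
  obtain ⟨n, hn⟩ := (D.cycle_σ d e hd he h).exists_nat_pow_eq
  exact ⟨n, hn⟩

theorem f'_cycle [Finite V] {d e : D.DD} (hd : d.idx = 0) (he : e.idx = 0) (h : d.src = e.src) :
    ∃ n : ℕ, 0 < n ∧ f' d n = e := by
  obtain ⟨n, hn⟩ := @f_cycle V G D.mirror _ (D.σ⁻¹ d) e (inv_idx.2 hd) he ((inv_src hd).trans h)
  refine ⟨n + 1, Nat.succ_pos n, ?_⟩
  have h1 : f' (D.σ⁻¹ d) n = e := hn
  rw [f'] at h1 ⊢
  rw [pow_succ, Perm.mul_apply]
  exact h1

/-- the rotation system of the skeleton -/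
def Rm (D : Drawing G) [Finite V] : Map (Hs D) where
  rot :=
    { toFun := fun d => ofD (hr (toD d)) (toD_unc d).hr
      invFun := fun d => ofD (hr' (toD d)) (toD_unc d).hr'
      left_inv := fun d => by
        apply toD_inj
        rw [toD_ofD, toD_ofD, hr'_hr (toD_unc d)]
      right_inv := fun d => by
        apply toD_inj
        rw [toD_ofD, toD_ofD, hr_hr' (toD_unc d)] }
  rot_fst := fun d => f_src (toD_unc d).1 _
  rot_cycle := by
    intro d e hde
    obtain ⟨n, hn⟩ := f_cycle (toD_unc d).1 (toD_unc e).1 hde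
    induction n using Nat.strong_induction_on generalizing d with
    | _ n ih =>
      rcases Nat.eq_zero_or_pos n with h0 | h0
      · subst h0
        have : d = e := toD_inj hn
        rw [this]
      · have h1 : rt (toD d) ≤ n := by
          by_contra h2
          refine not_unc_of_lt (h := toD d) h0 (by omega) ?_
          rw [hn]; exact toD_unc e
        have h2 := rt_pos (toD_unc d)
        refine Perm.sameCycle_apply_left.1 (ih (n - rt (toD d)) (by omega)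
          (d := ofD (hr (toD d)) (toD_unc d).hr) ?_ ?_)
        · exact (f_src (toD_unc d).1 _).trans hde
        · rw [toD_ofD, hr, f_add, ← hn]
          congr 1; omega

theorem toD_rot [Finite V] (d : (Hs D).Dart) : toD ((Rm D).rot d) = hr (toD d) :=
  toD_ofD _ (toD_unc d).hr

theorem toD_face [Finite V] (d : (Hs D).Dart) : toD ((Rm D).face d) = F (toD d) := by
  have h1 : (Rm D).face d = ofD (hr' (toD d.symm)) (toD_unc d.symm).hr' := rfl
  rw [h1, toD_ofD, toD_symm, F]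

theorem toD_face_inv [Finite V] (d : (Hs D).Dart) : toD ((Rm D).face⁻¹ d) = B (toD d) := by
  have h1 : toD ((Rm D).face ((Rm D).face⁻¹ d)) = toD d := by
    rw [show (Rm D).face ((Rm D).face⁻¹ d) = d from (Rm D).face.apply_symm_apply d]
  rw [toD_face] at h1
  rw [← h1, B_F (toD_unc _)]

/-! ### first uncrossed edge clockwise -/

def cwU (r : D.DD) : D.DD := f' r (sInf {n | 0 < n ∧ Unc (f' r n)})

theorem cwU_spec [Finite V] {r E : D.DD} (hr : r.idx = 0) (hE : Unc E) (h : r.src = E.src) :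
    ∃ n, 0 < n ∧ cwU r = f' r n ∧ Unc (f' r n) ∧ ∀ j, 0 < j → j < n → ¬ Unc (f' r j) := by
  have hne : {n | 0 < n ∧ Unc (f' r n)}.Nonempty := by
    obtain ⟨n, h0, hn⟩ := f'_cycle hr hE.1 h
    exact ⟨n, h0, by rw [hn]; exact hE⟩
  exact ⟨sInf {n | 0 < n ∧ Unc (f' r n)}, (Nat.sInf_mem hne).1, rfl, (Nat.sInf_mem hne).2,
    fun j h1 h2 h3 => Nat.notMem_of_lt_sInf h2 ⟨h1, h3⟩⟩

theorem cwU_eq {r : D.DD} {n : ℕ} (h0 : 0 < n) (h1 : Unc (f' r n)) (h2 : ∀ j, 0 < j → j < n → ¬ Unc (f' r j)) :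
    cwU r = f' r n := by
  have hne : {n | 0 < n ∧ Unc (f' r n)}.Nonempty := ⟨n, h0, h1⟩
  have h3 := Nat.sInf_mem hne
  have h4 : sInf {n | 0 < n ∧ Unc (f' r n)} ≤ n := Nat.sInf_le ⟨h0, h1⟩
  have h5 : sInf {n | 0 < n ∧ Unc (f' r n)} = n := by
    rcases h4.lt_or_eq with h6 | h6
    · exact (h2 _ h3.1 h6 h3.2).elim
    · exact h6
  rw [cwU, h5]

theorem cwU_of_inv {r : D.DD} (h : Unc (D.σ⁻¹ r)) : cwU r = D.σ⁻¹ r := by
  rw [cwU_eq (n := 1) one_pos (by rw [f'_one]; exact h) (fun j h1 h2 => by omega), f'_one]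

theorem f'_σ (r : D.DD) (n : ℕ) : f' (D.σ r) (n + 1) = f' r n := by
  rw [f', f', pow_succ, Perm.mul_apply]
  congr 1
  exact inv_σ r

theorem cwU_σ [Finite V] {r E : D.DD} (hr : r.idx = 0) (hE : Unc E) (h : r.src = E.src) (hn : ¬ Unc r) :
    cwU (D.σ r) = cwU r := by
  obtain ⟨n, h0, h1, h2, h3⟩ := cwU_spec hr hE h
  rw [h1, cwU_eq (r := D.σ r) (n := n + 1) (Nat.succ_pos n) (by rw [f'_σ]; exact h2), f'_σ]
  intro j h4 h5
  obtain ⟨j, rfl⟩ : ∃ i, j = i + 1 := ⟨j - 1, by omega⟩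
  rw [f'_σ]
  rcases Nat.eq_zero_or_pos j with h6 | h6
  · rw [h6]; exact hn
  · exact h3 j h6 (by omega)

theorem cwU_unc [Finite V] {r E : D.DD} (hr : r.idx = 0) (hE : Unc E) (h : r.src = E.src) : Unc (cwU r) := by
  obtain ⟨n, h0, h1, h2, h3⟩ := cwU_spec hr hE h
  rw [h1]; exact h2

theorem cwU_src {r : D.DD} (hr : r.idx = 0) : (cwU r).src = r.src := f'_src hr _

/-- the next uncrossed edge after `cwU r` -/
theorem hr_cwU [Finite V] {r E : D.DD} (hr : r.idx = 0) (hE : Unc E) (h : r.src = E.src) {m : ℕ}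
    (h1 : Unc (f r m)) (h2 : ∀ j < m, ¬ Unc (f r j)) : Drawing.hr (cwU r) = f r m := by
  obtain ⟨n, h0, h3, h4, h5⟩ := cwU_spec hr hE h
  have h6 : ∀ j, f (f' r n) (n + j) = f r j := by
    intro j
    rw [← f_add, f_f' le_rfl, Nat.sub_self, f'_zero]
  have h7 : rt (f' r n) = n + m := by
    refine rt_eq (by omega) (by rw [h6]; exact h1) ?_
    intro j a1 a2
    rcases Nat.lt_or_ge j n with a3 | a3
    · rw [f_f' a3.le]
      exact h5 _ (by omega) (by omega)
    · obtain ⟨i, rfl⟩ : ∃ i, j = n + i := ⟨j - n, by omega⟩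
      rw [h6]
      exact h2 i (by omega)
  rw [h3, Drawing.hr, h7, h6]

/-- Two angles which contain the same edge are equal. -/
theorem angle_unique {h h' : D.DD} (hh : Unc h) (hh' : Unc h') {j j' : ℕ} (h1 : 0 < j) (h2 : j < rt h)
    (h3 : 0 < j') (h4 : j' < rt h') (he : f h j = f h' j') : h = h' ∧ j = j' := by
  have key : ∀ {h h' : D.DD} (_ : Unc h) (_ : Unc h') {j j' : ℕ} (_ : 0 < j) (_ : j < rt h)
      (_ : 0 < j') (_ : j' < rt h') (_ : f h j = f h' j'), j ≤ j' → h = h' ∧ j = j' := by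
    intro h h' hh hh' j j' h1 h2 h3 h4 he hle
    have e1 : f' (f h j) j = h := by rw [f'_f le_rfl, Nat.sub_self]; rfl
    have e2 : f' (f h' j') j = f h' (j' - j) := f'_f hle
    rw [he, e2] at e1
    rcases hle.lt_or_eq with h5 | h5
    · exfalso
      refine not_unc_of_lt (h := h') (j := j' - j) (by omega) (by omega) ?_
      rw [e1]; exact hh
    · subst h5
      rw [Nat.sub_self] at e1
      exact ⟨e1.symm, rfl⟩
  rcases Nat.le_total j j' with h5 | h5
  · exact key hh hh' h1 h2 h3 h4 he h5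
  · obtain ⟨a, b⟩ := key hh' hh h3 h4 h1 h2 he.symm h5
    exact ⟨a.symm, b.symm⟩

/-! ### the chain of the inner boundary -/

/-- size of the staircase -/
def Pn (h : D.DD) : ℕ := kk (gq h 1) - 1

theorem Stair.pn {h : D.DD} {P : ℕ} (hS : Stair h P) : Pn h = P := by
  have := hS.kg 1 le_rfl (by omega)
  unfold Pn; omega

/-- annular angle -/
def AT (h : D.DD) : Prop := TA h ∧ ¬ Pent h

theorem AT.stair [Finite V] (hO : D.Opt) {h : D.DD} (hA : AT h) : Stair h (Pn h) := by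
  obtain ⟨P, hP⟩ := hA.1.stair hO hA.2
  rw [hP.pn]; exact hP

theorem AT.F [Finite V] (hO : D.Opt) {h : D.DD} (hA : AT h) : AT (Drawing.F h) := by
  refine ⟨hA.1.F hO, fun hP => hA.2 ?_⟩
  have hF := hA.1.F hO
  have h5 := hP.five hO hF
  have h6 := (((hP.F hO hF).F hO (hF.F hO)).F hO ((hF.F hO).F hO)).F hO (((hF.F hO).F hO).F hO)
  have h7 : Drawing.F (Drawing.F (Drawing.F (Drawing.F (Drawing.F h)))) = h := by
    have := congrArg Drawing.B h5
    rwa [B_F, B_F] at this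
    · exact hA.1.1
    · exact ((((hF.F hO).F hO).F hO).F hO).1
  rwa [h7] at h6

theorem AT.B [Finite V] (hO : D.Opt) {h : D.DD} (hA : AT h) : AT (Drawing.B h) := by
  refine ⟨hA.1.B hO, fun hP => hA.2 ?_⟩
  have := hP.F hO (hA.1.B hO)
  rwa [F_B hA.1.1] at this

/-- the spoke of an annular angle -/
def sp (h : D.DD) : D.DD := fp h (Pn h + 1)

protected theorem AT.rt_eq [Finite V] (hO : D.Opt) {h : D.DD} (hA : AT h) : rt h = Pn h + Pn (Drawing.B h) + 4 :=
  (hA.stair hO).rt_eq hO hA.1 ((hA.B hO).stair hO)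

theorem AT.sp_F [Finite V] (hO : D.Opt) {h : D.DD} (hA : AT h) : sp (Drawing.F h) = gq h (Pn h + 1) := by
  have h1 := (hA.F hO).rt_eq hO
  rw [B_F hA.1.1] at h1
  have h2 := gq_B (D := D) (h := Drawing.F h) (q := Pn h + 1) (by omega)
  rw [B_F hA.1.1] at h2
  rw [h2, sp, fp]
  congr 1; omega

theorem not_unc_oe {m : D.DD} (h : kk m ≠ 0) : ¬ Unc (oe m) := by
  intro h1
  have h2 := h1.k
  rw [oe_src, oe_tgt, D.k_symm] at h2
  exact h h2

/-- the uncrossed edges at the ends of the staircase -/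
def Et (h : D.DD) (t : ℕ) : D.DD := if t = 0 then cwU (oe (sp h)) else D.σ⁻¹ (oe (fp h (Pn h + 1 - t)))

theorem Et_zero (h : D.DD) : Et h 0 = cwU (oe (sp h)) := by rw [Et, if_pos rfl]

theorem Et_pos (h : D.DD) {t : ℕ} (ht : 1 ≤ t) : Et h t = D.σ⁻¹ (oe (fp h (Pn h + 1 - t))) := by
  rw [Et, if_neg (by omega)]

theorem AT.et_unc [Finite V] (hO : D.Opt) {h : D.DD} (hA : AT h) {t : ℕ} (h1 : 1 ≤ t) (h2 : t ≤ Pn h) :
    Unc (Et h t) ∧ D.σ (Et h t) = oe (fp h (Pn h + 1 - t)) ∧ D.σ (oe (gq h t)) = rv (Et h t) := by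
  obtain ⟨E, hE, hE1, hE2⟩ := (hA.stair hO).edge t h1 h2
  have h3 : Et h t = E := by rw [Et_pos h h1, ← hE1, inv_σ]
  rw [h3]
  exact ⟨hE, hE1, hE2⟩

theorem AT.et_src [Finite V] (hO : D.Opt) {h : D.DD} (hA : AT h) {t : ℕ} (h2 : t ≤ Pn h) :
    (Et h t).src = (fp h (Pn h + 1 - t)).tgt := by
  rcases Nat.eq_zero_or_pos t with h0 | h0
  · subst h0
    rw [Et_zero, cwU_src rfl]; rfl
  · obtain ⟨a1, a2, a3⟩ := hA.et_unc hO h0 h2
    have := σ_real_src a1.1
    rw [a2] at this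
    rw [← this]; rfl

/-- the spoke end is not isolated in the skeleton -/
def NI (h : D.DD) : Prop := ∃ E : D.DD, Unc E ∧ E.src = (sp h).tgt

theorem AT.kk_f [Finite V] (hO : D.Opt) {h : D.DD} (hA : AT h) {t : ℕ} (h1 : 1 ≤ t) (h2 : t ≤ Pn h + 1) :
    kk (fp h (Pn h + 2 - t)) = t := (hA.stair hO).kf t h1 h2

theorem AT.kk_g [Finite V] (hO : D.Opt) {h : D.DD} (hA : AT h) {t : ℕ} (h1 : 1 ≤ t) (h2 : t ≤ Pn h + 1) :
    kk (gq h t) = Pn h + 2 - t := (hA.stair hO).kg t h1 h2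

theorem AT.rot [Finite V] (hO : D.Opt) {h : D.DD} (hA : AT h) {t : ℕ} (h1 : 1 ≤ t) (h2 : t ≤ Pn h + 1) :
    D.σ (oe (fp h (Pn h + 2 - t))) = oe (gq h t) := (hA.stair hO).rot t h1 h2

theorem AT.ni_of_pos [Finite V] (hO : D.Opt) {h : D.DD} (hA : AT h) (hP : 1 ≤ Pn h) : NI h ∧ NI (Drawing.F h) := by
  obtain ⟨a1, a2, a3⟩ := hA.et_unc hO le_rfl hP
  have b := hA.rot hO le_rfl (by omega)
  obtain ⟨c1, c2, c3⟩ := hA.et_unc hO hP le_rfl
  have d := hA.rot hO (t := Pn h + 1) (by omega) le_rfl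
  constructor
  · refine ⟨rv (Et h 1), a1.rv, ?_⟩
    rw [← a3, σ_real_src rfl, ← b, σ_real_src rfl, oe_src, sp, show Pn h + 2 - 1 = Pn h + 1 by omega]
  · refine ⟨Et h (Pn h), c1, ?_⟩
    rw [hA.sp_F hO]
    have h1 := σ_real_src c1.1
    rw [c2] at h1
    have h2 : (D.σ (oe (fp h (Pn h + 2 - (Pn h + 1))))).src = (oe (fp h (Pn h + 2 - (Pn h + 1)))).src :=
      σ_real_src rfl
    rw [d] at h2
    rw [← h1]
    have e : Pn h + 1 - Pn h = Pn h + 2 - (Pn h + 1) := by omega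
    rw [e, ← h2]; rfl

theorem AT.sp_F_zero [Finite V] (hO : D.Opt) {h : D.DD} (hA : AT h) (hP : Pn h = 0) :
    D.σ (oe (sp h)) = oe (sp (Drawing.F h)) ∧ (sp (Drawing.F h)).tgt = (sp h).tgt := by
  have b := hA.rot hO (t := 1) le_rfl (by omega)
  have h1 : D.σ (oe (sp h)) = oe (sp (Drawing.F h)) := by
    rw [hA.sp_F hO, hP, sp, hP]
    rw [hP] at b
    exact b
  refine ⟨h1, ?_⟩
  have h2 : (D.σ (oe (sp h))).src = (oe (sp h)).src := σ_real_src rfl
  rw [h1] at h2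
  exact h2

theorem AT.ni_iff [Finite V] (hO : D.Opt) {h : D.DD} (hA : AT h) : NI h ↔ NI (Drawing.F h) := by
  rcases Nat.eq_zero_or_pos (Pn h) with h0 | h0
  · obtain ⟨_, h2⟩ := hA.sp_F_zero hO h0
    unfold NI
    rw [h2]
  · have := hA.ni_of_pos hO h0
    exact ⟨fun _ => this.2, fun _ => this.1⟩

theorem AT.et_F [Finite V] (hO : D.Opt) {h : D.DD} (hA : AT h) (hN : NI h) : Et (Drawing.F h) 0 = Et h (Pn h) := by
  obtain ⟨E, hE, hEs⟩ := id hN
  have hksp : kk (sp h) ≠ 0 := by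
    have := hA.kk_f hO le_rfl (by omega)
    rw [show Pn h + 2 - 1 = Pn h + 1 by omega] at this
    rw [sp, this]; omega
  rcases Nat.eq_zero_or_pos (Pn h) with h0 | h0
  · obtain ⟨h1, h2⟩ := hA.sp_F_zero hO h0
    rw [h0, Et_zero, Et_zero, ← h1]
    exact cwU_σ rfl hE hEs.symm (not_unc_oe hksp)
  · obtain ⟨c1, c2, c3⟩ := hA.et_unc hO h0 le_rfl
    have d := hA.rot hO (t := Pn h + 1) (by omega) le_rfl
    have e : Pn h + 1 - Pn h = Pn h + 2 - (Pn h + 1) := by omega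
    rw [Et_zero, hA.sp_F hO, ← d, ← e]
    have hk : kk (fp h (Pn h + 1 - Pn h)) ≠ 0 := by
      have := hA.kk_f hO (t := Pn h + 1) (by omega) le_rfl
      rw [e, this]; omega
    have h3 : (oe (fp h (Pn h + 1 - Pn h))).src = (Et h (Pn h)).src := by
      rw [← c2, σ_real_src c1.1]
    rw [cwU_σ (E := Et h (Pn h)) rfl c1 h3 (not_unc_oe hk)]
    rw [← c2, cwU_of_inv (by rw [inv_σ]; exact c1), inv_σ]

theorem AT.b_et [Finite V] (hO : D.Opt) {h : D.DD} (hA : AT h) (hN : NI h) {t : ℕ} (ht : t < Pn h) :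
    Drawing.B (Et h t) = Et h (t + 1) := by
  obtain ⟨c1, c2, c3⟩ := hA.et_unc hO (t := t + 1) (by omega) (by omega)
  have r := hA.rot hO (t := t + 1) (by omega) (by omega)
  rw [show Pn h + 2 - (t + 1) = Pn h + 1 - t by omega] at r
  have kf := hA.kk_f hO (t := t + 1) (by omega) (by omega)
  rw [show Pn h + 2 - (t + 1) = Pn h + 1 - t by omega] at kf
  have kg := hA.kk_g hO (t := t + 1) (by omega) (by omega)
  have key : Drawing.hr (Et h t) = rv (Et h (t + 1)) := by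
    rcases Nat.eq_zero_or_pos t with h0 | h0
    · subst h0
      obtain ⟨E, hE, hEs⟩ := id hN
      rw [Et_zero, hr_cwU (m := 2) rfl hE hEs.symm]
      · rw [f_succ, f_one, sp]
        rw [Nat.sub_zero] at r
        rw [r, c3]
      · rw [f_succ, f_one, sp]
        rw [Nat.sub_zero] at r
        rw [r, c3]
        exact c1.rv
      · intro j hj
        have : j = 0 ∨ j = 1 := by omega
        rcases this with h1 | h1
        · rw [h1, f_zero, sp]
          refine not_unc_oe ?_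
          rw [Nat.sub_zero] at kf
          rw [kf]; omega
        · rw [h1, f_one, sp]
          rw [Nat.sub_zero] at r
          rw [r]
          refine not_unc_oe ?_
          rw [kg]; omega
    · obtain ⟨b1, b2, b3⟩ := hA.et_unc hO (t := t) h0 (by omega)
      have h3 : rt (Et h t) = 3 := by
        refine rt_eq (by omega) ?_ ?_
        · rw [f_succ, f_succ, f_one, b2, r, c3]; exact c1.rv
        · intro j h1 h2
          have : j = 1 ∨ j = 2 := by omega
          rcases this with h3 | h3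
          · rw [h3, f_one, b2]
            refine not_unc_oe ?_
            rw [kf]; omega
          · rw [h3, f_succ, f_one, b2, r]
            refine not_unc_oe ?_
            rw [kg]; omega
      rw [Drawing.hr, h3, f_succ, f_succ, f_one, b2, r, c3]
  rw [Drawing.B, key, rv_rv]

end Drawing

end Pool.Agent.FP
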