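import Pool.Agent.Lib.MP_2e2457_lc.Grid

/-!
# The staircase (MP_2e2457_lc)
-/

set_option autoImplicit false

open Equiv

noncomputable section

namespace Pool.Agent.FP

variable {V : Type}

namespace Drawing

variable {G : SimpleGraph V} {D : Drawing G}

theorem f_inj {h : D.DD} (hh : Unc h) {i j : ℕ} (hij : i < j) (hj : j < rt h + i) : f h i ≠ f h j := by
  intro h1
  have h2 : f h (j - i) = h := by
    have h3 : f' (f h j) i = f h (j - i) := f'_f hij.le
    have h4 : f' (f h i) i = h := by rw [f'_f le_rfl, Nat.sub_self]; rfl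
    rw [← h3, ← h1, h4]
  exact not_unc_of_lt (h := h) (j := j - i) (by omega) (by omega) (by rw [h2]; exact hh)

theorem f_inj' {h : D.DD} (hh : Unc h) {i j : ℕ} (hi : i < rt h) (hj : j < rt h) (hij : f h i = f h j) : i = j := by
  rcases Nat.lt_trichotomy i j with h1 | h1 | h1
  · exact (f_inj hh h1 (by omega) hij).elim
  · exact h1
  · exact (f_inj hh h1 (by omega) hij.symm).elim

theorem fp_inj {h : D.DD} (hh : Unc h) {p p' : ℕ} (hp : p + 1 < rt h) (hp' : p' + 1 < rt h)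
    (he : fp h p = fp h p') : p = p' := by
  have := f_inj' hh hp hp' he
  omega

theorem gq_inj {h : D.DD} (hh : Unc h) {p p' : ℕ} (hp : p + 1 < rt' (rv h)) (hp' : p' + 1 < rt' (rv h))
    (he : gq h p = gq h p') : p = p' :=
  @fp_inj V G D.mirror (rv h) hh.rv p p' hp hp' he

/-- symmetry between the two angles -/
theorem TA.rt'_ge [Finite V] (hO : D.Opt) {h : D.DD} (hA : TA h) : 3 ≤ rt' (Drawing.rv h) := by
  have := hA.1.F.rt_ge hO
  rwa [rt_F hA.1] at this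

/-- a crossing of the grid which is not on the two base edges -/
def L (h : D.DD) (p q : ℕ) : Prop := 1 ≤ p ∧ 1 ≤ q ∧ X h p q

theorem L_mirror {h : D.DD} {p q : ℕ} : @L V G D.mirror (rv h) q p ↔ L h p q := by
  have e : @L V G D.mirror (rv h) q p ↔ (1 ≤ q ∧ 1 ≤ p ∧ @X V G D.mirror (rv h) q p) := Iff.rfl
  rw [e, X_mirror]
  unfold L
  tauto

/-- the last edge of the fan is the base edge of the previous angle -/
theorem TA.apex_last [Finite V] (hO : D.Opt) {h : D.DD} (hA : TA h) :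
    Apex (Drawing.hr h).tgt (fp h (rt h - 2)) := by
  have h1 := hA.1.rt_ge hO
  have h2 := (hA.B hO).apex hO
  have h3 : D.φ (Drawing.B h) = fp h (rt h - 2) := by
    rw [Drawing.B, φ_rv, fp, Drawing.hr, show rt h = (rt h - 2 + 1) + 1 by omega, f_succ, inv_σ]
    rfl
  rw [h3] at h2
  exact h2

theorem TA.hr_tgt_ne [Finite V] (hO : D.Opt) {h : D.DD} (hA : TA h) : (Drawing.hr h).tgt ≠ h.tgt := by
  rw [← hA.φ_tgt hO, ← hA.φ_src]
  exact (src_ne_tgt _).symm

theorem L.lt [Finite V] (hO : D.Opt) {h : D.DD} (hA : TA h) {p q : ℕ} (hL : L h p q) : p + 2 < rt h := by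
  obtain ⟨h1, h2, h3, h4, u, hu1, hu2⟩ := hL
  by_contra hc
  have h5 : p = rt h - 2 := by omega
  have hap := hA.apex_last hO
  rw [← h5] at hap
  have h6 := hap.2 u (by rw [hu1.2.2]; omega) hu1.sameEdge
  -- the edge of `gq h q` is incident with `h.tgt` and `(hr h).tgt`
  have h7 : On (Drawing.hr h).tgt (gq h q) := hu2.sameEdge.on.1 h6
  have h8 : (gq h q).tgt = (Drawing.hr h).tgt := by
    rcases h7 with h7 | h7
    · rw [gq_src hA.1] at h7
      exact (hA.hr_tgt_ne hO h7).elim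
    · exact h7.symm
  have h9 : gq h q = gq h 0 := by
    refine eq_of_idx ?_ ?_ ?_
    · rw [gq_src hA.1, gq_src hA.1]
    · rw [h8, gq_zero, hA.φ_tgt hO]
    · rw [gq_real hA.1, gq_real hA.1]
  have h10 := gq_inj hA.1 h4 (by omega) h9
  omega

theorem L.lt' [Finite V] (hO : D.Opt) {h : D.DD} (hA : TA h) {p q : ℕ} (hL : L h p q) : q + 2 < rt' (rv h) :=
  @L.lt V G D.mirror _ hO.mirror (rv h) (hA.mir hO) q p (L_mirror.2 hL)

theorem L.apex [Finite V] (hO : D.Opt) {h : D.DD} (hA : TA h) {p q : ℕ} (hL : L h p q) :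
    Apex h.tgt (fp h p) := by
  obtain ⟨h1, h2, h3, h4, u, hu1, hu2⟩ := hL
  obtain ⟨_, _, u0, hu3, hu4⟩ := hA.x0 hO h3
  have hne : u ≠ u0 := by
    intro h5
    have h6 := hu1.2.2
    rw [h5, hu3.2.2] at h6
    omega
  have h0 : u.idx ≠ 0 := by rw [hu1.2.2]; omega
  have h00 : u0.idx ≠ 0 := by rw [hu3.2.2]; omega
  have h7 : Apex h.tgt u := by
    refine apex_of_two hO.fan h0 h00 (hu1.sameEdge.trans hu3.sameEdge.symm) ?_ ?_ ?_
    · intro hse
      exact hne (hO.simple.once' h0 h00 (hu1.1.trans hu3.1.symm) (hu1.2.1.trans hu3.2.1.symm) hse)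
    · left; rw [hu2.1, gq_src hA.1]
    · left; rw [hu4.1, gq_src hA.1]
  exact (Apex.congr hu1.sameEdge).1 h7

/-- the columns -/
theorem L.col [Finite V] (hO : D.Opt) {h : D.DD} (hA : TA h) {p q : ℕ} (hL : L h p q) {q' : ℕ}
    (hq : q' + 1 ≤ D.k (fp h p).src (fp h p).tgt) : X h p q' :=
  hA.grid hO p (hL.lt hO hA) (hL.apex hO hA) q' hq

/-- the rows -/
theorem L.row [Finite V] (hO : D.Opt) {h : D.DD} (hA : TA h) {p q : ℕ} (hL : L h p q) {p' : ℕ}
    (hq : p' + 1 ≤ D.k (gq h q).src (gq h q).tgt) : X h p' q :=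
  X_mirror.1 (@L.col V G D.mirror _ hO.mirror (rv h) (hA.mir hO) q p (L_mirror.2 hL) p' hq)

/-- The cell at the end of an edge of the fan -/
theorem L.d0 [Finite V] (hO : D.Opt) {h : D.DD} (hA : TA h) {p q : ℕ} (hL : L h p q)
    (hk : D.k (fp h p).src (fp h p).tgt = q + 1) :
    D.k (gq h q).src (gq h q).tgt = p + 1 ∧
      ∃ E : D.DD, Unc E ∧ E.src = (fp h p).tgt ∧ E.tgt = (gq h q).tgt ∧ D.σ E = oe (fp h p) ∧
        D.σ (oe (gq h q)) = rv E := by
  obtain ⟨h1, h2, h3, h4, u, hu1, hu2⟩ := id hL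
  have hul : Last u := hu1.last.2 hk
  have hu0 : u.idx ≠ 0 := by rw [hu1.2.2]; omega
  have hv0 : (D.σ u).idx ≠ 0 := by rw [hu2.2.2]; omega
  have hr : (D.φ u).idx = 0 := φ_idx_zero.2 hul
  have hvl : Last (D.σ u) := by
    by_contra hvl
    have hkg : p + 1 + 1 ≤ D.k (gq h q).src (gq h q).tgt := by
      have := (hu2.nx hvl).le; omega
    have hX := hL.row hO hA hkg
    obtain ⟨b1, b2, u2, hu3, hu4⟩ := id hX
    have e1 : D.σ (rv (D.σ u)) = u2 := by
      have h5 : op (D.σ u2) = rv (D.σ u) := hu2.op_succ hu4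
      have hu20 : u2.idx ≠ 0 := by rw [hu3.2.2]; omega
      rw [← h5, σ_op, σσ hu20, op_op]
    -- the cell of `rv u2`
    have e2 : D.φ (rv u2) = rv (D.σ u) := by
      conv_lhs => rw [← e1]
      rw [φ_rv_σ]
    have e3 : D.φ (D.φ (rv u2)) = u := by rw [e2, φ_rv_σ]
    have n1 : (D.φ (rv u2)).idx ≠ 0 := by rw [e2, Ne, rv_idx_zero]; exact hvl
    have n2 : (D.φ (D.φ (rv u2))).idx ≠ 0 := by rw [e3]; exact hu0
    rcases hO.tight.cell (rv u2) with ⟨c1, c2, c3⟩ | ⟨c1, c2⟩ | ⟨c1, c2, c3, c4, c5, c6⟩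
    · -- parallel edges
      rw [e3] at c1
      have h5 : (rv u2).src = u.tgt := by rw [← c1, Drawing.φ_src hul]
      rw [rv_src, hu3.2.1, hu1.2.1] at h5
      have h6 : fp h (p + 1) = fp h p := by
        refine eq_of_idx ?_ h5 ?_
        · rw [fp_src hA.1.1, fp_src hA.1.1]
        · rw [fp_real hA.1.1, fp_real hA.1.1]
      have := fp_inj hA.1 b1 h3 h6
      omega
    · have h5 : rc (D.φ (D.φ (D.φ (rv u2)))) = 1 := by rw [e3]; exact rc_pos hr
      have h6 : (rv u2).idx ≠ 0 := by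
        intro h7
        have := rc_pos h7
        omega
      have h7 : ¬ Last u2 := fun h8 => h6 (rv_idx_zero.2 h8)
      have hL2 : L h (p + 1) q := ⟨by omega, h2, hX⟩
      have hX3 := hL2.col hO hA (q' := q + 1) (by have := (hu3.nx h7).le; omega)
      have hL3 : L h (p + 1) (q + 1) := ⟨by omega, by omega, hX3⟩
      obtain ⟨_, _, u3, _, hu5⟩ := hX3
      have hX4 := hL3.row hO hA (p' := p) (by have := hu5.le; omega)
      obtain ⟨_, _, u4, hu6, _⟩ := hX4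
      have := hu6.le
      omega
    · rw [e3] at c5
      exact c5 hr
  have hkg := hu2.last.1 hvl
  refine ⟨hkg, D.φ u, ?_⟩
  -- the triangle
  have e1 : D.φ (rv (D.σ u)) = u := φ_rv_σ u
  have hrr : (rv (D.σ u)).idx = 0 := rv_idx_zero.2 hvl
  have hT : T2C (rv (D.σ u)) := by
    rcases hO.tight.real_cases hrr with h5 | h5 | h5 | h5
    · have := h5.2.2.2
      rw [e1] at this
      exact (this hr).elim
    · have := h5.2.2.1
      rw [e1] at this
      exact (hu0 this).elim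
    · exact h5
    · have := h5.2.2.2.1
      rw [e1] at this
      exact (this hr).elim
  have e2 : rv (D.σ u) = oe (gq h q) := by
    refine eq_of_idx ?_ ?_ ?_
    · rw [rv_src, hu2.2.1]; rfl
    · rw [rv_tgt, hu2.1]; rfl
    · rw [hrr]; rfl
  have e3 : rv u = oe (fp h p) := by
    refine eq_of_idx ?_ ?_ ?_
    · rw [rv_src, hu1.2.1]; rfl
    · rw [rv_tgt, hu1.1]; rfl
    · rw [rv_idx_zero.2 hul]; rfl
  have e4 : D.σ (rv (D.σ u)) = rv (D.φ u) := by
    have := hT.φφ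
    rw [e1] at this
    rw [this, rv_rv]
  have h5 : Unc (D.φ u) := by
    have := hT.unc
    rw [e4] at this
    exact unc_rv.1 this
  refine ⟨h5, ?_, ?_, ?_, ?_⟩
  · rw [Drawing.φ_src hul, hu1.2.1]
  · have h6 : (D.σ (rv (D.σ u))).src = (rv (D.σ u)).src := σ_real_src hrr
    rw [e4, rv_src, rv_src, hu2.2.1] at h6
    exact h6
  · rw [σφ, e3]
  · rw [← e2, e4]

/-- mirror form of `d0` -/
theorem L.d0' [Finite V] (hO : D.Opt) {h : D.DD} (hA : TA h) {p q : ℕ} (hL : L h p q)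
    (hk : D.k (gq h q).src (gq h q).tgt = p + 1) : D.k (fp h p).src (fp h p).tgt = q + 1 := by
  have h1 := (@L.d0 V G D.mirror _ hO.mirror (rv h) (hA.mir hO) q p (L_mirror.2 hL) hk).1
  have e : @gq V G D.mirror (rv h) p = @f V G D (rv (rv h)) (p + 1) := rfl
  rw [rv_rv] at e
  rw [e] at h1
  exact h1

/-- The quadrilateral cell at the common end of two edges of the two fans -/
theorem TA.d1 [Finite V] (hO : D.Opt) {h : D.DD} (hA : TA h) {p q : ℕ} (h1 : X h p q) (h2 : X h p (q + 1))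
    (h3 : X h (p + 1) q) (hk : D.k (gq h (q + 1)).src (gq h (q + 1)).tgt = p + 1) :
    D.k (fp h (p + 1)).src (fp h (p + 1)).tgt = q + 1 ∧ D.σ (oe (fp h (p + 1))) = oe (gq h (q + 1)) := by
  obtain ⟨_, _, u1, hu1, hv1⟩ := h1
  obtain ⟨_, _, u, hu, hv⟩ := h2
  obtain ⟨_, _, u3, hu3, hv3⟩ := h3
  have hvl : Last (D.σ u) := hv.last.2 hk
  have hu10 : u1.idx ≠ 0 := by rw [hu1.2.2]; omega
  have hu30 : u3.idx ≠ 0 := by rw [hu3.2.2]; omega
  have hv0 : (D.σ u).idx ≠ 0 := by rw [hv.2.2]; omega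
  have hv1l : ¬ Last (D.σ u1) := hv1.not_last hv3
  have e1 : D.φ (rv (D.σ u1)) = u1 := φ_rv_σ u1
  have e2 : D.φ u1 = D.σ u := hu1.φ hu
  have e3 : D.σ (rv (D.σ u1)) = u3 := by
    have h5 : op (D.σ u3) = rv (D.σ u1) := hv1.op_succ hv3
    rw [← h5, σ_op, σσ hu30, op_op]
  have e4 : D.φ (rv u3) = rv (D.σ u1) := by
    conv_lhs => rw [← e3]
    rw [φ_rv_σ]
  have n0 : (rv (D.σ u1)).idx ≠ 0 := fun h => hv1l (rv_idx_zero.1 h)
  have hr : (D.φ (D.σ u)).idx = 0 := φ_idx_zero.2 hvl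
  have key : D.φ (D.σ u) = rv u3 := by
    rcases hO.tight.cell (rv (D.σ u1)) with ⟨c1, c2, c3⟩ | ⟨c1, c2⟩ | ⟨c1, c2, c3, c4, c5, c6⟩
    · rw [e1, e2, rc_neg n0, rc_neg hu10, rc_neg hv0] at c2
      omega
    · rw [e1, e2] at c1
      have : D.φ (D.φ (D.σ u)) = D.φ (rv u3) := by rw [c1, e4]
      exact φ_inj.1 this
    · rw [e1, e2] at c5
      exact (c5 hr).elim
  have hl3 : Last u3 := by rw [← rv_idx_zero, ← key]; exact hr
  refine ⟨hu3.last.1 hl3, ?_⟩
  have e5 : rv u3 = oe (fp h (p + 1)) := by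
    refine eq_of_idx ?_ ?_ ?_
    · rw [rv_src, hu3.2.1]; rfl
    · rw [rv_tgt, hu3.1]; rfl
    · rw [rv_idx_zero.2 hl3]; rfl
  have e6 : rv (D.σ u) = oe (gq h (q + 1)) := by
    refine eq_of_idx ?_ ?_ ?_
    · rw [rv_src, hv.2.1]; rfl
    · rw [rv_tgt, hv.1]; rfl
    · rw [rv_idx_zero.2 hvl]; rfl
  rw [← e5, ← e6, ← key, σφ]

/-- mirror form of `d1` -/
theorem TA.d1' [Finite V] (hO : D.Opt) {h : D.DD} (hA : TA h) {p q : ℕ} (h1 : X h p q) (h2 : X h (p + 1) q)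
    (h3 : X h p (q + 1)) (hk : D.k (fp h (p + 1)).src (fp h (p + 1)).tgt = q + 1) :
    D.k (gq h (q + 1)).src (gq h (q + 1)).tgt = p + 1 ∧ D.σ (oe (fp h (p + 1))) = oe (gq h (q + 1)) := by
  have e : ∀ p, @gq V G D.mirror (rv h) p = @f V G D (rv (rv h)) (p + 1) := fun _ => rfl
  rw [rv_rv] at e
  have h4 := @TA.d1 V G D.mirror _ hO.mirror (rv h) (hA.mir hO) q p (X_mirror.2 h1) (X_mirror.2 h2)
    (X_mirror.2 h3) (by rw [e]; exact hk)
  rw [e] at h4
  refine ⟨h4.1, ?_⟩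
  have h5 : D.σ⁻¹ (oe (gq h (q + 1))) = oe (fp h (p + 1)) := h4.2
  rw [← h5, σ_inv]

end Drawing

end Pool.Agent.FP
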